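import Pool.Agent.Work.MP_280d1a_an.Upper2

/-!
# Asymptotic lower bound for the volume of the minimizers
-/

set_option autoImplicit false

open MeasureTheory Set Filter Topology
open scoped ENNReal NNReal

namespace Pool.Agent.Work.MP_280d1a_an

variable {N : ℕ}

lemma perimeter_congr {Ω Ω' : Set (E N)} (h : Ω =ᵐ[volume] Ω') : perimeter Ω = perimeter Ω' := by
  unfold perimeter
  rw [Measure.restrict_congr_set h]

/-- The volume of a ball. -/
lemma volume_ball_toReal (hN : 1 ≤ N) {r : ℝ} (hr : 0 ≤ r) :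
    (volume (Metric.ball (0 : E N) r)).toReal =
      (volume (Metric.ball (0 : E N) 1)).toReal * r ^ N := by
  have : Nonempty (Fin N) := ⟨⟨0, hN⟩⟩
  have : Nontrivial (E N) := inferInstance
  rw [Measure.addHaar_ball _ _ hr, ENNReal.toReal_mul, ENNReal.toReal_ofReal (by positivity),
    mul_comm]
  simp

/-- The key quantitative step: if `k` is large and the `k`-th eigenvalue of `Ω` is at most that of
the ball, then the volume of `Ω` is almost at least that of the ball. -/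
theorem volume_ge_of_eigenvalue_le (hN : 2 ≤ N) {r P : ℝ} (hr : 0 < r) (hP : 0 ≤ P) {ε : ℝ}
    (hε : 0 < ε) :
    ∃ K : ℕ, ∀ k : ℕ, K ≤ k → ∀ Ω : Set (E N), NullMeasurableSet Ω → volume Ω < ⊤ →
      perimeter Ω ≤ ENNReal.ofReal P →
      eigenvalue k Ω ≤ eigenvalue k (Metric.ball (0 : E N) r) →
      volume (Metric.ball (0 : E N) r) ≤ volume Ω + ENNReal.ofReal ε := by
  have hN1 : 1 ≤ N := by omega
  set V := (volume (Metric.ball (0 : E N) r)).toReal with hV
  have hV0 : 0 < V := ENNReal.toReal_pos (Metric.measure_ball_pos volume 0 hr).ne'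
    measure_ball_lt_top.ne
  -- choice of `δ`
  obtain ⟨δ, hδ0, hδ1, hδV⟩ : ∃ δ : ℝ, 0 < δ ∧ δ < 1 ∧
      V - ε / 2 ≤ (1 - δ) * ((1 - δ) * V) / (1 + δ) := by
    have hcont : ContinuousAt (fun δ : ℝ => (1 - δ) * ((1 - δ) * V) / (1 + δ)) 0 := by
      refine ContinuousAt.div (by fun_prop) (by fun_prop) (by norm_num)
    have hlim : Tendsto (fun δ : ℝ => (1 - δ) * ((1 - δ) * V) / (1 + δ)) (𝓝[>] 0) (𝓝 V) := by
      have := hcont.tendsto.mono_left (nhdsWithin_le_nhds (s := Ioi 0))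
      simpa using this
    have hev := (hlim.eventually (lt_mem_nhds (show V - ε / 2 < V by linarith))).and
      (Ioo_mem_nhdsGT (show (0 : ℝ) < 1 by norm_num))
    obtain ⟨δ, h1, h2⟩ := hev.exists
    exact ⟨δ, h2.1, h2.2, h1.le⟩
  obtain ⟨M, -, hD1, hND⟩ := exists_good_scale N hδ0 0
  set D : ℝ := ((Dset N (M : ℝ)).card : ℝ) with hD
  have hDpos : 0 < D := by
    rw [hD]; exact_mod_cast hD1
  set Nn : ℝ := ((Nset N ((M : ℝ) + 1)).card : ℝ) with hNn
  have hM0 : (0 : ℝ) ≤ M := Nat.cast_nonneg M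
  set R : ℝ := (M : ℝ) + 1 with hR
  have hR0 : 0 ≤ R := by positivity
  set θ : ℝ := 1 / (2 * 2 ^ N * (((Nset N (2 * R)).card : ℝ) + 1)) with hθ
  have hθ0 : 0 < θ := by positivity
  have hθ1 : ((Nset N (2 * R)).card : ℝ) * (2 ^ N * θ) ≤ 1 / 2 := by
    rw [hθ]
    have h0 : (0 : ℝ) ≤ (Nset N (2 * R)).card := Nat.cast_nonneg _
    have h2 : (0 : ℝ) < 2 ^ N := by positivity
    have : ((Nset N (2 * R)).card : ℝ) *
        (2 ^ N * (1 / (2 * 2 ^ N * (((Nset N (2 * R)).card : ℝ) + 1)))) =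
        ((Nset N (2 * R)).card : ℝ) / (2 * (((Nset N (2 * R)).card : ℝ) + 1)) := by
      field_simp
    rw [this, div_le_div_iff₀ (by positivity) (by norm_num)]
    linarith
  set C : ℝ := 2 ^ N * (N * P) / (θ * δ) with hC
  have hC0 : 0 ≤ C := by positivity
  -- the scale
  set ℓ : ℕ → ℝ := fun k => ((1 - δ) * V * D / k) ^ ((N : ℝ)⁻¹) with hℓ
  have hNr : (0 : ℝ) < (N : ℝ)⁻¹ := by
    have : (0 : ℝ) < N := by exact_mod_cast hN1
    positivity
  have hℓlim : Tendsto ℓ atTop (𝓝 0) := by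
    have h1 : Tendsto (fun k : ℕ => (1 - δ) * V * D / (k : ℝ)) atTop (𝓝 0) :=
      tendsto_const_div_atTop_nhds_zero_nat _
    have h2 := h1.rpow_const (p := (N : ℝ)⁻¹) (Or.inr hNr.le)
    rwa [Real.zero_rpow hNr.ne'] at h2
  have hbase : ∀ k : ℕ, 1 ≤ k → 0 < (1 - δ) * V * D / (k : ℝ) := by
    intro k hk
    have : (0 : ℝ) < k := by exact_mod_cast hk
    have : 0 < 1 - δ := by linarith
    positivity
  have hℓpos : ∀ k : ℕ, 1 ≤ k → 0 < ℓ k := fun k hk => Real.rpow_pos_of_pos (hbase k hk) _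
  have hℓpow : ∀ k : ℕ, 1 ≤ k → ℓ k ^ N = (1 - δ) * V * D / k := by
    intro k hk
    rw [hℓ]
    simp only
    rw [← Real.rpow_natCast, ← Real.rpow_mul (hbase k hk).le, inv_mul_cancel₀, Real.rpow_one]
    have : (0 : ℝ) < N := by exact_mod_cast hN1
    exact this.ne'
  -- eventually the cubes fill most of the ball
  have hfill : ∀ᶠ k in atTop, (1 - δ) * V ≤ ((Jset N r (ℓ k)).card : ℝ) * ℓ k ^ N := by
    have h1 : Tendsto (fun k => (volume (Metric.ball (0 : E N) 1)).toReal *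
        (r - √N * ℓ k) ^ N) atTop (𝓝 ((volume (Metric.ball (0 : E N) 1)).toReal *
          (r - √N * 0) ^ N)) :=
      tendsto_const_nhds.mul ((tendsto_const_nhds.sub (tendsto_const_nhds.mul hℓlim)).pow N)
    rw [mul_zero, sub_zero, ← volume_ball_toReal hN1 hr.le, ← hV] at h1
    have h2 := h1.eventually (lt_mem_nhds (show (1 - δ) * V < V by nlinarith))
    have h3 : Tendsto (fun k => r - √N * ℓ k) atTop (𝓝 (r - √N * 0)) :=
      tendsto_const_nhds.sub (tendsto_const_nhds.mul hℓlim)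
    rw [mul_zero, sub_zero] at h3
    have h4 := h3.eventually (lt_mem_nhds hr)
    filter_upwards [h2, h4, eventually_ge_atTop 1] with k hk1 hk2 hk3
    have h5 := volume_le_card_Jset (n := N) (r := r) (hℓpos k hk3)
    have h6 : (volume (Metric.ball (0 : E N) (r - √N * ℓ k))).toReal ≤
        ((Jset N r (ℓ k)).card : ℝ) * ℓ k ^ N :=
      ENNReal.toReal_le_of_le_ofReal (mul_nonneg (Nat.cast_nonneg _)
        (pow_nonneg (hℓpos k hk3).le _)) h5
    rw [volume_ball_toReal hN1 hk2.le] at h6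
    linarith
  have hsmall : ∀ᶠ k in atTop, (1 - δ) * (C * ℓ k) < ε / 2 := by
    have h1 : Tendsto (fun k => (1 - δ) * (C * ℓ k)) atTop (𝓝 ((1 - δ) * (C * 0))) :=
      tendsto_const_nhds.mul (tendsto_const_nhds.mul hℓlim)
    rw [mul_zero, mul_zero] at h1
    exact h1.eventually (gt_mem_nhds (by positivity))
  obtain ⟨K, hK⟩ := eventually_atTop.1 ((hfill.and hsmall).and (eventually_ge_atTop 1))
  refine ⟨K, fun k hk Ω hΩ hfin hper heig => ?_⟩
  obtain ⟨⟨hk1, hk2⟩, hk3⟩ := hK k hk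
  have hℓk := hℓpos k hk3
  have hkr : (0 : ℝ) < k := by exact_mod_cast hk3
  -- the ball has a trial space
  have hcard : k ≤ (Jset N r (ℓ k)).card * (Dset N (M : ℝ)).card := by
    rw [hℓpow k hk3] at hk1
    have h1 : (k : ℝ) ≤ (Jset N r (ℓ k)).card * D := by
      have h2 : 0 < (1 - δ) * V := by
        have : 0 < 1 - δ := by linarith
        positivity
      have h3 : (1 - δ) * V * k ≤ (1 - δ) * V * ((Jset N r (ℓ k)).card * D) := by
        calc (1 - δ) * V * k ≤ (((Jset N r (ℓ k)).card : ℝ) * ((1 - δ) * V * D / k)) * k := by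
              gcongr
          _ = (1 - δ) * V * ((Jset N r (ℓ k)).card * D) := by field_simp
      exact le_of_mul_le_mul_left h3 h2
    rw [hD] at h1
    exact_mod_cast h1
  have htrial := hasTrialSpace_of_cubes (Ω := Metric.ball (0 : E N) r) hℓk hM0 (Jset N r (ℓ k))
    (fun j hj => (mem_Jset hℓk).1 hj) hcard
  have heig2 : eigenvalue k Ω ≤ ENNReal.ofReal ((M : ℝ) ^ 2 / ℓ k ^ 2) :=
    heig.trans (iInf₂_le _ htrial)
  have hlt : eigenvalue k Ω < ENNReal.ofReal (((M : ℝ) + 1) ^ 2 / ℓ k ^ 2) := by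
    refine heig2.trans_lt ((ENNReal.ofReal_lt_ofReal_iff (by positivity)).2 ?_)
    gcongr
    linarith
  unfold eigenvalue at hlt
  obtain ⟨L, hL⟩ := iInf_lt_iff.1 hlt
  obtain ⟨⟨u, G, hu, hray⟩, hL2⟩ := iInf_lt_iff.1 hL
  have hLlt : L < ((M : ℝ) + 1) ^ 2 / ℓ k ^ 2 := (ENNReal.ofReal_lt_ofReal_iff (by positivity)).1 hL2
  -- measurable representative
  obtain ⟨Ω', hΩ'm, hΩ'⟩ := hΩ
  have hvol' : volume Ω' = volume Ω := (measure_congr hΩ').symm
  have hper' : perimeter Ω' ≤ ENNReal.ofReal P := by rwa [← perimeter_congr hΩ']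
  have hz : ∀ l, ∀ᵐ x, x ∉ Ω' → u l x = 0 := by
    intro l
    filter_upwards [(hu l).ae_zero, hΩ'.mem_iff] with x hx1 hx2 hx3
    exact hx1 fun h => hx3 (hx2.1 h)
  have hcount := counting_bound_scaled (n := N) hΩ'm (by rwa [hvol']) hP hper' (R := R) (δ := δ)
    (θ := θ) (r := ℓ k) (L := L) hℓk hR0 (by
      rw [lt_div_iff₀ (by positivity)] at hLlt
      rw [hR]; linarith) hδ0 hδ1 hθ0 hθ1 (fun l => (hu l).1) hz hray
  rw [hvol'] at hcount
  set v := (volume Ω).toReal with hv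
  have hv0 : 0 ≤ v := ENNReal.toReal_nonneg
  -- multiply by `ℓ ^ N`
  have hℓN : 0 < ℓ k ^ N := by positivity
  have h7 : (1 - δ) * V * D ≤ Nn * (v / (1 - δ) + C * ℓ k) := by
    have h8 : (k : ℝ) * ℓ k ^ N = (1 - δ) * V * D := by
      rw [hℓpow k hk3]; field_simp
    rw [← h8]
    have h1δ : 0 < 1 - δ := by linarith
    calc (k : ℝ) * ℓ k ^ N ≤ (Nn * ((ℓ k ^ N)⁻¹ * v / (1 - δ) +
          2 ^ N * (N * (ℓ k * (ℓ k ^ N)⁻¹ * P)) / (θ * δ))) * ℓ k ^ N := by gcongr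
      _ = Nn * (v / (1 - δ) + C * ℓ k) := by
        rw [hC]; field_simp
  have h9 : (1 - δ) * V * D ≤ (1 + δ) * D * (v / (1 - δ) + C * ℓ k) := by
    refine h7.trans ?_
    have h1δ : 0 < 1 - δ := by linarith
    gcongr
  have h10 : (1 - δ) * V ≤ (1 + δ) * (v / (1 - δ) + C * ℓ k) := by
    have : D * ((1 - δ) * V) ≤ D * ((1 + δ) * (v / (1 - δ) + C * ℓ k)) := by linarith
    exact le_of_mul_le_mul_left this hDpos
  have h11 : (1 - δ) * ((1 - δ) * V) / (1 + δ) ≤ v + (1 - δ) * (C * ℓ k) := by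
    have h1δ : 0 < 1 - δ := by linarith
    rw [div_le_iff₀ (by linarith)]
    calc (1 - δ) * ((1 - δ) * V) ≤ (1 - δ) * ((1 + δ) * (v / (1 - δ) + C * ℓ k)) := by gcongr
      _ = (v + (1 - δ) * (C * ℓ k)) * (1 + δ) := by field_simp
  have h12 : V ≤ v + ε := by linarith
  have e1 : volume (Metric.ball (0 : E N) r) = ENNReal.ofReal V := by
    rw [hV, ENNReal.ofReal_toReal measure_ball_lt_top.ne]
  have e2 : volume Ω = ENNReal.ofReal v := by
    rw [hv, ENNReal.ofReal_toReal hfin.ne]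
  rw [e1, e2, ← ENNReal.ofReal_add hv0 hε.le]
  exact ENNReal.ofReal_le_ofReal h12

end Pool.Agent.Work.MP_280d1a_an
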