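import Pool.Agent.Work.MP_280d1a_an.Mollify

/-!
# The perimeter of a ball
-/

set_option autoImplicit false

open MeasureTheory Set Filter Topology
open scoped ENNReal ContDiff

namespace Pool.Agent.Work.MP_280d1a_an

variable {N : ℕ}

/-- The smooth cut-off of the ball of radius `r`. -/
noncomputable def bf (r δ : ℝ) (x : E N) : ℝ := Real.smoothTransition ((r ^ 2 - ‖x‖ ^ 2) / δ)

lemma contDiff_bf (r δ : ℝ) : ContDiff ℝ 1 (bf r δ : E N → ℝ) := by
  unfold bf
  exact (Real.smoothTransition.contDiff).comp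
    ((contDiff_const.sub (contDiff_norm_sq ℝ)).div_const δ)

lemma grd_bf (r δ : ℝ) (x : E N) :
    grd (bf r δ) x = (-(2 / δ) * deriv Real.smoothTransition ((r ^ 2 - ‖x‖ ^ 2) / δ)) • x := by
  have hd : HasDerivAt Real.smoothTransition
      (deriv Real.smoothTransition ((r ^ 2 - ‖x‖ ^ 2) / δ)) ((r ^ 2 - ‖x‖ ^ 2) / δ) :=
    ((Real.smoothTransition.contDiff (n := 1)).differentiable (by norm_num) _).hasDerivAt
  have hn : HasFDerivAt (fun x : E N => ‖x‖ ^ 2) (2 • (innerSL ℝ x)) x :=
    (hasStrictFDerivAt_norm_sq x).hasFDerivAt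
  have h1 : HasFDerivAt (fun x : E N => (r ^ 2 - ‖x‖ ^ 2) / δ)
      (δ⁻¹ • (-(2 • (innerSL ℝ x)) : E N →L[ℝ] ℝ)) x := by
    have heq : (fun x : E N => (r ^ 2 - ‖x‖ ^ 2) / δ) = fun x => δ⁻¹ * (r ^ 2 - ‖x‖ ^ 2) := by
      funext y
      rw [div_eq_inv_mul]
    rw [heq]
    exact (hn.const_sub (r ^ 2)).const_mul δ⁻¹
  have h2 := hd.comp_hasFDerivAt x h1
  ext i
  rw [grd_apply]
  have h3 : fderiv ℝ (bf r δ) x = deriv Real.smoothTransition ((r ^ 2 - ‖x‖ ^ 2) / δ) •
      (δ⁻¹ • (-(2 • (innerSL ℝ x)) : E N →L[ℝ] ℝ)) := h2.fderiv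
  rw [h3]
  have h4 : inner ℝ x (EuclideanSpace.single i (1 : ℝ)) = x.ofLp i := by
    rw [EuclideanSpace.inner_single_right]
    simp
  simp only [bv, smul_apply, neg_apply, innerSL_apply_apply,
    h4, smul_eq_mul, PiLp.smul_apply, nsmul_eq_mul]
  push_cast
  ring

lemma deriv_sT_nonneg (y : ℝ) : 0 ≤ deriv Real.smoothTransition y :=
  Real.smoothTransition.monotone.deriv_nonneg

lemma deriv_sT_of_neg {y : ℝ} (hy : y < 0) : deriv Real.smoothTransition y = 0 := by
  have h : Real.smoothTransition =ᶠ[𝓝 y] fun _ => (0 : ℝ) := by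
    filter_upwards [gt_mem_nhds hy] with z hz
    exact Real.smoothTransition.zero_of_nonpos hz.le
  rw [h.deriv_eq]
  simp

lemma norm_grd_bf {r δ : ℝ} (hδ : 0 < δ) (x : E N) :
    ‖grd (bf r δ) x‖ = 2 / δ * deriv Real.smoothTransition ((r ^ 2 - ‖x‖ ^ 2) / δ) * ‖x‖ := by
  rw [grd_bf, norm_smul, Real.norm_eq_abs, neg_mul, abs_neg, abs_of_nonneg]
  exact mul_nonneg (by positivity) (deriv_sT_nonneg _)

/-- The radial profile of the gradient. -/
noncomputable def prof (r δ : ℝ) (y : ℝ) : ℝ :=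
  2 / δ * deriv Real.smoothTransition ((r ^ 2 - y ^ 2) / δ) * y

lemma hasDerivAt_prof (r δ y : ℝ) :
    HasDerivAt (fun y => -Real.smoothTransition ((r ^ 2 - y ^ 2) / δ)) (prof r δ y) y := by
  have hd : HasDerivAt Real.smoothTransition
      (deriv Real.smoothTransition ((r ^ 2 - y ^ 2) / δ)) ((r ^ 2 - y ^ 2) / δ) :=
    ((Real.smoothTransition.contDiff (n := 1)).differentiable (by norm_num) _).hasDerivAt
  have h1 : HasDerivAt (fun y : ℝ => (r ^ 2 - y ^ 2) / δ) (-(2 * y) / δ) y := by
    have := ((hasDerivAt_pow 2 y).const_sub (r ^ 2)).div_const δ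
    simpa using this
  have h2 := (hd.comp y h1).neg
  refine h2.congr_deriv ?_
  unfold prof
  ring

lemma prof_nonneg {r δ : ℝ} (hδ : 0 < δ) {y : ℝ} (hy : 0 ≤ y) : 0 ≤ prof r δ y :=
  mul_nonneg (mul_nonneg (by positivity) (deriv_sT_nonneg _)) hy

lemma prof_eq_zero {r δ : ℝ} (hr : 0 < r) (hδ : 0 < δ) {y : ℝ} (hy : r < y) : prof r δ y = 0 := by
  unfold prof
  rw [deriv_sT_of_neg]
  · simp
  · apply div_neg_of_neg_of_pos _ hδ
    nlinarith

lemma tendsto_prof {r δ : ℝ} (hr : 0 < r) (hδ : 0 < δ) :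
    Tendsto (fun y => -Real.smoothTransition ((r ^ 2 - y ^ 2) / δ)) atTop (𝓝 0) := by
  apply tendsto_const_nhds.congr'
  filter_upwards [eventually_ge_atTop r] with y hy
  rw [Real.smoothTransition.zero_of_nonpos, neg_zero]
  apply div_nonpos_of_nonpos_of_nonneg _ hδ.le
  nlinarith

lemma integrableOn_prof {r δ : ℝ} (hr : 0 < r) (hδ : 0 < δ) :
    IntegrableOn (prof r δ) (Ioi 0) :=
  integrableOn_Ioi_deriv_of_nonneg' (fun y _ => hasDerivAt_prof r δ y)
    (fun y hy => prof_nonneg hδ (le_of_lt hy)) (tendsto_prof hr hδ)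

lemma integral_prof_le {r δ : ℝ} (hr : 0 < r) (hδ : 0 < δ) :
    ∫ y in Ioi 0, prof r δ y ≤ 1 := by
  rw [integral_Ioi_of_hasDerivAt_of_nonneg' (fun y _ => hasDerivAt_prof r δ y)
    (fun y hy => prof_nonneg hδ (le_of_lt hy)) (tendsto_prof hr hδ)]
  have := Real.smoothTransition.le_one ((r ^ 2 - 0 ^ 2) / δ)
  linarith

lemma integral_norm_grd_bf_le (hN : N ≠ 0) {r δ : ℝ} (hr : 0 < r) (hδ : 0 < δ) :
    ∫ x, ‖grd (bf r δ : E N → ℝ) x‖ ≤
      N * (volume (Metric.ball (0 : E N) 1)).toReal * r ^ (N - 1) := by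
  have : Nontrivial (E N) := by
    have : Nonempty (Fin N) := ⟨⟨0, Nat.pos_of_ne_zero hN⟩⟩
    infer_instance
  have h1 : ∫ x, ‖grd (bf r δ : E N → ℝ) x‖ = ∫ x : E N, prof r δ ‖x‖ := by
    congr 1
    funext x
    rw [norm_grd_bf hδ]
    rfl
  rw [h1, integral_fun_norm_addHaar, finrank_euclideanSpace_fin, nsmul_eq_mul]
  have h2 : ∫ y in Ioi (0 : ℝ), y ^ (N - 1) • prof r δ y ≤ r ^ (N - 1) := by
    calc ∫ y in Ioi (0 : ℝ), y ^ (N - 1) • prof r δ y
        ≤ ∫ y in Ioi (0 : ℝ), r ^ (N - 1) * prof r δ y := by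
          have hpt : ∀ y ∈ Ioi (0 : ℝ), y ^ (N - 1) • prof r δ y ≤ r ^ (N - 1) * prof r δ y := by
            intro y hy
            have hy' : (0 : ℝ) < y := hy
            rcases le_or_gt y r with h | h
            · rw [smul_eq_mul]
              exact mul_le_mul_of_nonneg_right (pow_le_pow_left₀ hy'.le h _)
                (prof_nonneg hδ hy'.le)
            · rw [prof_eq_zero hr hδ h]
              simp
          have hi2 : IntegrableOn (fun y => r ^ (N - 1) * prof r δ y) (Ioi 0) :=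
            (integrableOn_prof hr hδ).const_mul _
          have hcont : Continuous (prof r δ) := by
            unfold prof
            have := (Real.smoothTransition.contDiff (n := 1)).continuous_deriv (by norm_num)
            fun_prop
          have hi1 : IntegrableOn (fun y => y ^ (N - 1) • prof r δ y) (Ioi 0) := by
            refine hi2.mono' ?_ ?_
            · exact (Continuous.smul (continuous_pow _) hcont).aestronglyMeasurable
            · filter_upwards [ae_restrict_mem measurableSet_Ioi] with y hy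
              have hy' : (0 : ℝ) < y := hy
              rw [Real.norm_eq_abs, abs_of_nonneg]
              · exact hpt y hy
              · exact smul_nonneg (pow_nonneg hy'.le _) (prof_nonneg hδ hy'.le)
          exact setIntegral_mono_on hi1 hi2 measurableSet_Ioi hpt
      _ = r ^ (N - 1) * ∫ y in Ioi (0 : ℝ), prof r δ y := integral_const_mul _ _
      _ ≤ r ^ (N - 1) * 1 := mul_le_mul_of_nonneg_left (integral_prof_le hr hδ) (by positivity)
      _ = r ^ (N - 1) := mul_one _
  rw [smul_eq_mul, mul_assoc]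
  apply mul_le_mul_of_nonneg_left _ (Nat.cast_nonneg _)
  exact mul_le_mul_of_nonneg_left h2 ENNReal.toReal_nonneg

lemma tendsto_bf {r : ℝ} (hr : 0 < r) (x : E N) :
    Tendsto (fun k : ℕ => bf r (1 / ((k : ℝ) + 1)) x) atTop
      (𝓝 ((Metric.ball (0 : E N) r).indicator (fun _ => (1 : ℝ)) x)) := by
  by_cases hx : x ∈ Metric.ball (0 : E N) r
  · rw [indicator_of_mem hx]
    rw [mem_ball_zero_iff] at hx
    have h1 : 0 < r ^ 2 - ‖x‖ ^ 2 := by nlinarith [norm_nonneg x]
    apply tendsto_const_nhds.congr'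
    obtain ⟨k0, hk0⟩ := exists_nat_gt (1 / (r ^ 2 - ‖x‖ ^ 2))
    filter_upwards [eventually_ge_atTop k0] with k hk
    unfold bf
    rw [Real.smoothTransition.one_of_one_le]
    rw [div_div_eq_mul_div, div_one]
    rw [div_lt_iff₀ h1] at hk0
    have hk' : (k0 : ℝ) ≤ k := by exact_mod_cast hk
    nlinarith
  · rw [indicator_of_notMem hx]
    rw [mem_ball_zero_iff, not_lt] at hx
    apply tendsto_const_nhds.congr'
    filter_upwards with k
    unfold bf
    rw [Real.smoothTransition.zero_of_nonpos]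
    apply div_nonpos_of_nonpos_of_nonneg
    · nlinarith
    · positivity

lemma continuous_prof (r δ : ℝ) : Continuous (prof r δ) := by
  unfold prof
  have := (Real.smoothTransition.contDiff (n := 1)).continuous_deriv (by norm_num)
  fun_prop

lemma continuous_grd_bf (r δ : ℝ) : Continuous (grd (bf r δ : E N → ℝ)) := by
  have h : grd (bf r δ : E N → ℝ) = fun x =>
      (-(2 / δ) * deriv Real.smoothTransition ((r ^ 2 - ‖x‖ ^ 2) / δ)) • x := by
    funext x
    exact grd_bf r δ x
  rw [h]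
  have := (Real.smoothTransition.contDiff (n := 1)).continuous_deriv (by norm_num)
  fun_prop

lemma integrable_norm_grd_bf {r δ : ℝ} (hr : 0 < r) (hδ : 0 < δ) :
    Integrable (fun x : E N => ‖grd (bf r δ) x‖) := by
  apply (continuous_grd_bf r δ).norm.integrable_of_hasCompactSupport
  apply HasCompactSupport.intro (isCompact_closedBall (0 : E N) r)
  intro x hx
  rw [mem_closedBall_zero_iff, not_le] at hx
  rw [norm_grd_bf hδ]
  exact prof_eq_zero hr hδ hx

lemma integral_bf_div_le (hN : N ≠ 0) {r δ : ℝ} (hr : 0 < r) (hδ : 0 < δ) {φ : E N → E N}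
    (hφ : IsTestField φ) : ∫ x, bf r δ x * divergence φ x ≤
      N * (volume (Metric.ball (0 : E N) 1)).toReal * r ^ (N - 1) := by
  rw [integral_mul_div (contDiff_bf r _) hφ.1 hφ.2.1, ← integral_neg]
  refine le_trans ?_ (integral_norm_grd_bf_le hN hr hδ)
  have hpt : ∀ x : E N, |inner ℝ (grd (bf r δ) x) (φ x)| ≤ ‖grd (bf r δ) x‖ := by
    intro x
    calc |inner ℝ (grd (bf r δ) x) (φ x)| ≤ ‖grd (bf r δ) x‖ * ‖φ x‖ := abs_real_inner_le_norm _ _
      _ ≤ ‖grd (bf r δ) x‖ * 1 := mul_le_mul_of_nonneg_left (hφ.2.2 x) (norm_nonneg _)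
      _ = _ := mul_one _
  have hi : Integrable (fun x : E N => inner ℝ (grd (bf r δ) x) (φ x)) := by
    refine (integrable_norm_grd_bf hr hδ).mono' ?_ ?_
    · exact ((continuous_grd_bf r δ).inner hφ.1.continuous).aestronglyMeasurable
    · filter_upwards with x
      exact hpt x
  apply integral_mono hi.neg (integrable_norm_grd_bf hr hδ)
  intro x
  exact (neg_le_abs _).trans (hpt x)

lemma integral_ball_div {r : ℝ} (φ : E N → E N) :
    ∫ x, (Metric.ball (0 : E N) r).indicator (fun _ => (1 : ℝ)) x * divergence φ x =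
      ∫ x in Metric.ball (0 : E N) r, divergence φ x := by
  rw [← integral_indicator Metric.isOpen_ball.measurableSet]
  congr 1
  funext x
  by_cases hx : x ∈ Metric.ball (0 : E N) r <;> simp [hx]

lemma tendsto_integral_bf {r : ℝ} (hr : 0 < r) {φ : E N → E N} (hφ : IsTestField φ) :
    Tendsto (fun k : ℕ => ∫ x, bf r (1 / ((k : ℝ) + 1)) x * divergence φ x) atTop
      (𝓝 (∫ x in Metric.ball (0 : E N) r, divergence φ x)) := by
  have hdc := continuous_divergence hφ.1
  have hds := hasCompactSupport_divergence hφ.2.1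
  have hdi : Integrable (divergence φ) := hdc.integrable_of_hasCompactSupport hds
  rw [← integral_ball_div]
  apply tendsto_integral_of_dominated_convergence (fun x => |divergence φ x|)
  · intro k
    exact ((contDiff_bf r _).continuous.mul hdc).aestronglyMeasurable
  · exact hdi.abs
  · intro k
    filter_upwards with x
    rw [norm_mul, Real.norm_eq_abs, Real.norm_eq_abs]
    have h1 : |bf r (1 / ((k : ℝ) + 1)) x| ≤ 1 := by
      unfold bf
      rw [abs_of_nonneg (Real.smoothTransition.nonneg _)]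
      exact Real.smoothTransition.le_one _
    calc _ ≤ 1 * |divergence φ x| := mul_le_mul_of_nonneg_right h1 (abs_nonneg _)
      _ = _ := one_mul _
  · filter_upwards with x
    exact (tendsto_bf hr x).mul_const _

/-- The volume of the unit ball, in coordinates. -/
lemma volume_ball_eq (N : ℕ) : volume (Metric.ball (0 : E N) 1) =
    volume {x : Fin N → ℝ | ∑ i, x i ^ 2 < 1} := by
  have h := (PiLp.volume_preserving_toLp (Fin N)).measure_preimage
    (Metric.isOpen_ball (x := (0 : E N)) (ε := 1)).measurableSet.nullMeasurableSet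
  rw [← h]
  congr 1
  ext x
  rw [mem_preimage, mem_ball_zero_iff, mem_setOf_eq, EuclideanSpace.norm_eq, Real.sqrt_lt' one_pos]
  simp

/-- The perimeter of a ball is at most the classical value. -/
theorem perimeter_ball_le (hN : N ≠ 0) {r : ℝ} (hr : 0 < r) :
    perimeter (Metric.ball (0 : E N) r) ≤
      ENNReal.ofReal (N * (volume (Metric.ball (0 : E N) 1)).toReal * r ^ (N - 1)) := by
  unfold perimeter
  refine iSup₂_le fun φ hφ => ENNReal.ofReal_le_ofReal ?_
  refine le_of_tendsto' (tendsto_integral_bf hr hφ) fun k => ?_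
  exact integral_bf_div_le hN hr (by positivity) hφ

end Pool.Agent.Work.MP_280d1a_an
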