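import Pool.Agent.Work.MP_280d1a_an.Mollify2

/-!
# Working with functions on `Fin n → ℝ`
-/

set_option autoImplicit false

open MeasureTheory Set Filter Topology
open scoped ENNReal ContDiff

namespace Pool.Agent.Work.MP_280d1a_an

/-- `ℝⁿ` as a product. -/
abbrev X (n : ℕ) : Type := Fin n → ℝ

/-- Partial derivative. -/
noncomputable def pd {n : ℕ} (i : Fin n) (f : X n → ℝ) (x : X n) : ℝ :=
  fderiv ℝ f x (Pi.single i 1)

/-- Euclidean norm of the gradient. -/
noncomputable def gn {n : ℕ} (f : X n → ℝ) (x : X n) : ℝ := √(∑ i, (pd i f x) ^ 2)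

/-- Compactly supported functions of class `C¹` with values in `[0, 1]`. -/
structure IsC {n : ℕ} (f : X n → ℝ) : Prop where
  smooth : ContDiff ℝ 1 f
  cs : HasCompactSupport f
  nn : ∀ x, 0 ≤ f x
  le1 : ∀ x, f x ≤ 1

/-- The indicator function. -/
noncomputable def ind {n : ℕ} (A : Set (X n)) : X n → ℝ := A.indicator (fun _ => (1 : ℝ))

/-- `A` is approximated by smooth functions of total variation about `D`. -/
def Appr {n : ℕ} (A : Set (X n)) (D : ℝ) : Prop :=
  ∀ ε : ℝ, 0 < ε → ∃ f : X n → ℝ, IsC f ∧ ∫ x, |f x - ind A x| ≤ ε ∧ ∫ x, gn f x ≤ D + ε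

variable {n : ℕ}

lemma gn_nonneg (f : X n → ℝ) (x : X n) : 0 ≤ gn f x := Real.sqrt_nonneg _

lemma sq_gn (f : X n → ℝ) (x : X n) : gn f x ^ 2 = ∑ i, (pd i f x) ^ 2 :=
  Real.sq_sqrt (Finset.sum_nonneg fun _ _ => sq_nonneg _)

lemma continuous_pd {f : X n → ℝ} (hf : ContDiff ℝ 1 f) (i : Fin n) : Continuous (pd i f) :=
  (hf.continuous_fderiv (by norm_num)).clm_apply continuous_const

lemma continuous_gn {f : X n → ℝ} (hf : ContDiff ℝ 1 f) : Continuous (gn f) :=
  (continuous_finsetSum _ fun i _ => (continuous_pd hf i).pow 2).sqrt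

lemma hasCompactSupport_pd {f : X n → ℝ} (hf : HasCompactSupport f) (i : Fin n) :
    HasCompactSupport (pd i f) := hf.fderiv_apply ℝ _

lemma hasCompactSupport_gn {f : X n → ℝ} (hf : HasCompactSupport f) :
    HasCompactSupport (gn f) := by
  refine HasCompactSupport.mono (hf.fderiv ℝ) ?_
  intro x hx
  simp only [Function.mem_support, ne_eq] at hx ⊢
  intro h
  apply hx
  simp [gn, pd, h]

lemma IsC.integrable {f : X n → ℝ} (hf : IsC f) : Integrable f :=
  hf.smooth.continuous.integrable_of_hasCompactSupport hf.cs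

lemma IsC.integrable_gn {f : X n → ℝ} (hf : IsC f) : Integrable (gn f) :=
  (continuous_gn hf.smooth).integrable_of_hasCompactSupport (hasCompactSupport_gn hf.cs)

lemma IsC.integrable_pd {f : X n → ℝ} (hf : IsC f) (i : Fin n) : Integrable (pd i f) :=
  (continuous_pd hf.smooth i).integrable_of_hasCompactSupport (hasCompactSupport_pd hf.cs i)

lemma abs_pd_le_gn (f : X n → ℝ) (x : X n) (i : Fin n) : |pd i f x| ≤ gn f x := by
  refine Real.abs_le_sqrt ?_
  exact Finset.single_le_sum (f := fun i => (pd i f x) ^ 2) (fun _ _ => sq_nonneg _)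
    (Finset.mem_univ i)

lemma gn_le_sum (f : X n → ℝ) (x : X n) : gn f x ≤ ∑ i, |pd i f x| := by
  rw [gn]
  refine Real.sqrt_le_iff.2 ⟨Finset.sum_nonneg fun _ _ => abs_nonneg _, ?_⟩
  have := Finset.sum_sq_le_sq_sum_of_nonneg (s := Finset.univ) (f := fun i => |pd i f x|)
    (fun _ _ => abs_nonneg _)
  simpa [sq_abs] using this

lemma ind_nonneg (A : Set (X n)) (x : X n) : 0 ≤ ind A x :=
  indicator_nonneg (fun _ _ => zero_le_one) _

lemma ind_le_one (A : Set (X n)) (x : X n) : ind A x ≤ 1 := by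
  by_cases hx : x ∈ A <;> simp [ind, hx]

lemma integrable_ind' {A : Set (X n)} (hA : MeasurableSet A) (hfin : volume A < ⊤) :
    Integrable (ind A) :=
  (integrable_indicator_iff hA).2 (integrableOn_const hfin.ne)

lemma Appr.mono {A : Set (X n)} {D D' : ℝ} (h : Appr A D) (hD : D ≤ D') : Appr A D' := by
  intro ε hε
  obtain ⟨f, h1, h2, h3⟩ := h ε hε
  exact ⟨f, h1, h2, h3.trans (by linarith)⟩

/-- The identification of `Fin n → ℝ` with Euclidean space. -/
noncomputable def tl (n : ℕ) : X n → E n := WithLp.toLp 2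

lemma mp_tl (n : ℕ) : MeasurePreserving (tl n) := PiLp.volume_preserving_toLp (Fin n)

/-- The same as a continuous linear equivalence. -/
noncomputable def tlc (n : ℕ) : X n ≃L[ℝ] E n := (EuclideanSpace.equiv (Fin n) ℝ).symm

lemma tlc_apply (n : ℕ) (x : X n) : tlc n x = tl n x := rfl

lemma me_tl (n : ℕ) : MeasurableEmbedding (tl n) :=
  (tlc n).toHomeomorph.measurableEmbedding

lemma integral_tl (f : E n → ℝ) : ∫ x, f (tl n x) = ∫ x, f x :=
  (mp_tl n).integral_comp (me_tl n) f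

lemma pd_tl {u : E n → ℝ} (i : Fin n) (x : X n) :
    pd i (fun x => u (tl n x)) x = fderiv ℝ u (tl n x) (bv i) := by
  have h : (fun x => u (tl n x)) = u ∘ (tlc n) := rfl
  rw [pd, h, ContinuousLinearEquiv.comp_right_fderiv]
  rfl

lemma gn_tl {u : E n → ℝ} (x : X n) : gn (fun x => u (tl n x)) x = ‖grd u (tl n x)‖ := by
  rw [EuclideanSpace.norm_eq, gn]
  simp only [pd_tl, grd_apply, Real.norm_eq_abs, sq_abs]

theorem appr_of_perimeter {Ω : Set (E n)} (hΩ : MeasurableSet Ω) (hfin : volume Ω < ⊤) {P : ℝ}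
    (hP : 0 ≤ P) (hper : perimeter Ω ≤ ENNReal.ofReal P) : Appr (tl n ⁻¹' Ω) P := by
  intro ε hε
  obtain ⟨u, hu, hs, h0, h1, h2, h3⟩ := exists_smooth_approx hΩ hfin hP hper hε
  refine ⟨fun x => u (tl n x), ⟨?_, ?_, fun x => h0 _, fun x => h1 _⟩, ?_, ?_⟩
  · exact (hu.of_le (by simp)).comp (tlc n).contDiff
  · exact hs.comp_homeomorph (tlc n).toHomeomorph
  · calc ∫ x, |u (tl n x) - ind (tl n ⁻¹' Ω) x|
        = ∫ x, |u (tl n x) - Ω.indicator (fun _ => (1 : ℝ)) (tl n x)| := rfl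
      _ = ∫ x, |u x - Ω.indicator (fun _ => (1 : ℝ)) x| :=
          integral_tl (fun x => |u x - Ω.indicator (fun _ => (1 : ℝ)) x|)
      _ ≤ ε := h2
  · simp_rw [gn_tl]
    rw [integral_tl (fun x => ‖grd u x‖)]
    exact h3

end Pool.Agent.Work.MP_280d1a_an
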