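import Pool.Agent.Work.MP_280d1a_an.Defs

/-!
# Basic facts on the capacity
-/

set_option autoImplicit false

open MeasureTheory Set Filter Topology
open scoped ENNReal NNReal

namespace Pool.Agent.Work.MP_280d1a_an

variable {N : ℕ}

lemma isH1_zero : IsH1 (fun _ : E N => (0 : ℝ)) (fun _ => (0 : E N)) := by
  refine ⟨MemLp.zero, MemLp.zero, fun φ _ _ i => ?_⟩
  simp

lemma capacity_empty : capacity (∅ : Set (E N)) = 0 := by
  refine le_antisymm ?_ zero_le
  refine iInf₂_le_of_le (fun _ => 0) (fun _ => 0) ?_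
  refine iInf_le_of_le isH1_zero ?_
  refine iInf_le_of_le ⟨∅, isOpen_empty, subset_rfl, ae_of_all _ fun x hx => hx.elim⟩ ?_
  simp

lemma volume_le_capacity (A : Set (E N)) : volume A ≤ capacity A := by
  refine le_iInf₂ fun u G => le_iInf fun h => le_iInf fun ⟨U, hU, hAU, hu⟩ => ?_
  have hi : Integrable fun x => u x ^ 2 + ‖G x‖ ^ 2 :=
    h.1.integrable_sq.add h.2.1.norm.integrable_sq
  rw [ofReal_integral_eq_lintegral_ofReal hi (ae_of_all _ fun x => by positivity)]
  calc volume A ≤ volume U := measure_mono hAU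
    _ = ∫⁻ x, U.indicator 1 x := (lintegral_indicator_one hU.measurableSet).symm
    _ ≤ ∫⁻ x, ENNReal.ofReal (u x ^ 2 + ‖G x‖ ^ 2) := by
        refine lintegral_mono_ae ?_
        filter_upwards [hu] with x hx
        by_cases hxU : x ∈ U
        · rw [indicator_of_mem hxU, Pi.one_apply, ← ENNReal.ofReal_one]
          refine ENNReal.ofReal_le_ofReal ?_
          have := hx hxU
          nlinarith [sq_nonneg ‖G x‖]
        · rw [indicator_of_notMem hxU]
          exact zero_le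

lemma IsQuasiOpen.nullMeasurableSet {Ω : Set (E N)} (h : IsQuasiOpen Ω) :
    NullMeasurableSet Ω := by
  choose ω hω hωc hωo using fun j : ℕ => h (ENNReal.ofReal (1 / ((j : ℝ) + 1)))
    (ENNReal.ofReal_pos.2 (by positivity))
  set G := ⋂ j, (Ω ∪ ω j) with hG
  have hGm : MeasurableSet G := MeasurableSet.iInter fun j => (hωo j).measurableSet
  have hΩG : Ω ⊆ G := subset_iInter fun j => subset_union_left
  have hnull : volume (G \ Ω) = 0 := by
    refine le_antisymm ?_ zero_le
    have h1 : ∀ j : ℕ, volume (G \ Ω) ≤ ENNReal.ofReal (1 / ((j : ℝ) + 1)) := by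
      intro j
      have h2 : G \ Ω ⊆ ω j := by
        rintro x ⟨hx1, hx2⟩
        exact (mem_iInter.1 hx1 j).resolve_left hx2
      exact (measure_mono h2).trans ((volume_le_capacity _).trans (hωc j).le)
    have h3 : Tendsto (fun j : ℕ => ENNReal.ofReal (1 / ((j : ℝ) + 1))) atTop (𝓝 0) := by
      have := ENNReal.tendsto_ofReal (tendsto_one_div_add_atTop_nhds_zero_nat (𝕜 := ℝ))
      rwa [ENNReal.ofReal_zero] at this
    exact ge_of_tendsto' h3 h1
  have hae : Ω =ᵐ[volume] G := by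
    refine hΩG.eventuallyLE.antisymm ?_
    rw [ae_le_set]
    exact hnull
  exact ⟨G, hGm, hae⟩

lemma IsH10.ae_zero {Ω : Set (E N)} {u : E N → ℝ} {G : E N → E N} (h : IsH10 Ω u G) :
    ∀ᵐ x, x ∉ Ω → u x = 0 := by
  obtain ⟨-, v, hv, -, hc⟩ := h
  have h1 : volume {x | x ∉ Ω ∧ v x ≠ 0} = 0 :=
    le_antisymm ((volume_le_capacity _).trans hc.le) zero_le
  have h2 : ∀ᵐ x, ¬ (x ∉ Ω ∧ v x ≠ 0) := by
    rw [ae_iff]
    simpa using h1
  filter_upwards [hv, h2] with x hx1 hx2 hxΩ
  rw [← hx1]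
  by_contra hne
  exact hx2 ⟨hxΩ, hne⟩

lemma IsOpen.isQuasiOpen {Ω : Set (E N)} (h : IsOpen Ω) : IsQuasiOpen Ω := by
  intro ε hε
  refine ⟨∅, isOpen_empty, by rwa [capacity_empty], by rwa [union_empty]⟩

lemma isQuasiContinuous_of_continuous {v : E N → ℝ} (h : Continuous v) : IsQuasiContinuous v := by
  intro ε hε
  exact ⟨∅, isOpen_empty, by rwa [capacity_empty], h.continuousOn⟩

/-- Continuous `H¹` functions vanishing outside `Ω` belong to `H¹₀(Ω)`. -/
lemma isH10_of_continuous {Ω : Set (E N)} {u : E N → ℝ} {G : E N → E N} (h : IsH1 u G)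
    (hu : Continuous u) (h0 : ∀ x, x ∉ Ω → u x = 0) : IsH10 Ω u G := by
  refine ⟨h, u, ae_eq_rfl, isQuasiContinuous_of_continuous hu, ?_⟩
  have : {x | x ∉ Ω ∧ u x ≠ 0} = ∅ := by
    ext x
    simp only [mem_ofPred_eq, mem_empty_iff_false, iff_false, not_and, not_not]
    exact h0 x
  rw [this, capacity_empty]

end Pool.Agent.Work.MP_280d1a_an
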