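import Pool.Agent.Work.MP_280d1a_an.Basic

/-!
# Completeness of the cosine products on the unit cube
-/

set_option autoImplicit false

open MeasureTheory Set Filter Topology
open scoped ENNReal NNReal ContDiff

namespace Pool.Agent.Work.MP_280d1a_an

/-- The closed unit cube. -/
def uc (n : ℕ) : Set (X n) := Set.pi univ (fun _ => Icc (0 : ℝ) 1)

variable {n : ℕ}

lemma isCompact_uc (n : ℕ) : IsCompact (uc n) := isCompact_univ_pi fun _ => isCompact_Icc

instance instCompactSpace_uc (n : ℕ) : CompactSpace (uc n) :=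
  isCompact_iff_compactSpace.1 (isCompact_uc n)

lemma measurableSet_uc (n : ℕ) : MeasurableSet (uc n) := (isCompact_uc n).measurableSet

lemma restrict_uc (n : ℕ) : (volume : Measure (X n)).restrict (uc n) =
    Measure.pi (fun _ => (volume : Measure ℝ).restrict (Icc 0 1)) := by
  rw [uc, volume_pi, Measure.restrict_pi_pi]

lemma volume_uc (n : ℕ) : volume (uc n) = 1 := by
  rw [uc, volume_pi, Measure.pi_pi]
  simp

lemma integral_uc_prod (f : Fin n → ℝ → ℝ) :
    ∫ x in uc n, ∏ i, f i (x i) = ∏ i, ∫ t in Icc (0 : ℝ) 1, f i t := by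
  rw [restrict_uc]
  exact integral_fintype_prod_eq_prod _

lemma integral_cos_int (k : ℤ) :
    ∫ t in Icc (0 : ℝ) 1, Real.cos (Real.pi * k * t) = if k = 0 then 1 else 0 := by
  rw [integral_Icc_eq_integral_Ioc, ← intervalIntegral.integral_of_le zero_le_one]
  split_ifs with hk
  · simp [hk]
  · have h : Real.pi * (k : ℝ) ≠ 0 := mul_ne_zero Real.pi_ne_zero (by exact_mod_cast hk)
    rw [intervalIntegral.integral_comp_mul_left (fun t => Real.cos t) h, integral_cos]
    have : Real.pi * (k : ℝ) * 1 = k * Real.pi := by ring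
    rw [this, Real.sin_int_mul_pi]
    simp

/-- The normalisation constants. -/
noncomputable def nc (m : ℕ) : ℝ := if m = 0 then 1 else √2

lemma nc_pos (m : ℕ) : 0 < nc m := by
  unfold nc
  split_ifs
  · exact one_pos
  · positivity

lemma nc_le (m : ℕ) : nc m ≤ √2 := by
  unfold nc
  split_ifs
  · exact Real.one_le_sqrt.2 (by norm_num)
  · exact le_rfl

/-- Normalised cosines. -/
noncomputable def cs (m : ℕ) (t : ℝ) : ℝ := nc m * Real.cos (Real.pi * m * t)

/-- Normalised sines. -/
noncomputable def sn (m : ℕ) (t : ℝ) : ℝ := √2 * Real.sin (Real.pi * m * t)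

lemma continuous_cs (m : ℕ) : Continuous (cs m) := by unfold cs; fun_prop

lemma continuous_sn (m : ℕ) : Continuous (sn m) := by unfold sn; fun_prop

lemma integral_cs_cs (m k : ℕ) :
    ∫ t in Icc (0 : ℝ) 1, cs m t * cs k t = if m = k then 1 else 0 := by
  have e : ∀ t : ℝ, cs m t * cs k t = nc m * nc k / 2 *
      Real.cos (Real.pi * ((m : ℤ) + k : ℤ) * t) +
      nc m * nc k / 2 * Real.cos (Real.pi * ((m : ℤ) - k : ℤ) * t) := by
    intro t
    have h := Real.two_mul_cos_mul_cos (Real.pi * m * t) (Real.pi * k * t)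
    have h1 : Real.pi * (((m : ℤ) + k : ℤ) : ℝ) * t = Real.pi * m * t + Real.pi * k * t := by
      push_cast; ring
    have h2 : Real.pi * (((m : ℤ) - k : ℤ) : ℝ) * t = Real.pi * m * t - Real.pi * k * t := by
      push_cast; ring
    rw [h1, h2, cs, cs]
    linear_combination (nc m * nc k / 2) * h
  simp_rw [e]
  have i1 : ∀ k : ℤ, IntegrableOn (fun t : ℝ => Real.cos (Real.pi * k * t)) (Icc (0 : ℝ) 1) :=
    fun k => (by fun_prop : Continuous fun t : ℝ => Real.cos (Real.pi * k * t)).continuousOn
      |>.integrableOn_Icc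
  rw [integral_add ((i1 _).const_mul _) ((i1 _).const_mul _), integral_const_mul,
    integral_const_mul, integral_cos_int, integral_cos_int]
  have hs : √2 * √2 = (2 : ℝ) := Real.mul_self_sqrt (by norm_num)
  rcases eq_or_ne m k with rfl | hmk
  · rcases eq_or_ne m 0 with rfl | hm
    · simp [nc]
      norm_num
    · have h1 : ((m : ℤ) + m : ℤ) ≠ 0 := by omega
      simp [nc, hm, hs, h1]
  · have h1 : ((m : ℤ) + k : ℤ) ≠ 0 := by omega
    have h2 : ((m : ℤ) - k : ℤ) ≠ 0 := by omega
    simp [hmk, h1, h2]

lemma integral_sn_sn {m k : ℕ} (hm : 1 ≤ m) (hk : 1 ≤ k) :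
    ∫ t in Icc (0 : ℝ) 1, sn m t * sn k t = if m = k then 1 else 0 := by
  have hs : √2 * √2 = (2 : ℝ) := Real.mul_self_sqrt (by norm_num)
  have e : ∀ t : ℝ, sn m t * sn k t = Real.cos (Real.pi * ((m : ℤ) - k : ℤ) * t) -
      Real.cos (Real.pi * ((m : ℤ) + k : ℤ) * t) := by
    intro t
    have h := Real.two_mul_sin_mul_sin (Real.pi * m * t) (Real.pi * k * t)
    have h1 : Real.pi * (((m : ℤ) + k : ℤ) : ℝ) * t = Real.pi * m * t + Real.pi * k * t := by
      push_cast; ring
    have h2 : Real.pi * (((m : ℤ) - k : ℤ) : ℝ) * t = Real.pi * m * t - Real.pi * k * t := by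
      push_cast; ring
    rw [h1, h2, sn, sn]
    linear_combination h + (Real.sin (Real.pi * m * t) * Real.sin (Real.pi * k * t)) * hs
  simp_rw [e]
  have i1 : ∀ k : ℤ, IntegrableOn (fun t : ℝ => Real.cos (Real.pi * k * t)) (Icc (0 : ℝ) 1) :=
    fun k => (by fun_prop : Continuous fun t : ℝ => Real.cos (Real.pi * k * t)).continuousOn
      |>.integrableOn_Icc
  rw [integral_sub (i1 _) (i1 _), integral_cos_int, integral_cos_int]
  have h1 : ((m : ℤ) + k : ℤ) ≠ 0 := by omega
  rcases eq_or_ne m k with rfl | hmk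
  · simp [h1]
  · have h2 : ((m : ℤ) - k : ℤ) ≠ 0 := by omega
    simp [hmk, h1, h2]

/-- The cosine products. -/
noncomputable def ef (m : Fin n → ℕ) (x : X n) : ℝ := ∏ i, cs (m i) (x i)

/-- The products with one sine factor, in the direction `i`. -/
noncomputable def sf (i : Fin n) (m : Fin n → ℕ) (x : X n) : ℝ :=
  ∏ j, (if j = i then sn (m j) (x j) else cs (m j) (x j))

lemma continuous_ef (m : Fin n → ℕ) : Continuous (ef m) := by
  unfold ef
  exact continuous_finsetProd _ fun i _ => (continuous_cs _).comp (continuous_apply i)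

lemma continuous_sf (i : Fin n) (m : Fin n → ℕ) : Continuous (sf i m) := by
  unfold sf
  refine continuous_finsetProd _ fun j _ => ?_
  split_ifs
  · exact (continuous_sn _).comp (continuous_apply j)
  · exact (continuous_cs _).comp (continuous_apply j)

lemma prod_ite_eq_ite (m k : Fin n → ℕ) :
    ∏ i, (if m i = k i then (1 : ℝ) else 0) = if m = k then 1 else 0 := by
  rcases eq_or_ne m k with rfl | h
  · simp
  · rw [if_neg h]
    obtain ⟨i, hi⟩ := Function.ne_iff.1 h
    exact Finset.prod_eq_zero (Finset.mem_univ i) (if_neg hi)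

lemma integral_ef_ef (m k : Fin n → ℕ) :
    ∫ x in uc n, ef m x * ef k x = if m = k then 1 else 0 := by
  simp_rw [ef, ← Finset.prod_mul_distrib]
  rw [integral_uc_prod (fun i t => cs (m i) t * cs (k i) t)]
  simp_rw [integral_cs_cs]
  exact prod_ite_eq_ite m k

lemma integral_sf_sf (i : Fin n) {m k : Fin n → ℕ} (hm : 1 ≤ m i) (hk : 1 ≤ k i) :
    ∫ x in uc n, sf i m x * sf i k x = if m = k then 1 else 0 := by
  simp_rw [sf, ← Finset.prod_mul_distrib]
  rw [integral_uc_prod (fun j t => (if j = i then sn (m j) t else cs (m j) t) *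
    (if j = i then sn (k j) t else cs (k j) t)), ← prod_ite_eq_ite m k]
  refine Finset.prod_congr rfl fun j _ => ?_
  by_cases hj : j = i
  · subst hj
    simp only [if_true]
    exact integral_sn_sn hm hk
  · simp only [hj, if_false]
    exact integral_cs_cs _ _

/-! ### Density -/

/-- The coordinate cosine, as a continuous function on the cube. -/
noncomputable def cc (i : Fin n) : C(uc n, ℝ) where
  toFun x := Real.cos (Real.pi * (x : X n) i)
  continuous_toFun := Real.continuous_cos.comp
    (continuous_const.mul ((continuous_apply i).comp continuous_subtype_val))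

/-- The cosine products, as continuous functions on the cube. -/
noncomputable def ce (m : Fin n → ℕ) : C(uc n, ℝ) where
  toFun x := ef m x
  continuous_toFun := (continuous_ef m).comp continuous_subtype_val

/-- The span of the cosine products. -/
noncomputable def spn (n : ℕ) : Submodule ℝ C(uc n, ℝ) := Submodule.span ℝ (range ce)

lemma cos_mul_cs (m : ℕ) : ∃ a b : ℝ, ∀ t : ℝ, Real.cos (Real.pi * t) * cs m t =
    a * cs (m + 1) t + b * cs (m - 1) t := by
  rcases Nat.eq_zero_or_pos m with rfl | hm
  · refine ⟨(nc 1)⁻¹, 0, fun t => ?_⟩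
    have h1 := (nc_pos 1).ne'
    simp only [cs, zero_add, Nat.cast_zero, mul_zero, zero_mul, Real.cos_zero, Nat.cast_one,
      mul_one, add_zero]
    rw [inv_mul_cancel_left₀ h1]
    simp [nc]
  · refine ⟨nc m / 2 * (nc (m + 1))⁻¹, nc m / 2 * (nc (m - 1))⁻¹, fun t => ?_⟩
    have h1 := (nc_pos (m + 1)).ne'
    have h2 := (nc_pos (m - 1)).ne'
    have h := Real.two_mul_cos_mul_cos (Real.pi * m * t) (Real.pi * t)
    have e1 : Real.pi * ((m + 1 : ℕ) : ℝ) * t = Real.pi * m * t + Real.pi * t := by
      push_cast; ring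
    have e2 : Real.pi * ((m - 1 : ℕ) : ℝ) * t = Real.pi * m * t - Real.pi * t := by
      rw [Nat.cast_sub hm]; push_cast; ring
    simp only [cs, e1, e2]
    have h3 : nc m / 2 * (nc (m + 1))⁻¹ * (nc (m + 1) * Real.cos (Real.pi * m * t + Real.pi * t)) =
        nc m / 2 * Real.cos (Real.pi * m * t + Real.pi * t) := by
      rw [mul_assoc, inv_mul_cancel_left₀ h1]
    have h4 : nc m / 2 * (nc (m - 1))⁻¹ * (nc (m - 1) * Real.cos (Real.pi * m * t - Real.pi * t)) =
        nc m / 2 * Real.cos (Real.pi * m * t - Real.pi * t) := by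
      rw [mul_assoc, inv_mul_cancel_left₀ h2]
    rw [h3, h4]
    linear_combination (nc m / 2) * h

lemma ef_update (m : Fin n → ℕ) (i : Fin n) (k : ℕ) (x : X n) :
    ef (Function.update m i k) x = cs k (x i) * ∏ j ∈ Finset.univ.erase i, cs (m j) (x j) := by
  rw [ef, ← Finset.mul_prod_erase _ _ (Finset.mem_univ i)]
  congr 1
  · simp
  · refine Finset.prod_congr rfl fun j hj => ?_
    rw [Function.update_of_ne (Finset.ne_of_mem_erase hj)]

lemma cc_mul_ce_mem (i : Fin n) (m : Fin n → ℕ) : cc i * ce m ∈ spn n := by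
  obtain ⟨a, b, hab⟩ := cos_mul_cs (m i)
  have h : cc i * ce m = a • ce (Function.update m i (m i + 1)) +
      b • ce (Function.update m i (m i - 1)) := by
    ext x
    simp only [ContinuousMap.mul_apply, ContinuousMap.add_apply, ContinuousMap.smul_apply,
      smul_eq_mul]
    change Real.cos (Real.pi * (x : X n) i) * ef m x =
      a * ef (Function.update m i (m i + 1)) x + b * ef (Function.update m i (m i - 1)) x
    have h1 : ef m (x : X n) = cs (m i) ((x : X n) i) *
        ∏ j ∈ Finset.univ.erase i, cs (m j) ((x : X n) j) := by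
      rw [ef, ← Finset.mul_prod_erase _ _ (Finset.mem_univ i)]
    rw [ef_update, ef_update, h1]
    linear_combination (∏ j ∈ Finset.univ.erase i, cs (m j) ((x : X n) j)) * hab ((x : X n) i)
  rw [h]
  exact (spn n).add_mem ((spn n).smul_mem _ (Submodule.subset_span ⟨_, rfl⟩))
    ((spn n).smul_mem _ (Submodule.subset_span ⟨_, rfl⟩))

lemma cc_mul_mem (i : Fin n) {f : C(uc n, ℝ)} (hf : f ∈ spn n) : cc i * f ∈ spn n := by
  unfold spn at hf
  induction hf using Submodule.span_induction with
  | mem x hx =>
    obtain ⟨m, rfl⟩ := hx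
    exact cc_mul_ce_mem i m
  | zero => rw [mul_zero]; exact (spn n).zero_mem
  | add x y _ _ hx hy => rw [mul_add]; exact (spn n).add_mem hx hy
  | smul c x _ hx => rw [mul_smul_comm]; exact (spn n).smul_mem c hx

lemma one_mem_spn : (1 : C(uc n, ℝ)) ∈ spn n := by
  refine Submodule.subset_span ⟨0, ?_⟩
  ext x
  simp [ce, ef, cs, nc]

/-- The algebra generated by the coordinate cosines. -/
noncomputable def alg (n : ℕ) : Subalgebra ℝ C(uc n, ℝ) := Algebra.adjoin ℝ (range cc)

lemma alg_mul_mem {p : C(uc n, ℝ)} (hp : p ∈ alg n) : ∀ f ∈ spn n, p * f ∈ spn n := by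
  unfold alg at hp
  induction hp using Algebra.adjoin_induction with
  | mem x hx =>
    obtain ⟨i, rfl⟩ := hx
    exact fun f hf => cc_mul_mem i hf
  | algebraMap r =>
    intro f hf
    rw [← Algebra.smul_def]
    exact (spn n).smul_mem r hf
  | add x y _ _ hx hy =>
    intro f hf
    rw [add_mul]
    exact (spn n).add_mem (hx f hf) (hy f hf)
  | mul x y _ _ hx hy =>
    intro f hf
    rw [mul_assoc]
    exact hx _ (hy f hf)

lemma alg_le_spn {p : C(uc n, ℝ)} (hp : p ∈ alg n) : p ∈ spn n := by
  have := alg_mul_mem hp 1 one_mem_spn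
  rwa [mul_one] at this

lemma alg_dense (n : ℕ) : (alg n).topologicalClosure = ⊤ := by
  refine ContinuousMap.subalgebra_topologicalClosure_eq_top_of_separatesPoints _ ?_
  intro x y hxy
  have h1 : (x : X n) ≠ y := fun h => hxy (Subtype.ext h)
  obtain ⟨i, hi⟩ := Function.ne_iff.1 h1
  refine ⟨cc i, ⟨cc i, Algebra.subset_adjoin ⟨i, rfl⟩, rfl⟩, ?_⟩
  intro h
  apply hi
  have hx : (x : X n) i ∈ Icc (0 : ℝ) 1 := x.2 i (mem_univ i)
  have hy : (y : X n) i ∈ Icc (0 : ℝ) 1 := y.2 i (mem_univ i)
  have h2 : Real.cos (Real.pi * (x : X n) i) = Real.cos (Real.pi * (y : X n) i) := h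
  have hp := Real.pi_pos
  have h3 := Real.injOn_cos ⟨by nlinarith [hx.1], by nlinarith [hx.2]⟩
    ⟨by nlinarith [hy.1], by nlinarith [hy.2]⟩ h2
  exact mul_left_cancel₀ hp.ne' h3

/-- A function orthogonal to all the cosine products is orthogonal to the continuous functions. -/
lemma integral_mul_eq_zero {f : X n → ℝ} (hf : IntegrableOn f (uc n))
    (h : ∀ m, ∫ x in uc n, f x * ef m x = 0) {g : X n → ℝ} (hg : Continuous g) :
    ∫ x in uc n, f x * g x = 0 := by
  -- the set of continuous functions on the cube orthogonal to `f`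
  have hspn : ∀ p ∈ spn n, ∀ q : X n → ℝ, (∀ x : uc n, q x = p x) →
      ∫ x in uc n, f x * q x = 0 := by
    intro p hp
    have hloc : ∀ r : C(uc n, ℝ), Continuous fun x => r x := fun r => r.continuous
    -- rewrite through the subtype
    have hsub : ∀ q : X n → ℝ, ∫ x in uc n, f x * q x =
        ∫ x : uc n, f x * q x ∂(Measure.comap Subtype.val volume) := fun q =>
      (integral_subtype_comap (measurableSet_uc n) fun x => f x * q x).symm
    have hfi : Integrable (fun x : uc n => f x) (Measure.comap Subtype.val volume) := by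
      have := (MeasurableEmbedding.subtype_coe (measurableSet_uc n)).integrable_map_iff
        (g := f) (μ := Measure.comap Subtype.val volume)
      rw [map_comap_subtype_coe (measurableSet_uc n)] at this
      exact this.1 hf
    have hmul : ∀ r : C(uc n, ℝ), Integrable (fun x : uc n => f x * r x)
        (Measure.comap Subtype.val volume) := by
      intro r
      obtain ⟨C, hC⟩ := (isCompact_univ (X := uc n)).exists_bound_of_continuousOn
        r.continuous.continuousOn
      have h1 := hfi.bdd_mul (f := fun x => r x) (c := C)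
        r.continuous.measurable.aestronglyMeasurable (ae_of_all _ fun x => hC x (mem_univ x))
      exact h1.congr (ae_of_all _ fun x => mul_comm _ _)
    have hmain : ∫ x : uc n, f x * p x ∂(Measure.comap Subtype.val volume) = 0 := by
      unfold spn at hp
      induction hp using Submodule.span_induction with
      | mem x hx =>
        obtain ⟨m, rfl⟩ := hx
        have := h m
        rw [hsub] at this
        exact this
      | zero => simp
      | add x y _ _ hx hy =>
        simp only [ContinuousMap.add_apply, mul_add]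
        rw [integral_add (hmul x) (hmul y), hx, hy, add_zero]
      | smul c x _ hx =>
        simp only [ContinuousMap.smul_apply, smul_eq_mul]
        have e : ∀ y : uc n, f y * (c * x y) = c * (f y * x y) := fun y => by ring
        simp_rw [e]
        rw [integral_const_mul, hx, mul_zero]
    intro q hq
    rw [hsub]
    simp_rw [hq]
    exact hmain
  -- approximation
  set gc : C(uc n, ℝ) := ⟨fun x => g x, hg.comp continuous_subtype_val⟩ with hgc
  have hmem : gc ∈ (alg n).topologicalClosure := by rw [alg_dense]; trivial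
  have hcl : gc ∈ closure (alg n : Set C(uc n, ℝ)) := hmem
  rw [Metric.mem_closure_iff] at hcl
  by_contra hne
  have hpos : 0 < |∫ x in uc n, f x * g x| := abs_pos.2 hne
  set K := ∫ x in uc n, |f x| with hK
  have hK0 : 0 ≤ K := integral_nonneg fun x => abs_nonneg _
  obtain ⟨p, hp, hpd⟩ := hcl (|∫ x in uc n, f x * g x| / (K + 1)) (by positivity)
  have hpext : ∃ q : X n → ℝ, Measurable q ∧ ∀ x : uc n, q x = p x := by
    classical
    refine ⟨fun x => if hx : x ∈ uc n then p ⟨x, hx⟩ else 0, ?_, fun x => by simp⟩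
    exact Measurable.dite (p.continuous.measurable) measurable_const (measurableSet_uc n)
  obtain ⟨q, hqm, hq⟩ := hpext
  have h0 := hspn p (alg_le_spn hp) q hq
  have hb : ∀ x ∈ uc n, |g x - q x| ≤ |∫ x in uc n, f x * g x| / (K + 1) := by
    intro x hx
    have h1 := ContinuousMap.dist_apply_le_dist (f := gc) (g := p) ⟨x, hx⟩
    rw [Real.dist_eq, ← hq ⟨x, hx⟩] at h1
    exact h1.trans hpd.le
  obtain ⟨Cg, hCg⟩ := (isCompact_uc n).exists_bound_of_continuousOn hg.continuousOn
  have hgi : IntegrableOn (fun x => f x * g x) (uc n) := by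
    have h1 : IntegrableOn (fun x => g x * f x) (uc n) :=
      Integrable.bdd_mul (c := Cg) hf hg.measurable.aestronglyMeasurable
      ((ae_restrict_iff' (measurableSet_uc n)).2 (ae_of_all _ hCg))
    exact h1.congr (ae_of_all _ fun x => mul_comm _ _)
  have hdi : IntegrableOn (fun x => f x * (g x - q x)) (uc n) := by
    have h1 : IntegrableOn (fun x => (g x - q x) * f x) (uc n) :=
      Integrable.bdd_mul (c := |∫ x in uc n, f x * g x| / (K + 1)) hf
      (hg.measurable.sub hqm).aestronglyMeasurable
      ((ae_restrict_iff' (measurableSet_uc n)).2 (ae_of_all _ hb))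
    exact h1.congr (ae_of_all _ fun x => mul_comm _ _)
  have hqi : IntegrableOn (fun x => f x * q x) (uc n) := by
    have h1 := hgi.sub hdi
    refine h1.congr (ae_of_all _ fun x => ?_)
    simp only [Pi.sub_apply]
    ring
  have h2 : ∫ x in uc n, f x * g x = ∫ x in uc n, f x * (g x - q x) := by
    have h3 : ∀ x, f x * (g x - q x) = f x * g x - f x * q x := fun x => by ring
    simp_rw [h3]
    rw [integral_sub hgi hqi, h0, sub_zero]
  have h4 : |∫ x in uc n, f x * (g x - q x)| ≤
      ∫ x in uc n, |f x| * (|∫ x in uc n, f x * g x| / (K + 1)) := by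
    refine (abs_integral_le_integral_abs).trans ?_
    refine setIntegral_mono_on hdi.abs (hf.abs.mul_const _) (measurableSet_uc n) fun x hx => ?_
    rw [abs_mul]
    exact mul_le_mul_of_nonneg_left (hb x hx) (abs_nonneg _)
  rw [← h2, integral_mul_const, ← hK] at h4
  have h5 : K * (|∫ x in uc n, f x * g x| / (K + 1)) < |∫ x in uc n, f x * g x| := by
    rw [mul_div_assoc', div_lt_iff₀ (by positivity)]
    nlinarith
  linarith

end Pool.Agent.Work.MP_280d1a_an
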