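import Pool.Agent.Work.MP_280d1a_an.Parseval

/-!
# Counting lattice points
-/

set_option autoImplicit false

open MeasureTheory Set Filter Topology
open scoped ENNReal NNReal ContDiff

namespace Pool.Agent.Work.MP_280d1a_an

variable {n : ℕ}

open Classical in
/-- The indices of the Neumann modes of frequency at most `R`. -/
noncomputable def Nset (n : ℕ) (R : ℝ) : Finset (Fin n → ℕ) :=
  (Fintype.piFinset fun _ => Finset.range (⌊R⌋₊ + 1)).filter
    (fun m => Real.pi ^ 2 * ∑ i, (m i : ℝ) ^ 2 ≤ R ^ 2)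

open Classical in
/-- The indices of the Dirichlet modes of frequency at most `R`. -/
noncomputable def Dset (n : ℕ) (R : ℝ) : Finset (Fin n → ℕ) :=
  (Nset n R).filter (fun m => ∀ i, 1 ≤ m i)

lemma mem_Nset {R : ℝ} (hR : 0 ≤ R) {m : Fin n → ℕ} :
    m ∈ Nset n R ↔ Real.pi ^ 2 * ∑ i, (m i : ℝ) ^ 2 ≤ R ^ 2 := by
  rw [Nset, Finset.mem_filter, Fintype.mem_piFinset]
  refine ⟨fun h => h.2, fun h => ⟨fun i => ?_, h⟩⟩
  rw [Finset.mem_range, Nat.lt_succ_iff, Nat.le_floor_iff hR]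
  have h1 : (m i : ℝ) ^ 2 ≤ ∑ i, (m i : ℝ) ^ 2 :=
    Finset.single_le_sum (f := fun i => (m i : ℝ) ^ 2) (fun _ _ => sq_nonneg _) (Finset.mem_univ i)
  have hpi := Real.pi_gt_three
  have h2 : (m i : ℝ) ^ 2 ≤ R ^ 2 := by
    have h3 : 0 ≤ ∑ i, (m i : ℝ) ^ 2 := Finset.sum_nonneg fun _ _ => sq_nonneg _
    have h4 : (1 : ℝ) ≤ Real.pi ^ 2 := by nlinarith
    nlinarith
  exact le_of_sq_le_sq h2 hR

lemma mem_Dset {R : ℝ} (hR : 0 ≤ R) {m : Fin n → ℕ} :
    m ∈ Dset n R ↔ Real.pi ^ 2 * ∑ i, (m i : ℝ) ^ 2 ≤ R ^ 2 ∧ ∀ i, 1 ≤ m i := by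
  rw [Dset, Finset.mem_filter, mem_Nset hR]

lemma notMem_Nset {R : ℝ} (hR : 0 ≤ R) {m : Fin n → ℕ} (hm : m ∉ Nset n R) :
    R ^ 2 ≤ Real.pi ^ 2 * ∑ i, (m i : ℝ) ^ 2 := by
  rw [mem_Nset hR, not_le] at hm
  exact hm.le

lemma card_Nset_le (S : ℝ) (hS : 0 ≤ S) : (Nset n S).card ≤ (Dset n (S + Real.pi * n)).card := by
  refine Finset.card_le_card_of_injOn (fun m i => m i + 1) ?_ ?_
  · intro m hm
    have hm' := (mem_Nset hS).1 hm
    have hpi := Real.pi_pos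
    have hn : (0 : ℝ) ≤ n := Nat.cast_nonneg n
    rw [Finset.mem_coe, mem_Dset (by positivity)]
    refine ⟨?_, fun i => by simp⟩
    set T := ∑ i, (m i : ℝ) ^ 2 with hT
    have hT0 : 0 ≤ T := Finset.sum_nonneg fun _ _ => sq_nonneg _
    have h1 : ∀ i, (m i : ℝ) ≤ √T := fun i => by
      refine Real.le_sqrt_of_sq_le ?_
      exact Finset.single_le_sum (f := fun i => (m i : ℝ) ^ 2) (fun _ _ => sq_nonneg _)
        (Finset.mem_univ i)
    have h2 : ∑ i, (m i : ℝ) ≤ n * √T := by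
      calc ∑ i, (m i : ℝ) ≤ ∑ _i : Fin n, √T := Finset.sum_le_sum fun i _ => h1 i
        _ = n * √T := by simp
    have h3 : ∑ i, (((m i + 1 : ℕ) : ℝ)) ^ 2 = T + 2 * ∑ i, (m i : ℝ) + n := by
      push_cast
      rw [hT, Finset.mul_sum]
      have : (n : ℝ) = ∑ _i : Fin n, (1 : ℝ) := by simp
      rw [this, ← Finset.sum_add_distrib, ← Finset.sum_add_distrib]
      exact Finset.sum_congr rfl fun i _ => by ring
    have hsq : √T ^ 2 = T := Real.sq_sqrt hT0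
    have hs0 := Real.sqrt_nonneg T
    have h4 : Real.pi * √T ≤ S := by
      refine le_of_sq_le_sq ?_ hS
      rw [mul_pow, hsq]
      exact hm'
    have hn2 : (n : ℝ) ≤ (n : ℝ) ^ 2 := by
      rcases Nat.eq_zero_or_pos n with h | h
      · simp [h]
      · have : (1 : ℝ) ≤ n := by exact_mod_cast h
        nlinarith
    rw [h3]
    calc Real.pi ^ 2 * (T + 2 * ∑ i, (m i : ℝ) + n)
        ≤ Real.pi ^ 2 * (√T ^ 2 + 2 * (n * √T) + n ^ 2) := by
          rw [hsq]; gcongr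
      _ = (Real.pi * √T + Real.pi * n) ^ 2 := by ring
      _ ≤ (S + Real.pi * n) ^ 2 := by gcongr
  · intro m _ k _ h
    ext i
    have := congrFun h i
    simpa using this

lemma card_Dset_mono {R S : ℝ} (hR : 0 ≤ R) (hRS : R ≤ S) : (Dset n R).card ≤ (Dset n S).card := by
  refine Finset.card_le_card fun m hm => ?_
  rw [mem_Dset hR] at hm
  rw [mem_Dset (hR.trans hRS)]
  exact ⟨hm.1.trans (by gcongr), hm.2⟩

lemma card_Dset_le (R : ℕ) : (Dset n R).card ≤ (R + 1) ^ n := by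
  refine (Finset.card_filter_le _ _).trans ((Finset.card_filter_le _ _).trans ?_)
  simp [Fintype.card_piFinset]

lemma one_le_card_Dset {M : ℕ} (hM : 4 * n ≤ M) : 1 ≤ (Dset n M).card := by
  rw [Nat.one_le_iff_ne_zero, ← Nat.pos_iff_ne_zero, Finset.card_pos]
  refine ⟨fun _ => 1, ?_⟩
  rw [mem_Dset (Nat.cast_nonneg M)]
  refine ⟨?_, fun _ => le_rfl⟩
  have h1 : ((4 : ℝ) * n) ≤ M := by exact_mod_cast hM
  have h2 := Real.pi_lt_d2
  have h3 := Real.pi_pos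
  have hn : (0 : ℝ) ≤ n := Nat.cast_nonneg n
  have hn2 : (n : ℝ) ≤ (n : ℝ) ^ 2 := by
    rcases Nat.eq_zero_or_pos n with h | h
    · simp [h]
    · have : (1 : ℝ) ≤ n := by exact_mod_cast h
      nlinarith
  simp only [Nat.cast_one, one_pow, Finset.sum_const, Finset.card_univ, Fintype.card_fin,
    nsmul_eq_mul, mul_one]
  have h4 : Real.pi ^ 2 ≤ 10 := by nlinarith
  calc Real.pi ^ 2 * n ≤ 16 * (n : ℝ) ^ 2 := by nlinarith
    _ = (4 * (n : ℝ)) ^ 2 := by ring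
    _ ≤ (M : ℝ) ^ 2 := by gcongr

/-- Good scales: the numbers of Dirichlet and Neumann modes are comparable. -/
theorem exists_good_scale (n : ℕ) {δ : ℝ} (hδ : 0 < δ) (M₀ : ℕ) :
    ∃ M : ℕ, M₀ ≤ M ∧ 1 ≤ (Dset n M).card ∧
      ((Nset n (M + 1)).card : ℝ) ≤ (1 + δ) * (Dset n M).card := by
  by_contra hcon
  push Not at hcon
  set C : ℕ := 1 + 4 * n with hC
  set M₁ : ℕ := max M₀ (4 * n) with hM₁
  have hstep : ∀ M : ℕ, M₁ ≤ M → (1 + δ) * ((Dset n M).card : ℝ) ≤ (Dset n ((M + C : ℕ) : ℝ)).card := by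
    intro M hM
    have h1 : M₀ ≤ M := (le_max_left _ _).trans hM
    have h2 : 4 * n ≤ M := (le_max_right _ _).trans hM
    have h3 := (hcon M h1 (one_le_card_Dset h2)).le
    refine h3.trans ?_
    have hM0 : (0 : ℝ) ≤ M := Nat.cast_nonneg M
    have h4 := card_Nset_le (n := n) ((M : ℝ) + 1) (by positivity)
    have h5 : (Dset n ((M : ℝ) + 1 + Real.pi * n)).card ≤ (Dset n ((M + C : ℕ) : ℝ)).card := by
      have := Real.pi_pos
      refine card_Dset_mono (by positivity) ?_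
      have hpi := Real.pi_lt_four
      have hn : (0 : ℝ) ≤ n := Nat.cast_nonneg n
      rw [hC]
      push_cast
      nlinarith
    exact_mod_cast h4.trans h5
  have hgrow : ∀ j : ℕ, (1 + δ) ^ j ≤ ((Dset n ((M₁ + j * C : ℕ) : ℝ)).card : ℝ) := by
    intro j
    induction j with
    | zero =>
      have := one_le_card_Dset (n := n) (M := M₁) (le_max_right _ _)
      simpa using (by exact_mod_cast this : (1 : ℝ) ≤ ((Dset n (M₁ : ℝ)).card : ℝ))
    | succ j ih =>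
      have h1 := hstep (M₁ + j * C) (by omega)
      have h2 : M₁ + j * C + C = M₁ + (j + 1) * C := by ring
      rw [h2] at h1
      refine le_trans ?_ h1
      rw [pow_succ, mul_comm]
      gcongr
  have hup : ∀ j : ℕ, (1 + δ) ^ (j + 1) ≤ (((M₁ + C + 1 : ℕ) : ℝ)) ^ n * (1 + δ) *
      ((j + 1 : ℕ) : ℝ) ^ n := by
    intro j
    have h1 := hgrow j
    have h2 := card_Dset_le (n := n) (M₁ + j * C)
    have h3 : (M₁ + j * C + 1) ≤ (M₁ + C + 1) * (j + 1) := by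
      nlinarith [Nat.zero_le M₁, Nat.zero_le C, Nat.zero_le j, Nat.zero_le (M₁ * j)]
    have h4 : (Dset n ((M₁ + j * C : ℕ) : ℝ)).card ≤ ((M₁ + C + 1) * (j + 1)) ^ n :=
      h2.trans (Nat.pow_le_pow_left h3 n)
    have h5 : ((Dset n ((M₁ + j * C : ℕ) : ℝ)).card : ℝ) ≤
        ((((M₁ + C + 1) * (j + 1)) ^ n : ℕ) : ℝ) := by exact_mod_cast h4
    rw [pow_succ]
    calc (1 + δ) ^ j * (1 + δ) ≤ ((((M₁ + C + 1) * (j + 1)) ^ n : ℕ) : ℝ) * (1 + δ) := by
          gcongr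
          exact h1.trans h5
      _ = _ := by push_cast; rw [mul_pow]; ring
  have hlim := tendsto_pow_const_div_const_pow_of_one_lt n (show (1 : ℝ) < 1 + δ by linarith)
  have hK : 0 < (((M₁ + C + 1 : ℕ) : ℝ)) ^ n * (1 + δ) := by positivity
  have hev := (hlim.eventually (gt_mem_nhds (show (0 : ℝ) <
    1 / ((((M₁ + C + 1 : ℕ) : ℝ)) ^ n * (1 + δ)) by positivity)))
  obtain ⟨j, hj1, hj2⟩ := (hev.and (eventually_ge_atTop 1)).exists
  obtain ⟨i, rfl⟩ : ∃ i, j = i + 1 := ⟨j - 1, by omega⟩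
  have h1 := hup i
  rw [div_lt_div_iff₀ (by positivity) hK, one_mul] at hj1
  have : ((i + 1 : ℕ) : ℝ) ^ n * ((((M₁ + C + 1 : ℕ) : ℝ)) ^ n * (1 + δ)) =
    (((M₁ + C + 1 : ℕ) : ℝ)) ^ n * (1 + δ) * ((i + 1 : ℕ) : ℝ) ^ n := by ring
  linarith

end Pool.Agent.Work.MP_280d1a_an
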