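import Pool.Agent.Work.MP_280d1a_an.Parseval

/-!
# Integration by parts on the unit cube for weak gradients
-/

set_option autoImplicit false

open MeasureTheory Set Filter Topology
open scoped ENNReal NNReal ContDiff

namespace Pool.Agent.Work.MP_280d1a_an

variable {n : ℕ}

/-- Weak gradients on `ℝⁿ`. -/
def IsWG (u : X n → ℝ) (G : Fin n → X n → ℝ) : Prop :=
  ∀ φ : X n → ℝ, ContDiff ℝ ∞ φ → HasCompactSupport φ → ∀ i : Fin n,
    ∫ x, u x * pd i φ x = - ∫ x, G i x * φ x

lemma pd_prod {f : Fin n → ℝ → ℝ} (hf : ∀ j, Differentiable ℝ (f j)) (i : Fin n) (x : X n) :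
    pd i (fun x => ∏ j, f j (x j)) x =
      deriv (f i) (x i) * ∏ j ∈ Finset.univ.erase i, f j (x j) := by
  have hd : DifferentiableAt ℝ (fun x : X n => ∏ j, f j (x j)) x := by
    have h : ∀ j ∈ (Finset.univ : Finset (Fin n)),
        DifferentiableAt ℝ (fun x : X n => f j (x j)) x := fun j _ =>
      ((hf j) (x j)).comp x (differentiableAt_apply j x)
    exact (HasFDerivAt.finsetProd (g := fun j (x : X n) => f j (x j))
      fun j hj => (h j hj).hasFDerivAt).differentiableAt
  rw [pd, ← hd.lineDeriv_eq_fderiv, lineDeriv]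
  have e : (fun t : ℝ => ∏ j, f j ((x + t • (Pi.single i 1 : X n)) j)) =
      fun t => f i (x i + t) * ∏ j ∈ Finset.univ.erase i, f j (x j) := by
    ext t
    rw [← Finset.mul_prod_erase _ _ (Finset.mem_univ i)]
    congr 1
    · simp
    · refine Finset.prod_congr rfl fun j hj => ?_
      have : j ≠ i := Finset.ne_of_mem_erase hj
      simp [this]
  rw [e, deriv_mul_const_field, deriv_comp_const_add, add_zero]

/-- The smooth step. -/
noncomputable abbrev st : ℝ → ℝ := Real.smoothTransition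

lemma contDiff_st : ContDiff ℝ ∞ st := Real.smoothTransition.contDiff

lemma deriv_st_zero_left {x : ℝ} (hx : x ≤ 0) : deriv st x = 0 := by
  refine IsLocalMin.deriv_eq_zero (Eventually.of_forall fun y => ?_)
  rw [st, Real.smoothTransition.zero_of_nonpos hx]
  exact Real.smoothTransition.nonneg y

lemma deriv_st_zero_right {x : ℝ} (hx : 1 ≤ x) : deriv st x = 0 := by
  refine IsLocalMax.deriv_eq_zero (Eventually.of_forall fun y => ?_)
  rw [st, Real.smoothTransition.one_of_one_le hx]
  exact Real.smoothTransition.le_one y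

lemma continuous_deriv_st : Continuous (deriv st) := contDiff_st.continuous_deriv (by simp)

lemma exists_bound_st : ∃ L : ℝ, 0 ≤ L ∧ ∀ x : ℝ, |x * deriv st x| ≤ L := by
  obtain ⟨C, hC⟩ := (isCompact_Icc (a := (0 : ℝ)) (b := 1)).exists_bound_of_continuousOn
    ((continuous_id.mul continuous_deriv_st).continuousOn)
  have h0 : 0 ≤ C := (norm_nonneg _).trans (hC 0 ⟨le_rfl, zero_le_one⟩)
  refine ⟨C, h0, fun x => ?_⟩
  rcases le_total x 0 with h | h
  · rw [deriv_st_zero_left h]; simpa using h0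
  rcases le_total 1 x with h' | h'
  · rw [deriv_st_zero_right h']; simpa using h0
  · exact hC x ⟨h, h'⟩

/-- The cutoff on the unit interval. -/
noncomputable def th (k : ℕ) (t : ℝ) : ℝ := st (k * t) * st (k * (1 - t))

lemma contDiff_th (k : ℕ) : ContDiff ℝ ∞ (th k) := by
  unfold th
  exact (contDiff_st.comp (contDiff_const.mul contDiff_id)).mul
    (contDiff_st.comp (contDiff_const.mul (contDiff_const.sub contDiff_id)))

lemma th_nonneg (k : ℕ) (t : ℝ) : 0 ≤ th k t :=
  mul_nonneg (Real.smoothTransition.nonneg _) (Real.smoothTransition.nonneg _)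

lemma th_le_one (k : ℕ) (t : ℝ) : th k t ≤ 1 :=
  mul_le_one₀ (Real.smoothTransition.le_one _) (Real.smoothTransition.nonneg _)
    (Real.smoothTransition.le_one _)

lemma th_zero (k : ℕ) {t : ℝ} (ht : t ∉ Ioo (0 : ℝ) 1) : th k t = 0 := by
  have hk : (0 : ℝ) ≤ k := Nat.cast_nonneg k
  rw [mem_Ioo, not_and_or, not_lt, not_lt] at ht
  rcases ht with h | h
  · rw [th, st, Real.smoothTransition.zero_of_nonpos (mul_nonpos_of_nonneg_of_nonpos hk h),
      zero_mul]
  · rw [th, st, Real.smoothTransition.zero_of_nonpos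
      (mul_nonpos_of_nonneg_of_nonpos hk (show 1 - t ≤ 0 by linarith)), mul_zero]

lemma deriv_th_zero (k : ℕ) {t : ℝ} (ht : t ∉ Ioo (0 : ℝ) 1) : deriv (th k) t = 0 := by
  refine IsLocalMin.deriv_eq_zero (Eventually.of_forall fun y => ?_)
  rw [th_zero k ht]
  exact th_nonneg k y

lemma th_eventually {t : ℝ} (ht : t ∈ Ioo (0 : ℝ) 1) :
    ∀ᶠ k : ℕ in atTop, th k =ᶠ[𝓝 t] fun _ => 1 := by
  have h1 : 0 < min t (1 - t) / 2 := by
    have := lt_min ht.1 (sub_pos.2 ht.2)
    positivity
  obtain ⟨K, hK⟩ := exists_nat_gt (1 / (min t (1 - t) / 2))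
  filter_upwards [eventually_ge_atTop K] with k hk
  have hkK : 1 / (min t (1 - t) / 2) < (k : ℝ) := hK.trans_le (by exact_mod_cast hk)
  have hk2 : 1 < (k : ℝ) * (min t (1 - t) / 2) := by rwa [div_lt_iff₀ h1] at hkK
  have hk0 : (0 : ℝ) ≤ k := Nat.cast_nonneg k
  have hnb : Ioo (t - min t (1 - t) / 2) (t + min t (1 - t) / 2) ∈ 𝓝 t :=
    Ioo_mem_nhds (by linarith) (by linarith)
  filter_upwards [hnb] with y hy
  have h2 := min_le_left t (1 - t)
  have h3 := min_le_right t (1 - t)
  have h4 : min t (1 - t) / 2 ≤ y := by linarith [hy.1]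
  have h5 : min t (1 - t) / 2 ≤ 1 - y := by linarith [hy.2]
  rw [th, st, Real.smoothTransition.one_of_one_le, Real.smoothTransition.one_of_one_le, mul_one]
  · exact hk2.le.trans (mul_le_mul_of_nonneg_left h5 hk0)
  · exact hk2.le.trans (mul_le_mul_of_nonneg_left h4 hk0)

lemma deriv_th (k : ℕ) (t : ℝ) : deriv (th k) t =
    k * deriv st (k * t) * st (k * (1 - t)) - k * deriv st (k * (1 - t)) * st (k * t) := by
  have hd : ∀ x, HasDerivAt st (deriv st x) x := fun x =>
    (contDiff_st.differentiable (by simp) x).hasDerivAt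
  have h1 : HasDerivAt (fun t : ℝ => st (k * t)) (deriv st (k * t) * (k * 1)) t :=
    (hd _).comp t ((hasDerivAt_id t).const_mul (k : ℝ))
  have h2 : HasDerivAt (fun t : ℝ => st (k * (1 - t))) (deriv st (k * (1 - t)) * (k * (0 - 1))) t :=
    (hd _).comp t (((hasDerivAt_const t (1 : ℝ)).sub (hasDerivAt_id t)).const_mul (k : ℝ))
  have h3 := (h1.mul h2).deriv
  change deriv (th k) t = _ at h3
  rw [h3]
  ring

lemma abs_sn_le (m : ℕ) (t : ℝ) : |sn m t| ≤ √2 * (Real.pi * m) * |t| := by
  rw [sn, abs_mul, abs_of_nonneg (Real.sqrt_nonneg _), mul_assoc (√2)]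
  refine mul_le_mul_of_nonneg_left ?_ (Real.sqrt_nonneg _)
  have h := Real.abs_sin_le_abs (x := Real.pi * m * t)
  rw [abs_mul, abs_of_nonneg (show (0 : ℝ) ≤ Real.pi * m by positivity)] at h
  exact h

lemma abs_sn_le' (m : ℕ) (t : ℝ) : |sn m t| ≤ √2 * (Real.pi * m) * |1 - t| := by
  have h : |sn m t| = |sn m (1 - t)| := by
    rw [sn, sn, abs_mul, abs_mul]
    congr 1
    have : Real.pi * m * (1 - t) = m * Real.pi - Real.pi * m * t := by ring
    rw [this, Real.sin_nat_mul_pi_sub]
    simp [abs_mul, abs_neg]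
  rw [h]
  exact abs_sn_le m _

lemma exists_bound_sn_th (m : ℕ) : ∃ L : ℝ, 0 ≤ L ∧ ∀ (k : ℕ) (t : ℝ),
    |sn m t * deriv (th k) t| ≤ L := by
  obtain ⟨L, hL0, hL⟩ := exists_bound_st
  refine ⟨√2 * (Real.pi * m) * L + √2 * (Real.pi * m) * L, by positivity, fun k t => ?_⟩
  have hc : 0 ≤ √2 * (Real.pi * m) := by positivity
  have hk : (0 : ℝ) ≤ k := Nat.cast_nonneg k
  have hst : ∀ x, |st x| ≤ 1 := fun x => by
    rw [abs_of_nonneg (Real.smoothTransition.nonneg x)]
    exact Real.smoothTransition.le_one x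
  rw [deriv_th, mul_sub]
  refine (abs_sub _ _).trans (add_le_add ?_ ?_)
  · calc |sn m t * (k * deriv st (k * t) * st (k * (1 - t)))|
        = |sn m t| * k * |deriv st (k * t)| * |st (k * (1 - t))| := by
          rw [abs_mul, abs_mul, abs_mul, abs_of_nonneg hk]; ring
      _ ≤ (√2 * (Real.pi * m) * |t|) * k * |deriv st (k * t)| * 1 := by
          gcongr
          · exact abs_sn_le m t
          · exact hst _
      _ = √2 * (Real.pi * m) * |k * t * deriv st (k * t)| := by
          rw [abs_mul, abs_mul, abs_of_nonneg hk]; ring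
      _ ≤ √2 * (Real.pi * m) * L := mul_le_mul_of_nonneg_left (hL _) hc
  · calc |sn m t * (k * deriv st (k * (1 - t)) * st (k * t))|
        = |sn m t| * k * |deriv st (k * (1 - t))| * |st (k * t)| := by
          rw [abs_mul, abs_mul, abs_mul, abs_of_nonneg hk]; ring
      _ ≤ (√2 * (Real.pi * m) * |1 - t|) * k * |deriv st (k * (1 - t))| * 1 := by
          gcongr
          · exact abs_sn_le' m t
          · exact hst _
      _ = √2 * (Real.pi * m) * |k * (1 - t) * deriv st (k * (1 - t))| := by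
          rw [abs_mul, abs_mul, abs_of_nonneg hk]; ring
      _ ≤ √2 * (Real.pi * m) * L := mul_le_mul_of_nonneg_left (hL _) hc

/-- The open unit cube. -/
def uo (n : ℕ) : Set (X n) := Set.pi univ (fun _ => Ioo (0 : ℝ) 1)

lemma measurableSet_uo (n : ℕ) : MeasurableSet (uo n) :=
  MeasurableSet.univ_pi fun _ => measurableSet_Ioo

lemma uo_ae_eq_uc (n : ℕ) : uo n =ᵐ[volume] uc n := by
  have h : uc n = Icc (fun _ => (0 : ℝ)) (fun _ => 1) := by
    rw [uc, ← Set.pi_univ_Icc]
  rw [h]
  exact Measure.univ_pi_Ioo_ae_eq_Icc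

lemma notMem_uo {x : X n} (hx : x ∉ uo n) : ∃ j, x j ∉ Ioo (0 : ℝ) 1 := by
  rw [uo, Set.mem_univ_pi] at hx
  push Not at hx
  exact hx

lemma abs_cs_le (m : ℕ) (t : ℝ) : |cs m t| ≤ √2 := by
  rw [cs, abs_mul, abs_of_nonneg (nc_pos m).le]
  calc nc m * |Real.cos (Real.pi * m * t)| ≤ √2 * 1 := by
        gcongr
        · exact nc_le m
        · exact Real.abs_cos_le_one _
    _ = √2 := mul_one _

lemma hasDerivAt_sn (m : ℕ) (hm : 1 ≤ m) (t : ℝ) :
    HasDerivAt (sn m) (Real.pi * m * cs m t) t := by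
  have h1 : HasDerivAt (fun t : ℝ => Real.pi * m * t) (Real.pi * m * 1) t :=
    (hasDerivAt_id t).const_mul _
  have h2 := (h1.sin).const_mul (√2)
  have h3 : √2 * (Real.cos (Real.pi * m * t) * (Real.pi * m * 1)) = Real.pi * m * cs m t := by
    have : m ≠ 0 := by omega
    simp only [cs, nc, this, if_false]
    ring
  rw [h3] at h2
  exact h2

/-- The truncated test functions. -/
noncomputable def tst (i : Fin n) (m : Fin n → ℕ) (k : ℕ) (x : X n) : ℝ :=
  ∏ j, ((if j = i then sn (m j) (x j) else cs (m j) (x j)) * th k (x j))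

/-- The one-dimensional factors. -/
noncomputable def fac (i : Fin n) (m : Fin n → ℕ) (k : ℕ) (j : Fin n) (t : ℝ) : ℝ :=
  (if j = i then sn (m j) t else cs (m j) t) * th k t

lemma contDiff_fac (i : Fin n) (m : Fin n → ℕ) (k : ℕ) (j : Fin n) :
    ContDiff ℝ ∞ (fac i m k j) := by
  unfold fac
  refine ContDiff.mul ?_ (contDiff_th k)
  split_ifs
  · unfold sn; fun_prop
  · unfold cs; fun_prop

lemma tst_eq (i : Fin n) (m : Fin n → ℕ) (k : ℕ) :
    tst i m k = fun x => ∏ j, fac i m k j (x j) := rfl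

lemma contDiff_tst (i : Fin n) (m : Fin n → ℕ) (k : ℕ) : ContDiff ℝ ∞ (tst i m k) := by
  rw [tst_eq]
  exact contDiff_prod fun j _ => (contDiff_fac i m k j).comp (contDiff_apply ℝ ℝ j)

lemma tst_zero (i : Fin n) (m : Fin n → ℕ) (k : ℕ) {x : X n} (hx : x ∉ uo n) :
    tst i m k x = 0 := by
  obtain ⟨j, hj⟩ := notMem_uo hx
  exact Finset.prod_eq_zero (Finset.mem_univ j) (by rw [th_zero k hj, mul_zero])

lemma hasCompactSupport_tst (i : Fin n) (m : Fin n → ℕ) (k : ℕ) :
    HasCompactSupport (tst i m k) := by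
  refine HasCompactSupport.intro (isCompact_uc n) fun x hx => tst_zero i m k fun h => hx ?_
  intro j hj
  exact Ioo_subset_Icc_self (h j hj)

lemma pd_tst (i : Fin n) {m : Fin n → ℕ} (hm : 1 ≤ m i) (k : ℕ) (x : X n) :
    pd i (tst i m k) x = (Real.pi * m i * cs (m i) (x i) * th k (x i) +
      sn (m i) (x i) * deriv (th k) (x i)) *
      ∏ j ∈ Finset.univ.erase i, (cs (m j) (x j) * th k (x j)) := by
  rw [tst_eq, pd_prod fun j => (contDiff_fac i m k j).differentiable (by simp)]
  congr 1
  · have h1 : fac i m k i = fun t => sn (m i) t * th k t := by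
      ext t; simp [fac]
    rw [h1]
    exact ((hasDerivAt_sn (m i) hm (x i)).mul
      ((contDiff_th k).differentiable (by simp) (x i)).hasDerivAt).deriv
  · refine Finset.prod_congr rfl fun j hj => ?_
    simp [fac, Finset.ne_of_mem_erase hj]

lemma pd_tst_zero (i : Fin n) {m : Fin n → ℕ} (hm : 1 ≤ m i) (k : ℕ) {x : X n} (hx : x ∉ uo n) :
    pd i (tst i m k) x = 0 := by
  rw [pd_tst i hm]
  obtain ⟨j, hj⟩ := notMem_uo hx
  by_cases hji : j = i
  · subst hji
    rw [th_zero k hj, deriv_th_zero k hj]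
    ring
  · rw [Finset.prod_eq_zero (Finset.mem_erase.2 ⟨hji, Finset.mem_univ j⟩)
      (by rw [th_zero k hj, mul_zero]), mul_zero]

lemma abs_prod_le {s : Finset (Fin n)} {f : Fin n → ℝ} {C : ℝ} (h : ∀ j ∈ s, |f j| ≤ C) :
    |∏ j ∈ s, f j| ≤ C ^ s.card := by
  rw [Finset.abs_prod, ← Finset.prod_const]
  exact Finset.prod_le_prod (fun _ _ => abs_nonneg _) h

lemma exists_bound_pd_tst (i : Fin n) {m : Fin n → ℕ} (hm : 1 ≤ m i) :
    ∃ L : ℝ, ∀ (k : ℕ) (x : X n), |pd i (tst i m k) x| ≤ L := by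
  obtain ⟨L, hL0, hL⟩ := exists_bound_sn_th (m i)
  refine ⟨(Real.pi * m i * √2 + L) * √2 ^ (Finset.univ.erase i).card, fun k x => ?_⟩
  rw [pd_tst i hm, abs_mul]
  have hth : ∀ t, |th k t| ≤ 1 := fun t => by
    rw [abs_of_nonneg (th_nonneg k t)]; exact th_le_one k t
  have h1 : |Real.pi * m i * cs (m i) (x i) * th k (x i) + sn (m i) (x i) * deriv (th k) (x i)| ≤
      Real.pi * m i * √2 + L := by
    refine (abs_add_le _ _).trans (add_le_add ?_ (hL k _))
    rw [abs_mul, abs_mul, abs_of_nonneg (show (0 : ℝ) ≤ Real.pi * m i by positivity)]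
    calc Real.pi * m i * |cs (m i) (x i)| * |th k (x i)| ≤ Real.pi * m i * √2 * 1 := by
          gcongr
          · exact abs_cs_le _ _
          · exact hth _
      _ = _ := mul_one _
  refine mul_le_mul h1 (abs_prod_le fun j _ => ?_) (abs_nonneg _) (by positivity)
  rw [abs_mul]
  calc |cs (m j) (x j)| * |th k (x j)| ≤ √2 * 1 := by
        gcongr
        · exact abs_cs_le _ _
        · exact hth _
    _ = _ := mul_one _

lemma exists_bound_tst (i : Fin n) (m : Fin n → ℕ) :
    ∃ L : ℝ, ∀ (k : ℕ) (x : X n), |tst i m k x| ≤ L := by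
  refine ⟨√2 ^ (Finset.univ : Finset (Fin n)).card, fun k x => abs_prod_le fun j _ => ?_⟩
  rw [abs_mul]
  have hsn : ∀ (m : ℕ) (t : ℝ), |sn m t| ≤ √2 := by
    intro m t
    rw [sn, abs_mul, abs_of_nonneg (Real.sqrt_nonneg _)]
    calc √2 * |Real.sin (Real.pi * m * t)| ≤ √2 * 1 := by
          gcongr
          exact Real.abs_sin_le_one _
      _ = √2 := mul_one _
  calc |if j = i then sn (m j) (x j) else cs (m j) (x j)| * |th k (x j)| ≤ √2 * 1 := by
        gcongr
        · split_ifs
          · exact hsn _ _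
          · exact abs_cs_le _ _
        · rw [abs_of_nonneg (th_nonneg k _)]; exact th_le_one k _
    _ = _ := mul_one _

lemma tendsto_tst (i : Fin n) (m : Fin n → ℕ) {x : X n} (hx : x ∈ uo n) :
    Tendsto (fun k => tst i m k x) atTop (𝓝 (sf i m x)) := by
  unfold tst sf
  refine tendsto_finsetProd _ fun j _ => ?_
  have h1 : Tendsto (fun k => th k (x j)) atTop (𝓝 1) := by
    refine tendsto_const_nhds.congr' ?_
    filter_upwards [th_eventually (hx j (mem_univ j))] with k hk
    exact hk.eq_of_nhds.symm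
  simpa using (tendsto_const_nhds (x := (if j = i then sn (m j) (x j) else cs (m j) (x j)))).mul h1

lemma tendsto_pd_tst (i : Fin n) {m : Fin n → ℕ} (hm : 1 ≤ m i) {x : X n} (hx : x ∈ uo n) :
    Tendsto (fun k => pd i (tst i m k) x) atTop (𝓝 (Real.pi * m i * ef m x)) := by
  simp_rw [pd_tst i hm]
  have h1 : ∀ j, Tendsto (fun k => th k (x j)) atTop (𝓝 1) := fun j => by
    refine tendsto_const_nhds.congr' ?_
    filter_upwards [th_eventually (hx j (mem_univ j))] with k hk
    exact hk.eq_of_nhds.symm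
  have h2 : Tendsto (fun k => deriv (th k) (x i)) atTop (𝓝 0) := by
    refine tendsto_const_nhds.congr' ?_
    filter_upwards [th_eventually (hx i (mem_univ i))] with k hk
    rw [hk.deriv_eq]
    simp
  have h3 : Tendsto (fun k => ∏ j ∈ Finset.univ.erase i, (cs (m j) (x j) * th k (x j))) atTop
      (𝓝 (∏ j ∈ Finset.univ.erase i, (cs (m j) (x j) * 1))) :=
    tendsto_finsetProd _ fun j _ => tendsto_const_nhds.mul (h1 j)
  have h4 := (((tendsto_const_nhds (x := Real.pi * m i * cs (m i) (x i))).mul (h1 i)).add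
    ((tendsto_const_nhds (x := sn (m i) (x i))).mul h2)).mul h3
  have h5 : (Real.pi * m i * cs (m i) (x i) * 1 + sn (m i) (x i) * 0) *
      ∏ j ∈ Finset.univ.erase i, (cs (m j) (x j) * 1) = Real.pi * m i * ef m x := by
    rw [ef, ← Finset.mul_prod_erase _ _ (Finset.mem_univ i)]
    simp only [mul_one]
    ring
  rw [h5] at h4
  exact h4

/-- Integration by parts on the unit cube. -/
theorem cube_ibp {u : X n → ℝ} {G : Fin n → X n → ℝ} (hu : MemLp u 2 (cm n))
    (hG : ∀ i, MemLp (G i) 2 (cm n)) (hw : IsWG u G) (i : Fin n) (m : Fin n → ℕ)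
    (hm : 1 ≤ m i) :
    ∫ x in uc n, G i x * sf i m x = - (Real.pi * m i) * ∫ x in uc n, u x * ef m x := by
  have hr : (volume : Measure (X n)).restrict (uo n) = cm n :=
    Measure.restrict_congr_set (uo_ae_eq_uc n)
  have hui : Integrable u (volume.restrict (uo n)) := by rw [hr]; exact hu.integrable one_le_two
  have hGi : Integrable (G i) (volume.restrict (uo n)) := by
    rw [hr]; exact (hG i).integrable one_le_two
  -- the weak formulation for the truncated test functions
  have hk : ∀ k, ∫ x in uo n, u x * pd i (tst i m k) x = - ∫ x in uo n, G i x * tst i m k x := by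
    intro k
    have h1 := hw (tst i m k) (contDiff_tst i m k) (hasCompactSupport_tst i m k) i
    rw [← integral_indicator (measurableSet_uo n), ← integral_indicator (measurableSet_uo n)]
    have e1 : (uo n).indicator (fun x => u x * pd i (tst i m k) x) =
        fun x => u x * pd i (tst i m k) x := by
      ext x
      by_cases hx : x ∈ uo n
      · rw [indicator_of_mem hx]
      · rw [indicator_of_notMem hx, pd_tst_zero i hm k hx, mul_zero]
    have e2 : (uo n).indicator (fun x => G i x * tst i m k x) =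
        fun x => G i x * tst i m k x := by
      ext x
      by_cases hx : x ∈ uo n
      · rw [indicator_of_mem hx]
      · rw [indicator_of_notMem hx, tst_zero i m k hx, mul_zero]
    rw [e1, e2]
    exact h1
  obtain ⟨L1, hL1⟩ := exists_bound_pd_tst i hm
  obtain ⟨L2, hL2⟩ := exists_bound_tst i m
  have t1 : Tendsto (fun k => ∫ x in uo n, u x * pd i (tst i m k) x) atTop
      (𝓝 (∫ x in uo n, u x * (Real.pi * m i * ef m x))) := by
    refine tendsto_integral_of_dominated_convergence (fun x => |u x| * L1) ?_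
      (hui.abs.mul_const _) ?_ ?_
    · intro k
      exact hui.aestronglyMeasurable.mul
        (continuous_pd ((contDiff_tst i m k).of_le (by simp)) i).aestronglyMeasurable
    · intro k
      refine ae_of_all _ fun x => ?_
      rw [Real.norm_eq_abs, abs_mul]
      exact mul_le_mul_of_nonneg_left (hL1 k x) (abs_nonneg _)
    · refine (ae_restrict_iff' (measurableSet_uo n)).2 (ae_of_all _ fun x hx => ?_)
      exact tendsto_const_nhds.mul (tendsto_pd_tst i hm hx)
  have t2 : Tendsto (fun k => ∫ x in uo n, G i x * tst i m k x) atTop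
      (𝓝 (∫ x in uo n, G i x * sf i m x)) := by
    refine tendsto_integral_of_dominated_convergence (fun x => |G i x| * L2) ?_
      (hGi.abs.mul_const _) ?_ ?_
    · intro k
      exact hGi.aestronglyMeasurable.mul (contDiff_tst i m k).continuous.aestronglyMeasurable
    · intro k
      refine ae_of_all _ fun x => ?_
      rw [Real.norm_eq_abs, abs_mul]
      exact mul_le_mul_of_nonneg_left (hL2 k x) (abs_nonneg _)
    · refine (ae_restrict_iff' (measurableSet_uo n)).2 (ae_of_all _ fun x hx => ?_)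
      exact tendsto_const_nhds.mul (tendsto_tst i m hx)
  simp_rw [hk] at t1
  have h2 := tendsto_nhds_unique t1 t2.neg
  rw [hr] at h2
  change ∫ x in uc n, u x * (Real.pi * m i * ef m x) = - ∫ x in uc n, G i x * sf i m x at h2
  have e3 : ∀ x, u x * (Real.pi * m i * ef m x) = Real.pi * m i * (u x * ef m x) :=
    fun x => by ring
  simp_rw [e3] at h2
  rw [integral_const_mul] at h2
  linarith

end Pool.Agent.Work.MP_280d1a_an
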