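import Mathlib

/-!
# Dirichlet eigenvalues of quasi-open sets and the De Giorgi perimeter: definitions
-/

set_option autoImplicit false

open MeasureTheory Set
open scoped ENNReal

namespace Pool.Agent.Work.MP_280d1a_an

/-- Euclidean space of dimension `N`. -/
abbrev E (N : ℕ) : Type := EuclideanSpace ℝ (Fin N)

/-- The `i`-th vector of the standard basis. -/
noncomputable def bv {N : ℕ} (i : Fin N) : E N := EuclideanSpace.single i (1 : ℝ)

/-- The divergence of a vector field. -/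
noncomputable def divergence {N : ℕ} (φ : E N → E N) (x : E N) : ℝ :=
  ∑ i : Fin N, (fderiv ℝ φ x (bv i)) i

/-- Test fields for the perimeter: compactly supported fields of class `C¹` of norm at most one. -/
def IsTestField {N : ℕ} (φ : E N → E N) : Prop :=
  ContDiff ℝ 1 φ ∧ HasCompactSupport φ ∧ ∀ x, ‖φ x‖ ≤ 1

/-- The De Giorgi perimeter: the supremum of the integrals over `Ω` of the divergences of the test
fields. -/
noncomputable def perimeter {N : ℕ} (Ω : Set (E N)) : ℝ≥0∞ :=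
  ⨆ (φ : E N → E N) (_ : IsTestField φ), ENNReal.ofReal (∫ x in Ω, divergence φ x)

/-- `G` is the weak gradient of `u`. -/
def IsWeakGradient {N : ℕ} (u : E N → ℝ) (G : E N → E N) : Prop :=
  ∀ φ : E N → ℝ, ContDiff ℝ (⊤ : ℕ∞) φ → HasCompactSupport φ → ∀ i : Fin N,
    ∫ x, u x * fderiv ℝ φ x (bv i) = - ∫ x, G x i * φ x

/-- `u` belongs to the Sobolev space `H¹(ℝᴺ)`, with weak gradient `G`. -/
def IsH1 {N : ℕ} (u : E N → ℝ) (G : E N → E N) : Prop :=
  MemLp u 2 volume ∧ MemLp G 2 volume ∧ IsWeakGradient u G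

/-- The Sobolev capacity of a set: the infimum of `∫ (u² + |∇u|²)` over the `u ∈ H¹(ℝᴺ)` which are
at least one almost everywhere on an open neighbourhood of the set. -/
noncomputable def capacity {N : ℕ} (A : Set (E N)) : ℝ≥0∞ :=
  ⨅ (u : E N → ℝ) (G : E N → E N) (_ : IsH1 u G)
    (_ : ∃ U : Set (E N), IsOpen U ∧ A ⊆ U ∧ ∀ᵐ x, x ∈ U → 1 ≤ u x),
    ENNReal.ofReal (∫ x, (u x ^ 2 + ‖G x‖ ^ 2))

/-- Quasi-open sets: open up to open sets of arbitrarily small capacity. -/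
def IsQuasiOpen {N : ℕ} (Ω : Set (E N)) : Prop :=
  ∀ ε : ℝ≥0∞, 0 < ε → ∃ ω : Set (E N), IsOpen ω ∧ capacity ω < ε ∧ IsOpen (Ω ∪ ω)

/-- Quasi-continuous functions: continuous off open sets of arbitrarily small capacity. -/
def IsQuasiContinuous {N : ℕ} (v : E N → ℝ) : Prop :=
  ∀ ε : ℝ≥0∞, 0 < ε → ∃ ω : Set (E N), IsOpen ω ∧ capacity ω < ε ∧ ContinuousOn v ωᶜ

/-- `u` belongs to `H¹₀(Ω)`, with weak gradient `G`: it is in `H¹(ℝᴺ)` and its quasi-continuous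
representative vanishes quasi-everywhere outside `Ω`. -/
def IsH10 {N : ℕ} (Ω : Set (E N)) (u : E N → ℝ) (G : E N → E N) : Prop :=
  IsH1 u G ∧ ∃ v : E N → ℝ, v =ᵐ[volume] u ∧ IsQuasiContinuous v ∧
    capacity {x | x ∉ Ω ∧ v x ≠ 0} = 0

/-- There is a `k`-dimensional subspace of `H¹₀(Ω)`, spanned by `u 1, …, u k`, on which the
Rayleigh quotient is at most `Λ`. -/
def HasTrialSpace {N : ℕ} (k : ℕ) (Ω : Set (E N)) (Λ : ℝ) : Prop :=
  ∃ (u : Fin k → E N → ℝ) (G : Fin k → E N → E N), (∀ j, IsH10 Ω (u j) (G j)) ∧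
    ∀ c : Fin k → ℝ, c ≠ 0 → 0 < ∫ x, (∑ j, c j * u j x) ^ 2 ∧
      ∫ x, ‖∑ j, c j • G j x‖ ^ 2 ≤ Λ * ∫ x, (∑ j, c j * u j x) ^ 2

/-- The `k`-th Dirichlet eigenvalue `λ_k(Ω)` of the Laplacian (`k ≥ 1`), given by the min-max of
the Rayleigh quotient over the `k`-dimensional subspaces of `H¹₀(Ω)`. -/
noncomputable def eigenvalue {N : ℕ} (k : ℕ) (Ω : Set (E N)) : ℝ≥0∞ :=
  ⨅ (Λ : ℝ) (_ : HasTrialSpace k Ω Λ), ENNReal.ofReal Λ

/-- `Ω` is a competitor in the perimeter-constrained problem: a quasi-open set of finite measure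
and of perimeter at most `P₀`. -/
def IsCompetitor {N : ℕ} (P₀ : ℝ) (Ω : Set (E N)) : Prop :=
  IsQuasiOpen Ω ∧ volume Ω < ⊤ ∧ perimeter Ω ≤ ENNReal.ofReal P₀

/-- `Ω` is a minimizer of `λ_k` under the constraint `P(Ω) ≤ P₀`. -/
def IsMinimizer {N : ℕ} (P₀ : ℝ) (k : ℕ) (Ω : Set (E N)) : Prop :=
  IsCompetitor P₀ Ω ∧ ∀ Ω' : Set (E N), IsCompetitor P₀ Ω' → eigenvalue k Ω ≤ eigenvalue k Ω'

/-- The `L¹` distance, up to translations, of `Ω` to the ball of radius `r` centred at `0`. -/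
noncomputable def distToBall {N : ℕ} (r : ℝ) (Ω : Set (E N)) : ℝ≥0∞ :=
  ⨅ x : E N, volume (symmDiff ((fun y => x + y) '' Ω) (Metric.ball (0 : E N) r))

end Pool.Agent.Work.MP_280d1a_an
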