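import Pool.Agent.Work.MP_280d1a_an.IsoSet

/-! Stability of the isoperimetric inequality for sets of finite perimeter. -/

namespace Pool.Agent.Work.MP_280d1a_an

open MeasureTheory Set Filter Topology Iso

lemma tl_mem_ball {N : ℕ} {r : ℝ} (hr : 0 < r) (x : X N) :
    tl N x ∈ Metric.ball (0 : E N) r ↔ ssq x < r ^ 2 := by
  rw [mem_ball_zero_iff, EuclideanSpace.norm_eq, Real.sqrt_lt' hr]
  have : ∑ i, ‖(tl N x) i‖ ^ 2 = ssq x := by
    unfold ssq
    apply Finset.sum_congr rfl
    intro i _
    rw [Real.norm_eq_abs, sq_abs]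
    rfl
  rw [this]

lemma vol_ball_E {N : ℕ} {r : ℝ} (hr : 0 < r) :
    volume (Metric.ball (0 : E N) r) = ENNReal.ofReal (r ^ N * om N) := by
  have h1 : volume (tl N ⁻¹' Metric.ball (0 : E N) r) = volume (Metric.ball (0 : E N) r) :=
    (mp_tl N).measure_preimage_emb (me_tl N) _
  have h2 : tl N ⁻¹' Metric.ball (0 : E N) r = {x : X N | ssq x < r ^ 2} := by
    ext x
    exact tl_mem_ball hr x
  rw [← h1, h2, vol_ball hr.le, if_neg hr.ne']

lemma vol_ball_one (N : ℕ) : (volume (Metric.ball (0 : E N) 1)).toReal = om N := by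
  rw [vol_ball_E one_pos, one_pow, one_mul, ENNReal.toReal_ofReal (om_pos N).le]

theorem isoperimetric_stability {N : ℕ} (hN : 2 ≤ N) {r P0 : ℝ} (hr : 0 < r)
    (hP : P0 ≤ N * (volume (Metric.ball (0 : E N) 1)).toReal * r ^ (N - 1))
    (Om : ℕ → Set (E N)) (hm : ∀ k, MeasurableSet (Om k)) (hfin : ∀ k, volume (Om k) < ⊤)
    (hper : ∀ k, perimeter (Om k) ≤ ENNReal.ofReal P0)
    (hvol : ∀ ε : ℝ, 0 < ε → ∀ᶠ k in atTop,
      volume (Metric.ball (0 : E N) r) ≤ volume (Om k) + ENNReal.ofReal ε) :
    Tendsto (fun k => distToBall r (Om k)) atTop (𝓝 0) := by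
  obtain ⟨n, rfl⟩ : ∃ n, N = n + 1 := ⟨N - 1, by omega⟩
  have hn : n ≠ 0 := by omega
  rw [vol_ball_one, Nat.add_sub_cancel] at hP
  push_cast at hP
  have hom := om_pos (n + 1)
  set P : ℝ := (n + 1) * om (n + 1) * r ^ n with hPd
  have hP0 : 0 ≤ P := by positivity
  set A : ℕ → Set (X (n + 1)) := fun k => tl (n + 1) ⁻¹' Om k with hAd
  have hAm : ∀ k, MeasurableSet (A k) := fun k => (me_tl (n + 1)).measurable (hm k)
  have hAv : ∀ k, volume (A k) = volume (Om k) := fun k =>
    (mp_tl (n + 1)).measure_preimage_emb (me_tl (n + 1)) _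
  have hAfin : ∀ k, volume (A k) < ⊤ := fun k => by rw [hAv]; exact hfin k
  have happr : ∀ k, Appr (A k) P := fun k => by
    apply appr_of_perimeter (hm k) (hfin k) hP0
    exact (hper k).trans (ENNReal.ofReal_le_ofReal hP)
  have hε : ∀ k : ℕ, (0 : ℝ) < 1 / ((k : ℝ) + 1) := fun k => by positivity
  choose f hf1 hf2 hf3 using fun k => happr k (1 / ((k : ℝ) + 1)) (hε k)
  -- rescaling
  set v : ℕ → X (n + 1) → ℝ := fun k x => f k (r • x) with hvd
  set A' : ℕ → Set (X (n + 1)) := fun k => (fun x => r • x) ⁻¹' A k with hA'd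
  have hv : ∀ k, IsC (v k) := fun k => IsC_comp_smul (hf1 k) hr.ne'
  have hA'm : ∀ k, MeasurableSet (A' k) := fun k => (measurable_const_smul r) (hAm k)
  have hsc : |(r ^ Module.finrank ℝ (X (n + 1)))⁻¹| = (r ^ (n + 1))⁻¹ := by
    rw [Module.finrank_pi, Fintype.card_fin, abs_of_pos (by positivity)]
  have hvs : ∀ s : Set (X (n + 1)), volume ((fun x => r • x) ⁻¹' s) =
      ENNReal.ofReal ((r ^ (n + 1))⁻¹) * volume s := by
    intro s
    rw [Measure.addHaar_preimage_smul volume hr.ne', hsc]
  have his : ∀ g : X (n + 1) → ℝ, ∫ x, g (r • x) = (r ^ (n + 1))⁻¹ * ∫ x, g x := by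
    intro g
    rw [Measure.integral_comp_smul, hsc, smul_eq_mul]
  have hA'fin : ∀ k, volume (A' k) < ⊤ := fun k => by
    rw [hA'd]; simp only
    rw [hvs]; exact ENNReal.mul_lt_top ENNReal.ofReal_lt_top (hAfin k)
  have hk0 : Tendsto (fun k : ℕ => 1 / ((k : ℝ) + 1)) atTop (𝓝 0) :=
    tendsto_one_div_add_atTop_nhds_zero_nat
  have hδ : ∀ k, ∫ x, |v k x - ind (A' k) x| ≤ (r ^ (n + 1))⁻¹ * (1 / ((k : ℝ) + 1)) := by
    intro k
    have e : ∫ x, |v k x - ind (A' k) x| = ∫ x, (fun y => |f k y - ind (A k) y|) (r • x) := rfl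
    rw [e, his (fun y => |f k y - ind (A k) y|)]
    exact mul_le_mul_of_nonneg_left (hf2 k) (by positivity)
  have happ : Tendsto (fun k => ∫ x, |v k x - ind (A' k) x|) atTop (𝓝 0) := by
    apply squeeze_zero (fun k => integral_nonneg fun _ => abs_nonneg _) hδ
    have := hk0.const_mul ((r ^ (n + 1))⁻¹)
    simpa using this
  set p : ℕ → ℝ := fun k => (r ^ n)⁻¹ * (P + 1 / ((k : ℝ) + 1)) with hpd
  have hp : Tendsto p atTop (𝓝 ((n + 1) * om (n + 1))) := by
    have := (hk0.const_add P).const_mul ((r ^ n)⁻¹)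
    have e : (r ^ n)⁻¹ * (P + 0) = (n + 1) * om (n + 1) := by
      rw [hPd]; field_simp; ring
    rwa [e] at this
  have hgn : ∀ k, ∫ x, Iso.gn (v k) x ≤ p k := by
    intro k
    have e1 : ∀ x, Iso.gn (v k) x = r * (fun y => gn (f k) y) (r • x) := fun x =>
      gn_comp_smul (f k) hr.le x
    simp only [e1]
    rw [integral_const_mul]
    have e2 : ∫ x, gn (f k) (r • x) = (r ^ (n + 1))⁻¹ * ∫ x, gn (f k) x := his (gn (f k))
    rw [e2]
    have e3 : r * ((r ^ (n + 1))⁻¹ * ∫ x, gn (f k) x) = (r ^ n)⁻¹ * ∫ x, gn (f k) x := by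
      rw [pow_succ]; field_simp
    rw [e3]
    exact mul_le_mul_of_nonneg_left (hf3 k) (by positivity)
  have hlow : ∀ ε : ℝ, 0 < ε → ∀ᶠ k in atTop, om (n + 1) - ε ≤ (volume (A' k)).toReal := by
    intro ε hε
    filter_upwards [hvol (ε * r ^ (n + 1)) (by positivity)] with k hk
    rw [vol_ball_E hr, ← hAv] at hk
    have e1 : (volume (A' k)).toReal = (r ^ (n + 1))⁻¹ * (volume (A k)).toReal := by
      rw [hA'd]; simp only
      rw [hvs, ENNReal.toReal_mul, ENNReal.toReal_ofReal (by positivity)]
    have e2 : r ^ (n + 1) * om (n + 1) ≤ (volume (A k)).toReal + ε * r ^ (n + 1) := by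
      have h1 := ENNReal.toReal_mono
        (ENNReal.add_ne_top.2 ⟨(hAfin k).ne, ENNReal.ofReal_ne_top⟩) hk
      rw [ENNReal.toReal_ofReal (by positivity),
        ENNReal.toReal_add (hAfin k).ne ENNReal.ofReal_ne_top,
        ENNReal.toReal_ofReal (by positivity)] at h1
      exact h1
    rw [e1, ← div_eq_inv_mul, le_div_iff₀ (by positivity)]
    linarith
  have hAE : AE n v := AE_of_sets hn hA'm hA'fin hv happ hp hgn hlow
  have hl1 := hAE.l1_tendsto hn
  -- the translated sets
  set c : ℕ → X (n + 1) := fun k => cvec v k with hc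
  set d : ℕ → ℝ := fun k => ∫ x, |ind (A' k) (x + c k) - iB (n + 1) x| with hd
  have hii : ∀ k, Integrable (fun x => ind (A' k) (x + c k)) := fun k =>
    (integrable_ind' (hA'm k) (hA'fin k)).comp_add_right (c k)
  have hvi : ∀ k, Integrable (fun x => v k (x + c k)) := fun k =>
    (hv k).integrable.comp_add_right (c k)
  have hBi := integrable_iB (n + 1)
  have hdt : Tendsto d atTop (𝓝 0) := by
    have h1 := happ.add hl1
    rw [add_zero] at h1
    refine squeeze_zero (fun k => integral_nonneg fun _ => abs_nonneg _) (fun k => ?_) h1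
    have e1 : ∫ x, |v k x - ind (A' k) x| = ∫ x, |v k (x + c k) - ind (A' k) (x + c k)| :=
      (integral_add_right_eq_self (fun x => |v k x - ind (A' k) x|) (c k)).symm
    have i1 : Integrable (fun x => |v k (x + c k) - ind (A' k) (x + c k)|) :=
      ((hvi k).sub (hii k)).abs
    have i2 : Integrable (fun x => |v k (x + c k) - iB (n + 1) x|) := ((hvi k).sub hBi).abs
    have i3 : Integrable (fun x => |ind (A' k) (x + c k) - iB (n + 1) x|) := ((hii k).sub hBi).abs
    rw [e1, hd]
    simp only
    rw [← integral_add i1 i2]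
    apply integral_mono i3 (i1.add i2)
    intro x
    show |ind (A' k) (x + c k) - iB (n + 1) x| ≤ |v k (x + c k) - ind (A' k) (x + c k)| +
      |v k (x + c k) - iB (n + 1) x|
    have := abs_sub_le (ind (A' k) (x + c k)) (v k (x + c k)) (iB (n + 1) x)
    rw [abs_sub_comm (ind (A' k) (x + c k)) (v k (x + c k))] at this
    exact this
  -- conclusion
  have hle : ∀ k, distToBall r (Om k) ≤ ENNReal.ofReal (r ^ (n + 1) * d k) := by
    intro k
    set z : E (n + 1) := tl (n + 1) (r • c k) with hz
    set S : Set (E (n + 1)) := symmDiff ((fun y => -z + y) '' Om k)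
      (Metric.ball (0 : E (n + 1)) r) with hS
    have e0 : distToBall r (Om k) ≤ volume S := iInf_le _ (-z)
    have e1 : volume (tl (n + 1) ⁻¹' S) = volume S :=
      (mp_tl (n + 1)).measure_preimage_emb (me_tl (n + 1)) _
    have e2 := hvs (tl (n + 1) ⁻¹' S)
    set T : Set (X (n + 1)) := (fun x => r • x) ⁻¹' (tl (n + 1) ⁻¹' S) with hT
    have e3 : volume S = ENNReal.ofReal (r ^ (n + 1)) * volume T := by
      rw [e2, ← e1, ← mul_assoc, ← ENNReal.ofReal_mul (by positivity),
        mul_inv_cancel₀ (by positivity), ENNReal.ofReal_one, one_mul]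
    have himg : ∀ y : E (n + 1), y ∈ (fun y => -z + y) '' Om k ↔ z + y ∈ Om k := by
      intro y
      constructor
      · rintro ⟨w, hw, rfl⟩
        simpa using hw
      · intro h
        exact ⟨z + y, h, by simp⟩
    have h4 : ∀ x, (tl (n + 1) (r • x) ∈ (fun y => -z + y) '' Om k ↔ x + c k ∈ A' k) := by
      intro x
      rw [himg]
      have : z + tl (n + 1) (r • x) = tl (n + 1) (r • (x + c k)) := by
        have h1 : r • (x + c k) = r • c k + r • x := by
          rw [smul_add, add_comm (r • x) (r • c k)]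
        rw [hz, h1]
        rfl
      rw [this]
      rfl
    have h5 : ∀ x, (tl (n + 1) (r • x) ∈ Metric.ball (0 : E (n + 1)) r ↔ x ∈ BB (n + 1)) := by
      intro x
      rw [tl_mem_ball hr]
      have : ssq (r • x) = r ^ 2 * ssq x := by
        simp only [ssq, Pi.smul_apply, smul_eq_mul, mul_pow, Finset.mul_sum]
      rw [this]
      show r ^ 2 * ssq x < r ^ 2 ↔ ssq x < 1
      constructor
      · intro h
        by_contra hcon
        push Not at hcon
        nlinarith [sq_nonneg r]
      · intro h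
        have : 0 < r ^ 2 := by positivity
        nlinarith
    have hTm : MeasurableSet T := by
      have : T = symmDiff ((fun x => x + c k) ⁻¹' A' k) (BB (n + 1)) := by
        ext x
        simp only [hT, mem_preimage, hS, mem_symmDiff, h4, h5]
      rw [this]
      exact ((measurable_add_const (c k)) (hA'm k)).symmDiff (measurableSet_BB _)
    have hTi : (fun x => |ind (A' k) (x + c k) - iB (n + 1) x|) = T.indicator (fun _ => (1 : ℝ)) := by
      funext x
      by_cases ha : x + c k ∈ A' k <;> by_cases hb : x ∈ BB (n + 1)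
      · have hxT : x ∉ T := by
          simp only [hT, mem_preimage, hS, mem_symmDiff, h4, h5]; tauto
        have i1 : ind (A' k) (x + c k) = 1 := indicator_of_mem ha _
        have i2 : iB (n + 1) x = 1 := indicator_of_mem hb _
        rw [indicator_of_notMem hxT, i1, i2]; norm_num
      · have hxT : x ∈ T := by
          simp only [hT, mem_preimage, hS, mem_symmDiff, h4, h5]; tauto
        have i1 : ind (A' k) (x + c k) = 1 := indicator_of_mem ha _
        have i2 : iB (n + 1) x = 0 := indicator_of_notMem hb _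
        rw [indicator_of_mem hxT, i1, i2]; norm_num
      · have hxT : x ∈ T := by
          simp only [hT, mem_preimage, hS, mem_symmDiff, h4, h5]; tauto
        have i1 : ind (A' k) (x + c k) = 0 := indicator_of_notMem ha _
        have i2 : iB (n + 1) x = 1 := indicator_of_mem hb _
        rw [indicator_of_mem hxT, i1, i2]; norm_num
      · have hxT : x ∉ T := by
          simp only [hT, mem_preimage, hS, mem_symmDiff, h4, h5]; tauto
        have i1 : ind (A' k) (x + c k) = 0 := indicator_of_notMem ha _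
        have i2 : iB (n + 1) x = 0 := indicator_of_notMem hb _
        rw [indicator_of_notMem hxT, i1, i2]; norm_num
    have i3 : Integrable (fun x => |ind (A' k) (x + c k) - iB (n + 1) x|) := ((hii k).sub hBi).abs
    have hTd : volume T = ENNReal.ofReal (d k) := by
      rw [hd]
      simp only
      have hTfin : volume T < ⊤ := by
        rw [hTi] at i3
        have := (integrable_indicator_iff hTm).1 i3
        rwa [IntegrableOn, integrable_const_iff_isFiniteMeasure one_ne_zero,
          isFiniteMeasure_restrict, ← lt_top_iff_ne_top] at this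
      rw [hTi, integral_indicator hTm, setIntegral_const, smul_eq_mul, mul_one, Measure.real,
        ENNReal.ofReal_toReal hTfin.ne]
    rw [e3, hTd, ← ENNReal.ofReal_mul (by positivity)] at e0
    exact e0
  have hlim : Tendsto (fun k => ENNReal.ofReal (r ^ (n + 1) * d k)) atTop (𝓝 0) := by
    have := (ENNReal.continuous_ofReal.tendsto _).comp (hdt.const_mul (r ^ (n + 1)))
    rw [mul_zero, ENNReal.ofReal_zero] at this
    exact this
  exact tendsto_of_tendsto_of_tendsto_of_le_of_le tendsto_const_nhds hlim (fun k => zero_le) hle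

end Pool.Agent.Work.MP_280d1a_an
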