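import Pool.Agent.Work.MP_280d1a_an.Asym
import Pool.Agent.Work.MP_280d1a_an.IsoFinal
import Pool.Agent.Work.MP_280d1a_an.BallPer

/-!
# Conclusion
-/

set_option autoImplicit false

open MeasureTheory Set Filter Topology
open scoped ENNReal NNReal

namespace Pool.Agent.Work.MP_280d1a_an

variable {N : ℕ}

lemma divergence_congr {φ ψ : E N → E N} {x : E N} (h : φ =ᶠ[𝓝 x] ψ) :
    divergence φ x = divergence ψ x := by
  unfold divergence
  rw [h.fderiv_eq]

lemma divergence_smul_id (c : ℝ) (x : E N) : divergence (fun x : E N => c • x) x = N * c := by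
  unfold divergence
  have h : fderiv ℝ (fun x : E N => c • x) x = c • ContinuousLinearMap.id ℝ (E N) := by
    have h1 : HasFDerivAt (fun x : E N => c • x) (c • ContinuousLinearMap.id ℝ (E N)) x :=
      (hasFDerivAt_id x).const_smul c
    exact h1.fderiv
  rw [h]
  simp [bv]

lemma perimeter_ball_ge (hN : 1 ≤ N) {r : ℝ} (hr : 0 < r) :
    ENNReal.ofReal (N * (volume (Metric.ball (0 : E N) 1)).toReal * r ^ (N - 1)) ≤
      perimeter (Metric.ball (0 : E N) r) := by
  have key : ∀ δ : ℝ, 0 < δ →
      ENNReal.ofReal (N * (volume (Metric.ball (0 : E N) 1)).toReal * r ^ (N - 1) / (1 + δ)) ≤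
        perimeter (Metric.ball (0 : E N) r) := by
    intro δ hδ
    set c : ℝ := 1 / (r * (1 + δ)) with hc
    have hc0 : 0 < c := by positivity
    set χ : ContDiffBump (0 : E N) := ⟨r, r * (1 + δ), hr, by nlinarith⟩ with hχ
    set φ : E N → E N := fun x => χ x • (c • x) with hφ
    have hφt : IsTestField φ := by
      refine ⟨χ.contDiff.smul (contDiff_const_smul c), ?_, fun x => ?_⟩
      · exact HasCompactSupport.smul_right (f := fun x => χ x) χ.hasCompactSupport
      · rw [hφ]
        simp only
        rw [norm_smul, norm_smul, Real.norm_of_nonneg χ.nonneg, Real.norm_of_nonneg hc0.le]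
        by_cases hx : r * (1 + δ) ≤ ‖x‖
        · have : χ x = 0 := χ.zero_of_le_dist (by rw [dist_zero_right]; exact hx)
          rw [this, zero_mul]
          exact zero_le_one
        · rw [not_le] at hx
          have h1 : c * ‖x‖ ≤ 1 := by
            rw [hc, one_div, inv_mul_le_one₀ (by positivity)]
            exact hx.le
          exact mul_le_one₀ χ.le_one (by positivity) h1
    have hdiv : ∀ x ∈ Metric.ball (0 : E N) r, divergence φ x = N * c := by
      intro x hx
      rw [← divergence_smul_id c x]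
      refine divergence_congr ?_
      filter_upwards [Metric.isOpen_ball.mem_nhds hx] with y hy
      have : χ y = 1 := χ.one_of_mem_closedBall (Metric.ball_subset_closedBall hy)
      rw [hφ]
      simp only
      rw [this, one_smul]
    have hint : ∫ x in Metric.ball (0 : E N) r, divergence φ x =
        N * (volume (Metric.ball (0 : E N) 1)).toReal * r ^ (N - 1) / (1 + δ) := by
      rw [setIntegral_congr_fun Metric.isOpen_ball.measurableSet hdiv, setIntegral_const,
        smul_eq_mul]
      have h1 : (volume : Measure (E N)).real (Metric.ball (0 : E N) r) =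
          (volume (Metric.ball (0 : E N) 1)).toReal * r ^ N := volume_ball_toReal hN hr.le
      rw [h1, hc]
      have h2 : r ^ N = r ^ (N - 1) * r := by
        rw [← pow_succ]
        congr 1
        omega
      rw [h2]
      field_simp
    rw [← hint]
    exact le_iSup₂_of_le φ hφt le_rfl
  have hlim : Tendsto (fun δ : ℝ => ENNReal.ofReal
      (N * (volume (Metric.ball (0 : E N) 1)).toReal * r ^ (N - 1) / (1 + δ))) (𝓝[>] 0)
      (𝓝 (ENNReal.ofReal (N * (volume (Metric.ball (0 : E N) 1)).toReal * r ^ (N - 1)))) := by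
    refine ENNReal.tendsto_ofReal ?_
    have h1 : ContinuousAt (fun δ : ℝ =>
        N * (volume (Metric.ball (0 : E N) 1)).toReal * r ^ (N - 1) / (1 + δ)) 0 :=
      ContinuousAt.div (by fun_prop) (by fun_prop) (by norm_num)
    have h2 := h1.tendsto.mono_left (nhdsWithin_le_nhds (s := Ioi 0))
    simpa using h2
  exact le_of_tendsto hlim (eventually_nhdsWithin_of_forall fun δ hδ => key δ hδ)

/-- The perimeter of a ball. -/
theorem perimeter_ball (hN : 1 ≤ N) {r : ℝ} (hr : 0 < r) :
    perimeter (Metric.ball (0 : E N) r) =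
      ENNReal.ofReal (N * (volume (Metric.ball (0 : E N) 1)).toReal * r ^ (N - 1)) :=
  le_antisymm (perimeter_ball_le (by omega) hr) (perimeter_ball_ge hN hr)

lemma distToBall_congr {r : ℝ} {Ω Ω' : Set (E N)} (h : Ω =ᵐ[volume] Ω') :
    distToBall r Ω = distToBall r Ω' := by
  unfold distToBall
  refine iInf_congr fun x => ?_
  have h1 : (fun y => x + y) '' Ω =ᵐ[volume] (fun y => x + y) '' Ω' := by
    rw [image_add_left, image_add_left]
    exact (measurePreserving_add_left volume (-x)).quasiMeasurePreserving.preimage_ae_eq h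
  refine measure_congr ?_
  exact h1.symmDiff ae_eq_rfl

/-- **Convergence of the minimizers of the high Dirichlet eigenvalues under a perimeter
constraint.** -/
theorem main_theorem {N : ℕ} (hN : 3 ≤ N) {P₀ : ℝ} (hP₀ : 0 < P₀) (Ω : ℕ → Set (E N))
    (hΩ : ∀ k, 1 ≤ k → IsMinimizer P₀ k (Ω k)) :
    ∃ r : ℝ, 0 < r ∧ perimeter (Metric.ball (0 : E N) r) = ENNReal.ofReal P₀ ∧
      (∀ s : ℝ, 0 < s → perimeter (Metric.ball (0 : E N) s) = ENNReal.ofReal P₀ → s = r) ∧
      Tendsto (fun k => distToBall r (Ω k)) atTop (𝓝 0) := by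
  have hN1 : 1 ≤ N := by omega
  have hNr : (0 : ℝ) < N := by exact_mod_cast hN1
  have hne : Nonempty (Fin N) := ⟨⟨0, hN1⟩⟩
  set w := (volume (Metric.ball (0 : E N) 1)).toReal with hw
  have hw0 : 0 < w := ENNReal.toReal_pos (Metric.measure_ball_pos volume 0 one_pos).ne'
    measure_ball_lt_top.ne
  have hN1' : (0 : ℝ) < ((N - 1 : ℕ) : ℝ) := by
    have : 0 < N - 1 := by omega
    exact_mod_cast this
  set r : ℝ := (P₀ / (N * w)) ^ (((N - 1 : ℕ) : ℝ)⁻¹) with hr
  have hb : 0 < P₀ / (N * w) := by positivity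
  have hr0 : 0 < r := Real.rpow_pos_of_pos hb _
  have hrpow : r ^ (N - 1) = P₀ / (N * w) := by
    rw [hr, ← Real.rpow_natCast, ← Real.rpow_mul hb.le, inv_mul_cancel₀ hN1'.ne', Real.rpow_one]
  have hval : N * w * r ^ (N - 1) = P₀ := by
    rw [hrpow]; field_simp
  have hper : perimeter (Metric.ball (0 : E N) r) = ENNReal.ofReal P₀ := by
    rw [perimeter_ball hN1 hr0, ← hw, hval]
  refine ⟨r, hr0, hper, ?_, ?_⟩
  · intro s hs h
    rw [perimeter_ball hN1 hs, ← hw, ENNReal.ofReal_eq_ofReal_iff (by positivity) hP₀.le,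
      ← hval] at h
    have h1 : s ^ (N - 1) = r ^ (N - 1) := mul_left_cancel₀ (by positivity) h
    exact (pow_left_inj₀ hs.le hr0.le (by omega)).1 h1
  -- the ball is a competitor
  have hcomp : IsCompetitor P₀ (Metric.ball (0 : E N) r) :=
    ⟨IsOpen.isQuasiOpen Metric.isOpen_ball, measure_ball_lt_top, hper.le⟩
  -- measurable representatives of the minimizers
  have hrep : ∀ k : ℕ, ∃ Ω' : Set (E N), MeasurableSet Ω' ∧ Ω (k + 1) =ᵐ[volume] Ω' := by
    intro k
    obtain ⟨Ω', h1, h2⟩ := (hΩ (k + 1) (by omega)).1.1.nullMeasurableSet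
    exact ⟨Ω', h1, h2⟩
  choose Om hOm hae using hrep
  have hvolOm : ∀ k, volume (Om k) = volume (Ω (k + 1)) := fun k => (measure_congr (hae k)).symm
  have hstab := isoperimetric_stability (N := N) (by omega) hr0 hval.ge Om hOm
    (fun k => by rw [hvolOm]; exact (hΩ (k + 1) (by omega)).1.2.1)
    (fun k => by rw [← perimeter_congr (hae k)]; exact (hΩ (k + 1) (by omega)).1.2.2)
    (by
      intro ε hε
      obtain ⟨K, hK⟩ := volume_ge_of_eigenvalue_le (N := N) (by omega) hr0 hP₀.le hε
      filter_upwards [eventually_ge_atTop K] with k hk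
      have hmin := hΩ (k + 1) (by omega)
      rw [hvolOm]
      exact hK (k + 1) (by omega) (Ω (k + 1)) hmin.1.1.nullMeasurableSet hmin.1.2.1 hmin.1.2.2
        (hmin.2 _ hcomp))
  have h1 : (fun k => distToBall r (Om k)) = fun k => distToBall r (Ω (k + 1)) := by
    ext k
    exact (distToBall_congr (hae k)).symm
  rw [h1] at hstab
  exact (tendsto_add_atTop_iff_nat 1).1 hstab

end Pool.Agent.Work.MP_280d1a_an
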