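import Pool.Agent.Work.MP_280d1a_an.IsoInd

/-! Base case and the sharp Sobolev inequality. -/

namespace Pool.Agent.Work.MP_280d1a_an.Iso

open MeasureTheory Set Filter Topology

lemma integral_fin1 (f : (Fin 1 → ℝ) → ℝ) : ∫ x, f x = ∫ s : ℝ, f (fun _ => s) := by
  have h : MeasurePreserving (MeasurableEquiv.funUnique (Fin 1) ℝ).symm volume volume :=
    (volume_preserving_funUnique (Fin 1) ℝ).symm _
  exact (h.integral_comp' f).symm

lemma om_one : om 1 = 2 := by
  unfold om
  have h : MeasurePreserving (MeasurableEquiv.funUnique (Fin 1) ℝ).symm volume volume :=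
    (volume_preserving_funUnique (Fin 1) ℝ).symm _
  have hm : MeasurableSet {x : Fin 1 → ℝ | ssq x < 1} := (isOpen_ball 1).measurableSet
  have h5 := h.measure_preimage hm.nullMeasurableSet
  have : (MeasurableEquiv.funUnique (Fin 1) ℝ).symm ⁻¹' {x : Fin 1 → ℝ | ssq x < 1} =
      Ioo (-1 : ℝ) 1 := by
    ext s
    have h1 : ssq ((MeasurableEquiv.funUnique (Fin 1) ℝ).symm s) = s ^ 2 := by
      simp [ssq, MeasurableEquiv.funUnique]
    rw [mem_preimage, mem_ofPred_eq, h1]
    constructor
    · intro h2; exact ⟨by nlinarith, by nlinarith⟩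
    · rintro ⟨h2, h3⟩; nlinarith
  rw [this, Real.volume_Ioo] at h5
  have h6 : (volume {x : Fin 1 → ℝ | ssq x < 1}) = ENNReal.ofReal (1 - -1) := h5.symm
  rw [h6]
  norm_num

lemma two_mul_le {u : (Fin 1 → ℝ) → ℝ} (hu : ContDiff ℝ 1 u) (hc : HasCompactSupport u)
    (x : Fin 1 → ℝ) : 2 * u x ≤ ∫ x, gn u x := by
  set v : ℝ → ℝ := fun s => u (fun _ => s) with hv
  have hv1 : ContDiff ℝ 1 v := hu.comp (contDiff_pi.2 fun _ => contDiff_id)
  have hd : ∀ s, HasDerivAt v (pd u 0 (fun _ => s)) s := by
    intro s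
    have h1 : HasFDerivAt u (fderiv ℝ u (fun _ => s)) (fun _ => s) :=
      (hu.differentiable (by norm_num) _).hasFDerivAt
    have h2 : HasDerivAt (fun s : ℝ => (fun _ : Fin 1 => s)) (Pi.single 0 1) s := by
      rw [hasDerivAt_pi]
      intro i
      have : i = 0 := Subsingleton.elim _ _
      subst this
      simp only [Pi.single_eq_same]
      exact hasDerivAt_id' s
    exact h1.comp_hasDerivAt s h2
  have hvc : HasCompactSupport v := by
    have h1 : IsCompact ((fun y : Fin 1 → ℝ => y 0) '' tsupport u) := hc.image (continuous_apply 0)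
    apply HasCompactSupport.of_support_subset_isCompact h1
    intro s hs
    exact ⟨fun _ => s, subset_tsupport u hs, rfl⟩
  have hgn : ∀ s : ℝ, gn u (fun _ => s) = |deriv v s| := by
    intro s
    rw [(hd s).deriv]
    simp [gn, Real.sqrt_sq_eq_abs]
  rw [integral_fin1]
  simp only [hgn]
  have hdi : Integrable (deriv v) :=
    (hv1.continuous_deriv le_rfl).integrable_of_hasCompactSupport hvc.deriv
  have hai : Integrable (fun s => |deriv v s|) := hdi.abs
  have hx : u x = v (x 0) := by
    rw [hv]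
    simp only
    congr 1
    funext i
    rw [Subsingleton.elim i 0]
  have h1 : v (x 0) ≤ ∫ s in Iic (x 0), |deriv v s| := by
    rw [← HasCompactSupport.integral_Iic_deriv_eq hv1 hvc (x 0)]
    exact integral_mono hdi.integrableOn hai.integrableOn fun s => le_abs_self _
  have h2 : v (x 0) ≤ ∫ s in Ioi (x 0), |deriv v s| := by
    rw [← neg_neg (v (x 0)), ← HasCompactSupport.integral_Ioi_deriv_eq hv1 hvc (x 0), ← integral_neg]
    exact integral_mono hdi.integrableOn.neg hai.integrableOn fun s => neg_le_abs _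
  have h3 := intervalIntegral.integral_Iic_add_Ioi (b := x 0) hai.integrableOn hai.integrableOn
  rw [hx, ← h3]
  linarith

lemma SS_one : SS 1 := by
  intro u hu hc h0
  have h1 : cn 1 = 2 := by simp [cn, om_one]
  rw [h1]
  have h2 : (1 : ℝ) + 1 / ((1 : ℕ) : ℝ) = ((2 : ℕ) : ℝ) := by norm_num
  have h3 : (1 : ℝ) / ((1 : ℕ) : ℝ) = 1 := by norm_num
  rw [h2, h3, Real.rpow_one]
  simp only [Real.rpow_natCast]
  have hi : Integrable u := hu.continuous.integrable_of_hasCompactSupport hc
  rw [← integral_const_mul, ← integral_mul_const]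
  apply integral_mono
  · apply Integrable.const_mul
    apply Continuous.integrable_of_hasCompactSupport
    · have := hu.continuous; fun_prop
    · exact hc.comp_left (g := fun y : ℝ => y ^ 2) (by norm_num)
  · exact hi.mul_const _
  · intro x
    have := two_mul_le hu hc x
    have h4 := h0 x
    simp only
    nlinarith

lemma SS_all {n : ℕ} (hn : n ≠ 0) : SS n := by
  induction n with
  | zero => exact absurd rfl hn
  | succ k ih =>
    rcases Nat.eq_zero_or_pos k with h | h
    · subst h; exact SS_one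
    · exact SS_succ h.ne' (ih h.ne')

/-- sharp Sobolev inequality -/
theorem sobolev {n : ℕ} (hn : n ≠ 0) {u : (Fin (n + 1) → ℝ) → ℝ}
    (hu : ContDiff ℝ 1 u) (hc : HasCompactSupport u) (h0 : ∀ x, 0 ≤ u x) :
    cn (n + 1) * (∫ x, u x ^ (1 + 1 / (n : ℝ))) ^ ((n : ℝ) / (n + 1)) ≤ ∫ x, gn u x :=
  sobolev_of_SS hn (SS_all hn) hu hc h0

end Pool.Agent.Work.MP_280d1a_an.Iso
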