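import Pool.Agent.Work.MP_280d1a_an.IsoBase

/-! The cut inequality. -/

namespace Pool.Agent.Work.MP_280d1a_an.Iso

open MeasureTheory Set Filter Topology

lemma gn_eq_norm {N : ℕ} (u : (Fin N → ℝ) → ℝ) (x : Fin N → ℝ) :
    gn u x = ‖WithLp.toLp 2 (fun j => pd u j x)‖ := by
  rw [EuclideanSpace.norm_eq]
  simp [gn]

lemma hasFDerivAt_mul_coord {N : ℕ} {u : (Fin N → ℝ) → ℝ} (hu : ContDiff ℝ 1 u) (i : Fin N)
    {θ θ' : ℝ → ℝ} (hθ : ∀ s, HasDerivAt θ (θ' s) s) (x : Fin N → ℝ) (j : Fin N) :
    pd (fun x => u x * θ (x i)) j x = θ (x i) * pd u j x + (if j = i then u x * θ' (x i) else 0) := by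
  have h1 : HasFDerivAt u (fderiv ℝ u x) x := (hu.differentiable (by norm_num) _).hasFDerivAt
  have h2 : HasFDerivAt (fun x : Fin N → ℝ => θ (x i))
      ((θ' (x i)) • (ContinuousLinearMap.proj (R := ℝ) (φ := fun _ : Fin N => ℝ) i)) x := by
    have h3 : HasFDerivAt (fun x : Fin N → ℝ => x i)
        (ContinuousLinearMap.proj (R := ℝ) (φ := fun _ : Fin N => ℝ) i) x :=
      (ContinuousLinearMap.proj (R := ℝ) (φ := fun _ : Fin N => ℝ) i).hasFDerivAt
    exact (hθ (x i)).comp_hasFDerivAt x h3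
  have h4 : HasFDerivAt (fun x => u x * θ (x i)) _ x := h1.mul h2
  unfold pd
  rw [h4.fderiv]
  by_cases hji : j = i
  · subst hji
    simp
    ring
  · simp [hji]

lemma gn_mul_coord_le {N : ℕ} {u : (Fin N → ℝ) → ℝ} (hu : ContDiff ℝ 1 u) (h0 : ∀ x, 0 ≤ u x)
    (i : Fin N) {θ θ' : ℝ → ℝ} (hθ : ∀ s, HasDerivAt θ (θ' s) s) (hθ0 : ∀ s, 0 ≤ θ s)
    (x : Fin N → ℝ) :
    gn (fun x => u x * θ (x i)) x ≤ θ (x i) * gn u x + |θ' (x i)| * u x := by
  have h1 : WithLp.toLp 2 (fun j => pd (fun x => u x * θ (x i)) j x) =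
      θ (x i) • WithLp.toLp 2 (fun j => pd u j x) +
        PiLp.single 2 i (u x * θ' (x i)) := by
    ext j
    simp only [hasFDerivAt_mul_coord hu i hθ x j, PiLp.add_apply, PiLp.smul_apply, smul_eq_mul,
      PiLp.single_apply]
  rw [gn_eq_norm, h1]
  refine (norm_add_le _ _).trans ?_
  rw [norm_smul, Real.norm_of_nonneg (hθ0 _), ← gn_eq_norm, PiLp.norm_single,
    Real.norm_eq_abs, abs_mul, abs_of_nonneg (h0 x), mul_comm (u x)]

lemma contDiff_mul_coord {N : ℕ} {u : (Fin N → ℝ) → ℝ} (hu : ContDiff ℝ 1 u) (i : Fin N)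
    {θ : ℝ → ℝ} (hθ : ContDiff ℝ 1 θ) : ContDiff ℝ 1 (fun x => u x * θ (x i)) := by
  have : ContDiff ℝ 1 (fun x : Fin N → ℝ => x i) := contDiff_apply ℝ ℝ i
  exact hu.mul (hθ.comp this)

lemma cut_one {n : ℕ} (hn : n ≠ 0) {u : (Fin (n + 1) → ℝ) → ℝ}
    (hu : ContDiff ℝ 1 u) (hc : HasCompactSupport u) (h0 : ∀ x, 0 ≤ u x) (i : Fin (n + 1))
    {θ : ℝ → ℝ} (hθ : ContDiff ℝ 1 θ) (hθ0 : ∀ s, 0 ≤ θ s) :
    cn (n + 1) * (∫ s, θ s ^ (1 + 1 / (n : ℝ)) * FF u i s) ^ ((n : ℝ) / (n + 1)) ≤
      (∫ x, θ (x i) * gn u x) + ∫ s, |deriv θ s| * UU u i s := by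
  have hd : ∀ s, HasDerivAt θ (deriv θ s) s := fun s =>
    (hθ.differentiable (by norm_num) s).hasDerivAt
  have hdc : Continuous (deriv θ) := hθ.continuous_deriv le_rfl
  set v : (Fin (n + 1) → ℝ) → ℝ := fun x => u x * θ (x i) with hv
  have hv1 : ContDiff ℝ 1 v := contDiff_mul_coord hu i hθ
  have hvc : HasCompactSupport v := hc.mul_right
  have hv0 : ∀ x, 0 ≤ v x := fun x => mul_nonneg (h0 x) (hθ0 _)
  have h1 := sobolev hn hv1 hvc hv0
  have h2 : ∫ x, v x ^ (1 + 1 / (n : ℝ)) = ∫ s, θ s ^ (1 + 1 / (n : ℝ)) * FF u i s := by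
    rw [integral_ins i (integrable_rpow hv1.continuous hvc (exp_pos n))]
    congr 1
    funext s
    rw [FF, ← integral_const_mul]
    congr 1
    funext x'
    simp only [hv, ins_same, sl]
    rw [Real.mul_rpow (h0 _) (hθ0 _)]
    ring
  rw [h2] at h1
  refine h1.trans ?_
  have hi1 : Integrable (fun x => θ (x i) * gn u x) := by
    apply Continuous.integrable_of_hasCompactSupport
    · have := continuous_gn hu
      have := hθ.continuous
      fun_prop
    · exact (hcs_gn hc).mul_left
  have hi2 : Integrable (fun x => |deriv θ (x i)| * u x) := by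
    apply Continuous.integrable_of_hasCompactSupport
    · have := hu.continuous
      fun_prop
    · exact hc.mul_left
  have h3 : ∫ s, |deriv θ s| * UU u i s = ∫ x, |deriv θ (x i)| * u x := by
    rw [integral_ins i hi2]
    congr 1
    funext s
    simp only [ins_same]
    rw [integral_const_mul]
    rfl
  rw [h3, ← integral_add hi1 hi2]
  apply integral_mono (integrable_gn hv1 hvc) (hi1.add hi2)
  intro x
  exact gn_mul_coord_le hu h0 i hd hθ0 x

/-- left cutoff -/
noncomputable def thm (s₀ h : ℝ) (s : ℝ) : ℝ := Real.smoothTransition ((s₀ - s) / h)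

/-- right cutoff -/
noncomputable def thp (s₀ h : ℝ) (s : ℝ) : ℝ := Real.smoothTransition ((s - s₀) / h)

lemma thm_contDiff (s₀ h : ℝ) : ContDiff ℝ 1 (thm s₀ h) :=
  Real.smoothTransition.contDiff.comp ((contDiff_const.sub contDiff_id).div_const _)

lemma thp_contDiff (s₀ h : ℝ) : ContDiff ℝ 1 (thp s₀ h) :=
  Real.smoothTransition.contDiff.comp ((contDiff_id.sub contDiff_const).div_const _)

lemma thm_of_le {s₀ h s : ℝ} (hh : 0 < h) (hs : s ≤ s₀ - h) : thm s₀ h s = 1 :=
  Real.smoothTransition.one_of_one_le (by rw [le_div_iff₀ hh]; linarith)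

lemma thm_of_ge {s₀ h s : ℝ} (hh : 0 < h) (hs : s₀ ≤ s) : thm s₀ h s = 0 :=
  Real.smoothTransition.zero_of_nonpos (div_nonpos_of_nonpos_of_nonneg (by linarith) hh.le)

lemma thp_of_ge {s₀ h s : ℝ} (hh : 0 < h) (hs : s₀ + h ≤ s) : thp s₀ h s = 1 :=
  Real.smoothTransition.one_of_one_le (by rw [le_div_iff₀ hh]; linarith)

lemma thp_of_le {s₀ h s : ℝ} (hh : 0 < h) (hs : s ≤ s₀) : thp s₀ h s = 0 :=
  Real.smoothTransition.zero_of_nonpos (div_nonpos_of_nonpos_of_nonneg (by linarith) hh.le)

lemma thm_anti {s₀ h : ℝ} (hh : 0 < h) : Antitone (thm s₀ h) := by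
  intro a b hab
  exact Real.smoothTransition.monotone (by gcongr)

lemma thp_mono {s₀ h : ℝ} (hh : 0 < h) : Monotone (thp s₀ h) := by
  intro a b hab
  exact Real.smoothTransition.monotone (by gcongr)

/-- mass of a monotone transition against a function bounded on its window -/
lemma trans_mass {θ U : ℝ → ℝ} {a b C : ℝ} (hab : a < b) (hθ : ContDiff ℝ 1 θ)
    (hl : ∀ s ≤ a, θ s = θ a) (hr : ∀ s, b ≤ s → θ s = θ b) (hmon : Monotone θ ∨ Antitone θ)
    (hdiff : |θ b - θ a| ≤ 1) (hU0 : ∀ s, 0 ≤ U s) (hUi : Continuous U)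
    (hC : ∀ s ∈ Icc a b, U s ≤ C) : ∫ s, |deriv θ s| * U s ≤ C := by
  have hC0 : 0 ≤ C := (hU0 a).trans (hC a ⟨le_rfl, hab.le⟩)
  have hd : ∀ s, HasDerivAt θ (deriv θ s) s := fun s =>
    (hθ.differentiable (by norm_num) s).hasDerivAt
  have hdc : Continuous (deriv θ) := hθ.continuous_deriv le_rfl
  have hz1 : ∀ s < a, deriv θ s = 0 := by
    intro s hs
    have : θ =ᶠ[𝓝 s] fun _ => θ a := by
      filter_upwards [Iio_mem_nhds hs] with t ht using hl t (le_of_lt ht)
    rw [this.deriv_eq]; simp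
  have hz2 : ∀ s, b < s → deriv θ s = 0 := by
    intro s hs
    have : θ =ᶠ[𝓝 s] fun _ => θ b := by
      filter_upwards [Ioi_mem_nhds hs] with t ht using hr t (le_of_lt ht)
    rw [this.deriv_eq]; simp
  have h1 : ∫ s, |deriv θ s| * U s = ∫ s in Icc a b, |deriv θ s| * U s := by
    symm
    apply setIntegral_eq_integral_of_forall_compl_eq_zero
    intro s hs
    rw [mem_Icc, not_and_or, not_le, not_le] at hs
    rcases hs with hs | hs
    · rw [hz1 s hs]; simp
    · rw [hz2 s hs]; simp
  have hi1 : IntegrableOn (fun s => |deriv θ s| * U s) (Icc a b) :=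
    (hdc.abs.mul hUi).continuousOn.integrableOn_compact isCompact_Icc
  have hi2 : IntegrableOn (fun s => |deriv θ s| * C) (Icc a b) :=
    (hdc.abs.mul continuous_const).continuousOn.integrableOn_compact isCompact_Icc
  rw [h1]
  have h2 : ∫ s in Icc a b, |deriv θ s| * U s ≤ ∫ s in Icc a b, |deriv θ s| * C := by
    apply setIntegral_mono_on hi1 hi2 measurableSet_Icc
    intro s hs
    exact mul_le_mul_of_nonneg_left (hC s hs) (abs_nonneg _)
  have h3 : ∫ s in Icc a b, |deriv θ s| ≤ 1 := by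
    rw [integral_Icc_eq_integral_Ioc, ← intervalIntegral.integral_of_le hab.le]
    have hftc : ∫ s in a..b, deriv θ s = θ b - θ a :=
      intervalIntegral.integral_eq_sub_of_hasDerivAt (fun s _ => hd s)
        (hdc.intervalIntegrable _ _)
    rcases hmon with hm | hm
    · have : ∀ s, |deriv θ s| = deriv θ s := fun s => abs_of_nonneg hm.deriv_nonneg
      simp only [this]
      rw [hftc]
      exact (le_abs_self _).trans hdiff
    · have : ∀ s, |deriv θ s| = -deriv θ s := fun s => abs_of_nonpos hm.deriv_nonpos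
      simp only [this]
      rw [intervalIntegral.integral_neg, hftc]
      exact (neg_le_abs _).trans hdiff
  calc _ ≤ ∫ s in Icc a b, |deriv θ s| * C := h2
    _ = (∫ s in Icc a b, |deriv θ s|) * C := integral_mul_const _ _
    _ ≤ 1 * C := mul_le_mul_of_nonneg_right h3 hC0
    _ = C := one_mul C

lemma continuous_Iic_integral {f : ℝ → ℝ} (hi : Integrable f) :
    Continuous (fun s => ∫ t in Iic s, f t) := by
  rw [continuous_iff_continuousAt]
  intro s
  have h1 : ∀ t, ∫ x in Iic t, f x = (∫ x in Iic s, f x) + ∫ x in s..t, f x := by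
    intro t
    rw [← intervalIntegral.integral_Iic_sub_Iic hi.integrableOn hi.integrableOn]
    ring
  have h2 : Continuous (fun t => (∫ x in Iic s, f x) + ∫ x in s..t, f x) :=
    continuous_const.add (intervalIntegral.continuous_primitive (fun a b => hi.intervalIntegrable) s)
  exact (h2.congr fun t => (h1 t).symm).continuousAt

/-- the cut inequality -/
theorem cut_ineq {n : ℕ} (hn : n ≠ 0) {u : (Fin (n + 1) → ℝ) → ℝ}
    (hu : ContDiff ℝ 1 u) (hc : HasCompactSupport u) (h0 : ∀ x, 0 ≤ u x) (i : Fin (n + 1))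
    (s₀ : ℝ) :
    cn (n + 1) * ((∫ s in Iic s₀, FF u i s) ^ ((n : ℝ) / (n + 1)) +
      (∫ s in Ioi s₀, FF u i s) ^ ((n : ℝ) / (n + 1))) ≤ (∫ x, gn u x) + 2 * UU u i s₀ := by
  have hn0 : (0 : ℝ) < n := by exact_mod_cast Nat.pos_of_ne_zero hn
  have hexp : (0 : ℝ) < (n : ℝ) / (n + 1) := by positivity
  have hcn : 0 < cn (n + 1) := cn_pos (Nat.succ_ne_zero n)
  have hFc := FF_continuous hu.continuous hc i
  have hFi := FF_integrable hu.continuous hc i
  have hF0 := FF_nonneg h0 i
  have hUc := UU_continuous hu.continuous hc i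
  have hU0 := UU_nonneg h0 i
  have hg := integrable_gn hu hc
  have hcI := continuous_Iic_integral hFi
  have hcI' : Continuous (fun s => ∫ t in Ioi s, FF u i t) := by
    have : ∀ s, ∫ t in Ioi s, FF u i t = (∫ t, FF u i t) - ∫ t in Iic s, FF u i t := by
      intro s
      rw [← intervalIntegral.integral_Iic_add_Ioi (b := s) hFi.integrableOn hFi.integrableOn]
      ring
    simp only [this]
    exact continuous_const.sub hcI
  apply le_of_forall_pos_le_add
  intro ε hε
  -- window
  have hwin : ∀ᶠ t in 𝓝 s₀, UU u i t < UU u i s₀ + ε / 2 :=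
    hUc.continuousAt.eventually_lt continuousAt_const (by linarith)
  obtain ⟨δ, hδ, hδ'⟩ := Metric.eventually_nhds_iff.1 hwin
  have key : ∀ h ∈ Ioo 0 δ,
      cn (n + 1) * ((∫ s in Iic (s₀ - h), FF u i s) ^ ((n : ℝ) / (n + 1)) +
      (∫ s in Ioi (s₀ + h), FF u i s) ^ ((n : ℝ) / (n + 1))) ≤
        (∫ x, gn u x) + 2 * UU u i s₀ + ε := by
    rintro h ⟨hh, hhδ⟩
    have e1 := cut_one hn hu hc h0 i (thm_contDiff s₀ h)
      (fun s => Real.smoothTransition.nonneg _)
    have e2 := cut_one hn hu hc h0 i (thp_contDiff s₀ h)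
      (fun s => Real.smoothTransition.nonneg _)
    have m1 : ∫ s, |deriv (thm s₀ h) s| * UU u i s ≤ UU u i s₀ + ε / 2 := by
      apply trans_mass (a := s₀ - h) (b := s₀) (by linarith) (thm_contDiff s₀ h)
      · intro s hs
        rw [thm_of_le hh hs, thm_of_le hh le_rfl]
      · intro s hs
        rw [thm_of_ge hh hs, thm_of_ge hh le_rfl]
      · right; exact thm_anti hh
      · rw [thm_of_ge hh le_rfl, thm_of_le hh le_rfl]; norm_num
      · exact hU0
      · exact hUc
      · intro s hs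
        apply (hδ' _).le
        rw [Real.dist_eq, abs_lt]
        constructor <;> linarith [hs.1, hs.2]
    have m2 : ∫ s, |deriv (thp s₀ h) s| * UU u i s ≤ UU u i s₀ + ε / 2 := by
      apply trans_mass (a := s₀) (b := s₀ + h) (by linarith) (thp_contDiff s₀ h)
      · intro s hs
        rw [thp_of_le hh hs, thp_of_le hh le_rfl]
      · intro s hs
        rw [thp_of_ge hh hs, thp_of_ge hh le_rfl]
      · left; exact thp_mono hh
      · rw [thp_of_ge hh le_rfl, thp_of_le hh le_rfl]; norm_num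
      · exact hU0
      · exact hUc
      · intro s hs
        apply (hδ' _).le
        rw [Real.dist_eq, abs_lt]
        constructor <;> linarith [hs.1, hs.2]
    have g1 : (∫ x, thm s₀ h (x i) * gn u x) + ∫ x, thp s₀ h (x i) * gn u x ≤ ∫ x, gn u x := by
      have hi1 : Integrable (fun x => thm s₀ h (x i) * gn u x) := by
        apply Continuous.integrable_of_hasCompactSupport
        · have := continuous_gn hu
          have := (thm_contDiff s₀ h).continuous
          fun_prop
        · exact (hcs_gn hc).mul_left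
      have hi2 : Integrable (fun x => thp s₀ h (x i) * gn u x) := by
        apply Continuous.integrable_of_hasCompactSupport
        · have := continuous_gn hu
          have := (thp_contDiff s₀ h).continuous
          fun_prop
        · exact (hcs_gn hc).mul_left
      rw [← integral_add hi1 hi2]
      apply integral_mono (hi1.add hi2) hg
      intro x
      have hgx := gn_nonneg u x
      simp only [Pi.add_apply]
      rcases le_total (x i) s₀ with hx | hx
      · rw [thp_of_le hh hx, zero_mul, add_zero]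
        exact mul_le_of_le_one_left hgx (Real.smoothTransition.le_one _)
      · rw [thm_of_ge hh hx, zero_mul, zero_add]
        exact mul_le_of_le_one_left hgx (Real.smoothTransition.le_one _)
    have hp0 := exp_pos n
    have i1 : ∫ s in Iic (s₀ - h), FF u i s ≤ ∫ s, thm s₀ h s ^ (1 + 1 / (n : ℝ)) * FF u i s := by
      have hint : Integrable (fun s => thm s₀ h s ^ (1 + 1 / (n : ℝ)) * FF u i s) := by
        apply Continuous.integrable_of_hasCompactSupport
        · exact ((thm_contDiff s₀ h).continuous.rpow_const fun _ => Or.inr hp0.le).mul hFc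
        · exact (FF_hcs hc i).mul_left
      calc ∫ s in Iic (s₀ - h), FF u i s
          = ∫ s in Iic (s₀ - h), thm s₀ h s ^ (1 + 1 / (n : ℝ)) * FF u i s := by
            apply setIntegral_congr_fun measurableSet_Iic
            intro s hs
            simp only
            rw [thm_of_le hh hs, Real.one_rpow, one_mul]
        _ ≤ _ := setIntegral_le_integral hint (ae_of_all _ fun s =>
            mul_nonneg (Real.rpow_nonneg (Real.smoothTransition.nonneg _) _) (hF0 s))
    have i2 : ∫ s in Ioi (s₀ + h), FF u i s ≤ ∫ s, thp s₀ h s ^ (1 + 1 / (n : ℝ)) * FF u i s := by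
      have hint : Integrable (fun s => thp s₀ h s ^ (1 + 1 / (n : ℝ)) * FF u i s) := by
        apply Continuous.integrable_of_hasCompactSupport
        · exact ((thp_contDiff s₀ h).continuous.rpow_const fun _ => Or.inr hp0.le).mul hFc
        · exact (FF_hcs hc i).mul_left
      calc ∫ s in Ioi (s₀ + h), FF u i s
          = ∫ s in Ioi (s₀ + h), thp s₀ h s ^ (1 + 1 / (n : ℝ)) * FF u i s := by
            apply setIntegral_congr_fun measurableSet_Ioi
            intro s hs
            simp only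
            rw [thp_of_ge hh (le_of_lt hs), Real.one_rpow, one_mul]
        _ ≤ _ := setIntegral_le_integral hint (ae_of_all _ fun s =>
            mul_nonneg (Real.rpow_nonneg (Real.smoothTransition.nonneg _) _) (hF0 s))
    have j1 := Real.rpow_le_rpow (integral_nonneg fun s => hF0 s) i1 hexp.le
    have j2 := Real.rpow_le_rpow (integral_nonneg fun s => hF0 s) i2 hexp.le
    have k1 := mul_le_mul_of_nonneg_left j1 hcn.le
    have k2 := mul_le_mul_of_nonneg_left j2 hcn.le
    rw [mul_add]
    linarith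
  have hlim : Tendsto (fun h : ℝ =>
      cn (n + 1) * ((∫ s in Iic (s₀ - h), FF u i s) ^ ((n : ℝ) / (n + 1)) +
      (∫ s in Ioi (s₀ + h), FF u i s) ^ ((n : ℝ) / (n + 1)))) (𝓝[>] 0)
      (𝓝 (cn (n + 1) * ((∫ s in Iic s₀, FF u i s) ^ ((n : ℝ) / (n + 1)) +
      (∫ s in Ioi s₀, FF u i s) ^ ((n : ℝ) / (n + 1))))) := by
    have hcont : Continuous (fun h : ℝ =>
      cn (n + 1) * ((∫ s in Iic (s₀ - h), FF u i s) ^ ((n : ℝ) / (n + 1)) +
      (∫ s in Ioi (s₀ + h), FF u i s) ^ ((n : ℝ) / (n + 1)))) := by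
      apply continuous_const.mul
      apply Continuous.add
      · exact (hcI.comp (continuous_const.sub continuous_id)).rpow_const fun _ => Or.inr hexp.le
      · exact (hcI'.comp (continuous_const.add continuous_id)).rpow_const fun _ => Or.inr hexp.le
    have h3 := hcont.tendsto 0
    simp only [sub_zero, add_zero] at h3
    exact h3.mono_left nhdsWithin_le_nhds
  apply le_of_tendsto hlim
  filter_upwards [Ioo_mem_nhdsGT hδ] with h hh using key h hh

end Pool.Agent.Work.MP_280d1a_an.Iso
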