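import Pool.Agent.Work.MP_280d1a_an.IsoMarg

/-! Stability for functions: almost extremal functions are close to translates of the indicator
function of the ball. -/

namespace Pool.Agent.Work.MP_280d1a_an.Iso

open MeasureTheory Set Filter Topology

/-- truncated square -/
noncomputable def ps (s : ℝ) : ℝ := min (s ^ 2) 1

lemma ps_continuous : Continuous ps := by unfold ps; fun_prop

lemma ps_mem (s : ℝ) : ps s ∈ Icc (0 : ℝ) 1 := ⟨le_min (sq_nonneg s) zero_le_one, min_le_right _ _⟩

lemma ps_eq (s : ℝ) : ps s = (min |s| 1) ^ 2 := by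
  unfold ps
  rcases le_total |s| 1 with h | h
  · rw [min_eq_left h, sq_abs, min_eq_left]
    rw [← sq_abs]; nlinarith [abs_nonneg s]
  · rw [min_eq_right h, one_pow, min_eq_right]
    rw [← sq_abs]; nlinarith [abs_nonneg s]

lemma ps_lip (s t : ℝ) : |ps s - ps t| ≤ 2 * |s - t| := by
  rw [ps_eq, ps_eq]
  have h1 : |min |s| 1 - min |t| 1| ≤ |s - t| :=
    (abs_min_sub_min_le_max _ _ _ _).trans (by
      rw [sub_self, abs_zero]
      exact max_le (abs_abs_sub_abs_le_abs_sub s t) (abs_nonneg _))
  have e : (min |s| 1) ^ 2 - (min |t| 1) ^ 2 =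
      (min |s| 1 + min |t| 1) * (min |s| 1 - min |t| 1) := by ring
  have hs : 0 ≤ min |s| 1 := le_min (abs_nonneg _) zero_le_one
  have ht : 0 ≤ min |t| 1 := le_min (abs_nonneg _) zero_le_one
  have hs1 : min |s| 1 ≤ 1 := min_le_right _ _
  have ht1 : min |t| 1 ≤ 1 := min_le_right _ _
  rw [e, abs_mul, abs_of_nonneg (by linarith)]
  exact mul_le_mul (by linarith) h1 (abs_nonneg _) (by norm_num)

/-- sum of truncated squares -/
noncomputable def Ph {N : ℕ} (x : Fin N → ℝ) : ℝ := ∑ i, ps (x i)

lemma Ph_continuous {N : ℕ} : Continuous (Ph : (Fin N → ℝ) → ℝ) := by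
  unfold Ph
  exact continuous_finsetSum _ fun i _ => ps_continuous.comp (continuous_apply i)

lemma Ph_le_ssq {N : ℕ} (x : Fin N → ℝ) : Ph x ≤ ssq x :=
  Finset.sum_le_sum fun _ _ => min_le_left _ _

lemma Ph_nonneg {N : ℕ} (x : Fin N → ℝ) : 0 ≤ Ph x := Finset.sum_nonneg fun _ _ => (ps_mem _).1

lemma one_le_Ph {N : ℕ} {x : Fin N → ℝ} (hx : 1 ≤ ssq x) : 1 ≤ Ph x := by
  by_cases h : ∀ i, |x i| ≤ 1
  · have : Ph x = ssq x := by
      apply Finset.sum_congr rfl
      intro i _
      apply min_eq_left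
      have := h i
      rw [← sq_abs]
      nlinarith [abs_nonneg (x i)]
    rw [this]; exact hx
  · push Not at h
    obtain ⟨i, hi⟩ := h
    have h1 : ps (x i) = 1 := by
      apply min_eq_right
      rw [← sq_abs]
      nlinarith [abs_nonneg (x i)]
    calc (1 : ℝ) = ps (x i) := h1.symm
      _ ≤ Ph x := Finset.single_le_sum (f := fun i => ps (x i)) (fun _ _ => (ps_mem _).1)
          (Finset.mem_univ i)

/-- unit ball -/
def BB (N : ℕ) : Set (Fin N → ℝ) := {x | ssq x < 1}

/-- its indicator -/
noncomputable def iB (N : ℕ) (x : Fin N → ℝ) : ℝ := (BB N).indicator (fun _ => (1 : ℝ)) x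

lemma measurableSet_BB (N : ℕ) : MeasurableSet (BB N) := (isOpen_ball 1).measurableSet

lemma integrable_iB (N : ℕ) : Integrable (iB N) :=
  (integrable_indicator_iff (measurableSet_BB N)).2 (integrableOn_const (vol_ball_lt_top 1).ne)

lemma integral_iB (N : ℕ) : ∫ x, iB N x = om N := by
  unfold iB
  rw [integral_indicator (measurableSet_BB N), setIntegral_const, smul_eq_mul, mul_one]
  rfl

lemma integral_iB_slice {n : ℕ} (hn : n ≠ 0) (i : Fin (n + 1)) (s : ℝ) :
    ∫ x', iB (n + 1) (ins i s x') = b n s := by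
  have h1 : (fun x' : Fin n → ℝ => iB (n + 1) (ins i s x')) =
      {x : Fin n → ℝ | ssq (i.insertNth s x : Fin (n + 1) → ℝ) < 1}.indicator (fun _ => (1 : ℝ)) := by
    funext x'
    rfl
  rw [h1, integral_indicator, setIntegral_const, smul_eq_mul, mul_one, Measure.real,
    vol_slice hn i s, ENNReal.toReal_ofReal (b_nonneg _ _)]
  apply IsOpen.measurableSet
  apply isOpen_lt _ continuous_const
  exact continuous_ssq.comp ((continuous_ins i).comp (by fun_prop : Continuous fun x' : Fin n → ℝ =>
    ((s, x') : ℝ × (Fin n → ℝ))))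

lemma integral_iB_ps {n : ℕ} (hn : n ≠ 0) (i : Fin (n + 1)) :
    ∫ x, iB (n + 1) x * ps (x i) = ∫ t, ps t * b n t := by
  have hint : Integrable (fun x : Fin (n + 1) → ℝ => iB (n + 1) x * ps (x i)) := by
    apply (integrable_iB (n + 1)).mul_bdd (c := 1)
    · exact (ps_continuous.comp (continuous_apply i)).aestronglyMeasurable
    · refine ae_of_all _ fun x => ?_
      rw [Real.norm_of_nonneg (ps_mem _).1]
      exact (ps_mem _).2
  rw [integral_ins i hint]
  congr 1
  funext s
  simp only [ins_same]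
  rw [integral_mul_const, integral_iB_slice hn, mul_comm]

lemma integral_u_ps {n : ℕ} {u : (Fin (n + 1) → ℝ) → ℝ} (hu : Continuous u)
    (hc : HasCompactSupport u) (i : Fin (n + 1)) (c : ℝ) :
    ∫ x, u x * ps (x i - c) = ∫ s, ps (s - c) * UU u i s := by
  have hint : Integrable (fun x : Fin (n + 1) → ℝ => u x * ps (x i - c)) := by
    apply Continuous.integrable_of_hasCompactSupport
    · exact hu.mul (ps_continuous.comp (by fun_prop))
    · exact hc.mul_right
  rw [integral_ins i hint]
  congr 1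
  funext s
  simp only [ins_same]
  rw [integral_mul_const, mul_comm]
  rfl

variable {n : ℕ} {u : ℕ → (Fin (n + 1) → ℝ) → ℝ}

/-- the centre vector -/
noncomputable def cvec (u : ℕ → (Fin (n + 1) → ℝ) → ℝ) (k : ℕ) : Fin (n + 1) → ℝ :=
  fun i => cen u i k

lemma AE.Ph_tendsto (h : AE n u) (hn : n ≠ 0) :
    Tendsto (fun k => ∫ x, u k (x + cvec u k) * Ph x) atTop (𝓝 (∫ x, iB (n + 1) x * Ph x)) := by
  have e1 : ∀ k, ∫ x, u k (x + cvec u k) * Ph x = ∑ i, ∫ s, ps (s - cen u i k) * UU (u k) i s := by
    intro k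
    have h1 : ∫ x, u k (x + cvec u k) * Ph x = ∫ x, u k x * Ph (x - cvec u k) := by
      rw [← integral_add_right_eq_self (fun x => u k x * Ph (x - cvec u k)) (cvec u k)]
      simp only [add_sub_cancel_right]
    rw [h1]
    have h2 : ∀ x : Fin (n + 1) → ℝ, u k x * Ph (x - cvec u k) =
        ∑ i, u k x * ps (x i - cen u i k) := by
      intro x
      rw [Ph, Finset.mul_sum]
      rfl
    simp only [h2]
    rw [integral_finsetSum]
    · apply Finset.sum_congr rfl
      intro i _
      exact integral_u_ps (h.smooth k).continuous (h.cs k) i _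
    · intro i _
      apply Continuous.integrable_of_hasCompactSupport
      · exact (h.smooth k).continuous.mul (ps_continuous.comp (by fun_prop))
      · exact (h.cs k).mul_right
  have e2 : ∫ x, iB (n + 1) x * Ph x = ∑ i : Fin (n + 1), ∫ t, ps t * b n t := by
    have h2 : ∀ x : Fin (n + 1) → ℝ, iB (n + 1) x * Ph x = ∑ i, iB (n + 1) x * ps (x i) := by
      intro x
      rw [Ph, Finset.mul_sum]
    simp only [h2]
    rw [integral_finsetSum]
    · apply Finset.sum_congr rfl
      intro i _
      exact integral_iB_ps hn i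
    · intro i _
      apply (integrable_iB (n + 1)).mul_bdd (c := 1)
      · exact (ps_continuous.comp (continuous_apply i)).aestronglyMeasurable
      · refine ae_of_all _ fun x => ?_
        rw [Real.norm_of_nonneg (ps_mem _).1]
        exact (ps_mem _).2
  simp only [e1, e2]
  exact tendsto_finsetSum _ fun i _ => h.marg_tendsto hn i ps_continuous ps_mem ps_lip

theorem AE.l1_tendsto (h : AE n u) (hn : n ≠ 0) :
    Tendsto (fun k => ∫ x, |u k (x + cvec u k) - iB (n + 1) x|) atTop (𝓝 0) := by
  set w : ℕ → (Fin (n + 1) → ℝ) → ℝ := fun k x => u k (x + cvec u k) with hw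
  set V : ℕ → ℝ := fun k => ∫ x, u k x with hVd
  have hwc : ∀ k, Continuous (w k) := fun k => (h.smooth k).continuous.comp (by fun_prop)
  have hws : ∀ k, HasCompactSupport (w k) := fun k =>
    (h.cs k).comp_homeomorph (Homeomorph.addRight (cvec u k))
  have hwi : ∀ k, Integrable (w k) := fun k => (hwc k).integrable_of_hasCompactSupport (hws k)
  have hwV : ∀ k, ∫ x, w k x = V k := fun k => integral_add_right_eq_self (u k) (cvec u k)
  have hw0 : ∀ k x, 0 ≤ w k x := fun k x => h.nn k _
  have hw1 : ∀ k x, w k x ≤ 1 := fun k x => h.le1 k _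
  have hBi := integrable_iB (n + 1)
  have hPi : Integrable (fun x => iB (n + 1) x * Ph x) := by
    apply hBi.mul_bdd (c := ((n + 1 : ℕ) : ℝ))
    · exact Ph_continuous.aestronglyMeasurable
    · refine ae_of_all _ fun x => ?_
      rw [Real.norm_of_nonneg (Ph_nonneg _)]
      calc Ph x ≤ ∑ i : Fin (n + 1), (1 : ℝ) := Finset.sum_le_sum fun i _ => (ps_mem _).2
        _ = ((n + 1 : ℕ) : ℝ) := by simp
  have hwPi : ∀ k, Integrable (fun x => w k x * Ph x) := fun k =>
    ((hwc k).mul Ph_continuous).integrable_of_hasCompactSupport (hws k).mul_right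
  have hBw : ∀ k, Integrable (fun x => iB (n + 1) x - w k x) := fun k => hBi.sub (hwi k)
  have hPw : ∀ k, Integrable (fun x => iB (n + 1) x * Ph x - w k x * Ph x) :=
    fun k => hPi.sub (hwPi k)
  -- the key quantity
  set J : ℕ → ℝ := fun k => ∫ x, (iB (n + 1) x - w k x) * (1 - Ph x) with hJ
  have hJi : ∀ k, Integrable (fun x => (iB (n + 1) x - w k x) * (1 - Ph x)) := by
    intro k
    have : (fun x => (iB (n + 1) x - w k x) * (1 - Ph x)) =
        (fun x => (iB (n + 1) x - w k x) - (iB (n + 1) x * Ph x - w k x * Ph x)) := by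
      funext x; ring
    rw [this]
    exact (hBw k).sub (hPw k)
  have hJe : ∀ k, J k = (om (n + 1) - V k) - ((∫ x, iB (n + 1) x * Ph x) - ∫ x, w k x * Ph x) := by
    intro k
    have : (fun x => (iB (n + 1) x - w k x) * (1 - Ph x)) =
        (fun x => (iB (n + 1) x - w k x) - (iB (n + 1) x * Ph x - w k x * Ph x)) := by
      funext x; ring
    rw [hJ]
    simp only
    rw [this, integral_sub (hBw k) (hPw k), integral_sub hBi (hwi k),
      integral_sub hPi (hwPi k), integral_iB, hwV]
  have hJ0 : Tendsto J atTop (𝓝 0) := by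
    have h1 := (h.hV.const_sub (om (n + 1))).sub
      ((h.Ph_tendsto hn).const_sub (∫ x, iB (n + 1) x * Ph x))
    simp only [sub_self] at h1
    have : J = fun k => (om (n + 1) - V k) -
      ((∫ x, iB (n + 1) x * Ph x) - ∫ x, w k x * Ph x) := funext hJe
    rw [this]
    exact h1
  -- pointwise facts
  have hin : ∀ x, x ∈ BB (n + 1) → iB (n + 1) x = 1 := fun x hx => indicator_of_mem hx _
  have hout : ∀ x, x ∉ BB (n + 1) → iB (n + 1) x = 0 := fun x hx => indicator_of_notMem hx _
  have hJnn : ∀ k x, 0 ≤ (iB (n + 1) x - w k x) * (1 - Ph x) := by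
    intro k x
    by_cases hx : x ∈ BB (n + 1)
    · rw [hin x hx]
      have h1 : ssq x < 1 := hx
      have h2 := Ph_le_ssq x
      exact mul_nonneg (by linarith [hw1 k x]) (by linarith)
    · rw [hout x hx]
      have h1 : 1 ≤ ssq x := not_lt.1 hx
      have h2 := one_le_Ph h1
      have h3 := hw0 k x
      nlinarith
  have hDi : ∀ k, Integrable (fun x => iB (n + 1) x * (1 - w k x)) := by
    intro k
    apply hBi.mul_bdd (c := 1)
    · exact (continuous_const.sub (hwc k)).aestronglyMeasurable
    · refine ae_of_all _ fun x => ?_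
      rw [Real.norm_of_nonneg (by linarith [hw1 k x])]
      linarith [hw0 k x]
  have habs : ∀ k, ∫ x, |w k x - iB (n + 1) x| =
      2 * (∫ x, iB (n + 1) x * (1 - w k x)) - (om (n + 1) - V k) := by
    intro k
    have : (fun x => |w k x - iB (n + 1) x|) =
        fun x => 2 * (iB (n + 1) x * (1 - w k x)) - (iB (n + 1) x - w k x) := by
      funext x
      by_cases hx : x ∈ BB (n + 1)
      · rw [hin x hx, abs_of_nonpos (by linarith [hw1 k x])]; ring
      · rw [hout x hx, abs_of_nonneg (by linarith [hw0 k x])]; ring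
    rw [this, integral_sub ((hDi k).const_mul 2) (hBw k), integral_const_mul,
      integral_sub hBi (hwi k), integral_iB, hwV]
  have hbd : ∀ r : ℝ, r ∈ Ioo (0 : ℝ) 1 → ∀ k, ∫ x, iB (n + 1) x * (1 - w k x) ≤
      (om (n + 1) - r ^ (n + 1) * om (n + 1)) + (1 / (1 - r ^ 2)) * J k := by
    intro r hr k
    have hr2 : 0 < 1 - r ^ 2 := by nlinarith [hr.1, hr.2]
    set A : Set (Fin (n + 1) → ℝ) := {x | ssq x < r ^ 2} with hA
    have hAm : MeasurableSet A := (isOpen_ball _).measurableSet
    have hAi : Integrable (A.indicator (fun _ => (1 : ℝ))) :=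
      (integrable_indicator_iff hAm).2 (integrableOn_const (vol_ball_lt_top _).ne)
    have hAv : ∫ x, A.indicator (fun _ => (1 : ℝ)) x = r ^ (n + 1) * om (n + 1) := by
      rw [integral_indicator hAm, setIntegral_const, smul_eq_mul, mul_one, Measure.real, hA,
        vol_ball hr.1.le, if_neg hr.1.ne', ENNReal.toReal_ofReal]
      have := om_pos (n + 1)
      have := hr.1
      positivity
    have hBA : Integrable (fun x => iB (n + 1) x - A.indicator (fun _ => (1 : ℝ)) x) :=
      hBi.sub hAi
    rw [hJ]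
    simp only
    rw [← integral_const_mul, ← hAv, ← integral_iB, ← integral_sub hBi hAi,
      ← integral_add hBA ((hJi k).const_mul _)]
    apply integral_mono (hDi k) (hBA.add ((hJi k).const_mul _))
    intro x
    show iB (n + 1) x * (1 - w k x) ≤ (iB (n + 1) x - A.indicator (fun _ => (1 : ℝ)) x) +
      1 / (1 - r ^ 2) * ((iB (n + 1) x - w k x) * (1 - Ph x))
    have hnn := mul_nonneg (one_div_nonneg.2 hr2.le) (hJnn k x)
    by_cases hx : x ∈ A
    · have hxr : ssq x < r ^ 2 := hx
      have hxB : x ∈ BB (n + 1) := by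
        show ssq x < 1
        nlinarith
      rw [hin x hxB, indicator_of_mem hx]
      have h2 := Ph_le_ssq x
      have h3 : 1 - r ^ 2 ≤ 1 - Ph x := by linarith
      have h4 : 0 ≤ 1 - w k x := by linarith [hw1 k x]
      have h5 : 1 ≤ 1 / (1 - r ^ 2) * (1 - Ph x) := by
        rw [one_div, ← div_eq_inv_mul, le_div_iff₀ hr2]; linarith
      nlinarith
    · by_cases hxB : x ∈ BB (n + 1)
      · rw [indicator_of_notMem hx]
        rw [hin x hxB] at hnn ⊢
        have := hw0 k x
        linarith
      · rw [indicator_of_notMem hx]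
        rw [hout x hxB] at hnn ⊢
        linarith
  rw [Metric.tendsto_nhds]
  intro ε hε
  have hrt : Tendsto (fun r : ℝ => om (n + 1) - r ^ (n + 1) * om (n + 1)) (𝓝[<] 1) (𝓝 0) := by
    have : Tendsto (fun r : ℝ => om (n + 1) - r ^ (n + 1) * om (n + 1)) (𝓝 1)
        (𝓝 (om (n + 1) - 1 ^ (n + 1) * om (n + 1))) := by
      apply Continuous.tendsto
      fun_prop
    simp only [one_pow, one_mul, sub_self] at this
    exact this.mono_left nhdsWithin_le_nhds
  obtain ⟨r, hr1, hr2⟩ := ((hrt.eventually (gt_mem_nhds (by positivity : 0 < ε / 8))).and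
    (Ioo_mem_nhdsLT (by norm_num : (0 : ℝ) < 1))).exists
  have hlim : Tendsto (fun k => 2 * ((1 / (1 - r ^ 2)) * J k) - (om (n + 1) - V k)) atTop (𝓝 0) := by
    have h1 := ((hJ0.const_mul (1 / (1 - r ^ 2))).const_mul 2).sub (h.hV.const_sub (om (n + 1)))
    simpa using h1
  filter_upwards [hlim.eventually (gt_mem_nhds (by positivity : 0 < ε / 4))] with k hk
  rw [dist_zero_right, Real.norm_of_nonneg (integral_nonneg fun x => abs_nonneg _)]
  have h1 := habs k
  have h2 := hbd r hr2 k
  show ∫ x, |w k x - iB (n + 1) x| < ε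
  rw [h1]
  linarith

end Pool.Agent.Work.MP_280d1a_an.Iso
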