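import Pool.Agent.Work.MP_280d1a_an.IsoProf

/-! The primitive of the profile and its inverse (one-dimensional transport). -/

namespace Pool.Agent.Work.MP_280d1a_an.Iso

open MeasureTheory Set Filter Topology

/-- primitive of `b` -/
noncomputable def be (n : ℕ) (t : ℝ) : ℝ := ∫ s in (-1 : ℝ)..t, b n s

lemma hasDerivAt_be (n : ℕ) (t : ℝ) : HasDerivAt (be n) (b n t) t := by
  unfold be
  exact intervalIntegral.integral_hasDerivAt_right ((continuous_b n).intervalIntegrable _ _)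
    (continuous_b n).stronglyMeasurable.stronglyMeasurableAtFilter (continuous_b n).continuousAt

lemma continuous_be (n : ℕ) : Continuous (be n) :=
  continuous_iff_continuousAt.2 fun t => (hasDerivAt_be n t).continuousAt

lemma be_neg_one (n : ℕ) : be n (-1) = 0 := by simp [be]

lemma be_one {n : ℕ} (hn : n ≠ 0) : be n 1 = om (n + 1) := by
  rw [om_succ hn, be, intervalIntegral.integral_of_le (by norm_num),
    ← integral_Icc_eq_integral_Ioc, setIntegral_eq_integral_of_forall_compl_eq_zero]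
  intro s hs
  exact b_eq_zero hn fun h' => hs (Ioo_subset_Icc_self h')

lemma strictMonoOn_be (n : ℕ) : StrictMonoOn (be n) (Icc (-1 : ℝ) 1) := by
  apply strictMonoOn_of_deriv_pos (convex_Icc _ _) (continuous_be n).continuousOn
  intro x hx
  rw [interior_Icc] at hx
  rw [(hasDerivAt_be n x).deriv]
  exact b_pos n hx

lemma exists_be {n : ℕ} (hn : n ≠ 0) {y : ℝ} (hy : y ∈ Ioo 0 (om (n + 1))) :
    ∃ t ∈ Ioo (-1 : ℝ) 1, be n t = y := by
  have h := intermediate_value_Ioo (by norm_num : (-1 : ℝ) ≤ 1) (continuous_be n).continuousOn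
  rw [be_neg_one, be_one hn] at h
  exact h hy

/-- inverse of `be n` on the unit interval -/
noncomputable def G (n : ℕ) (y : ℝ) : ℝ := Function.invFunOn (be n) (Ioo (-1 : ℝ) 1) y

lemma G_mem {n : ℕ} (hn : n ≠ 0) {y : ℝ} (hy : y ∈ Ioo 0 (om (n + 1))) :
    G n y ∈ Ioo (-1 : ℝ) 1 :=
  Function.invFunOn_mem (exists_be hn hy)

lemma be_G {n : ℕ} (hn : n ≠ 0) {y : ℝ} (hy : y ∈ Ioo 0 (om (n + 1))) :
    be n (G n y) = y :=
  Function.invFunOn_eq (exists_be hn hy)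

lemma be_mem {n : ℕ} (hn : n ≠ 0) {t : ℝ} (ht : t ∈ Ioo (-1 : ℝ) 1) :
    be n t ∈ Ioo 0 (om (n + 1)) := by
  have h := strictMonoOn_be n
  constructor
  · rw [← be_neg_one n]
    exact h (by norm_num) (Ioo_subset_Icc_self ht) ht.1
  · rw [← be_one hn]
    exact h (Ioo_subset_Icc_self ht) (by norm_num) ht.2

lemma G_be {n : ℕ} (hn : n ≠ 0) {t : ℝ} (ht : t ∈ Ioo (-1 : ℝ) 1) : G n (be n t) = t := by
  have h1 := be_mem hn ht
  exact (strictMonoOn_be n).injOn (Ioo_subset_Icc_self (G_mem hn h1)) (Ioo_subset_Icc_self ht)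
    (be_G hn h1)

lemma G_mono {n : ℕ} (hn : n ≠ 0) : StrictMonoOn (G n) (Ioo 0 (om (n + 1))) := by
  intro x hx y hy hxy
  by_contra hc
  push Not at hc
  have := (strictMonoOn_be n).monotoneOn (Ioo_subset_Icc_self (G_mem hn hy))
    (Ioo_subset_Icc_self (G_mem hn hx)) hc
  rw [be_G hn hx, be_G hn hy] at this
  linarith

lemma continuousAt_G {n : ℕ} (hn : n ≠ 0) {y : ℝ} (hy : y ∈ Ioo 0 (om (n + 1))) :
    ContinuousAt (G n) y := by
  apply continuousAt_of_monotoneOn_of_image_mem_nhds (s := Ioo 0 (om (n + 1)))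
    (G_mono hn).monotoneOn (isOpen_Ioo.mem_nhds hy)
  have : G n '' Ioo 0 (om (n + 1)) = Ioo (-1 : ℝ) 1 := by
    ext t
    constructor
    · rintro ⟨z, hz, rfl⟩; exact G_mem hn hz
    · intro ht; exact ⟨be n t, be_mem hn ht, G_be hn ht⟩
  rw [this]
  exact isOpen_Ioo.mem_nhds (G_mem hn hy)

lemma hasDerivAt_G {n : ℕ} (hn : n ≠ 0) {y : ℝ} (hy : y ∈ Ioo 0 (om (n + 1))) :
    HasDerivAt (G n) (b n (G n y))⁻¹ y := by
  apply HasDerivAt.of_local_left_inverse (continuousAt_G hn hy) (hasDerivAt_be n _)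
    (b_pos n (G_mem hn hy)).ne'
  filter_upwards [isOpen_Ioo.mem_nhds hy] with z hz using be_G hn hz

/-- the transport map: `F` is a distribution function -/
noncomputable def TT (n : ℕ) (η : ℝ) (F : ℝ → ℝ) (s : ℝ) : ℝ :=
  G n (om (n + 1) * (η + (1 - 2 * η) * F s))

lemma arg_mem {n : ℕ} {η : ℝ} (hη : η ∈ Ioo (0 : ℝ) (1 / 2)) {y : ℝ} (hy : y ∈ Icc (0 : ℝ) 1) :
    om (n + 1) * (η + (1 - 2 * η) * y) ∈ Ioo 0 (om (n + 1)) := by
  have h0 := om_pos (n + 1)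
  have h1 : 0 < 1 - 2 * η := by linarith [hη.2]
  have h2 : 0 ≤ (1 - 2 * η) * y := mul_nonneg h1.le hy.1
  have h3 : (1 - 2 * η) * y ≤ 1 - 2 * η := by nlinarith [hy.2]
  constructor
  · have := hη.1
    positivity
  · have : η + (1 - 2 * η) * y < 1 := by linarith [hη.1]
    nlinarith

lemma TT_mem {n : ℕ} (hn : n ≠ 0) {η : ℝ} (hη : η ∈ Ioo (0 : ℝ) (1 / 2)) {F : ℝ → ℝ} {s : ℝ}
    (hF : F s ∈ Icc (0 : ℝ) 1) : TT n η F s ∈ Ioo (-1 : ℝ) 1 :=
  G_mem hn (arg_mem hη hF)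

lemma be_TT {n : ℕ} (hn : n ≠ 0) {η : ℝ} (hη : η ∈ Ioo (0 : ℝ) (1 / 2)) {F : ℝ → ℝ} {s : ℝ}
    (hF : F s ∈ Icc (0 : ℝ) 1) : be n (TT n η F s) = om (n + 1) * (η + (1 - 2 * η) * F s) :=
  be_G hn (arg_mem hη hF)

lemma hasDerivAt_TT {n : ℕ} (hn : n ≠ 0) {η : ℝ} (hη : η ∈ Ioo (0 : ℝ) (1 / 2)) {F : ℝ → ℝ}
    {s F' : ℝ} (hF : F s ∈ Icc (0 : ℝ) 1) (hd : HasDerivAt F F' s) :
    HasDerivAt (TT n η F) (om (n + 1) * (1 - 2 * η) * F' / b n (TT n η F s)) s := by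
  have h1 := hasDerivAt_G hn (arg_mem (n := n) hη hF)
  have h2 : HasDerivAt (fun s => om (n + 1) * (η + (1 - 2 * η) * F s))
      (om (n + 1) * ((1 - 2 * η) * F')) s :=
    ((hd.const_mul (1 - 2 * η)).const_add η).const_mul (om (n + 1))
  have h3 := h1.comp s h2
  have h4 : (b n (G n (om (n + 1) * (η + (1 - 2 * η) * F s))))⁻¹ *
      (om (n + 1) * ((1 - 2 * η) * F')) = om (n + 1) * (1 - 2 * η) * F' / b n (TT n η F s) := by
    unfold TT; ring
  rw [h4] at h3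
  exact h3

lemma TT_mono {n : ℕ} (hn : n ≠ 0) {η : ℝ} (hη : η ∈ Ioo (0 : ℝ) (1 / 2)) {F : ℝ → ℝ}
    (hF : ∀ s, F s ∈ Icc (0 : ℝ) 1) (hm : Monotone F) : Monotone (TT n η F) := by
  intro s t hst
  apply (G_mono hn).monotoneOn (arg_mem hη (hF s)) (arg_mem hη (hF t))
  have h0 := om_pos (n + 1)
  have h1 : 0 < 1 - 2 * η := by linarith [hη.2]
  have := hm hst
  gcongr

end Pool.Agent.Work.MP_280d1a_an.Iso
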