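import Pool.Agent.Work.MP_280d1a_an.IsoSob

/-! The induction. -/

namespace Pool.Agent.Work.MP_280d1a_an.Iso

open MeasureTheory Set Filter Topology

/-- slices integral of the power -/
noncomputable def FF {n : ℕ} (u : (Fin (n + 1) → ℝ) → ℝ) (i : Fin (n + 1)) (s : ℝ) : ℝ :=
  ∫ x, sl u i s x ^ (1 + 1 / (n : ℝ))

lemma FF_nonneg {n : ℕ} {u : (Fin (n + 1) → ℝ) → ℝ} (h0 : ∀ x, 0 ≤ u x) (i : Fin (n + 1)) (s : ℝ) :
    0 ≤ FF u i s :=
  integral_nonneg fun _ => Real.rpow_nonneg (h0 _) _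

lemma exp_pos (n : ℕ) : (0 : ℝ) < 1 + 1 / (n : ℝ) := by positivity

lemma FF_continuous {n : ℕ} {u : (Fin (n + 1) → ℝ) → ℝ} (hu : Continuous u)
    (hc : HasCompactSupport u) (i : Fin (n + 1)) : Continuous (FF u i) :=
  continuous_slice_integral i (cont_rpow hu (exp_pos n)) (hcs_rpow hc (exp_pos n))

lemma FF_hcs {n : ℕ} {u : (Fin (n + 1) → ℝ) → ℝ}
    (hc : HasCompactSupport u) (i : Fin (n + 1)) : HasCompactSupport (FF u i) :=
  hcs_slice_integral i (f := fun x => u x ^ (1 + 1 / (n : ℝ))) (hcs_rpow hc (exp_pos n))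

lemma UU_continuous {n : ℕ} {u : (Fin (n + 1) → ℝ) → ℝ} (hu : Continuous u)
    (hc : HasCompactSupport u) (i : Fin (n + 1)) : Continuous (UU u i) :=
  continuous_slice_integral i hu hc

lemma UU_hcs {n : ℕ} {u : (Fin (n + 1) → ℝ) → ℝ}
    (hc : HasCompactSupport u) (i : Fin (n + 1)) : HasCompactSupport (UU u i) :=
  hcs_slice_integral i hc

lemma UU_integrable {n : ℕ} {u : (Fin (n + 1) → ℝ) → ℝ} (hu : Continuous u)
    (hc : HasCompactSupport u) (i : Fin (n + 1)) : Integrable (UU u i) :=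
  (UU_continuous hu hc i).integrable_of_hasCompactSupport (UU_hcs hc i)

lemma FF_integrable {n : ℕ} {u : (Fin (n + 1) → ℝ) → ℝ} (hu : Continuous u)
    (hc : HasCompactSupport u) (i : Fin (n + 1)) : Integrable (FF u i) :=
  (FF_continuous hu hc i).integrable_of_hasCompactSupport (FF_hcs hc i)

lemma integral_UU {n : ℕ} {u : (Fin (n + 1) → ℝ) → ℝ} (hu : Continuous u)
    (hc : HasCompactSupport u) (i : Fin (n + 1)) : ∫ s, UU u i s = ∫ x, u x :=
  (integral_ins i (hu.integrable_of_hasCompactSupport hc)).symm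

lemma integral_FF {n : ℕ} {u : (Fin (n + 1) → ℝ) → ℝ} (hu : Continuous u)
    (hc : HasCompactSupport u) (i : Fin (n + 1)) :
    ∫ s, FF u i s = ∫ x, u x ^ (1 + 1 / (n : ℝ)) :=
  (integral_ins i (integrable_rpow hu hc (exp_pos n))).symm

/-- sharp Sobolev inequality in dimension `n+1` -/
theorem sobolev_of_SS {n : ℕ} (hn : n ≠ 0) (hS : SS n) {u : (Fin (n + 1) → ℝ) → ℝ}
    (hu : ContDiff ℝ 1 u) (hc : HasCompactSupport u) (h0 : ∀ x, 0 ≤ u x) :
    cn (n + 1) * (∫ x, u x ^ (1 + 1 / (n : ℝ))) ^ ((n : ℝ) / (n + 1)) ≤ ∫ x, gn u x := by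
  have hgn : 0 ≤ ∫ x, gn u x := integral_nonneg fun x => gn_nonneg u x
  set M := ∫ x, u x ^ (1 + 1 / (n : ℝ)) with hM
  have hM0 : 0 ≤ M := integral_nonneg fun x => Real.rpow_nonneg (h0 x) _
  have hn0 : (0 : ℝ) < n := by exact_mod_cast Nat.pos_of_ne_zero hn
  rcases hM0.eq_or_lt with h | hMpos
  · rw [← h, Real.zero_rpow (by positivity), mul_zero]
    exact hgn
  set f := FF u (0 : Fin (n + 1)) with hf
  have hfc := FF_continuous hu.continuous hc (0 : Fin (n + 1))
  have hfi := FF_integrable hu.continuous hc (0 : Fin (n + 1))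
  have hf0 := FF_nonneg h0 (0 : Fin (n + 1))
  have hfM : ∫ s, f s = M := integral_FF hu.continuous hc 0
  rw [← hf] at hfc hfi hf0
  have key : ∀ η ∈ Ioo (0 : ℝ) (1 / 2),
      (n + 1) * (om (n + 1) * (1 - 2 * η) / M) ^ (1 / (n + 1 : ℝ)) * M ≤ ∫ x, gn u x := by
    intro η hη
    set K := om (n + 1) * (1 - 2 * η) / M with hK
    have hKpos : 0 < K := by
      have := om_pos (n + 1)
      have : 0 < 1 - 2 * η := by linarith [hη.2]
      positivity
    set κ := K ^ (1 / (n + 1 : ℝ)) with hκ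
    have hκ0 : 0 ≤ κ := Real.rpow_nonneg hKpos.le _
    have hκK : κ ^ (n + 1) = K := by
      rw [hκ, ← Real.rpow_natCast, ← Real.rpow_mul hKpos.le]
      push_cast
      rw [one_div_mul_cancel (by positivity), Real.rpow_one]
    obtain ⟨hi, hle⟩ := slice_ineq hu hc 0 (TT_deriv hn hη hfc hfi hf0)
      (TT'_continuous hn hη hfc hfi hf0) (fun s => Ioo_subset_Icc_self (TT_in hn hη hfi hf0 s))
    refine le_trans ?_ hle
    rw [← hfM, ← integral_const_mul]
    apply integral_mono (hfi.const_mul _) hi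
    intro s
    have h1 := pointwise_transport hn (TT_in hn hη hfi hf0 s) (UU_nonneg h0 0 s)
      (DD_nonneg u 0 s) (hf0 s) hκ0 hκK (by
        have := hS (sl u 0 s) (contDiff_sl hu 0 s) (hcs_sl hc 0 s) (fun x => h0 _)
        exact this)
    have h2 : TT' n η f s = K * f s / b n (TT n η (cdf f) s) := by
      unfold TT'
      rw [hfM, hK]
      ring
    simp only
    rw [h2]
    exact h1
  have hlim : (n + 1) * (om (n + 1) / M) ^ (1 / (n + 1 : ℝ)) * M ≤ ∫ x, gn u x := by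
    have ht : Tendsto (fun η : ℝ => (n + 1) * (om (n + 1) * (1 - 2 * η) / M) ^ (1 / (n + 1 : ℝ)) * M)
        (𝓝[>] 0) (𝓝 ((n + 1) * (om (n + 1) / M) ^ (1 / (n + 1 : ℝ)) * M)) := by
      have hcont : ContinuousAt (fun η : ℝ =>
          (n + 1) * (om (n + 1) * (1 - 2 * η) / M) ^ (1 / (n + 1 : ℝ)) * M) 0 := by
        apply ContinuousAt.mul _ continuousAt_const
        apply ContinuousAt.mul continuousAt_const
        apply ContinuousAt.rpow_const
        · fun_prop
        · left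
          have := om_pos (n + 1)
          simp only [mul_zero, sub_zero, mul_one]
          positivity
      have h3 := hcont.tendsto
      simp only [mul_zero, sub_zero, mul_one] at h3
      exact h3.mono_left nhdsWithin_le_nhds
    apply le_of_tendsto ht
    filter_upwards [Ioo_mem_nhdsGT (by norm_num : (0 : ℝ) < 1 / 2)] with η hη using key η hη
  have hfin : cn (n + 1) * M ^ ((n : ℝ) / (n + 1)) =
      (n + 1) * (om (n + 1) / M) ^ (1 / (n + 1 : ℝ)) * M := by
    unfold cn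
    push_cast
    rw [Real.div_rpow (om_pos _).le hM0]
    have : M = M ^ (1 / (n + 1 : ℝ)) * M ^ ((n : ℝ) / (n + 1)) := by
      rw [← Real.rpow_add hMpos]
      have : (1 : ℝ) / (n + 1) + n / (n + 1) = 1 := by field_simp; ring
      rw [this, Real.rpow_one]
    have hp : 0 < M ^ (1 / (n + 1 : ℝ)) := Real.rpow_pos_of_pos hMpos _
    nth_rw 3 [this]
    field_simp
  rw [hfin]
  exact hlim

lemma SS_succ {n : ℕ} (hn : n ≠ 0) (hS : SS n) : SS (n + 1) := by
  intro u hu hc h0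
  have hn0 : (0 : ℝ) < n := by exact_mod_cast Nat.pos_of_ne_zero hn
  have h1 := sobolev_of_SS hn hS hu hc h0
  have hp : Real.HolderConjugate ((n : ℝ) + 1) (((n : ℝ) + 1) / n) := by
    rw [Real.holderConjugate_iff]
    refine ⟨by linarith, ?_⟩
    field_simp
    ring
  have hf1 : Continuous (fun x => u x ^ (1 / ((n : ℝ) + 1))) :=
    cont_rpow hu.continuous (by positivity)
  have hf2 : HasCompactSupport (fun x => u x ^ (1 / ((n : ℝ) + 1))) :=
    hcs_rpow hc (by positivity)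
  have h2 := integral_mul_le_Lp_mul_Lq_of_nonneg hp (μ := volume)
    (f := fun x => u x ^ (1 / ((n : ℝ) + 1))) (g := u)
    (ae_of_all _ fun x => Real.rpow_nonneg (h0 x) _) (ae_of_all _ h0)
    (hf1.memLp_of_hasCompactSupport hf2) (hu.continuous.memLp_of_hasCompactSupport hc)
  have h3 : ∀ x, u x ^ (1 / ((n : ℝ) + 1)) * u x = u x ^ (1 + 1 / (((n + 1 : ℕ)) : ℝ)) := by
    intro x
    push_cast
    rw [add_comm 1, Real.rpow_add_of_nonneg (h0 x) (by positivity) zero_le_one, Real.rpow_one]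
  have h4 : ∀ x, (u x ^ (1 / ((n : ℝ) + 1))) ^ ((n : ℝ) + 1) = u x := by
    intro x
    rw [← Real.rpow_mul (h0 x), one_div_mul_cancel (by positivity), Real.rpow_one]
  have h5 : (((n : ℝ) + 1) / n) = 1 + 1 / (n : ℝ) := by field_simp
  have h6 : 1 / (((n : ℝ) + 1) / n) = (n : ℝ) / (n + 1) := by field_simp
  simp only [h3, h4] at h2
  rw [h6, h5] at h2
  have hU0 : 0 ≤ ∫ x, u x := integral_nonneg h0
  calc cn (n + 1) * ∫ x, u x ^ (1 + 1 / (((n + 1 : ℕ)) : ℝ))
      ≤ cn (n + 1) * ((∫ x, u x) ^ (1 / ((n : ℝ) + 1)) *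
          (∫ x, u x ^ (1 + 1 / (n : ℝ))) ^ ((n : ℝ) / (n + 1))) :=
        mul_le_mul_of_nonneg_left h2 (cn_pos (Nat.succ_ne_zero n)).le
    _ = (∫ x, u x) ^ (1 / ((n : ℝ) + 1)) * (cn (n + 1) *
          (∫ x, u x ^ (1 + 1 / (n : ℝ))) ^ ((n : ℝ) / (n + 1))) := by ring
    _ ≤ (∫ x, u x) ^ (1 / ((n : ℝ) + 1)) * ∫ x, gn u x :=
        mul_le_mul_of_nonneg_left h1 (Real.rpow_nonneg hU0 _)
    _ = _ := by push_cast; rfl

end Pool.Agent.Work.MP_280d1a_an.Iso
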