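import Pool.Agent.Work.MP_280d1a_an.IsoSlice

/-! The slicing inequality. -/

namespace Pool.Agent.Work.MP_280d1a_an.Iso

open MeasureTheory Set Filter Topology

lemma integrable_ins_slice {n : ℕ} (i : Fin (n + 1)) {f : (Fin (n + 1) → ℝ) → ℝ}
    (hf : Integrable f) : Integrable (fun s => ∫ x', f (ins i s x')) :=
  (integrable_ins i hf).integral_prod_left

/-- the slice integral -/
noncomputable def UU {n : ℕ} (u : (Fin (n + 1) → ℝ) → ℝ) (i : Fin (n + 1)) (s : ℝ) : ℝ :=
  ∫ x, sl u i s x

/-- the slice integral of the gradient -/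
noncomputable def DD {n : ℕ} (u : (Fin (n + 1) → ℝ) → ℝ) (i : Fin (n + 1)) (s : ℝ) : ℝ :=
  ∫ x, gn (sl u i s) x

lemma continuous_slice_integral {n : ℕ} (i : Fin (n + 1)) {f : (Fin (n + 1) → ℝ) → ℝ}
    (hf : Continuous f) (hc : HasCompactSupport f) : Continuous (fun s => ∫ x', f (ins i s x')) := by
  have h1 : IsCompact ((fun y : Fin (n + 1) → ℝ => fun j : Fin n => y (i.succAbove j)) '' tsupport f) :=
    hc.image (by fun_prop)
  set K := (fun y : Fin (n + 1) → ℝ => fun j : Fin n => y (i.succAbove j)) '' tsupport f with hK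
  have h2 : ∀ s, ∫ x' in K, f (ins i s x') = ∫ x', f (ins i s x') := by
    intro s
    apply setIntegral_eq_integral_of_forall_compl_eq_zero
    intro x hx
    by_contra hne
    exact hx ⟨ins i s x, subset_tsupport f hne, by funext j; simp⟩
  have h3 : Continuous (fun s => ∫ x' in K, f (ins i s x')) := by
    apply continuous_parametric_integral_of_continuous _ h1
    exact hf.comp (continuous_ins i)
  convert h3 using 1
  funext s
  exact (h2 s).symm

lemma hcs_slice_integral {n : ℕ} (i : Fin (n + 1)) {f : (Fin (n + 1) → ℝ) → ℝ}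
    (hc : HasCompactSupport f) : HasCompactSupport (fun s => ∫ x', f (ins i s x')) := by
  have h1 : IsCompact ((fun y : Fin (n + 1) → ℝ => y i) '' tsupport f) :=
    hc.image (continuous_apply i)
  apply HasCompactSupport.of_support_subset_isCompact h1
  intro s hs
  by_contra hne
  apply hs
  have : ∀ x', f (ins i s x') = 0 := by
    intro x'
    by_contra h
    exact hne ⟨ins i s x', subset_tsupport f h, by simp⟩
  simp [this]

lemma ibp_slice {n : ℕ} {u : (Fin (n + 1) → ℝ) → ℝ} (hu : ContDiff ℝ 1 u)
    (hc : HasCompactSupport u) (i : Fin (n + 1)) {τ τ' : ℝ → ℝ}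
    (hτ : ∀ s, HasDerivAt τ (τ' s) s) (hτ' : Continuous τ') :
    ∫ x, τ (x i) * pd u i x = -∫ s, τ' s * UU u i s := by
  have hτc : Continuous τ := continuous_iff_continuousAt.2 fun s => (hτ s).continuousAt
  have hi1 : Integrable (fun x => τ (x i) * pd u i x) := by
    apply Continuous.integrable_of_hasCompactSupport
    · have := continuous_pd hu i; fun_prop
    · exact (hcs_pd hc i).mul_left
  have hi2 : Integrable (fun x => τ' (x i) * u x) := by
    apply Continuous.integrable_of_hasCompactSupport
    · have := hu.continuous; fun_prop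
    · exact hc.mul_left
  have h1 : ∫ x, τ (x i) * pd u i x = -∫ x, τ' (x i) * u x := by
    rw [integral_ins_swap i hi1, integral_ins_swap i hi2, ← integral_neg]
    congr 1
    funext x'
    simp only [ins_same]
    have hcl := hcs_line hc i x'
    have hci : Continuous (fun s => ins i s x') :=
      (continuous_ins i).comp (Continuous.prodMk_left x')
    have hcu : Continuous (fun s => u (ins i s x')) := hu.continuous.comp hci
    have hcd : Continuous (fun s => pd u i (ins i s x')) := (continuous_pd hu i).comp hci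
    have hcdl := hcs_line (hcs_pd hc i) i x'
    apply integral_mul_deriv_eq_deriv_mul_of_integrable (u := τ) (v := fun s => u (ins i s x'))
      (u' := τ') (v' := fun s => pd u i (ins i s x'))
    · intro s _; exact hτ s
    · intro s _; exact hasDerivAt_line hu i s x'
    · exact (hτc.mul hcd).integrable_of_hasCompactSupport hcdl.mul_left
    · exact (hτ'.mul hcu).integrable_of_hasCompactSupport hcl.mul_left
    · exact (hτc.mul hcu).integrable_of_hasCompactSupport hcl.mul_left
  rw [h1, integral_ins i hi2]
  congr 2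
  funext s
  simp only [ins_same]
  rw [integral_const_mul]
  rfl

/-- the slicing inequality -/
theorem slice_ineq {n : ℕ} {u : (Fin (n + 1) → ℝ) → ℝ} (hu : ContDiff ℝ 1 u)
    (hc : HasCompactSupport u) (i : Fin (n + 1)) {τ τ' : ℝ → ℝ}
    (hτ : ∀ s, HasDerivAt τ (τ' s) s) (hτ' : Continuous τ') (hb : ∀ s, τ s ∈ Icc (-1 : ℝ) 1) :
    Integrable (fun s => τ' s * UU u i s + Real.sqrt (1 - τ s ^ 2) * DD u i s) ∧
    ∫ s, (τ' s * UU u i s + Real.sqrt (1 - τ s ^ 2) * DD u i s) ≤ ∫ x, gn u x := by
  have hτc : Continuous τ := continuous_iff_continuousAt.2 fun s => (hτ s).continuousAt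
  have hi1 : Integrable (fun x => τ (x i) * pd u i x) := by
    apply Continuous.integrable_of_hasCompactSupport
    · have := continuous_pd hu i; fun_prop
    · exact (hcs_pd hc i).mul_left
  -- gradient of the slice as a function on the whole space
  set g : (Fin (n + 1) → ℝ) → ℝ := fun x => Real.sqrt (gn u x ^ 2 - pd u i x ^ 2) with hg
  have hgs : ∀ s x', g (ins i s x') = gn (sl u i s) x' := by
    intro s x'
    rw [hg]
    simp only
    rw [gn_sq_ins hu, add_sub_cancel_left, Real.sqrt_sq (gn_nonneg _ _)]
  have hgc : Continuous g := by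
    have := continuous_pd hu i
    have := continuous_gn hu
    rw [hg]; fun_prop
  have hgcs : HasCompactSupport g := by
    apply (hcs_gn hc).mono'
    intro x hx
    apply subset_tsupport
    intro h0
    apply hx
    rw [hg]
    simp only [h0]
    apply Real.sqrt_eq_zero_of_nonpos
    nlinarith [sq_nonneg (pd u i x)]
  have hi2 : Integrable (fun x => Real.sqrt (1 - τ (x i) ^ 2) * g x) := by
    apply Continuous.integrable_of_hasCompactSupport
    · fun_prop
    · exact hgcs.mul_left
  have h2 : ∫ x, Real.sqrt (1 - τ (x i) ^ 2) * g x =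
      ∫ s, Real.sqrt (1 - τ s ^ 2) * DD u i s := by
    rw [integral_ins i hi2]
    congr 1
    funext s
    simp only [ins_same, hgs]
    rw [integral_const_mul]
    rfl
  have h1 := ibp_slice hu hc i hτ hτ'
  have hi3 : Integrable (fun s => τ' s * UU u i s) := by
    apply Continuous.integrable_of_hasCompactSupport
    · exact hτ'.mul (continuous_slice_integral i hu.continuous hc)
    · exact (hcs_slice_integral i hc).mul_left
  have hi4 : Integrable (fun s => Real.sqrt (1 - τ s ^ 2) * DD u i s) := by
    have h := integrable_ins_slice i hi2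
    refine h.congr (ae_of_all _ ?_)
    intro s
    simp only [ins_same, hgs]
    rw [integral_const_mul]
    rfl
  have hi5 : Integrable (fun x => -(τ (x i) * pd u i x)) := hi1.neg
  refine ⟨hi3.add hi4, ?_⟩
  rw [integral_add hi3 hi4, ← h2, ← neg_neg (∫ s, τ' s * UU u i s), ← h1, ← integral_neg,
    ← integral_add hi5 hi2]
  apply integral_mono (hi5.add hi2) (integrable_gn hu hc)
  intro x
  have hx : ins i (x i) (fun j => x (i.succAbove j)) = x := by
    apply ins_ext i <;> simp
  have h5 := pointwise_cs hu i (x i) (fun j => x (i.succAbove j)) (hb (x i))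
  rw [← hgs, hx] at h5
  exact h5

lemma DD_nonneg {n : ℕ} (u : (Fin (n + 1) → ℝ) → ℝ) (i : Fin (n + 1)) (s : ℝ) : 0 ≤ DD u i s :=
  integral_nonneg fun _ => gn_nonneg _ _

lemma UU_nonneg {n : ℕ} {u : (Fin (n + 1) → ℝ) → ℝ} (h0 : ∀ x, 0 ≤ u x) (i : Fin (n + 1)) (s : ℝ) :
    0 ≤ UU u i s :=
  integral_nonneg fun _ => h0 _

end Pool.Agent.Work.MP_280d1a_an.Iso
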