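import Pool.Agent.Work.MP_280d1a_an.IsoStab5

/-! Convergence of the one-dimensional marginals: conclusion. -/

namespace Pool.Agent.Work.MP_280d1a_an.Iso

open MeasureTheory Set Filter Topology

/-- boundary cutoff -/
noncomputable def chi (d t : ℝ) : ℝ := max 0 (min 1 ((|t| - (1 - 2 * d)) / d))

lemma chi_continuous (d : ℝ) : Continuous (chi d) := by unfold chi; fun_prop

lemma chi_nonneg (d t : ℝ) : 0 ≤ chi d t := le_max_left _ _

lemma chi_le_one (d t : ℝ) : chi d t ≤ 1 := max_le zero_le_one (min_le_left _ _)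

lemma chi_one {d t : ℝ} (hd : 0 < d) (ht : 1 - d ≤ |t|) : chi d t = 1 := by
  unfold chi
  have : 1 ≤ (|t| - (1 - 2 * d)) / d := by rw [le_div_iff₀ hd]; linarith
  rw [min_eq_left this, max_eq_right zero_le_one]

lemma chi_zero {d t : ℝ} (hd : 0 < d) (ht : |t| ≤ 1 - 2 * d) : chi d t = 0 := by
  unfold chi
  have : (|t| - (1 - 2 * d)) / d ≤ 0 := div_nonpos_of_nonpos_of_nonneg (by linarith) hd.le
  rw [min_eq_right (this.trans zero_le_one), max_eq_left this]

lemma chi_integral {n : ℕ} {d a c : ℝ} (hd : 0 < d) (hd' : d ≤ 1 / 4) (ha : -1 ≤ a) (hac : a ≤ c)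
    (hc : c ≤ 1) : ∫ t in a..c, chi d t * b n t ≤ 4 * d * om n := by
  have hcont : Continuous (fun t => chi d t * b n t) := (chi_continuous d).mul (continuous_b n)
  have h0 : ∀ t, 0 ≤ chi d t * b n t := fun t => mul_nonneg (chi_nonneg _ _) (b_nonneg _ _)
  have h1 : ∫ t in a..c, chi d t * b n t ≤ ∫ t in (-1 : ℝ)..1, chi d t * b n t :=
    intervalIntegral.integral_mono_interval ha hac hc (ae_of_all _ h0)
      (hcont.intervalIntegrable _ _)
  have h2 : ∫ t in (-1 : ℝ)..1, chi d t * b n t =
      (∫ t in (-1 : ℝ)..(-1 + 2 * d), chi d t * b n t) +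
      (∫ t in (-1 + 2 * d)..(1 - 2 * d), chi d t * b n t) +
      ∫ t in (1 - 2 * d)..1, chi d t * b n t := by
    rw [intervalIntegral.integral_add_adjacent_intervals (hcont.intervalIntegrable _ _)
      (hcont.intervalIntegrable _ _),
      intervalIntegral.integral_add_adjacent_intervals (hcont.intervalIntegrable _ _)
      (hcont.intervalIntegrable _ _)]
  have h3 : ∫ t in (-1 + 2 * d)..(1 - 2 * d), chi d t * b n t = 0 := by
    have : ∫ t in (-1 + 2 * d)..(1 - 2 * d), chi d t * b n t =
        ∫ t in (-1 + 2 * d)..(1 - 2 * d), (0 : ℝ) := by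
      apply intervalIntegral.integral_congr
      intro t ht
      rw [uIcc_of_le (by linarith)] at ht
      simp only
      rw [chi_zero hd (by rw [abs_le]; constructor <;> linarith [ht.1, ht.2]), zero_mul]
    rw [this]; simp
  have hbd : ∀ t, ‖chi d t * b n t‖ ≤ om n := by
    intro t
    rw [Real.norm_of_nonneg (h0 t)]
    calc chi d t * b n t ≤ 1 * om n :=
          mul_le_mul (chi_le_one _ _) (b_le _ _) (b_nonneg _ _) zero_le_one
      _ = om n := one_mul _
  have h4 : ∫ t in (-1 : ℝ)..(-1 + 2 * d), chi d t * b n t ≤ om n * (2 * d) := by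
    have := intervalIntegral.norm_integral_le_of_norm_le_const (a := -1) (b := -1 + 2 * d)
      (f := fun t => chi d t * b n t) (C := om n) (fun t _ => hbd t)
    have e : |(-1 + 2 * d) - (-1)| = 2 * d := by
      rw [abs_of_nonneg] <;> linarith
    rw [e] at this
    exact (le_abs_self _).trans this
  have h5 : ∫ t in (1 - 2 * d)..1, chi d t * b n t ≤ om n * (2 * d) := by
    have := intervalIntegral.norm_integral_le_of_norm_le_const (a := 1 - 2 * d) (b := 1)
      (f := fun t => chi d t * b n t) (C := om n) (fun t _ => hbd t)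
    have e : |1 - (1 - 2 * d)| = 2 * d := by
      rw [abs_of_nonneg] <;> linarith
    rw [e] at this
    exact (le_abs_self _).trans this
  rw [h2, h3] at h1
  linarith

variable {n : ℕ} {u : ℕ → (Fin (n + 1) → ℝ) → ℝ}

lemma AE.psi_T (h : AE n u) (hn : n ≠ 0) (i : Fin (n + 1)) {ψ : ℝ → ℝ} (hψ : Continuous ψ) :
    Tendsto (fun k => ∫ s, ψ (TT n (et k) (cdf (UU (u k) i)) s) * UU (u k) i s) atTop
      (𝓝 (∫ t, ψ t * b n t)) := by
  have hcont : Continuous (fun t => ψ t * b n t) := hψ.mul (continuous_b n)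
  have hlim : ∫ t, ψ t * b n t = ∫ t in (-1 : ℝ)..1, ψ t * b n t := by
    rw [intervalIntegral.integral_of_le (by norm_num), ← integral_Icc_eq_integral_Ioc,
      setIntegral_eq_integral_of_forall_compl_eq_zero]
    intro s hs
    rw [b_eq_zero hn fun h' => hs (Ioo_subset_Icc_self h'), mul_zero]
  have h1 : Tendsto (fun k => (1 / lamb n (et k) (∫ x, u k x)) *
        ∫ t in (G n (om (n + 1) * et k))..(G n (om (n + 1) * (1 - et k))), ψ t * b n t) atTop
      (𝓝 ((1 / 1) * ∫ t in (-1 : ℝ)..1, ψ t * b n t)) := by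
    apply Tendsto.mul
    · exact tendsto_const_nhds.div (lamb_tendsto h.hV) one_ne_zero
    · have hprim : Continuous (fun x => ∫ t in (0 : ℝ)..x, ψ t * b n t) :=
        intervalIntegral.continuous_primitive (fun a b => hcont.intervalIntegrable a b) 0
      have e : ∀ a c : ℝ, ∫ t in a..c, ψ t * b n t =
          (∫ t in (0 : ℝ)..c, ψ t * b n t) - ∫ t in (0 : ℝ)..a, ψ t * b n t := by
        intro a c
        rw [intervalIntegral.integral_interval_sub_left (hcont.intervalIntegrable _ _)
          (hcont.intervalIntegrable _ _)]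
      have e' : (fun k : ℕ => ∫ t in (G n (om (n + 1) * et k))..(G n (om (n + 1) * (1 - et k))),
          ψ t * b n t) = fun k : ℕ => (∫ t in (0 : ℝ)..(G n (om (n + 1) * (1 - et k))), ψ t * b n t) -
          ∫ t in (0 : ℝ)..(G n (om (n + 1) * et k)), ψ t * b n t := funext fun k => e _ _
      rw [e', e (-1) 1]
      exact ((hprim.tendsto 1).comp (tr_tendsto hn)).sub ((hprim.tendsto (-1)).comp (tl_tendsto hn))
  rw [hlim]
  simp only [div_one, one_mul] at h1
  refine h1.congr' ?_
  filter_upwards [h.eventually_pos] with k hk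
  exact (change_var hn (h.smooth k) (h.cs k) (h.nn k) i (et_mem k) hk hψ).symm

/-- the centre -/
noncomputable def cen (u : ℕ → (Fin (n + 1) → ℝ) → ℝ) (i : Fin (n + 1)) (k : ℕ) : ℝ :=
  open Classical in
  if h : ∃ c, TT n (et k) (cdf (UU (u k) i)) c = 0 then h.choose else 0

lemma AE.cen_spec (h : AE n u) (hn : n ≠ 0) (i : Fin (n + 1)) :
    ∀ᶠ k in atTop, TT n (et k) (cdf (UU (u k) i)) (cen u i k) = 0 := by
  filter_upwards [h.eventually_pos, (tl_tendsto hn).eventually (gt_mem_nhds (by norm_num :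
    (-1 : ℝ) < 0)), (tr_tendsto hn).eventually (lt_mem_nhds (by norm_num : (0 : ℝ) < 1))] with
    k hk1 hk2 hk3
  have hex := TT_ends hn (h.smooth k) (h.cs k) (h.nn k) i (et_mem k) hk1 hk2 hk3
  unfold cen
  rw [dif_pos hex]
  exact hex.choose_spec

theorem AE.marg_tendsto (h : AE n u) (hn : n ≠ 0) (i : Fin (n + 1)) {ψ : ℝ → ℝ}
    (hψ : Continuous ψ) (hψ01 : ∀ t, ψ t ∈ Icc (0 : ℝ) 1)
    (hlip : ∀ s t, |ψ s - ψ t| ≤ 2 * |s - t|) :
    Tendsto (fun k => ∫ s, ψ (s - cen u i k) * UU (u k) i s) atTop (𝓝 (∫ t, ψ t * b n t)) := by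
  have hT := h.psi_T hn i hψ
  suffices hd : Tendsto (fun k => (∫ s, ψ (s - cen u i k) * UU (u k) i s) -
      ∫ s, ψ (TT n (et k) (cdf (UU (u k) i)) s) * UU (u k) i s) atTop (𝓝 0) by
    have := hd.add hT
    simpa using this
  rw [Metric.tendsto_nhds]
  intro ε hε
  have homn := om_pos n
  set d : ℝ := min (1 / 4) (ε / (32 * om n)) with hdd
  have hd0 : 0 < d := lt_min (by norm_num) (by positivity)
  have hd4 : d ≤ 1 / 4 := min_le_left _ _
  have hdε : 32 * om n * d ≤ ε := by
    have : d ≤ ε / (32 * om n) := min_le_right _ _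
    rwa [le_div_iff₀ (by positivity), mul_comm] at this
  obtain ⟨κ, hκ, hlow⟩ := h.eventually_lower hn i (d := d) ⟨hd0, by linarith⟩
  have hR := h.R_tendsto hn i
  have hRV : Tendsto (fun k => 2 * ((∫ s, UU (u k) i s * |TT' n (et k) (UU (u k) i) s - 1|) / κ) *
      ∫ x, u k x) atTop (𝓝 0) := by
    have := ((hR.div_const κ).const_mul 2).mul h.hV
    simpa using this
  have hlam : ∀ᶠ k in atTop, 1 / lamb n (et k) (∫ x, u k x) < 2 := by
    have : Tendsto (fun k => 1 / lamb n (et k) (∫ x, u k x)) atTop (𝓝 (1 / 1)) :=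
      tendsto_const_nhds.div (lamb_tendsto h.hV) one_ne_zero
    exact this.eventually (gt_mem_nhds (by norm_num))
  filter_upwards [hlow, hRV.eventually (gt_mem_nhds (by positivity : 0 < ε / 2)), hlam,
    h.cen_spec hn i, h.eventually_pos] with k hk1 hk2 hk3 hk4 hk5
  set U := UU (u k) i with hU
  set T := TT n (et k) (cdf U) with hTd
  set T' := TT' n (et k) U with hT'
  set c := cen u i k with hcd
  set R := ∫ s, U s * |T' s - 1| with hRd
  have hUc : Continuous U := UU_continuous (h.smooth k).continuous (h.cs k) i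
  have hUs : HasCompactSupport U := UU_hcs (h.cs k) i
  have hUi : Integrable U := UU_integrable (h.smooth k).continuous (h.cs k) i
  have hU0 : ∀ s, 0 ≤ U s := UU_nonneg (h.nn k) i
  have hUV : ∫ s, U s = ∫ x, u k x := integral_UU (h.smooth k).continuous (h.cs k) i
  have hTc : Continuous T :=
    continuous_iff_continuousAt.2 fun s => (TT_deriv hn (et_mem k) hUc hUi hU0 s).continuousAt
  have hTm : Monotone T := TT_mono hn (et_mem k) (cdf_mem hUi hU0) (cdf_mono hUi hU0)
  have hTin : ∀ s, T s ∈ Ioo (-1 : ℝ) 1 := TT_in hn (et_mem k) hUi hU0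
  have hpt : ∀ s, |ψ (s - c) - ψ (T s)| ≤ 2 * (R / κ) + chi d (T s) := by
    intro s
    by_cases hs : T s ∈ Icc (-1 + d) (1 - d)
    · have h1 : |T s - (s - c)| ≤ R / κ := by
        apply close_to_translation hn (h.smooth k) (h.cs k) (h.nn k) i (et_mem k) hκ hk4
        intro t ht
        apply hk1
        rcases le_total c s with hcs | hcs
        · rw [uIcc_of_le hcs] at ht
          have e1 := hTm ht.1
          have e2 := hTm ht.2
          rw [hk4] at e1
          exact ⟨by linarith, e2.trans hs.2⟩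
        · rw [uIcc_of_ge hcs] at ht
          have e1 := hTm ht.1
          have e2 := hTm ht.2
          rw [hk4] at e2
          exact ⟨hs.1.trans e1, by linarith⟩
      have h2 := hlip (s - c) (T s)
      rw [abs_sub_comm (s - c)] at h2
      have h3 := chi_nonneg d (T s)
      linarith
    · have h1 : chi d (T s) = 1 := by
        apply chi_one hd0
        by_contra hcon
        push Not at hcon
        rw [abs_lt] at hcon
        exact hs ⟨by linarith [hcon.1], by linarith [hcon.2]⟩
      rw [h1]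
      have h2 : |ψ (s - c) - ψ (T s)| ≤ 1 := by
        rw [abs_le]
        constructor <;> linarith [(hψ01 (s - c)).1, (hψ01 (s - c)).2, (hψ01 (T s)).1,
          (hψ01 (T s)).2]
      have h3 : 0 ≤ R / κ := by
        apply div_nonneg _ hκ.le
        exact integral_nonneg fun s => mul_nonneg (hU0 s) (abs_nonneg _)
      linarith
  have i1 : Integrable (fun s => ψ (s - c) * U s) := by
    apply Continuous.integrable_of_hasCompactSupport
    · exact (hψ.comp (by fun_prop)).mul hUc
    · exact hUs.mul_left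
  have i2 : Integrable (fun s => ψ (T s) * U s) := by
    apply Continuous.integrable_of_hasCompactSupport
    · exact (hψ.comp hTc).mul hUc
    · exact hUs.mul_left
  have i3 : Integrable (fun s => chi d (T s) * U s) := by
    apply Continuous.integrable_of_hasCompactSupport
    · exact ((chi_continuous d).comp hTc).mul hUc
    · exact hUs.mul_left
  have i4 : Integrable (fun s => 2 * (R / κ) * U s) := hUi.const_mul _
  rw [dist_zero_right, Real.norm_eq_abs, ← integral_sub i1 i2]
  have hle : |∫ s, (ψ (s - c) * U s - ψ (T s) * U s)| ≤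
      2 * (R / κ) * (∫ x, u k x) + ∫ s, chi d (T s) * U s := by
    rw [← hUV, ← integral_const_mul, ← integral_add i4 i3]
    refine (abs_integral_le_integral_abs).trans ?_
    apply integral_mono (i1.sub i2).abs (i4.add i3)
    intro s
    show |ψ (s - c) * U s - ψ (T s) * U s| ≤ 2 * (R / κ) * U s + chi d (T s) * U s
    rw [← sub_mul, abs_mul, abs_of_nonneg (hU0 s), ← add_mul]
    exact mul_le_mul_of_nonneg_right (hpt s) (hU0 s)
  have hchi : ∫ s, chi d (T s) * U s ≤ ε / 4 := by
    rw [change_var hn (h.smooth k) (h.cs k) (h.nn k) i (et_mem k) hk5 (chi_continuous d)]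
    have m1' := arg_mem (n := n) (et_mem k) (y := 0) ⟨le_rfl, zero_le_one⟩
    have m2' := arg_mem (n := n) (et_mem k) (y := 1) ⟨zero_le_one, le_rfl⟩
    have r1 : om (n + 1) * (et k + (1 - 2 * et k) * 0) = om (n + 1) * et k := by ring
    have r2 : om (n + 1) * (et k + (1 - 2 * et k) * 1) = om (n + 1) * (1 - et k) := by ring
    rw [r1] at m1'
    rw [r2] at m2'
    have g1 := G_mem hn m1'
    have g2 := G_mem hn m2'
    have g3 : G n (om (n + 1) * et k) ≤ G n (om (n + 1) * (1 - et k)) := by
      apply (G_mono hn).monotoneOn m1' m2'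
      have := (et_mem k).2
      have := om_pos (n + 1)
      nlinarith
    have hci := chi_integral (n := n) hd0 hd4 g1.1.le g3 g2.2.le
    have hlp := lamb_pos (n := n) (et_mem k) hk5
    have hnn : 0 ≤ ∫ t in (G n (om (n + 1) * et k))..(G n (om (n + 1) * (1 - et k))),
        chi d t * b n t :=
      intervalIntegral.integral_nonneg g3 fun t _ => mul_nonneg (chi_nonneg _ _) (b_nonneg _ _)
    calc (1 / lamb n (et k) (∫ x, u k x)) *
        ∫ t in (G n (om (n + 1) * et k))..(G n (om (n + 1) * (1 - et k))), chi d t * b n t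
        ≤ 2 * (4 * d * om n) := mul_le_mul hk3.le hci hnn (by norm_num)
      _ ≤ ε / 4 := by linarith
  calc |∫ s, (ψ (s - c) * U s - ψ (T s) * U s)| ≤ _ := hle
    _ < ε := by linarith

end Pool.Agent.Work.MP_280d1a_an.Iso
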