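import Mathlib

/-! Profile of the Euclidean unit ball: slices, the function `b`, its primitive and inverse. -/

namespace Pool.Agent.Work.MP_280d1a_an.Iso

open MeasureTheory Set Filter Topology
open scoped Pointwise

/-- sum of squares of the coordinates -/
noncomputable def ssq {n : ℕ} (x : Fin n → ℝ) : ℝ := ∑ i, x i ^ 2

lemma ssq_nonneg {n : ℕ} (x : Fin n → ℝ) : 0 ≤ ssq x :=
  Finset.sum_nonneg fun _ _ => sq_nonneg _

lemma continuous_ssq {n : ℕ} : Continuous (ssq : (Fin n → ℝ) → ℝ) := by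
  unfold ssq; fun_prop

/-- volume of the Euclidean unit ball of `Fin n → ℝ`, as a real number -/
noncomputable def om (n : ℕ) : ℝ := (volume {x : Fin n → ℝ | ssq x < 1}).toReal

lemma ssq_insertNth {n : ℕ} (i : Fin (n + 1)) (s : ℝ) (x : Fin n → ℝ) :
    ssq (i.insertNth s x : Fin (n + 1) → ℝ) = s ^ 2 + ssq x := by
  unfold ssq
  rw [Fin.sum_univ_succAbove _ i]
  simp

lemma isOpen_ball {n : ℕ} (r : ℝ) : IsOpen {x : Fin n → ℝ | ssq x < r} :=
  isOpen_lt continuous_ssq continuous_const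

lemma abs_le_of_ssq {n : ℕ} {x : Fin n → ℝ} {r : ℝ} (hr : 0 ≤ r) (h : ssq x ≤ r ^ 2) (i : Fin n) :
    |x i| ≤ r := by
  have h1 : x i ^ 2 ≤ ssq x := Finset.single_le_sum (f := fun i => x i ^ 2)
    (fun _ _ => sq_nonneg _) (Finset.mem_univ i)
  exact abs_le_of_sq_le_sq (h1.trans h) hr

lemma vol_ball_lt_top {n : ℕ} (r : ℝ) : volume {x : Fin n → ℝ | ssq x < r} < ⊤ := by
  have : {x : Fin n → ℝ | ssq x < r} ⊆ Metric.closedBall 0 (Real.sqrt (max r 0)) := by
    intro x hx
    rw [mem_closedBall_zero_iff, pi_norm_le_iff_of_nonneg (Real.sqrt_nonneg _)]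
    intro i
    rw [Real.norm_eq_abs]
    apply abs_le_of_ssq (Real.sqrt_nonneg _) _ i
    rw [Real.sq_sqrt (le_max_right _ _)]
    exact (le_of_lt hx).trans (le_max_left _ _)
  exact (measure_mono this).trans_lt measure_closedBall_lt_top

lemma om_pos (n : ℕ) : 0 < om n := by
  unfold om
  apply ENNReal.toReal_pos _ (vol_ball_lt_top 1).ne
  apply ((isOpen_ball 1).measure_pos _ _).ne'
  exact ⟨0, by simp [ssq]⟩

lemma vol_ball {n : ℕ} {r : ℝ} (hr : 0 ≤ r) :
    volume {x : Fin n → ℝ | ssq x < r ^ 2} =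
      if r = 0 then 0 else ENNReal.ofReal (r ^ n * om n) := by
  rcases hr.eq_or_lt with h | h
  · subst h
    have : {x : Fin n → ℝ | ssq x < 0 ^ 2} = ∅ := by
      ext x; simp [ssq_nonneg x]
    rw [this]; simp
  · rw [if_neg h.ne']
    have : {x : Fin n → ℝ | ssq x < r ^ 2} = r • {x : Fin n → ℝ | ssq x < 1} := by
      ext x
      rw [mem_smul_set_iff_inv_smul_mem₀ h.ne']
      simp only [mem_ofPred_eq, ssq, Pi.smul_apply, smul_eq_mul, mul_pow, ← Finset.mul_sum]
      rw [inv_pow, inv_mul_lt_iff₀ (by positivity), mul_one]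
    rw [this, Measure.addHaar_smul, Module.finrank_pi, Fintype.card_fin,
      ENNReal.ofReal_mul (by positivity), om, ENNReal.ofReal_toReal (vol_ball_lt_top 1).ne,
      abs_of_nonneg (by positivity)]

/-- slice profile of the unit ball in dimension `n+1` -/
noncomputable def b (n : ℕ) (s : ℝ) : ℝ := om n * (Real.sqrt (1 - s ^ 2)) ^ n

lemma continuous_b (n : ℕ) : Continuous (b n) := by unfold b; fun_prop

lemma b_nonneg (n : ℕ) (s : ℝ) : 0 ≤ b n s := by
  unfold b; have := om_pos n; positivity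

lemma b_pos (n : ℕ) {s : ℝ} (hs : s ∈ Ioo (-1 : ℝ) 1) : 0 < b n s := by
  unfold b
  have h : 0 < 1 - s ^ 2 := by nlinarith [hs.1, hs.2]
  have := om_pos n
  have := Real.sqrt_pos.2 h
  positivity

lemma b_eq_zero {n : ℕ} (hn : n ≠ 0) {s : ℝ} (hs : s ∉ Ioo (-1 : ℝ) 1) : b n s = 0 := by
  unfold b
  have h : 1 - s ^ 2 ≤ 0 := by
    by_contra hc
    push Not at hc
    exact hs ⟨by nlinarith, by nlinarith⟩
  rw [Real.sqrt_eq_zero_of_nonpos h]
  simp [hn]

lemma b_le (n : ℕ) (s : ℝ) : b n s ≤ om n := by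
  unfold b
  have h1 : Real.sqrt (1 - s ^ 2) ≤ 1 := by
    rw [Real.sqrt_le_one]
    nlinarith [sq_nonneg s]
  have := om_pos n
  have h2 : (Real.sqrt (1 - s ^ 2)) ^ n ≤ 1 := pow_le_one₀ (Real.sqrt_nonneg _) h1
  nlinarith

/-- slices of the unit ball -/
lemma vol_slice {n : ℕ} (hn : n ≠ 0) (i : Fin (n + 1)) (s : ℝ) :
    volume {x : Fin n → ℝ | ssq (i.insertNth s x : Fin (n + 1) → ℝ) < 1} =
      ENNReal.ofReal (b n s) := by
  simp only [ssq_insertNth]
  by_cases h : 0 ≤ 1 - s ^ 2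
  · have h1 : {x : Fin n → ℝ | s ^ 2 + ssq x < 1} =
        {x : Fin n → ℝ | ssq x < (Real.sqrt (1 - s ^ 2)) ^ 2} := by
      ext x
      simp only [mem_ofPred_eq, Real.sq_sqrt h]
      constructor <;> intro hx <;> linarith
    rw [h1, vol_ball (Real.sqrt_nonneg _)]
    split_ifs with h2
    · unfold b
      rw [h2]; simp [hn]
    · unfold b; rw [mul_comm]
  · push Not at h
    have h1 : {x : Fin n → ℝ | s ^ 2 + ssq x < 1} = ∅ := by
      ext x
      simp only [mem_ofPred_eq, mem_empty_iff_false, iff_false, not_lt]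
      have := ssq_nonneg x
      linarith
    rw [h1, b_eq_zero hn]
    · simp
    · intro hs; nlinarith [hs.1, hs.2]

lemma integrable_b {n : ℕ} (hn : n ≠ 0) : Integrable (b n) := by
  apply (continuous_b n).integrable_of_hasCompactSupport
  apply HasCompactSupport.of_support_subset_isCompact (isCompact_Icc (a := (-1 : ℝ)) (b := 1))
  intro s hs
  by_contra h
  exact hs (b_eq_zero hn fun h' => h (Ioo_subset_Icc_self h'))

lemma om_succ {n : ℕ} (hn : n ≠ 0) : om (n + 1) = ∫ s, b n s := by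
  have hm : MeasurableSet {x : Fin (n + 1) → ℝ | ssq x < 1} := (isOpen_ball 1).measurableSet
  have h1 := (volume_preserving_piFinSuccAbove (fun _ : Fin (n + 1) => ℝ) 0).symm
  have h2 := h1.measure_preimage hm.nullMeasurableSet
  rw [om, ← h2]
  rw [Measure.volume_eq_prod, Measure.prod_apply]
  · rw [integral_eq_lintegral_of_nonneg_ae (ae_of_all _ (b_nonneg n))
      (continuous_b n).aestronglyMeasurable]
    congr 1
    apply lintegral_congr
    intro s
    rw [← vol_slice hn 0 s]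
    rfl
  · exact (MeasurableEquiv.measurable _) hm

end Pool.Agent.Work.MP_280d1a_an.Iso
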