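import Pool.Agent.Work.MP_280d1a_an.IsoFun
import Pool.Agent.Work.MP_280d1a_an.Basic

/-! From functions to sets. -/

namespace Pool.Agent.Work.MP_280d1a_an.Iso

open MeasureTheory Set Filter Topology

lemma rpow_gap {n : ℕ} (hn : n ≠ 0) {a : ℝ} (h0 : 0 ≤ a) (h1 : a ≤ 1) :
    a - a ^ (1 + 1 / (n : ℝ)) ≤ 1 - a ∧ a - a ^ (1 + 1 / (n : ℝ)) ≤ a ∧
      0 ≤ a - a ^ (1 + 1 / (n : ℝ)) := by
  have hn1 : (1 : ℝ) ≤ n := by exact_mod_cast Nat.one_le_iff_ne_zero.2 hn
  have e : a ^ (1 + 1 / (n : ℝ)) = a * a ^ (1 / (n : ℝ)) := by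
    rcases h0.eq_or_lt with h | h
    · rw [← h, Real.zero_rpow (by positivity), zero_mul]
    · rw [Real.rpow_add h, Real.rpow_one]
  have h2 : a ≤ a ^ (1 / (n : ℝ)) := by
    rcases h0.eq_or_lt with h | h
    · rw [← h]; positivity
    · calc a = a ^ (1 : ℝ) := (Real.rpow_one a).symm
        _ ≤ a ^ (1 / (n : ℝ)) := by
          apply Real.rpow_le_rpow_of_exponent_ge h h1
          rw [div_le_one (by linarith)]
          exact hn1
  have h3 : a ^ (1 / (n : ℝ)) ≤ 1 := Real.rpow_le_one h0 h1 (by positivity)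
  have h4 : 0 ≤ a ^ (1 / (n : ℝ)) := by positivity
  rw [e]
  refine ⟨?_, ?_, ?_⟩ <;> nlinarith

theorem AE_of_sets {n : ℕ} (hn : n ≠ 0) {A : ℕ → Set (X (n + 1))}
    (hA : ∀ k, MeasurableSet (A k)) (hfin : ∀ k, volume (A k) < ⊤)
    {v : ℕ → X (n + 1) → ℝ} (hv : ∀ k, IsC (v k))
    (happ : Tendsto (fun k => ∫ x, |v k x - ind (A k) x|) atTop (𝓝 0))
    {p : ℕ → ℝ} (hp : Tendsto p atTop (𝓝 ((n + 1) * om (n + 1))))
    (hgn : ∀ k, ∫ x, gn (v k) x ≤ p k)
    (hlow : ∀ ε : ℝ, 0 < ε → ∀ᶠ k in atTop, om (n + 1) - ε ≤ (volume (A k)).toReal) :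
    AE n v := by
  have hom := om_pos (n + 1)
  have hn0 : (0 : ℝ) < n := by exact_mod_cast Nat.pos_of_ne_zero hn
  have hcn := cn_pos (Nat.succ_ne_zero n)
  rw [Nat.succ_eq_add_one] at hcn
  set δ : ℕ → ℝ := fun k => ∫ x, |v k x - ind (A k) x| with hδ
  set M : ℕ → ℝ := fun k => ∫ x, v k x ^ (1 + 1 / (n : ℝ)) with hM
  have hvi : ∀ k, Integrable (v k) := fun k => (hv k).integrable
  have hpi : ∀ k, Integrable (fun x => v k x ^ (1 + 1 / (n : ℝ))) := fun k =>
    integrable_rpow (hv k).smooth.continuous (hv k).cs (exp_pos n)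
  have hindi : ∀ k, Integrable (ind (A k)) := fun k => integrable_ind' (hA k) (hfin k)
  have hdi : ∀ k, Integrable (fun x => |v k x - ind (A k) x|) := fun k =>
    ((hvi k).sub (hindi k)).abs
  have hvol : ∀ k, ∫ x, ind (A k) x = (volume (A k)).toReal := by
    intro k
    unfold ind
    rw [integral_indicator (hA k), setIntegral_const, smul_eq_mul, mul_one]
    rfl
  have hM0 : ∀ k, 0 ≤ M k := fun k => integral_nonneg fun x => Real.rpow_nonneg ((hv k).nn x) _
  have h1 : ∀ k, (∫ x, v k x) - M k ≤ δ k := by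
    intro k
    rw [hM, hδ]
    simp only
    rw [← integral_sub (hvi k) (hpi k)]
    apply integral_mono ((hvi k).sub (hpi k)) (hdi k)
    intro x
    show v k x - v k x ^ (1 + 1 / (n : ℝ)) ≤ |v k x - ind (A k) x|
    have hg := rpow_gap hn ((hv k).nn x) ((hv k).le1 x)
    by_cases hx : x ∈ A k
    · have : ind (A k) x = 1 := indicator_of_mem hx _
      rw [this, abs_of_nonpos (by linarith [(hv k).le1 x])]
      linarith [hg.1]
    · have : ind (A k) x = 0 := indicator_of_notMem hx _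
      rw [this, sub_zero, abs_of_nonneg ((hv k).nn x)]
      exact hg.2.1
  have h2 : ∀ k, M k ≤ ∫ x, v k x := by
    intro k
    apply integral_mono (hpi k) (hvi k)
    intro x
    have hg := rpow_gap hn ((hv k).nn x) ((hv k).le1 x)
    show v k x ^ (1 + 1 / (n : ℝ)) ≤ v k x
    linarith [hg.2.2]
  have h3 : ∀ k, (volume (A k)).toReal - δ k ≤ ∫ x, v k x := by
    intro k
    rw [← hvol, hδ]
    simp only
    rw [← integral_sub (hindi k) (hdi k)]
    apply integral_mono ((hindi k).sub (hdi k)) (hvi k)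
    intro x
    show ind (A k) x - |v k x - ind (A k) x| ≤ v k x
    have := neg_le_abs (v k x - ind (A k) x)
    linarith
  -- upper bound
  set q : ℕ → ℝ := fun k => (p k / cn (n + 1)) ^ (((n : ℝ) + 1) / n) with hq
  have hsob : ∀ k, cn (n + 1) * M k ^ ((n : ℝ) / (n + 1)) ≤ ∫ x, gn (v k) x := fun k =>
    sobolev hn (hv k).smooth (hv k).cs (hv k).nn
  have h4 : ∀ k, M k ≤ q k := by
    intro k
    have e1 : M k ^ ((n : ℝ) / (n + 1)) ≤ p k / cn (n + 1) := by
      rw [le_div_iff₀ hcn, mul_comm]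
      exact (hsob k).trans (hgn k)
    have e2 : M k = (M k ^ ((n : ℝ) / (n + 1))) ^ (((n : ℝ) + 1) / n) := by
      rw [← Real.rpow_mul (hM0 k)]
      have : (n : ℝ) / (n + 1) * ((n + 1) / n) = 1 := by field_simp
      rw [this, Real.rpow_one]
    rw [e2]
    exact Real.rpow_le_rpow (Real.rpow_nonneg (hM0 k) _) e1 (by positivity)
  have hqt : Tendsto q atTop (𝓝 (om (n + 1))) := by
    have e1 : Tendsto (fun k => p k / cn (n + 1)) atTop (𝓝 ((n + 1) * om (n + 1) / cn (n + 1))) :=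
      hp.div_const _
    have e2 : ((n : ℝ) + 1) * om (n + 1) / cn (n + 1) = om (n + 1) ^ ((n : ℝ) / (n + 1)) := by
      rw [← cn_mul_om]; field_simp
    rw [e2] at e1
    have e3 := e1.rpow_const (p := ((n : ℝ) + 1) / n) (Or.inr (by positivity))
    rw [← Real.rpow_mul hom.le] at e3
    have : (n : ℝ) / (n + 1) * ((n + 1) / n) = 1 := by field_simp
    rw [this, Real.rpow_one] at e3
    exact e3
  have hMt : Tendsto M atTop (𝓝 (om (n + 1))) := by
    rw [tendsto_order]
    constructor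
    · intro a ha
      have hε : 0 < (om (n + 1) - a) / 4 := by linarith
      filter_upwards [hlow _ hε, happ.eventually (gt_mem_nhds hε)] with k hk1 hk2
      have e1 := h1 k
      have e3 := h3 k
      have hk2' : δ k < (om (n + 1) - a) / 4 := hk2
      linarith
    · intro a ha
      filter_upwards [hqt.eventually (gt_mem_nhds ha)] with k hk
      exact (h4 k).trans_lt hk
  have hVt : Tendsto (fun k => ∫ x, v k x) atTop (𝓝 (om (n + 1))) := by
    have e1 : Tendsto (fun k => M k + δ k) atTop (𝓝 (om (n + 1))) := by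
      have := hMt.add happ
      rwa [add_zero] at this
    exact tendsto_of_tendsto_of_tendsto_of_le_of_le hMt e1 h2 (fun k => by
      show ∫ x, v k x ≤ M k + δ k
      linarith [h1 k])
  refine ⟨fun k => (hv k).smooth, fun k => (hv k).cs, fun k => (hv k).nn, fun k => (hv k).le1,
    hVt, hMt, ?_⟩
  have e1 : Tendsto (fun k => cn (n + 1) * M k ^ ((n : ℝ) / (n + 1))) atTop
      (𝓝 ((n + 1) * om (n + 1))) := by
    rw [← cn_mul_om]
    exact (hMt.rpow_const (Or.inl hom.ne')).const_mul _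
  exact tendsto_of_tendsto_of_tendsto_of_le_of_le e1 hp hsob hgn

/-- the scaled function -/
lemma IsC_comp_smul {N : ℕ} {f : X N → ℝ} (hf : IsC f) {r : ℝ} (hr : r ≠ 0) :
    IsC (fun x => f (r • x)) :=
  ⟨hf.smooth.comp (contDiff_const_smul r), hf.cs.comp_smul hr, fun _ => hf.nn _, fun _ => hf.le1 _⟩

lemma gn_comp_smul {N : ℕ} (f : X N → ℝ) {r : ℝ} (hr : 0 ≤ r) (x : X N) :
    gn (fun x => f (r • x)) x = r * gn f (r • x) := by
  unfold gn pd
  rw [fderiv_comp_smul]
  simp only [_root_.smul_apply, smul_eq_mul, mul_pow]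
  rw [← Finset.mul_sum, Real.sqrt_mul (sq_nonneg r), Real.sqrt_sq hr]

end Pool.Agent.Work.MP_280d1a_an.Iso
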