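import Pool.Agent.Work.MP_280d1a_an.IsoG

/-! Partial derivatives, slices and the slicing inequality. -/

namespace Pool.Agent.Work.MP_280d1a_an.Iso

open MeasureTheory Set Filter Topology

/-- partial derivative -/
noncomputable def pd {N : ℕ} (u : (Fin N → ℝ) → ℝ) (i : Fin N) (x : Fin N → ℝ) : ℝ :=
  fderiv ℝ u x (Pi.single i 1)

/-- Euclidean norm of the gradient -/
noncomputable def gn {N : ℕ} (u : (Fin N → ℝ) → ℝ) (x : Fin N → ℝ) : ℝ :=
  Real.sqrt (∑ i, pd u i x ^ 2)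

lemma gn_nonneg {N : ℕ} (u : (Fin N → ℝ) → ℝ) (x : Fin N → ℝ) : 0 ≤ gn u x := Real.sqrt_nonneg _

lemma gn_sq {N : ℕ} (u : (Fin N → ℝ) → ℝ) (x : Fin N → ℝ) : gn u x ^ 2 = ∑ i, pd u i x ^ 2 :=
  Real.sq_sqrt (Finset.sum_nonneg fun _ _ => sq_nonneg _)

lemma abs_pd_le_gn {N : ℕ} (u : (Fin N → ℝ) → ℝ) (x : Fin N → ℝ) (i : Fin N) :
    |pd u i x| ≤ gn u x := by
  apply abs_le_of_sq_le_sq _ (gn_nonneg _ _)
  rw [gn_sq]
  exact Finset.single_le_sum (f := fun i => pd u i x ^ 2) (fun _ _ => sq_nonneg _)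
    (Finset.mem_univ i)

lemma continuous_pd {N : ℕ} {u : (Fin N → ℝ) → ℝ} (hu : ContDiff ℝ 1 u) (i : Fin N) :
    Continuous (pd u i) := by
  unfold pd
  exact (hu.continuous_fderiv (by norm_num)).clm_apply continuous_const

lemma continuous_gn {N : ℕ} {u : (Fin N → ℝ) → ℝ} (hu : ContDiff ℝ 1 u) :
    Continuous (gn u) := by
  unfold gn
  have := fun i => continuous_pd hu i
  fun_prop

lemma hcs_pd {N : ℕ} {u : (Fin N → ℝ) → ℝ} (hu : HasCompactSupport u) (i : Fin N) :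
    HasCompactSupport (pd u i) := by
  have h := hu.fderiv (𝕜 := ℝ)
  exact h.comp_left (g := fun L : (Fin N → ℝ) →L[ℝ] ℝ => L (Pi.single i 1)) (by simp)

lemma hcs_gn {N : ℕ} {u : (Fin N → ℝ) → ℝ} (hu : HasCompactSupport u) :
    HasCompactSupport (gn u) := by
  have h := hu.fderiv (𝕜 := ℝ)
  exact h.comp_left (g := fun L : (Fin N → ℝ) →L[ℝ] ℝ =>
    Real.sqrt (∑ i, (L (Pi.single i 1)) ^ 2)) (by simp)

lemma integrable_gn {N : ℕ} {u : (Fin N → ℝ) → ℝ} (hu : ContDiff ℝ 1 u)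
    (hc : HasCompactSupport u) : Integrable (gn u) :=
  (continuous_gn hu).integrable_of_hasCompactSupport (hcs_gn hc)

/-- insertion of a coordinate -/
def ins {n : ℕ} (i : Fin (n + 1)) (s : ℝ) (x : Fin n → ℝ) : Fin (n + 1) → ℝ :=
  i.insertNth s x

@[simp] lemma ins_same {n : ℕ} (i : Fin (n + 1)) (s : ℝ) (x : Fin n → ℝ) : ins i s x i = s := by
  simp [ins]

@[simp] lemma ins_succAbove {n : ℕ} (i : Fin (n + 1)) (s : ℝ) (x : Fin n → ℝ) (j : Fin n) :
    ins i s x (i.succAbove j) = x j := by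
  simp [ins]

lemma ins_ext {n : ℕ} (i : Fin (n + 1)) {f g : Fin (n + 1) → ℝ} (h : f i = g i)
    (h' : ∀ j, f (i.succAbove j) = g (i.succAbove j)) : f = g := by
  funext k
  rcases Fin.eq_self_or_eq_succAbove i k with rfl | ⟨j, rfl⟩
  · exact h
  · exact h' j

/-- insertion as a continuous linear map -/
noncomputable def insL {n : ℕ} (i : Fin (n + 1)) : (ℝ × (Fin n → ℝ)) →L[ℝ] (Fin (n + 1) → ℝ) :=
  LinearMap.toContinuousLinearMap
    { toFun := fun p => ins i p.1 p.2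
      map_add' := fun p q => by apply ins_ext i <;> simp
      map_smul' := fun c p => by apply ins_ext i <;> simp }

lemma insL_apply {n : ℕ} (i : Fin (n + 1)) (p : ℝ × (Fin n → ℝ)) : insL i p = ins i p.1 p.2 := rfl

lemma continuous_ins {n : ℕ} (i : Fin (n + 1)) :
    Continuous (fun p : ℝ × (Fin n → ℝ) => ins i p.1 p.2) := (insL i).continuous

lemma ins_zero_single {n : ℕ} (i : Fin (n + 1)) (j : Fin n) :
    ins i 0 (Pi.single j 1) = Pi.single (i.succAbove j) 1 := by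
  apply ins_ext i
  · simp [(Fin.succAbove_ne i j).symm]
  · intro k
    simp [Pi.single_apply, Fin.succAbove_right_injective.eq_iff]

lemma ins_one_zero {n : ℕ} (i : Fin (n + 1)) : ins i 1 (0 : Fin n → ℝ) = Pi.single i 1 := by
  apply ins_ext i
  · simp
  · intro k
    simp [Fin.succAbove_ne i k]

/-- slice of a function -/
def sl {n : ℕ} (u : (Fin (n + 1) → ℝ) → ℝ) (i : Fin (n + 1)) (s : ℝ) (x : Fin n → ℝ) : ℝ :=
  u (ins i s x)

lemma hasFDerivAt_sl {n : ℕ} {u : (Fin (n + 1) → ℝ) → ℝ} (hu : ContDiff ℝ 1 u) (i : Fin (n + 1))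
    (s : ℝ) (x : Fin n → ℝ) :
    HasFDerivAt (sl u i s)
      ((fderiv ℝ u (ins i s x)).comp ((insL i).comp (ContinuousLinearMap.inr ℝ ℝ (Fin n → ℝ)))) x := by
  have h1 : HasFDerivAt u (fderiv ℝ u (ins i s x)) (ins i s x) :=
    (hu.differentiable (by norm_num) _).hasFDerivAt
  have h2 : HasFDerivAt (fun x : Fin n → ℝ => ins i s x)
      ((insL i).comp (ContinuousLinearMap.inr ℝ ℝ (Fin n → ℝ))) x := by
    have h3 : HasFDerivAt (fun x : Fin n → ℝ => ((s, x) : ℝ × (Fin n → ℝ)))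
        (ContinuousLinearMap.inr ℝ ℝ (Fin n → ℝ)) x := hasFDerivAt_prodMk_right s x
    exact (insL i).hasFDerivAt.comp x h3
  exact h1.comp x h2

lemma contDiff_sl {n : ℕ} {u : (Fin (n + 1) → ℝ) → ℝ} (hu : ContDiff ℝ 1 u) (i : Fin (n + 1))
    (s : ℝ) : ContDiff ℝ 1 (sl u i s) := by
  have : ContDiff ℝ 1 (fun x : Fin n → ℝ => insL i (s, x)) :=
    (insL i).contDiff.comp (contDiff_prodMk_right s)
  exact hu.comp this

lemma pd_sl {n : ℕ} {u : (Fin (n + 1) → ℝ) → ℝ} (hu : ContDiff ℝ 1 u) (i : Fin (n + 1))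
    (s : ℝ) (x : Fin n → ℝ) (j : Fin n) :
    pd (sl u i s) j x = pd u (i.succAbove j) (ins i s x) := by
  unfold pd
  rw [(hasFDerivAt_sl hu i s x).fderiv]
  simp [insL_apply, ins_zero_single]

lemma hasDerivAt_line {n : ℕ} {u : (Fin (n + 1) → ℝ) → ℝ} (hu : ContDiff ℝ 1 u) (i : Fin (n + 1))
    (s : ℝ) (x : Fin n → ℝ) :
    HasDerivAt (fun s => u (ins i s x)) (pd u i (ins i s x)) s := by
  have h1 : HasFDerivAt u (fderiv ℝ u (ins i s x)) (ins i s x) :=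
    (hu.differentiable (by norm_num) _).hasFDerivAt
  have h2 : HasDerivAt (fun s : ℝ => ins i s x) (Pi.single i 1) s := by
    have h3 : HasDerivAt (fun s : ℝ => ((s, x) : ℝ × (Fin n → ℝ))) ((1, 0) : ℝ × (Fin n → ℝ)) s :=
      (hasDerivAt_id s).prodMk (hasDerivAt_const s x)
    have h4 := (insL i).hasFDerivAt.comp_hasDerivAt s h3
    rw [insL_apply, ins_one_zero] at h4
    exact h4
  exact h1.comp_hasDerivAt s h2

lemma gn_sq_ins {n : ℕ} {u : (Fin (n + 1) → ℝ) → ℝ} (hu : ContDiff ℝ 1 u) (i : Fin (n + 1))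
    (s : ℝ) (x : Fin n → ℝ) :
    gn u (ins i s x) ^ 2 = pd u i (ins i s x) ^ 2 + gn (sl u i s) x ^ 2 := by
  rw [gn_sq, gn_sq, Fin.sum_univ_succAbove _ i]
  simp only [pd_sl hu]

lemma gn_sl_le {n : ℕ} {u : (Fin (n + 1) → ℝ) → ℝ} (hu : ContDiff ℝ 1 u) (i : Fin (n + 1))
    (s : ℝ) (x : Fin n → ℝ) : gn (sl u i s) x ≤ gn u (ins i s x) := by
  apply le_of_sq_le_sq _ (gn_nonneg _ _)
  rw [gn_sq_ins hu]
  nlinarith [sq_nonneg (pd u i (ins i s x))]

lemma pointwise_cs {n : ℕ} {u : (Fin (n + 1) → ℝ) → ℝ} (hu : ContDiff ℝ 1 u) (i : Fin (n + 1))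
    (s : ℝ) (x : Fin n → ℝ) {t : ℝ} (ht : t ∈ Icc (-1 : ℝ) 1) :
    -(t * pd u i (ins i s x)) + Real.sqrt (1 - t ^ 2) * gn (sl u i s) x ≤ gn u (ins i s x) := by
  have h1 := gn_sq_ins hu i s x
  have h2 : 0 ≤ 1 - t ^ 2 := by nlinarith [ht.1, ht.2]
  have h3 := Real.sq_sqrt h2
  have h4 := gn_nonneg u (ins i s x)
  apply le_of_sq_le_sq _ h4
  rw [h1]
  nlinarith [sq_nonneg (Real.sqrt (1 - t ^ 2) * pd u i (ins i s x) + t * gn (sl u i s) x)]

/-- the measurable equivalence given by insertion -/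
noncomputable def eqv {n : ℕ} (i : Fin (n + 1)) : ℝ × (Fin n → ℝ) ≃ᵐ (Fin (n + 1) → ℝ) :=
  (MeasurableEquiv.piFinSuccAbove (fun _ => ℝ) i).symm

lemma eqv_apply {n : ℕ} (i : Fin (n + 1)) (p : ℝ × (Fin n → ℝ)) : eqv i p = ins i p.1 p.2 := rfl

lemma mp_eqv {n : ℕ} (i : Fin (n + 1)) : MeasurePreserving (eqv i)
    ((volume : Measure ℝ).prod (volume : Measure (Fin n → ℝ))) volume :=
  (volume_preserving_piFinSuccAbove (fun _ : Fin (n + 1) => ℝ) i).symm

lemma integrable_ins {n : ℕ} (i : Fin (n + 1)) {f : (Fin (n + 1) → ℝ) → ℝ} (hf : Integrable f) :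
    Integrable (fun p : ℝ × (Fin n → ℝ) => f (ins i p.1 p.2))
      ((volume : Measure ℝ).prod (volume : Measure (Fin n → ℝ))) :=
  ((mp_eqv i).integrable_comp_emb (eqv i).measurableEmbedding).2 hf

lemma integral_ins {n : ℕ} (i : Fin (n + 1)) {f : (Fin (n + 1) → ℝ) → ℝ} (hf : Integrable f) :
    ∫ x, f x = ∫ s, ∫ x', f (ins i s x') := by
  rw [← (mp_eqv i).integral_comp' f]
  exact integral_prod _ (integrable_ins i hf)

lemma integral_ins_swap {n : ℕ} (i : Fin (n + 1)) {f : (Fin (n + 1) → ℝ) → ℝ}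
    (hf : Integrable f) :
    ∫ x, f x = ∫ x', ∫ s, f (ins i s x') := by
  rw [← (mp_eqv i).integral_comp' f]
  exact integral_prod_symm _ (integrable_ins i hf)

lemma hcs_line {n : ℕ} {u : (Fin (n + 1) → ℝ) → ℝ} (hc : HasCompactSupport u) (i : Fin (n + 1))
    (x : Fin n → ℝ) : HasCompactSupport (fun s => u (ins i s x)) := by
  have h1 : IsCompact ((fun y : Fin (n + 1) → ℝ => y i) '' tsupport u) :=
    hc.image (continuous_apply i)
  apply HasCompactSupport.of_support_subset_isCompact h1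
  intro s hs
  exact ⟨ins i s x, subset_tsupport u hs, by simp⟩

lemma hcs_sl {n : ℕ} {u : (Fin (n + 1) → ℝ) → ℝ} (hc : HasCompactSupport u) (i : Fin (n + 1))
    (s : ℝ) : HasCompactSupport (sl u i s) := by
  have h1 : IsCompact ((fun y : Fin (n + 1) → ℝ => fun j : Fin n => y (i.succAbove j)) '' tsupport u) :=
    hc.image (by fun_prop)
  apply HasCompactSupport.of_support_subset_isCompact h1
  intro x hx
  exact ⟨ins i s x, subset_tsupport u hx, by funext j; simp⟩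

end Pool.Agent.Work.MP_280d1a_an.Iso
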