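import Pool.Agent.Work.MP_280d1a_an.IsoIneq

/-! Sharp Sobolev inequality for p = 1 by induction on the dimension. -/

namespace Pool.Agent.Work.MP_280d1a_an.Iso

open MeasureTheory Set Filter Topology

/-- isoperimetric constant -/
noncomputable def cn (n : ℕ) : ℝ := n * om n ^ (1 / (n : ℝ))

lemma cn_pos {n : ℕ} (hn : n ≠ 0) : 0 < cn n := by
  unfold cn
  have := om_pos n
  have : 0 < n := Nat.pos_of_ne_zero hn
  positivity

/-- inductive statement -/
def SS (n : ℕ) : Prop := ∀ u : (Fin n → ℝ) → ℝ, ContDiff ℝ 1 u → HasCompactSupport u →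
  (∀ x, 0 ≤ u x) → cn n * ∫ x, u x ^ (1 + 1 / (n : ℝ)) ≤ (∫ x, u x) ^ (1 / (n : ℝ)) * ∫ x, gn u x

lemma amgm {n : ℕ} {x y z : ℝ} (hx : 0 ≤ x) (hy : 0 ≤ y) (hz : 0 ≤ z)
    (h : x * y ^ n = z ^ (n + 1)) : (n + 1) * z ≤ x + n * y := by
  have hn : (0 : ℝ) < n + 1 := by positivity
  have h1 := Real.geom_mean_le_arith_mean2_weighted (w₁ := 1 / (n + 1 : ℝ)) (w₂ := n / (n + 1 : ℝ))
    (by positivity) (by positivity) hx hy (by field_simp; ring)
  have h2 : x ^ (1 / (n + 1 : ℝ)) * y ^ ((n : ℝ) / (n + 1 : ℝ)) = z := by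
    have h3 : y ^ ((n : ℝ) / (n + 1 : ℝ)) = (y ^ n) ^ (1 / (n + 1 : ℝ)) := by
      rw [← Real.rpow_natCast y n, ← Real.rpow_mul hy]
      congr 1; ring
    rw [h3, ← Real.mul_rpow hx (pow_nonneg hy n), h, ← Real.rpow_natCast z (n + 1),
      ← Real.rpow_mul hz]
    push_cast
    rw [mul_one_div_cancel hn.ne', Real.rpow_one]
  rw [h2] at h1
  have h4 : (n + 1) * z ≤ (n + 1) * (1 / (n + 1) * x + n / (n + 1) * y) := by
    exact mul_le_mul_of_nonneg_left h1 hn.le
  have h5 : ((n : ℝ) + 1) * (1 / (n + 1) * x + n / (n + 1) * y) = x + n * y := by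
    field_simp
  linarith

lemma cont_rpow {N : ℕ} {u : (Fin N → ℝ) → ℝ} (hu : Continuous u) {p : ℝ} (hp : 0 < p) :
    Continuous (fun x => u x ^ p) :=
  hu.rpow_const fun _ => Or.inr hp.le

lemma hcs_rpow {N : ℕ} {u : (Fin N → ℝ) → ℝ} (hu : HasCompactSupport u) {p : ℝ} (hp : 0 < p) :
    HasCompactSupport (fun x => u x ^ p) :=
  hu.comp_left (g := fun y : ℝ => y ^ p) (Real.zero_rpow hp.ne')

lemma integrable_rpow {N : ℕ} {u : (Fin N → ℝ) → ℝ} (hu : Continuous u)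
    (hc : HasCompactSupport u) {p : ℝ} (hp : 0 < p) : Integrable (fun x => u x ^ p) :=
  (cont_rpow hu hp).integrable_of_hasCompactSupport (hcs_rpow hc hp)

/-- distribution function of a density -/
noncomputable def cdf (f : ℝ → ℝ) (s : ℝ) : ℝ := (∫ t in Iic s, f t) / ∫ t, f t

lemma hasDerivAt_cdf {f : ℝ → ℝ} (hf : Continuous f) (hi : Integrable f) (s : ℝ) :
    HasDerivAt (cdf f) (f s / ∫ t, f t) s := by
  unfold cdf
  apply HasDerivAt.div_const
  have h1 : ∀ t, ∫ x in Iic t, f x = (∫ x in Iic s, f x) + ∫ x in s..t, f x := by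
    intro t
    rw [← intervalIntegral.integral_Iic_sub_Iic hi.integrableOn hi.integrableOn]
    ring
  have h2 : HasDerivAt (fun t => (∫ x in Iic s, f x) + ∫ x in s..t, f x) (f s) s := by
    apply HasDerivAt.const_add
    exact intervalIntegral.integral_hasDerivAt_right (hf.intervalIntegrable _ _)
      hf.stronglyMeasurable.stronglyMeasurableAtFilter hf.continuousAt
  exact h2.congr_of_eventuallyEq (Eventually.of_forall h1)

lemma cdf_mem {f : ℝ → ℝ} (hi : Integrable f) (h0 : ∀ t, 0 ≤ f t) (s : ℝ) :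
    cdf f s ∈ Icc (0 : ℝ) 1 := by
  unfold cdf
  have h1 : 0 ≤ ∫ t in Iic s, f t := integral_nonneg fun t => h0 t
  have h2 : ∫ t in Iic s, f t ≤ ∫ t, f t := setIntegral_le_integral hi (ae_of_all _ h0)
  have h3 : 0 ≤ ∫ t, f t := integral_nonneg fun t => h0 t
  exact ⟨div_nonneg h1 h3, div_le_one_of_le₀ h2 h3⟩

lemma cdf_mono {f : ℝ → ℝ} (hi : Integrable f) (h0 : ∀ t, 0 ≤ f t) : Monotone (cdf f) := by
  intro s t hst
  unfold cdf
  have h3 : 0 ≤ ∫ t, f t := integral_nonneg fun t => h0 t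
  apply div_le_div_of_nonneg_right _ h3
  apply setIntegral_mono_set hi.integrableOn (ae_of_all _ h0)
  exact (Iic_subset_Iic.2 hst).eventuallyLE

/-- the derivative of the transport map -/
noncomputable def TT' (n : ℕ) (η : ℝ) (f : ℝ → ℝ) (s : ℝ) : ℝ :=
  om (n + 1) * (1 - 2 * η) * (f s / ∫ t, f t) / b n (TT n η (cdf f) s)

lemma TT_deriv {n : ℕ} (hn : n ≠ 0) {η : ℝ} (hη : η ∈ Ioo (0 : ℝ) (1 / 2)) {f : ℝ → ℝ}
    (hf : Continuous f) (hi : Integrable f) (h0 : ∀ t, 0 ≤ f t) (s : ℝ) :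
    HasDerivAt (TT n η (cdf f)) (TT' n η f s) s :=
  hasDerivAt_TT hn hη (cdf_mem hi h0 s) (hasDerivAt_cdf hf hi s)

lemma TT_in {n : ℕ} (hn : n ≠ 0) {η : ℝ} (hη : η ∈ Ioo (0 : ℝ) (1 / 2)) {f : ℝ → ℝ}
    (hi : Integrable f) (h0 : ∀ t, 0 ≤ f t) (s : ℝ) :
    TT n η (cdf f) s ∈ Ioo (-1 : ℝ) 1 := TT_mem hn hη (cdf_mem hi h0 s)

lemma TT'_continuous {n : ℕ} (hn : n ≠ 0) {η : ℝ} (hη : η ∈ Ioo (0 : ℝ) (1 / 2)) {f : ℝ → ℝ}
    (hf : Continuous f) (hi : Integrable f) (h0 : ∀ t, 0 ≤ f t) :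
    Continuous (TT' n η f) := by
  have h1 : Continuous (TT n η (cdf f)) :=
    continuous_iff_continuousAt.2 fun s => (TT_deriv hn hη hf hi h0 s).continuousAt
  unfold TT'
  apply Continuous.div
  · fun_prop
  · exact (continuous_b n).comp h1
  · intro s
    exact (b_pos n (TT_in hn hη hi h0 s)).ne'

lemma sqrt_eq_b {n : ℕ} (t : ℝ) :
    (Real.sqrt (1 - t ^ 2)) ^ n = b n t / om n := by
  unfold b
  rw [mul_div_cancel_left₀ _ (om_pos n).ne']

/-- pointwise inequality behind the transport argument -/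
lemma pointwise_transport {n : ℕ} (hn : n ≠ 0) {t K U D f κ : ℝ} (ht : t ∈ Ioo (-1 : ℝ) 1)
    (hU : 0 ≤ U) (hD : 0 ≤ D) (hf : 0 ≤ f) (hκ : 0 ≤ κ) (hK : κ ^ (n + 1) = K)
    (hS : cn n * f ≤ U ^ (1 / (n : ℝ)) * D) :
    (n + 1) * κ * f ≤ K * f / b n t * U + Real.sqrt (1 - t ^ 2) * D := by
  have hn0 : (0 : ℝ) < n := by exact_mod_cast Nat.pos_of_ne_zero hn
  have hb := b_pos n ht
  have hK0 : 0 ≤ K := by rw [← hK]; positivity
  rcases hU.eq_or_lt with h | h
  · subst h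
    rw [Real.zero_rpow (by positivity), zero_mul] at hS
    have hf0 : f = 0 := by
      have := cn_pos hn
      nlinarith
    subst hf0
    have := Real.sqrt_nonneg (1 - t ^ 2)
    have := mul_nonneg this hD
    simpa using this
  · set w := Real.sqrt (1 - t ^ 2) with hw
    have hw0 : 0 ≤ w := Real.sqrt_nonneg _
    have hwn : w ^ n = b n t / om n := sqrt_eq_b t
    have hUp : 0 < U ^ (1 / (n : ℝ)) := Real.rpow_pos_of_pos h _
    set v := U ^ (1 / (n : ℝ)) with hv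
    have hvn : v ^ n = U := by
      rw [hv, ← Real.rpow_natCast, ← Real.rpow_mul h.le, one_div_mul_cancel hn0.ne', Real.rpow_one]
    have homn : 0 < om n := om_pos n
    set o := om n ^ (1 / (n : ℝ)) with ho
    have ho0 : 0 < o := Real.rpow_pos_of_pos homn _
    have hon : o ^ n = om n := by
      rw [ho, ← Real.rpow_natCast, ← Real.rpow_mul homn.le, one_div_mul_cancel hn0.ne',
        Real.rpow_one]
    have hcn : cn n = n * o := rfl
    -- y = w * o / v * f
    have h1 : w * D ≥ n * (w * o / v * f) := by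
      have : D ≥ n * o * f / v := by
        rw [ge_iff_le, div_le_iff₀ hUp, ← hcn]
        linarith
      calc w * D ≥ w * (n * o * f / v) := mul_le_mul_of_nonneg_left this hw0
        _ = n * (w * o / v * f) := by ring
    have h2 := amgm (n := n) (x := K * f / b n t * U) (y := w * o / v * f) (z := κ * f)
      (by positivity) (by positivity) (by positivity) (by
        rw [mul_pow κ f, hK, mul_pow, div_pow, mul_pow, hwn, hon, hvn]
        field_simp
        ring)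
    linarith

end Pool.Agent.Work.MP_280d1a_an.Iso
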