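import Pool.Agent.Work.MP_280d1a_an.IsoCut

/-! Quantitative transport estimate for a single function. -/

namespace Pool.Agent.Work.MP_280d1a_an.Iso

open MeasureTheory Set Filter Topology

lemma amgm2 {n : ℕ} {z w g : ℝ} (hz : 0 ≤ z) (hw : 0 ≤ w) (hg : 0 ≤ g)
    (h : z ^ n * w ^ 2 = g ^ (n + 2)) : (n + 2) * g ≤ n * z + 2 * w := by
  have hn : (0 : ℝ) < n + 2 := by positivity
  have h1 := Real.geom_mean_le_arith_mean2_weighted (w₁ := n / (n + 2 : ℝ)) (w₂ := 2 / (n + 2 : ℝ))
    (by positivity) (by positivity) hz hw (by field_simp)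
  have h2 : z ^ ((n : ℝ) / (n + 2 : ℝ)) * w ^ ((2 : ℝ) / (n + 2 : ℝ)) = g := by
    have h3 : z ^ ((n : ℝ) / (n + 2 : ℝ)) = (z ^ n) ^ (1 / (n + 2 : ℝ)) := by
      rw [← Real.rpow_natCast z n, ← Real.rpow_mul hz]
      congr 1; ring
    have h3' : w ^ ((2 : ℝ) / (n + 2 : ℝ)) = (w ^ 2) ^ (1 / (n + 2 : ℝ)) := by
      rw [← Real.rpow_natCast w 2, ← Real.rpow_mul hw]
      congr 1; push_cast; ring
    rw [h3, h3', ← Real.mul_rpow (pow_nonneg hz n) (sq_nonneg w), h, ← Real.rpow_natCast g (n + 2),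
      ← Real.rpow_mul hg]
    push_cast
    rw [mul_one_div_cancel hn.ne', Real.rpow_one]
  rw [h2] at h1
  have h4 : (n + 2) * g ≤ (n + 2) * (n / (n + 2) * z + 2 / (n + 2) * w) :=
    mul_le_mul_of_nonneg_left h1 hn.le
  have h5 : ((n : ℝ) + 2) * (n / (n + 2) * z + 2 / (n + 2) * w) = n * z + 2 * w := by
    field_simp
  linarith

lemma amgm3 {n : ℕ} {r z g : ℝ} (hr : 0 ≤ r) (hz : 0 ≤ z) (hg : 0 ≤ g)
    (h : r * z ^ n = g ^ (n + 1)) :
    (n + 1) * g + (Real.sqrt r - Real.sqrt g) ^ 2 ≤ r + n * z := by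
  have h1 := amgm2 (n := n) (z := z) (w := Real.sqrt r * Real.sqrt g) (g := g) hz (by positivity) hg
    (by rw [mul_pow, Real.sq_sqrt hr, Real.sq_sqrt hg]
        calc z ^ n * (r * g) = (r * z ^ n) * g := by ring
          _ = g ^ (n + 2) := by rw [h]; ring)
  have h2 := Real.sq_sqrt hr
  have h3 := Real.sq_sqrt hg
  nlinarith

/-- pointwise inequality with remainder -/
lemma pointwise_transport2 {n : ℕ} (hn : n ≠ 0) {t K U D f κ : ℝ} (ht : t ∈ Ioo (-1 : ℝ) 1)
    (hU : 0 ≤ U) (hD : 0 ≤ D) (hf : 0 ≤ f) (hκ : 0 ≤ κ) (hK : κ ^ (n + 1) = K)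
    (hS : cn n * f ≤ U ^ (1 / (n : ℝ)) * D) :
    f * ((n + 1) * κ + (Real.sqrt (K * U / b n t) - Real.sqrt κ) ^ 2) +
      K * U / b n t * (U - f) ≤ K * U / b n t * U + Real.sqrt (1 - t ^ 2) * D := by
  have hn0 : (0 : ℝ) < n := by exact_mod_cast Nat.pos_of_ne_zero hn
  have hb := b_pos n ht
  have hK0 : 0 ≤ K := by rw [← hK]; positivity
  rcases hU.eq_or_lt with h | h
  · subst h
    rw [Real.zero_rpow (by positivity), zero_mul] at hS
    have hf0 : f = 0 := by
      have := cn_pos hn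
      nlinarith
    subst hf0
    have := Real.sqrt_nonneg (1 - t ^ 2)
    have := mul_nonneg this hD
    simpa using this
  · set w := Real.sqrt (1 - t ^ 2) with hw
    have hw0 : 0 ≤ w := Real.sqrt_nonneg _
    have hwn : w ^ n = b n t / om n := sqrt_eq_b t
    have hUp : 0 < U ^ (1 / (n : ℝ)) := Real.rpow_pos_of_pos h _
    set v := U ^ (1 / (n : ℝ)) with hv
    have hvn : v ^ n = U := by
      rw [hv, ← Real.rpow_natCast, ← Real.rpow_mul h.le, one_div_mul_cancel hn0.ne', Real.rpow_one]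
    have homn : 0 < om n := om_pos n
    set o := om n ^ (1 / (n : ℝ)) with ho
    have ho0 : 0 < o := Real.rpow_pos_of_pos homn _
    have hon : o ^ n = om n := by
      rw [ho, ← Real.rpow_natCast, ← Real.rpow_mul homn.le, one_div_mul_cancel hn0.ne',
        Real.rpow_one]
    have hcn : cn n = n * o := rfl
    have h1 : w * D ≥ n * (w * o / v) * f := by
      have : D ≥ n * o * f / v := by
        rw [ge_iff_le, div_le_iff₀ hUp, ← hcn]
        linarith
      calc w * D ≥ w * (n * o * f / v) := mul_le_mul_of_nonneg_left this hw0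
        _ = n * (w * o / v) * f := by ring
    have h2 := amgm3 (n := n) (r := K * U / b n t) (z := w * o / v) (g := κ)
      (by positivity) (by positivity) hκ (by
        rw [hK, div_pow, mul_pow, hwn, hon, hvn]
        field_simp)
    have h3 := mul_le_mul_of_nonneg_left h2 hf
    nlinarith

/-- Cauchy–Schwarz step -/
lemma l1_from_l2 {f r : ℝ → ℝ} {g : ℝ} (hf : Continuous f) (hfc : HasCompactSupport f)
    (hf0 : ∀ s, 0 ≤ f s) (hr : Continuous r) (hr0 : ∀ s, 0 ≤ r s) (hg : 0 ≤ g) :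
    ∫ s, f s * |r s - g| ≤
      Real.sqrt ((∫ s, f s * (Real.sqrt (r s) - Real.sqrt g) ^ 2) *
        (2 * (∫ s, f s * r s) + 2 * g * ∫ s, f s)) := by
  have hsr : Continuous (fun s => Real.sqrt (r s)) := by fun_prop
  set A : ℝ → ℝ := fun s => Real.sqrt (f s) * |Real.sqrt (r s) - Real.sqrt g| with hA
  set B : ℝ → ℝ := fun s => Real.sqrt (f s) * (Real.sqrt (r s) + Real.sqrt g) with hB
  have hsf : Continuous (fun s => Real.sqrt (f s)) := by fun_prop
  have hsfc : HasCompactSupport (fun s => Real.sqrt (f s)) :=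
    hfc.comp_left (g := Real.sqrt) Real.sqrt_zero
  have hAc : Continuous A := hsf.mul (by fun_prop)
  have hBc : Continuous B := hsf.mul (by fun_prop)
  have hAs : HasCompactSupport A := hsfc.mul_right
  have hBs : HasCompactSupport B := hsfc.mul_right
  have hcs := integral_mul_le_Lp_mul_Lq_of_nonneg (μ := (volume : Measure ℝ))
    (p := 2) (q := 2) Real.HolderConjugate.two_two (f := A) (g := B)
    (ae_of_all _ fun s => by simp only [hA, Pi.zero_apply]; positivity)
    (ae_of_all _ fun s => by simp only [hB, Pi.zero_apply]; positivity)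
    (hAc.memLp_of_hasCompactSupport hAs) (hBc.memLp_of_hasCompactSupport hBs)
  have h1 : ∀ s, A s * B s = f s * |r s - g| := by
    intro s
    simp only [hA, hB]
    have e1 := Real.mul_self_sqrt (hf0 s)
    have e2 : |r s - g| = |Real.sqrt (r s) - Real.sqrt g| * (Real.sqrt (r s) + Real.sqrt g) := by
      have e3 : r s - g = (Real.sqrt (r s) - Real.sqrt g) * (Real.sqrt (r s) + Real.sqrt g) := by
        have := Real.sq_sqrt (hr0 s)
        have := Real.sq_sqrt hg
        ring_nf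
        linarith
      rw [e3, abs_mul, abs_of_nonneg (a := Real.sqrt (r s) + Real.sqrt g) (by positivity)]
    rw [e2]
    calc _ = (Real.sqrt (f s) * Real.sqrt (f s)) *
        (|Real.sqrt (r s) - Real.sqrt g| * (Real.sqrt (r s) + Real.sqrt g)) := by ring
      _ = _ := by rw [e1]
  have h2 : ∀ s, A s ^ (2 : ℝ) = f s * (Real.sqrt (r s) - Real.sqrt g) ^ 2 := by
    intro s
    simp only [hA]
    rw [Real.rpow_two, mul_pow, Real.sq_sqrt (hf0 s), sq_abs]
  have h3 : ∀ s, B s ^ (2 : ℝ) ≤ 2 * (f s * r s) + 2 * g * f s := by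
    intro s
    simp only [hB]
    rw [Real.rpow_two, mul_pow, Real.sq_sqrt (hf0 s)]
    have e1 := Real.sq_sqrt (hr0 s)
    have e2 := Real.sq_sqrt hg
    have e3 : (Real.sqrt (r s) + Real.sqrt g) ^ 2 ≤ 2 * r s + 2 * g := by
      nlinarith [sq_nonneg (Real.sqrt (r s) - Real.sqrt g)]
    nlinarith [mul_le_mul_of_nonneg_left e3 (hf0 s)]
  have hBi : Integrable (fun s => B s ^ (2 : ℝ)) := by
    simp only [Real.rpow_two]
    apply Continuous.integrable_of_hasCompactSupport (by fun_prop)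
    exact hBs.comp_left (g := fun y : ℝ => y ^ 2) (by norm_num)
  have hi1 : Integrable (fun s => f s * r s) :=
    (hf.mul hr).integrable_of_hasCompactSupport hfc.mul_right
  have hi2 : Integrable f := hf.integrable_of_hasCompactSupport hfc
  have h4 : ∫ s, B s ^ (2 : ℝ) ≤ 2 * (∫ s, f s * r s) + 2 * g * ∫ s, f s := by
    rw [← integral_const_mul, ← integral_const_mul, ← integral_add (hi1.const_mul _) (hi2.const_mul _)]
    exact integral_mono hBi ((hi1.const_mul _).add (hi2.const_mul _)) h3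
  simp only [h1, h2] at hcs
  refine hcs.trans ?_
  rw [← Real.sqrt_eq_rpow, ← Real.sqrt_eq_rpow, ← Real.sqrt_mul
    (integral_nonneg fun s => by have := hf0 s; positivity)]
  apply Real.sqrt_le_sqrt
  apply mul_le_mul_of_nonneg_left h4
  exact integral_nonneg fun s => by have := hf0 s; positivity

end Pool.Agent.Work.MP_280d1a_an.Iso
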