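import Pool.Agent.Work.MP_280d1a_an.IsoStab1

/-! L1 closeness of the transport derivative to one. -/

namespace Pool.Agent.Work.MP_280d1a_an.Iso

open MeasureTheory Set Filter Topology

/-- density ratio -/
noncomputable def lamb (n : ℕ) (η V : ℝ) : ℝ := om (n + 1) * (1 - 2 * η) / V

/-- its root -/
noncomputable def gg (n : ℕ) (η V : ℝ) : ℝ := lamb n η V ^ (1 / (n + 1 : ℝ))

lemma lamb_pos {n : ℕ} {η V : ℝ} (hη : η ∈ Ioo (0 : ℝ) (1 / 2)) (hV : 0 < V) : 0 < lamb n η V := by
  unfold lamb
  have := om_pos (n + 1)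
  have : 0 < 1 - 2 * η := by linarith [hη.2]
  positivity

lemma gg_pos {n : ℕ} {η V : ℝ} (hη : η ∈ Ioo (0 : ℝ) (1 / 2)) (hV : 0 < V) : 0 < gg n η V :=
  Real.rpow_pos_of_pos (lamb_pos hη hV) _

lemma gg_pow {n : ℕ} {η V : ℝ} (hη : η ∈ Ioo (0 : ℝ) (1 / 2)) (hV : 0 < V) :
    gg n η V ^ (n + 1) = lamb n η V := by
  unfold gg
  rw [← Real.rpow_natCast, ← Real.rpow_mul (lamb_pos hη hV).le]
  push_cast
  rw [one_div_mul_cancel (by positivity), Real.rpow_one]

section
variable {n : ℕ} (hn : n ≠ 0) {u : (Fin (n + 1) → ℝ) → ℝ}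
    (hu : ContDiff ℝ 1 u) (hc : HasCompactSupport u) (h0 : ∀ x, 0 ≤ u x) (h1 : ∀ x, u x ≤ 1)
    (i : Fin (n + 1)) {η : ℝ} (hη : η ∈ Ioo (0 : ℝ) (1 / 2)) (hV : 0 < ∫ x, u x)

include h0 h1 in
lemma rpow_le_self (x : Fin (n + 1) → ℝ) : u x ^ (1 + 1 / (n : ℝ)) ≤ u x := by
  have := Real.rpow_le_rpow_of_exponent_ge' (h0 x) (h1 x) zero_le_one
    (show (1 : ℝ) ≤ 1 + 1 / (n : ℝ) by
      have : (0 : ℝ) ≤ 1 / (n : ℝ) := by positivity
      linarith)
  rwa [Real.rpow_one] at this

include hu hc h0 h1 in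
lemma FF_le_UU (s : ℝ) : FF u i s ≤ UU u i s := by
  unfold FF UU
  apply integral_mono
  · exact integrable_rpow (contDiff_sl hu i s).continuous (hcs_sl hc i s) (exp_pos n)
  · exact (contDiff_sl hu i s).continuous.integrable_of_hasCompactSupport (hcs_sl hc i s)
  · intro x
    exact rpow_le_self h0 h1 _

include hu hc in
lemma TT'_eq (s : ℝ) : TT' n η (UU u i) s =
    lamb n η (∫ x, u x) * UU u i s / b n (TT n η (cdf (UU u i)) s) := by
  unfold TT' lamb
  rw [integral_UU hu.continuous hc i]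
  ring

include hn hu hc h0 hη in
lemma TT'_nonneg (s : ℝ) : 0 ≤ TT' n η (UU u i) s := by
  unfold TT'
  have h2 := UU_nonneg h0 i
  have h3 : 0 ≤ ∫ t, UU u i t := integral_nonneg h2
  have h4 := b_pos n (TT_in hn hη (UU_integrable hu.continuous hc i) h2 s)
  have h5 := om_pos (n + 1)
  have h6 : 0 < 1 - 2 * η := by linarith [hη.2]
  have := h2 s
  positivity

include hn hu hc h0 h1 hη hV in
theorem transport_L1 :
    ∫ s, UU u i s * |TT' n η (UU u i) s - 1| ≤
      Real.sqrt (((∫ x, gn u x) - (n + 1) * gg n η (∫ x, u x) * ∫ x, u x ^ (1 + 1 / (n : ℝ))) *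
        (2 * (∫ x, gn u x) + 2 * gg n η (∫ x, u x) * ∫ x, u x ^ (1 + 1 / (n : ℝ)))) +
      |gg n η (∫ x, u x) - 1| * (∫ x, u x ^ (1 + 1 / (n : ℝ))) +
      ((∫ x, gn u x) - (n + 1) * gg n η (∫ x, u x) * ∫ x, u x ^ (1 + 1 / (n : ℝ))) +
      ((∫ x, u x) - ∫ x, u x ^ (1 + 1 / (n : ℝ))) := by
  set P := ∫ x, gn u x with hP
  set V := ∫ x, u x with hVd
  set M := ∫ x, u x ^ (1 + 1 / (n : ℝ)) with hM
  set g := gg n η V with hg
  set U := UU u i with hU
  set f := FF u i with hf
  set T := TT n η (cdf U) with hT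
  set T' := TT' n η U with hT'
  have hg0 : 0 < g := gg_pos hη hV
  have hUc : Continuous U := UU_continuous hu.continuous hc i
  have hUs : HasCompactSupport U := UU_hcs hc i
  have hUi : Integrable U := UU_integrable hu.continuous hc i
  have hU0 : ∀ s, 0 ≤ U s := UU_nonneg h0 i
  have hfc : Continuous f := FF_continuous hu.continuous hc i
  have hfs : HasCompactSupport f := FF_hcs hc i
  have hfi : Integrable f := FF_integrable hu.continuous hc i
  have hf0 : ∀ s, 0 ≤ f s := FF_nonneg h0 i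
  have hfU : ∀ s, f s ≤ U s := FF_le_UU hu hc h0 h1 i
  have hUV : ∫ s, U s = V := integral_UU hu.continuous hc i
  have hfM : ∫ s, f s = M := integral_FF hu.continuous hc i
  have hT'c : Continuous T' := TT'_continuous hn hη hUc hUi hU0
  have hT'0 : ∀ s, 0 ≤ T' s := TT'_nonneg hn hu hc h0 i hη
  have hTin : ∀ s, T s ∈ Ioo (-1 : ℝ) 1 := TT_in hn hη hUi hU0
  obtain ⟨hi, hle⟩ := slice_ineq hu hc i (TT_deriv hn hη hUc hUi hU0) hT'c
    (fun s => Ioo_subset_Icc_self (hTin s))
  change Integrable (fun s => T' s * U s + Real.sqrt (1 - T s ^ 2) * DD u i s) at hi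
  change ∫ s, (T' s * U s + Real.sqrt (1 - T s ^ 2) * DD u i s) ≤ P at hle
  have hpt : ∀ s, f s * ((n + 1) * g + (Real.sqrt (T' s) - Real.sqrt g) ^ 2) +
      T' s * (U s - f s) ≤ T' s * U s + Real.sqrt (1 - T s ^ 2) * DD u i s := by
    intro s
    have e1 := pointwise_transport2 hn (hTin s) (hU0 s) (DD_nonneg u i s) (hf0 s) hg0.le
      (gg_pow hη hV) (by
        have := SS_all hn (sl u i s) (contDiff_sl hu i s) (hcs_sl hc i s) (fun x => h0 _)
        exact this)
    rw [← TT'_eq hu hc i s] at e1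
    exact e1
  have hiA : Integrable (fun s => f s * (Real.sqrt (T' s) - Real.sqrt g) ^ 2) := by
    apply Continuous.integrable_of_hasCompactSupport
    · fun_prop
    · exact hfs.mul_right
  have hUfs : HasCompactSupport (fun s => U s - f s) := hUs.sub hfs
  have hiB : Integrable (fun s => T' s * (U s - f s)) := by
    apply Continuous.integrable_of_hasCompactSupport
    · fun_prop
    · exact hUfs.mul_left
  have hiC : Integrable (fun s => T' s * U s) := by
    apply Continuous.integrable_of_hasCompactSupport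
    · fun_prop
    · exact hUs.mul_left
  have hiD : Integrable (fun s => f s * T' s) := by
    apply Continuous.integrable_of_hasCompactSupport
    · fun_prop
    · exact hfs.mul_right
  have hiG : Integrable (fun s => |g - 1| * f s) := hfi.const_mul _
  have hiH : Integrable (fun s => U s - f s) := hUi.sub hfi
  have hiK : Integrable (fun s => (n + 1) * g * f s) := hfi.const_mul _
  set A := ∫ s, f s * (Real.sqrt (T' s) - Real.sqrt g) ^ 2 with hA
  set B := ∫ s, T' s * (U s - f s) with hB
  have hAB : A + B ≤ P - (n + 1) * g * M := by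
    have e1 : ∫ s, (f s * ((n + 1) * g + (Real.sqrt (T' s) - Real.sqrt g) ^ 2) +
        T' s * (U s - f s)) ≤ P := by
      refine le_trans (integral_mono ?_ hi hpt) hle
      have : Integrable (fun s => ((n + 1) * g) * f s +
          f s * (Real.sqrt (T' s) - Real.sqrt g) ^ 2 + T' s * (U s - f s)) :=
        ((hfi.const_mul _).add hiA).add hiB
      refine this.congr (ae_of_all _ fun s => ?_)
      simp only
      ring
    have e2 : ∫ s, (f s * ((n + 1) * g + (Real.sqrt (T' s) - Real.sqrt g) ^ 2) +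
        T' s * (U s - f s)) = (n + 1) * g * M + A + B := by
      have hS : Integrable (fun s => (n + 1) * g * f s +
          f s * (Real.sqrt (T' s) - Real.sqrt g) ^ 2) := hiK.add hiA
      rw [hA, hB, ← hfM, ← integral_const_mul, ← integral_add hiK hiA, ← integral_add hS hiB]
      congr 1
      funext s
      ring
    linarith
  have hA0 : 0 ≤ A := integral_nonneg fun s => mul_nonneg (hf0 s) (sq_nonneg _)
  have hB0 : 0 ≤ B := integral_nonneg fun s =>
    mul_nonneg (hT'0 s) (sub_nonneg.2 (hfU s))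
  have hM0 : 0 ≤ M := by rw [← hfM]; exact integral_nonneg hf0
  have hTf : ∫ s, f s * T' s ≤ P := by
    refine le_trans ?_ hle
    apply integral_mono hiD hi
    intro s
    have e1 := mul_nonneg (Real.sqrt_nonneg (1 - T s ^ 2)) (DD_nonneg u i s)
    have e2 := mul_le_mul_of_nonneg_right (hfU s) (hT'0 s)
    simp only
    linarith
  have hcs := l1_from_l2 hfc hfs hf0 hT'c hT'0 hg0.le
  rw [hfM] at hcs
  have hd : ∫ s, f s * |T' s - g| ≤ Real.sqrt ((P - (n + 1) * g * M) * (2 * P + 2 * g * M)) := by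
    refine hcs.trans (Real.sqrt_le_sqrt ?_)
    apply mul_le_mul _ _ _ (by linarith)
    · linarith
    · linarith
    · have : 0 ≤ ∫ s, f s * T' s := integral_nonneg fun s => mul_nonneg (hf0 s) (hT'0 s)
      positivity
  have hiE : Integrable (fun s => f s * |T' s - g|) := by
    apply Continuous.integrable_of_hasCompactSupport
    · fun_prop
    · exact hfs.mul_right
  have hiF : Integrable (fun s => U s * |T' s - 1|) := by
    apply Continuous.integrable_of_hasCompactSupport
    · fun_prop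
    · exact hUs.mul_right
  have hfin : ∫ s, U s * |T' s - 1| ≤
      ∫ s, (f s * |T' s - g| + |g - 1| * f s + T' s * (U s - f s) + (U s - f s)) := by
    have hS : Integrable (fun s => f s * |T' s - g| + |g - 1| * f s + T' s * (U s - f s) +
        (U s - f s)) := ((hiE.add hiG).add hiB).add hiH
    apply integral_mono hiF hS
    intro s
    have e1 : |T' s - 1| ≤ |T' s - g| + |g - 1| := abs_sub_le _ _ _
    have e2 : |T' s - 1| ≤ T' s + 1 := by
      rw [abs_le]; constructor <;> linarith [hT'0 s]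
    have e3 : U s * |T' s - 1| = f s * |T' s - 1| + (U s - f s) * |T' s - 1| := by ring
    have e4 := mul_le_mul_of_nonneg_left e1 (hf0 s)
    have e5 := mul_le_mul_of_nonneg_left e2 (sub_nonneg.2 (hfU s))
    simp only
    rw [e3]
    linarith
  have hsum : ∫ s, (f s * |T' s - g| + |g - 1| * f s + T' s * (U s - f s) + (U s - f s)) =
      (∫ s, f s * |T' s - g|) + |g - 1| * M + B + (V - M) := by
    have hS1 : Integrable (fun s => f s * |T' s - g| + |g - 1| * f s) := hiE.add hiG
    have hS2 : Integrable (fun s => f s * |T' s - g| + |g - 1| * f s + T' s * (U s - f s)) :=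
      hS1.add hiB
    rw [integral_add hS2 hiH, integral_add hS1 hiB, integral_add hiE hiG,
      integral_const_mul, integral_sub hUi hfi, hfM, hUV]
  rw [hsum] at hfin
  linarith

end

end Pool.Agent.Work.MP_280d1a_an.Iso
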