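import Pool.Agent.Work.MP_280d1a_an.IsoStab2

/-! Change of variables, closeness of the transport to a translation, lower bound for slices. -/

namespace Pool.Agent.Work.MP_280d1a_an.Iso

open MeasureTheory Set Filter Topology

section
variable {n : ℕ} (hn : n ≠ 0) {u : (Fin (n + 1) → ℝ) → ℝ}
    (hu : ContDiff ℝ 1 u) (hc : HasCompactSupport u) (h0 : ∀ x, 0 ≤ u x) (h1 : ∀ x, u x ≤ 1)
    (i : Fin (n + 1)) {η : ℝ} (hη : η ∈ Ioo (0 : ℝ) (1 / 2)) (hV : 0 < ∫ x, u x)

include hn hu hc h0 hη hV in
lemma change_var {ψ : ℝ → ℝ} (hψ : Continuous ψ) :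
    ∫ s, ψ (TT n η (cdf (UU u i)) s) * UU u i s =
      (1 / lamb n η (∫ x, u x)) *
        ∫ t in (G n (om (n + 1) * η))..(G n (om (n + 1) * (1 - η))), ψ t * b n t := by
  set U := UU u i with hU
  set V := ∫ x, u x with hVd
  set T := TT n η (cdf U) with hT
  set T' := TT' n η U with hT'
  have hUc : Continuous U := UU_continuous hu.continuous hc i
  have hUs : HasCompactSupport U := UU_hcs hc i
  have hUi : Integrable U := UU_integrable hu.continuous hc i
  have hU0 : ∀ s, 0 ≤ U s := UU_nonneg h0 i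
  have hUV : ∫ s, U s = V := integral_UU hu.continuous hc i
  have hT'c : Continuous T' := TT'_continuous hn hη hUc hUi hU0
  have hTin : ∀ s, T s ∈ Ioo (-1 : ℝ) 1 := TT_in hn hη hUi hU0
  have hTd : ∀ s, HasDerivAt T (T' s) s := TT_deriv hn hη hUc hUi hU0
  have hlam : 0 < lamb n η V := lamb_pos hη hV
  obtain ⟨R, hR, hRs⟩ : ∃ R > 0, tsupport U ⊆ Icc (-R) R := by
    obtain ⟨R, hR⟩ := hUs.isBounded.subset_closedBall (0 : ℝ)
    refine ⟨max R 1, by positivity, hR.trans ?_⟩
    rw [Real.closedBall_eq_Icc]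
    apply Icc_subset_Icc <;> simp
  have hz : ∀ s, s ∉ Icc (-R) R → U s = 0 := by
    intro s hs
    by_contra h
    exact hs (hRs (subset_tsupport U h))
  have hUI : ∀ {f : ℝ → ℝ}, (∀ s, s ∉ Icc (-R) R → f s = 0) → ∫ s, f s = ∫ s in (-R)..R, f s := by
    intro f hf
    rw [intervalIntegral.integral_of_le (by linarith), ← integral_Icc_eq_integral_Ioc]
    symm
    exact setIntegral_eq_integral_of_forall_compl_eq_zero hf
  have hcl : cdf U (-R) = 0 := by
    unfold cdf
    rw [integral_Iic_eq_integral_Iio]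
    have : ∫ t in Iio (-R), U t = ∫ t in Iio (-R), (0 : ℝ) := by
      apply setIntegral_congr_fun measurableSet_Iio
      intro s hs
      exact hz s (fun h => absurd h.1 (not_le.2 hs))
    rw [this]; simp
  have hcr : cdf U R = 1 := by
    unfold cdf
    have : ∫ t in Iic R, U t = ∫ t, U t := by
      apply setIntegral_eq_integral_of_forall_compl_eq_zero
      intro s hs
      exact hz s (fun h => hs h.2)
    rw [this, hUV, div_self hV.ne']
  have hTl : T (-R) = G n (om (n + 1) * η) := by
    rw [hT, TT, hcl]; simp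
  have hTr : T R = G n (om (n + 1) * (1 - η)) := by
    rw [hT, TT, hcr]; congr 1; ring
  have hsub := intervalIntegral.integral_comp_mul_deriv (a := -R) (b := R) (f := T) (f' := T')
    (g := fun t => ψ t * b n t) (fun x _ => hTd x) hT'c.continuousOn (hψ.mul (continuous_b n))
  rw [hTl, hTr] at hsub
  rw [← hsub, hUI (f := fun s => ψ (T s) * U s) (fun s hs => by rw [hz s hs, mul_zero]),
    ← intervalIntegral.integral_const_mul]
  congr 1
  funext s
  have e1 : T' s = lamb n η V * U s / b n (T s) := TT'_eq hu hc i s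
  have e2 := b_pos n (hTin s)
  simp only [Function.comp]
  rw [e1]
  field_simp

include hn hu hc h0 hη in
lemma close_to_translation {c κ : ℝ} (hκ : 0 < κ) (hTc : TT n η (cdf (UU u i)) c = 0)
    {s : ℝ} (hs : ∀ t ∈ uIcc c s, κ ≤ UU u i t) :
    |TT n η (cdf (UU u i)) s - (s - c)| ≤
      (∫ s, UU u i s * |TT' n η (UU u i) s - 1|) / κ := by
  set U := UU u i with hU
  set T := TT n η (cdf U) with hT
  set T' := TT' n η U with hT'
  have hUc : Continuous U := UU_continuous hu.continuous hc i
  have hUs : HasCompactSupport U := UU_hcs hc i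
  have hUi : Integrable U := UU_integrable hu.continuous hc i
  have hU0 : ∀ s, 0 ≤ U s := UU_nonneg h0 i
  have hT'c : Continuous T' := TT'_continuous hn hη hUc hUi hU0
  have hTd : ∀ s, HasDerivAt T (T' s) s := TT_deriv hn hη hUc hUi hU0
  have hiF : Integrable (fun s => U s * |T' s - 1|) := by
    apply Continuous.integrable_of_hasCompactSupport
    · fun_prop
    · exact hUs.mul_right
  have e1 : T s - (s - c) = ∫ t in c..s, (T' t - 1) := by
    rw [intervalIntegral.integral_sub (hT'c.intervalIntegrable _ _)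
      (continuous_const.intervalIntegrable _ _),
      intervalIntegral.integral_eq_sub_of_hasDerivAt (fun t _ => hTd t)
        (hT'c.intervalIntegrable _ _), hTc]
    simp
  rw [e1, le_div_iff₀ hκ]
  calc |∫ t in c..s, (T' t - 1)| * κ
      ≤ (∫ t in uIoc c s, |T' t - 1|) * κ := by
        apply mul_le_mul_of_nonneg_right _ hκ.le
        have := intervalIntegral.norm_integral_le_integral_norm_uIoc (a := c) (b := s)
          (f := fun t => T' t - 1) (μ := volume)
        simpa [Real.norm_eq_abs] using this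
    _ = ∫ t in uIoc c s, |T' t - 1| * κ := (integral_mul_const _ _).symm
    _ ≤ ∫ t in uIoc c s, U t * |T' t - 1| := by
        apply setIntegral_mono_on
        · exact ((by fun_prop : Continuous fun t => |T' t - 1| * κ).intervalIntegrable c s).def'
        · exact hiF.integrableOn
        · exact measurableSet_uIoc
        · intro t ht
          rw [mul_comm (U t)]
          exact mul_le_mul_of_nonneg_left (hs t (uIoc_subset_uIcc ht)) (abs_nonneg _)
    _ ≤ ∫ s, U s * |T' s - 1| := setIntegral_le_integral hiF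
        (ae_of_all _ fun s => mul_nonneg (hU0 s) (abs_nonneg _))

end

/-- strict concavity, quantitative -/
lemma concave_gain {n : ℕ} {x y δ : ℝ} (hδ : 0 < δ) (hx : δ ≤ x) (hy : δ ≤ y) :
    (x + y) ^ ((n : ℝ) / (n + 1)) * (1 + δ / (x + y) * (2 ^ (1 / (n + 1 : ℝ)) - 1)) ≤
      x ^ ((n : ℝ) / (n + 1)) + y ^ ((n : ℝ) / (n + 1)) := by
  wlog h : x ≤ y generalizing x y with H
  · have := H hy hx (le_of_not_ge h)
    rw [add_comm y x] at this
    rw [add_comm (x ^ _)]
    exact this
  have hx0 : 0 < x := hδ.trans_le hx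
  have hy0 : 0 < y := hδ.trans_le hy
  set S := x + y with hS
  have hS0 : 0 < S := by positivity
  have hα : (n : ℝ) / (n + 1) ≤ 1 := by
    rw [div_le_one (by positivity)]; linarith
  have hα0 : 0 ≤ (n : ℝ) / (n + 1) := by positivity
  have h1 : y / S ≤ (y / S) ^ ((n : ℝ) / (n + 1)) := by
    have := Real.rpow_le_rpow_of_exponent_ge (x := y / S) (by positivity)
      (by rw [div_le_one hS0]; linarith) hα
    rwa [Real.rpow_one] at this
  have h2 : x / S * 2 ^ (1 / (n + 1 : ℝ)) ≤ (x / S) ^ ((n : ℝ) / (n + 1)) := by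
    have hxS : 0 < x / S := by positivity
    have e1 : (x / S) ^ ((n : ℝ) / (n + 1)) = x / S * (S / x) ^ (1 / (n + 1 : ℝ)) := by
      have : S / x = (x / S)⁻¹ := by rw [inv_div]
      rw [this, Real.inv_rpow hxS.le, ← Real.rpow_neg hxS.le]
      nth_rw 2 [← Real.rpow_one (x / S)]
      rw [← Real.rpow_add hxS]
      congr 1
      field_simp
      ring
    rw [e1]
    apply mul_le_mul_of_nonneg_left _ hxS.le
    apply Real.rpow_le_rpow (by norm_num) _ (by positivity)
    rw [le_div_iff₀ hx0]
    linarith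
  have h3 : 1 + δ / S * (2 ^ (1 / (n + 1 : ℝ)) - 1) ≤
      (x / S) ^ ((n : ℝ) / (n + 1)) + (y / S) ^ ((n : ℝ) / (n + 1)) := by
    have h4 : (1 : ℝ) ≤ 2 ^ (1 / (n + 1 : ℝ)) := Real.one_le_rpow (by norm_num) (by positivity)
    have h5 : δ / S ≤ x / S := by gcongr
    have h6 : x / S + y / S = 1 := by rw [← add_div]; exact div_self hS0.ne'
    nlinarith
  rw [Real.div_rpow hx0.le hS0.le, Real.div_rpow hy0.le hS0.le, ← add_div,
    le_div_iff₀ (Real.rpow_pos_of_pos hS0 _)] at h3
  linarith

end Pool.Agent.Work.MP_280d1a_an.Iso
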