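import Pool.Agent.Work.MP_280d1a_an.IsoStab3

/-! Lower bound for slices and limits of auxiliary quantities. -/

namespace Pool.Agent.Work.MP_280d1a_an.Iso

open MeasureTheory Set Filter Topology

/-- mass fraction left of `-1+d` or right of `1-d` in the ball -/
noncomputable def m1 (n : ℕ) (d : ℝ) : ℝ :=
  min (be n (-1 + d)) (om (n + 1) - be n (1 - d)) / om (n + 1)

lemma m1_pos {n : ℕ} (hn : n ≠ 0) {d : ℝ} (hd : d ∈ Ioo (0 : ℝ) 1) : 0 < m1 n d := by
  unfold m1
  have h1 := be_mem hn (t := -1 + d) ⟨by linarith [hd.1], by linarith [hd.2]⟩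
  have h2 := be_mem hn (t := 1 - d) ⟨by linarith [hd.2], by linarith [hd.1]⟩
  have h3 := om_pos (n + 1)
  apply div_pos _ h3
  exact lt_min h1.1 (by linarith [h2.2])

section
variable {n : ℕ} (hn : n ≠ 0) {u : (Fin (n + 1) → ℝ) → ℝ}
    (hu : ContDiff ℝ 1 u) (hc : HasCompactSupport u) (h0 : ∀ x, 0 ≤ u x) (h1 : ∀ x, u x ≤ 1)
    (i : Fin (n + 1)) {η : ℝ} (hη : η ∈ Ioo (0 : ℝ) (1 / 2)) (hV : 0 < ∫ x, u x)

include hn hu hc h0 h1 hη hV in
lemma slice_lower {d : ℝ} (hd : d ∈ Ioo (0 : ℝ) 1) {s : ℝ}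
    (hs : TT n η (cdf (UU u i)) s ∈ Icc (-1 + d) (1 - d)) {δ : ℝ}
    (hδ : 0 < δ)
    (hδ' : δ ≤ (∫ x, u x) * (m1 n d - η) - ((∫ x, u x) - ∫ x, u x ^ (1 + 1 / (n : ℝ)))) :
    cn (n + 1) * ((∫ x, u x ^ (1 + 1 / (n : ℝ))) ^ ((n : ℝ) / (n + 1)) *
      (1 + δ / (∫ x, u x ^ (1 + 1 / (n : ℝ))) * (2 ^ (1 / (n + 1 : ℝ)) - 1))) ≤
      (∫ x, gn u x) + 2 * UU u i s := by
  set P := ∫ x, gn u x with hP
  set V := ∫ x, u x with hVd
  set M := ∫ x, u x ^ (1 + 1 / (n : ℝ)) with hM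
  set U := UU u i with hU
  set f := FF u i with hf
  set F := cdf U s with hF
  have hUi : Integrable U := UU_integrable hu.continuous hc i
  have hU0 : ∀ s, 0 ≤ U s := UU_nonneg h0 i
  have hfi : Integrable f := FF_integrable hu.continuous hc i
  have hf0 : ∀ s, 0 ≤ f s := FF_nonneg h0 i
  have hfU : ∀ s, f s ≤ U s := FF_le_UU hu hc h0 h1 i
  have hUV : ∫ s, U s = V := integral_UU hu.continuous hc i
  have hfM : ∫ s, f s = M := integral_FF hu.continuous hc i
  have hF01 : F ∈ Icc (0 : ℝ) 1 := cdf_mem hUi hU0 s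
  have hom := om_pos (n + 1)
  have hbe : be n (TT n η (cdf U) s) = om (n + 1) * (η + (1 - 2 * η) * F) := be_TT hn hη hF01
  have hTin := TT_in hn hη hUi hU0 s
  have hmono := (strictMonoOn_be n).monotoneOn
  have e1 : be n (-1 + d) ≤ om (n + 1) * (η + (1 - 2 * η) * F) := by
    rw [← hbe]
    exact hmono ⟨by linarith [hd.1], by linarith [hd.2]⟩ (Ioo_subset_Icc_self hTin) hs.1
  have e2 : om (n + 1) * (η + (1 - 2 * η) * F) ≤ be n (1 - d) := by
    rw [← hbe]
    exact hmono (Ioo_subset_Icc_self hTin) ⟨by linarith [hd.2], by linarith [hd.1]⟩ hs.2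
  have e3 : m1 n d * om (n + 1) ≤ be n (-1 + d) := by
    unfold m1; rw [div_mul_cancel₀ _ hom.ne']; exact min_le_left _ _
  have e4 : m1 n d * om (n + 1) ≤ om (n + 1) - be n (1 - d) := by
    unfold m1; rw [div_mul_cancel₀ _ hom.ne']; exact min_le_right _ _
  have f1 : m1 n d ≤ η + (1 - 2 * η) * F := by
    by_contra hcon
    push Not at hcon
    nlinarith
  have f2 : m1 n d ≤ 1 - (η + (1 - 2 * η) * F) := by
    by_contra hcon
    push Not at hcon
    nlinarith
  have f3 : m1 n d - η ≤ F := by nlinarith [hF01.1, hη.1, hη.2]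
  have f4 : m1 n d - η ≤ 1 - F := by nlinarith [hF01.2, hη.1, hη.2]
  have g1 : ∫ t in Iic s, U t = V * F := by
    rw [hF, cdf, hUV]; field_simp
  have g2 : ∫ t in Ioi s, U t = V * (1 - F) := by
    have := intervalIntegral.integral_Iic_add_Ioi (b := s) hUi.integrableOn hUi.integrableOn
    rw [hUV, g1] at this
    linarith
  have hUf : Integrable (fun t => U t - f t) := hUi.sub hfi
  have hUf0 : ∀ t, 0 ≤ U t - f t := fun t => sub_nonneg.2 (hfU t)
  have hUfV : ∫ t, (U t - f t) = V - M := by rw [integral_sub hUi hfi, hUV, hfM]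
  have k1 : ∫ t in Iic s, (U t - f t) ≤ V - M := by
    rw [← hUfV]; exact setIntegral_le_integral hUf (ae_of_all _ hUf0)
  have k2 : ∫ t in Ioi s, (U t - f t) ≤ V - M := by
    rw [← hUfV]; exact setIntegral_le_integral hUf (ae_of_all _ hUf0)
  rw [integral_sub hUi.integrableOn hfi.integrableOn, g1] at k1
  rw [integral_sub hUi.integrableOn hfi.integrableOn, g2] at k2
  have l1 : δ ≤ ∫ t in Iic s, f t := by
    have := mul_le_mul_of_nonneg_left f3 hV.le
    linarith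
  have l2 : δ ≤ ∫ t in Ioi s, f t := by
    have := mul_le_mul_of_nonneg_left f4 hV.le
    linarith
  have hsum : (∫ t in Iic s, f t) + ∫ t in Ioi s, f t = M := by
    rw [intervalIntegral.integral_Iic_add_Ioi (b := s) hfi.integrableOn hfi.integrableOn, hfM]
  have hg := concave_gain (n := n) hδ l1 l2
  rw [hsum] at hg
  have hcut := cut_ineq hn hu hc h0 i s
  refine le_trans ?_ hcut
  exact mul_le_mul_of_nonneg_left hg (cn_pos (Nat.succ_ne_zero n)).le

end

/-- the parameter sequence -/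
noncomputable def et (k : ℕ) : ℝ := 1 / ((k : ℝ) + 3)

lemma et_mem (k : ℕ) : et k ∈ Ioo (0 : ℝ) (1 / 2) := by
  unfold et
  constructor
  · positivity
  · rw [div_lt_div_iff₀ (by positivity) (by norm_num)]
    have : (0 : ℝ) ≤ k := Nat.cast_nonneg k
    linarith

lemma et_tendsto : Tendsto et atTop (𝓝 0) := by
  have h : Tendsto (fun k : ℕ => ((k : ℝ) + 3)) atTop atTop :=
    tendsto_atTop_add_const_right _ _ tendsto_natCast_atTop_atTop
  have := h.inv_tendsto_atTop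
  refine this.congr fun k => ?_
  simp [et]

lemma lamb_tendsto {n : ℕ} {V : ℕ → ℝ} (hV : Tendsto V atTop (𝓝 (om (n + 1)))) :
    Tendsto (fun k => lamb n (et k) (V k)) atTop (𝓝 1) := by
  unfold lamb
  have h1 : Tendsto (fun k => om (n + 1) * (1 - 2 * et k) / V k) atTop
      (𝓝 (om (n + 1) * (1 - 2 * 0) / om (n + 1))) := by
    apply Tendsto.div _ hV (om_pos _).ne'
    exact (tendsto_const_nhds.sub (et_tendsto.const_mul 2)).const_mul _
  have h2 : om (n + 1) * (1 - 2 * 0) / om (n + 1) = 1 := by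
    have := om_pos (n + 1)
    field_simp
    ring
  rwa [h2] at h1

lemma gg_tendsto {n : ℕ} {V : ℕ → ℝ} (hV : Tendsto V atTop (𝓝 (om (n + 1)))) :
    Tendsto (fun k => gg n (et k) (V k)) atTop (𝓝 1) := by
  unfold gg
  have h1 := (lamb_tendsto hV).rpow_const (p := 1 / (n + 1 : ℝ)) (Or.inl one_ne_zero)
  rwa [Real.one_rpow] at h1

lemma G_tendsto_zero {n : ℕ} (hn : n ≠ 0) : Tendsto (G n) (𝓝[>] 0) (𝓝 (-1)) := by
  rw [Metric.tendsto_nhds]
  intro ε hε
  set ε' := min ε 1 with hε'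
  have he0 : 0 < ε' := lt_min hε one_pos
  have he1 : ε' ≤ 1 := min_le_right _ _
  have h1 := be_mem hn (t := -1 + ε' / 2) ⟨by linarith, by linarith⟩
  filter_upwards [Ioo_mem_nhdsGT h1.1] with y hy
  have hy' : y ∈ Ioo 0 (om (n + 1)) := ⟨hy.1, hy.2.trans h1.2⟩
  have h2 := G_mono hn hy' h1 hy.2
  rw [G_be hn ⟨by linarith, by linarith⟩] at h2
  have h3 := (G_mem hn hy').1
  rw [Real.dist_eq, abs_lt]
  have : ε' ≤ ε := min_le_left _ _
  constructor <;> linarith

lemma G_tendsto_om {n : ℕ} (hn : n ≠ 0) : Tendsto (G n) (𝓝[<] (om (n + 1))) (𝓝 1) := by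
  rw [Metric.tendsto_nhds]
  intro ε hε
  set ε' := min ε 1 with hε'
  have he0 : 0 < ε' := lt_min hε one_pos
  have he1 : ε' ≤ 1 := min_le_right _ _
  have h1 := be_mem hn (t := 1 - ε' / 2) ⟨by linarith, by linarith⟩
  filter_upwards [Ioo_mem_nhdsLT h1.2] with y hy
  have hy' : y ∈ Ioo 0 (om (n + 1)) := ⟨h1.1.trans hy.1, hy.2⟩
  have h2 := G_mono hn h1 hy' hy.1
  rw [G_be hn ⟨by linarith, by linarith⟩] at h2
  have h3 := (G_mem hn hy').2
  rw [Real.dist_eq, abs_lt]
  have : ε' ≤ ε := min_le_left _ _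
  constructor <;> linarith

lemma tl_tendsto {n : ℕ} (hn : n ≠ 0) :
    Tendsto (fun k => G n (om (n + 1) * et k)) atTop (𝓝 (-1)) := by
  apply (G_tendsto_zero hn).comp
  rw [tendsto_nhdsWithin_iff]
  constructor
  · have := et_tendsto.const_mul (om (n + 1))
    rwa [mul_zero] at this
  · exact Eventually.of_forall fun k => mul_pos (om_pos _) (et_mem k).1

lemma tr_tendsto {n : ℕ} (hn : n ≠ 0) :
    Tendsto (fun k => G n (om (n + 1) * (1 - et k))) atTop (𝓝 1) := by
  apply (G_tendsto_om hn).comp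
  rw [tendsto_nhdsWithin_iff]
  constructor
  · have := (tendsto_const_nhds (x := (1 : ℝ)).sub et_tendsto).const_mul (om (n + 1))
    rwa [sub_zero, mul_one] at this
  · refine Eventually.of_forall fun k => ?_
    have h1 := (et_mem k).1
    have h2 := om_pos (n + 1)
    change om (n + 1) * (1 - et k) < om (n + 1)
    nlinarith

end Pool.Agent.Work.MP_280d1a_an.Iso
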