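import Pool.Agent.Work.MP_280d1a_an.IsoStab4

/-! Convergence of the one-dimensional marginals. -/

namespace Pool.Agent.Work.MP_280d1a_an.Iso

open MeasureTheory Set Filter Topology

/-- almost extremal sequences -/
structure AE (n : ℕ) (u : ℕ → (Fin (n + 1) → ℝ) → ℝ) : Prop where
  smooth : ∀ k, ContDiff ℝ 1 (u k)
  cs : ∀ k, HasCompactSupport (u k)
  nn : ∀ k x, 0 ≤ u k x
  le1 : ∀ k x, u k x ≤ 1
  hV : Tendsto (fun k => ∫ x, u k x) atTop (𝓝 (om (n + 1)))
  hM : Tendsto (fun k => ∫ x, u k x ^ (1 + 1 / (n : ℝ))) atTop (𝓝 (om (n + 1)))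
  hP : Tendsto (fun k => ∫ x, gn (u k) x) atTop (𝓝 ((n + 1) * om (n + 1)))

variable {n : ℕ} {u : ℕ → (Fin (n + 1) → ℝ) → ℝ}

lemma AE.eventually_pos (h : AE n u) : ∀ᶠ k in atTop, 0 < ∫ x, u k x :=
  h.hV.eventually (lt_mem_nhds (om_pos (n + 1)))

lemma AE.R_tendsto (h : AE n u) (hn : n ≠ 0) (i : Fin (n + 1)) :
    Tendsto (fun k => ∫ s, UU (u k) i s * |TT' n (et k) (UU (u k) i) s - 1|) atTop (𝓝 0) := by
  have hg := gg_tendsto (n := n) h.hV
  have hbound : Tendsto (fun k =>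
      Real.sqrt (((∫ x, gn (u k) x) -
        (n + 1) * gg n (et k) (∫ x, u k x) * ∫ x, u k x ^ (1 + 1 / (n : ℝ))) *
        (2 * (∫ x, gn (u k) x) +
          2 * gg n (et k) (∫ x, u k x) * ∫ x, u k x ^ (1 + 1 / (n : ℝ)))) +
      |gg n (et k) (∫ x, u k x) - 1| * (∫ x, u k x ^ (1 + 1 / (n : ℝ))) +
      ((∫ x, gn (u k) x) -
        (n + 1) * gg n (et k) (∫ x, u k x) * ∫ x, u k x ^ (1 + 1 / (n : ℝ))) +
      ((∫ x, u k x) - ∫ x, u k x ^ (1 + 1 / (n : ℝ)))) atTop (𝓝 0) := by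
    have hD : Tendsto (fun k => (∫ x, gn (u k) x) -
        (n + 1) * gg n (et k) (∫ x, u k x) * ∫ x, u k x ^ (1 + 1 / (n : ℝ))) atTop (𝓝 0) := by
      have := h.hP.sub ((hg.const_mul ((n : ℝ) + 1)).mul h.hM)
      simpa using this
    have hE : Tendsto (fun k => 2 * (∫ x, gn (u k) x) +
          2 * gg n (et k) (∫ x, u k x) * ∫ x, u k x ^ (1 + 1 / (n : ℝ))) atTop
        (𝓝 (2 * ((n + 1) * om (n + 1)) + 2 * 1 * om (n + 1))) :=
      (h.hP.const_mul 2).add ((hg.const_mul 2).mul h.hM)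
    have hF : Tendsto (fun k => |gg n (et k) (∫ x, u k x) - 1| *
        (∫ x, u k x ^ (1 + 1 / (n : ℝ)))) atTop (𝓝 0) := by
      have := ((hg.sub_const 1).abs).mul h.hM
      simpa using this
    have hG : Tendsto (fun k => (∫ x, u k x) - ∫ x, u k x ^ (1 + 1 / (n : ℝ))) atTop (𝓝 0) := by
      have := h.hV.sub h.hM
      simpa using this
    have hS := (hD.mul hE).sqrt
    rw [zero_mul, Real.sqrt_zero] at hS
    have := ((hS.add hF).add hD).add hG
    simpa using this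
  refine squeeze_zero' (Eventually.of_forall fun k => ?_) ?_ hbound
  · exact integral_nonneg fun s => mul_nonneg (UU_nonneg (h.nn k) i s) (abs_nonneg _)
  · filter_upwards [h.eventually_pos] with k hk
    exact transport_L1 hn (h.smooth k) (h.cs k) (h.nn k) (h.le1 k) i (et_mem k) hk

lemma cn_mul_om : cn (n + 1) * om (n + 1) ^ ((n : ℝ) / (n + 1)) = (n + 1) * om (n + 1) := by
  unfold cn
  push_cast
  have h := om_pos (n + 1)
  have : om (n + 1) = om (n + 1) ^ (1 / (n + 1 : ℝ)) * om (n + 1) ^ ((n : ℝ) / (n + 1)) := by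
    rw [← Real.rpow_add h]
    have : (1 : ℝ) / (n + 1) + n / (n + 1) = 1 := by field_simp; ring
    rw [this, Real.rpow_one]
  nth_rw 3 [this]
  ring

lemma AE.eventually_lower (h : AE n u) (hn : n ≠ 0) (i : Fin (n + 1)) {d : ℝ}
    (hd : d ∈ Ioo (0 : ℝ) 1) : ∃ κ > 0, ∀ᶠ k in atTop, ∀ s,
      TT n (et k) (cdf (UU (u k) i)) s ∈ Icc (-1 + d) (1 - d) → κ ≤ UU (u k) i s := by
  have hom := om_pos (n + 1)
  have hm1 := m1_pos hn hd
  set γ : ℝ := 2 ^ (1 / (n + 1 : ℝ)) - 1 with hγ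
  have hγ0 : 0 < γ := by
    have : (1 : ℝ) < 2 ^ (1 / (n + 1 : ℝ)) := Real.one_lt_rpow (by norm_num) (by positivity)
    linarith
  set δ : ℝ := om (n + 1) * m1 n d / 2 with hδ
  have hδ0 : 0 < δ := by positivity
  set L : ℝ := (n + 1) * δ * γ with hL
  have hL0 : 0 < L := by positivity
  have e1 : ∀ᶠ k in atTop, δ ≤ (∫ x, u k x) * (m1 n d - et k) -
      ((∫ x, u k x) - ∫ x, u k x ^ (1 + 1 / (n : ℝ))) := by
    have ht : Tendsto (fun k => (∫ x, u k x) * (m1 n d - et k) -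
        ((∫ x, u k x) - ∫ x, u k x ^ (1 + 1 / (n : ℝ)))) atTop
        (𝓝 (om (n + 1) * (m1 n d - 0) - (om (n + 1) - om (n + 1)))) :=
      (h.hV.mul (tendsto_const_nhds.sub et_tendsto)).sub (h.hV.sub h.hM)
    have : δ < om (n + 1) * (m1 n d - 0) - (om (n + 1) - om (n + 1)) := by
      have := mul_pos hom hm1
      rw [hδ]; linarith
    filter_upwards [ht.eventually (lt_mem_nhds this)] with k hk using hk.le
  have e2 : ∀ᶠ k in atTop, L / 2 ≤
      cn (n + 1) * ((∫ x, u k x ^ (1 + 1 / (n : ℝ))) ^ ((n : ℝ) / (n + 1)) *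
      (1 + δ / (∫ x, u k x ^ (1 + 1 / (n : ℝ))) * γ)) - ∫ x, gn (u k) x := by
    have ht : Tendsto (fun k =>
        cn (n + 1) * ((∫ x, u k x ^ (1 + 1 / (n : ℝ))) ^ ((n : ℝ) / (n + 1)) *
        (1 + δ / (∫ x, u k x ^ (1 + 1 / (n : ℝ))) * γ)) - ∫ x, gn (u k) x) atTop
        (𝓝 (cn (n + 1) * (om (n + 1) ^ ((n : ℝ) / (n + 1)) * (1 + δ / om (n + 1) * γ)) -
          (n + 1) * om (n + 1))) := by
      apply Tendsto.sub _ h.hP
      apply Tendsto.const_mul
      apply Tendsto.mul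
      · exact h.hM.rpow_const (Or.inl hom.ne')
      · apply Tendsto.const_add
        apply Tendsto.mul_const
        exact tendsto_const_nhds.div h.hM hom.ne'
    have hlim : cn (n + 1) * (om (n + 1) ^ ((n : ℝ) / (n + 1)) * (1 + δ / om (n + 1) * γ)) -
          (n + 1) * om (n + 1) = L := by
      rw [← mul_assoc, cn_mul_om, hL]
      field_simp
      ring
    rw [hlim] at ht
    filter_upwards [ht.eventually (lt_mem_nhds (by linarith : L / 2 < L))] with k hk using hk.le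
  refine ⟨L / 4, by positivity, ?_⟩
  filter_upwards [e1, e2, h.eventually_pos] with k hk1 hk2 hk3 s hs
  have := slice_lower hn (h.smooth k) (h.cs k) (h.nn k) (h.le1 k) i (et_mem k) hk3 hd hs hδ0 hk1
  linarith

lemma TT_ends (hn : n ≠ 0) {v : (Fin (n + 1) → ℝ) → ℝ}
    (hu : ContDiff ℝ 1 v) (hc : HasCompactSupport v) (h0 : ∀ x, 0 ≤ v x)
    (i : Fin (n + 1)) {η : ℝ} (hη : η ∈ Ioo (0 : ℝ) (1 / 2)) (hV : 0 < ∫ x, v x)
    (h1 : G n (om (n + 1) * η) < 0) (h2 : 0 < G n (om (n + 1) * (1 - η))) :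
    ∃ c, TT n η (cdf (UU v i)) c = 0 := by
  set U := UU v i with hU
  set V := ∫ x, v x with hVd
  set T := TT n η (cdf U) with hT
  have hUc : Continuous U := UU_continuous hu.continuous hc i
  have hUs : HasCompactSupport U := UU_hcs hc i
  have hUi : Integrable U := UU_integrable hu.continuous hc i
  have hU0 : ∀ s, 0 ≤ U s := UU_nonneg h0 i
  have hUV : ∫ s, U s = V := integral_UU hu.continuous hc i
  have hTc : Continuous T :=
    continuous_iff_continuousAt.2 fun s => (TT_deriv hn hη hUc hUi hU0 s).continuousAt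
  obtain ⟨R, hR, hRs⟩ : ∃ R > 0, tsupport U ⊆ Icc (-R) R := by
    obtain ⟨R, hR⟩ := hUs.isBounded.subset_closedBall (0 : ℝ)
    refine ⟨max R 1, by positivity, hR.trans ?_⟩
    rw [Real.closedBall_eq_Icc]
    apply Icc_subset_Icc <;> simp
  have hz : ∀ s, s ∉ Icc (-R) R → U s = 0 := by
    intro s hs
    by_contra h
    exact hs (hRs (subset_tsupport U h))
  have hcl : cdf U (-R) = 0 := by
    unfold cdf
    rw [integral_Iic_eq_integral_Iio]
    have : ∫ t in Iio (-R), U t = ∫ t in Iio (-R), (0 : ℝ) := by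
      apply setIntegral_congr_fun measurableSet_Iio
      intro s hs
      exact hz s (fun h => absurd h.1 (not_le.2 hs))
    rw [this]; simp
  have hcr : cdf U R = 1 := by
    unfold cdf
    have : ∫ t in Iic R, U t = ∫ t, U t := by
      apply setIntegral_eq_integral_of_forall_compl_eq_zero
      intro s hs
      exact hz s (fun h => hs h.2)
    rw [this, hUV, div_self hV.ne']
  have hTl : T (-R) = G n (om (n + 1) * η) := by
    rw [hT, TT, hcl]; simp
  have hTr : T R = G n (om (n + 1) * (1 - η)) := by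
    rw [hT, TT, hcr]; congr 1; ring
  have hivt := intermediate_value_Icc (by linarith : -R ≤ R) hTc.continuousOn
  obtain ⟨c, -, hc'⟩ := hivt (show (0 : ℝ) ∈ Icc (T (-R)) (T R) by
    rw [hTl, hTr]; exact ⟨h1.le, h2.le⟩)
  exact ⟨c, hc'⟩

end Pool.Agent.Work.MP_280d1a_an.Iso
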