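import Pool.Agent.Work.MP_280d1a_an.Basic

/-!
# Translations and the density of cubes
-/

set_option autoImplicit false

open MeasureTheory Set Filter Topology
open scoped ENNReal NNReal ContDiff

namespace Pool.Agent.Work.MP_280d1a_an

variable {n : ℕ}

lemma fderiv_apply_le (f : X n → ℝ) (y z : X n) (hz : ∀ i, |z i| ≤ 1) :
    |fderiv ℝ f y z| ≤ n * gn f y := by
  have h1 : z = ∑ i, z i • (Pi.single i 1 : X n) := by
    ext j
    simp [Finset.sum_apply, Pi.single_apply]
  have h2 : fderiv ℝ f y z = ∑ i, z i * pd i f y := by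
    conv_lhs => rw [h1]
    rw [map_sum]
    simp [pd]
  rw [h2]
  calc |∑ i, z i * pd i f y| ≤ ∑ i, |z i * pd i f y| := Finset.abs_sum_le_sum_abs _ _
    _ ≤ ∑ _i : Fin n, gn f y := by
        refine Finset.sum_le_sum fun i _ => ?_
        rw [abs_mul]
        calc |z i| * |pd i f y| ≤ 1 * gn f y := by
              gcongr
              · exact hz i
              · exact abs_pd_le_gn f y i
          _ = gn f y := one_mul _
    _ = n * gn f y := by simp

lemma lintegral_shift_le {f : X n → ℝ} (hf : IsC f) {z : X n} (hz : ∀ i, |z i| ≤ 1) :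
    ∫⁻ x, ENNReal.ofReal |f (x + z) - f x| ≤ ENNReal.ofReal (n * ∫ x, gn f x) := by
  have hgc := continuous_gn hf.smooth
  have hpt : ∀ x, ENNReal.ofReal |f (x + z) - f x| ≤
      ∫⁻ t in Ioc (0 : ℝ) 1, ENNReal.ofReal (n * gn f (x + t • z)) := by
    intro x
    have hd : ∀ t ∈ uIcc (0 : ℝ) 1, HasDerivAt (fun t : ℝ => f (x + t • z))
        (fderiv ℝ f (x + t • z) z) t := by
      intro t _
      have h1 : HasFDerivAt f (fderiv ℝ f (x + t • z)) (x + t • z) :=
        (hf.smooth.differentiable (by norm_num) _).hasFDerivAt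
      have h2 : HasDerivAt (fun t : ℝ => x + t • z) z t := by
        simpa using ((hasDerivAt_id t).smul_const z).const_add x
      exact h1.comp_hasDerivAt t h2
    have hcz : Continuous fun t : ℝ => x + t • z := by fun_prop
    have hcd : Continuous fun t : ℝ => fderiv ℝ f (x + t • z) z :=
      ((hf.smooth.continuous_fderiv (by norm_num)).comp hcz).clm_apply continuous_const
    have h3 := intervalIntegral.integral_eq_sub_of_hasDerivAt hd (hcd.intervalIntegrable _ _)
    simp only [one_smul, zero_smul, add_zero] at h3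
    rw [← h3, intervalIntegral.integral_of_le zero_le_one]
    have hint : IntegrableOn (fun t : ℝ => n * gn f (x + t • z)) (Ioc 0 1) :=
      (continuous_const.mul (hgc.comp hcz)).integrableOn_Ioc
    rw [← ofReal_integral_eq_lintegral_ofReal hint
      (ae_of_all _ fun t => mul_nonneg (Nat.cast_nonneg _) (gn_nonneg _ _))]
    refine ENNReal.ofReal_le_ofReal ?_
    refine (abs_integral_le_integral_abs).trans ?_
    refine integral_mono hcd.integrableOn_Ioc.abs hint fun t => ?_
    exact fderiv_apply_le f _ z hz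
  have hm : Measurable fun p : X n × ℝ => ENNReal.ofReal (n * gn f (p.1 + p.2 • z)) := by
    refine Measurable.ennreal_ofReal (Continuous.measurable ?_)
    exact continuous_const.mul (hgc.comp (by fun_prop))
  calc ∫⁻ x, ENNReal.ofReal |f (x + z) - f x|
      ≤ ∫⁻ x, ∫⁻ t in Ioc (0 : ℝ) 1, ENNReal.ofReal (n * gn f (x + t • z)) := lintegral_mono hpt
    _ = ∫⁻ t in Ioc (0 : ℝ) 1, ∫⁻ x, ENNReal.ofReal (n * gn f (x + t • z)) :=
        lintegral_lintegral_swap hm.aemeasurable
    _ = ∫⁻ _ in Ioc (0 : ℝ) 1, ENNReal.ofReal (n * ∫ x, gn f x) := by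
        refine lintegral_congr fun t => ?_
        rw [lintegral_add_right_eq_self (fun x => ENNReal.ofReal (n * gn f x)) (t • z),
          ← integral_const_mul, ofReal_integral_eq_lintegral_ofReal
          (hf.integrable_gn.const_mul _)
          (ae_of_all _ fun t => mul_nonneg (Nat.cast_nonneg _) (gn_nonneg _ _))]
    _ = _ := by simp

/-- Translation estimate. -/
theorem volume_shift_le {A : Set (X n)} (hA : MeasurableSet A) (hfin : volume A < ⊤) {D : ℝ}
    (hD : Appr A D) {z : X n} (hz : ∀ i, |z i| ≤ 1) :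
    volume {x | x ∈ A ∧ x + z ∉ A} ≤ ENNReal.ofReal (n * D) := by
  have key : ∀ ε : ℝ, 0 < ε → volume {x | x ∈ A ∧ x + z ∉ A} ≤
      ENNReal.ofReal (n * D + (2 + n) * ε) := by
    intro ε hε
    obtain ⟨f, hf, hfA, hfD⟩ := hD ε hε
    have hindm : Measurable (ind A) := measurable_const.indicator hA
    have hm1 : Measurable fun x => ENNReal.ofReal |f x - ind A x| :=
      ((hf.smooth.continuous.measurable.sub hindm).norm).ennreal_ofReal
    have hS : MeasurableSet {x | x ∈ A ∧ x + z ∉ A} :=
      hA.inter ((measurable_id.add_const z) hA.compl)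
    have hi : Integrable fun x => |f x - ind A x| :=
      (hf.integrable.sub (integrable_ind' hA hfin)).abs
    have h1 : ∫⁻ x, ENNReal.ofReal |f x - ind A x| ≤ ENNReal.ofReal ε := by
      rw [← ofReal_integral_eq_lintegral_ofReal hi (ae_of_all _ fun x => abs_nonneg _)]
      exact ENNReal.ofReal_le_ofReal hfA
    have h2 : ∫⁻ x, ENNReal.ofReal |f (x + z) - ind A (x + z)| ≤ ENNReal.ofReal ε := by
      rw [lintegral_add_right_eq_self (fun x => ENNReal.ofReal |f x - ind A x|) z]
      exact h1
    have h3 : ∫⁻ x, ENNReal.ofReal |f (x + z) - f x| ≤ ENNReal.ofReal (n * (D + ε)) := by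
      refine (lintegral_shift_le hf hz).trans (ENNReal.ofReal_le_ofReal ?_)
      exact mul_le_mul_of_nonneg_left hfD (Nat.cast_nonneg _)
    have hDε : 0 ≤ D + ε := (integral_nonneg (gn_nonneg f)).trans hfD
    calc volume {x | x ∈ A ∧ x + z ∉ A}
        = ∫⁻ x, {x | x ∈ A ∧ x + z ∉ A}.indicator 1 x := (lintegral_indicator_one hS).symm
      _ ≤ ∫⁻ x, (ENNReal.ofReal |f x - ind A x| + ENNReal.ofReal |f (x + z) - ind A (x + z)| +
          ENNReal.ofReal |f (x + z) - f x|) := by
          refine lintegral_mono fun x => ?_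
          by_cases hx : x ∈ {x | x ∈ A ∧ x + z ∉ A}
          · rw [indicator_of_mem hx, Pi.one_apply, ← ENNReal.ofReal_add (abs_nonneg _)
              (abs_nonneg _), ← ENNReal.ofReal_add (by positivity) (abs_nonneg _),
              ← ENNReal.ofReal_one]
            refine ENNReal.ofReal_le_ofReal ?_
            have e1 : ind A x = 1 := indicator_of_mem hx.1 _
            have e2 : ind A (x + z) = 0 := indicator_of_notMem hx.2 _
            rw [e1, e2]
            have a1 := neg_abs_le (f x - 1)
            have a2 := le_abs_self (f (x + z) - 0)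
            have a3 := neg_abs_le (f (x + z) - f x)
            linarith
          · rw [indicator_of_notMem hx]
            exact zero_le
      _ = (∫⁻ x, ENNReal.ofReal |f x - ind A x|) +
          (∫⁻ x, ENNReal.ofReal |f (x + z) - ind A (x + z)|) +
          ∫⁻ x, ENNReal.ofReal |f (x + z) - f x| := by
          rw [lintegral_add_left, lintegral_add_left hm1]
          exact hm1.add (hm1.comp (measurable_id.add_const z))
      _ ≤ ENNReal.ofReal ε + ENNReal.ofReal ε + ENNReal.ofReal (n * (D + ε)) :=
          add_le_add (add_le_add h1 h2) h3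
      _ = ENNReal.ofReal (n * D + (2 + n) * ε) := by
          rw [← ENNReal.ofReal_add hε.le hε.le, ← ENNReal.ofReal_add (by positivity)
            (by positivity)]
          congr 1
          ring
  have hlim : Tendsto (fun ε : ℝ => ENNReal.ofReal (n * D + (2 + n) * ε)) (𝓝[>] 0)
      (𝓝 (ENNReal.ofReal (n * D))) := by
    refine (ENNReal.tendsto_ofReal ?_).mono_left nhdsWithin_le_nhds
    have : Tendsto (fun ε : ℝ => n * D + (2 + n) * ε) (𝓝 0) (𝓝 (n * D + (2 + n) * 0)) :=
      (by fun_prop : Continuous fun ε : ℝ => n * D + (2 + n) * ε).tendsto 0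
    simpa using this
  exact ge_of_tendsto hlim (eventually_nhdsWithin_of_forall fun ε hε => key ε hε)

/-- The half-open unit cubes. -/
def qc (j : Fin n → ℤ) : Set (X n) := {x | ∀ i, (j i : ℝ) ≤ x i ∧ x i < j i + 1}

lemma mem_qc {j : Fin n → ℤ} {x : X n} : x ∈ qc j ↔ (fun i => ⌊x i⌋) = j := by
  rw [funext_iff]
  refine forall_congr' fun i => ?_
  rw [Int.floor_eq_iff]

lemma measurableSet_qc (j : Fin n → ℤ) : MeasurableSet (qc j) := by
  have : qc j = Set.pi univ (fun i => Ico (j i : ℝ) (j i + 1)) := by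
    ext x
    simp [qc, Set.mem_pi]
  rw [this]
  exact MeasurableSet.univ_pi fun _ => measurableSet_Ico

lemma iUnion_qc : (⋃ j : Fin n → ℤ, qc j) = univ := by
  rw [eq_univ_iff_forall]
  intro x
  exact mem_iUnion.2 ⟨_, mem_qc.2 rfl⟩

lemma disjoint_qc : Pairwise (Function.onFun Disjoint (qc (n := n))) := by
  intro i j hij
  rw [Function.onFun, Set.disjoint_left]
  intro x hx hx'
  rw [mem_qc] at hx hx'
  exact hij (hx.symm.trans hx')

lemma volume_qc (j : Fin n → ℤ) : volume (qc j) = 1 := by
  have : qc j = Set.pi univ (fun i => Ico (j i : ℝ) (j i + 1)) := by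
    ext x
    simp [qc, Set.mem_pi]
  rw [this, volume_pi, Measure.pi_pi]
  simp

lemma shift_mem_of_qc {j : Fin n → ℤ} {x z : X n} (hx : x ∈ qc j) (hz : x + z ∈ qc j) :
    z ∈ Set.pi univ (fun _ : Fin n => Icc (-1 : ℝ) 1) := by
  intro i _
  have h1 := hx i
  have h2 := hz i
  simp only [Pi.add_apply] at h2
  constructor <;> linarith [h1.1, h1.2, h2.1, h2.2]

/-- The relative isoperimetric inequality, summed over the unit cubes. -/
theorem sum_cubes_le {A : Set (X n)} (hA : MeasurableSet A) (hfin : volume A < ⊤) {D : ℝ}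
    (hD : Appr A D) (J : Finset (Fin n → ℤ)) :
    ∑ j ∈ J, volume (A ∩ qc j) * volume (qc j \ A) ≤ 2 ^ n * ENNReal.ofReal (n * D) := by
  classical
  set Z : Set (X n) := Set.pi univ (fun _ : Fin n => Icc (-1 : ℝ) 1) with hZ
  have hZm : MeasurableSet Z := MeasurableSet.univ_pi fun _ => measurableSet_Icc
  have hZv : volume Z = 2 ^ n := by
    rw [hZ, volume_pi, Measure.pi_pi]
    simp only [Real.volume_Icc, Finset.prod_const, Finset.card_univ, Fintype.card_fin]
    congr 1
    norm_num
  have hmA : ∀ j, MeasurableSet (A ∩ qc j) := fun j => hA.inter (measurableSet_qc j)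
  have hmB : ∀ j, MeasurableSet (qc j \ A) := fun j => (measurableSet_qc j).diff hA
  have h1 : ∀ j, volume (A ∩ qc j) * volume (qc j \ A) =
      ∫⁻ x, ∫⁻ z, (A ∩ qc j).indicator 1 x * (qc j \ A).indicator 1 (x + z) := by
    intro j
    have h2 : ∀ x : X n, ∫⁻ z, (A ∩ qc j).indicator 1 x * (qc j \ A).indicator 1 (x + z) =
        (A ∩ qc j).indicator 1 x * volume (qc j \ A) := by
      intro x
      have hm : Measurable fun z : X n => (qc j \ A).indicator (1 : X n → ℝ≥0∞) (x + z) :=
        (measurable_one.indicator (hmB j)).comp (measurable_const.add measurable_id)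
      rw [lintegral_const_mul _ hm,
        lintegral_add_left_eq_self (fun z => (qc j \ A).indicator (1 : X n → ℝ≥0∞) z) x,
        lintegral_indicator_one (hmB j)]
    simp_rw [h2]
    rw [lintegral_mul_const _ (measurable_one.indicator (hmA j)), lintegral_indicator_one (hmA j)]
  have hjm : ∀ j, Measurable fun p : X n × X n =>
      (A ∩ qc j).indicator (1 : X n → ℝ≥0∞) p.1 * (qc j \ A).indicator 1 (p.1 + p.2) := fun j =>
    ((measurable_one.indicator (hmA j)).comp measurable_fst).mul
      ((measurable_one.indicator (hmB j)).comp (measurable_fst.add measurable_snd))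
  have h3 : ∑ j ∈ J, volume (A ∩ qc j) * volume (qc j \ A) =
      ∫⁻ x, ∫⁻ z, ∑ j ∈ J, (A ∩ qc j).indicator 1 x * (qc j \ A).indicator 1 (x + z) := by
    simp_rw [h1]
    rw [← lintegral_finsetSum _ fun j _ => (hjm j).lintegral_prod_right']
    refine lintegral_congr fun x => ?_
    have hjx : ∀ j, Measurable fun z : X n =>
        (A ∩ qc j).indicator (1 : X n → ℝ≥0∞) x * (qc j \ A).indicator 1 (x + z) := fun j =>
      (hjm j).comp measurable_prodMk_left
    exact (lintegral_finsetSum _ fun j _ => hjx j).symm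
  have hpt : ∀ x z : X n, ∑ j ∈ J, (A ∩ qc j).indicator (1 : X n → ℝ≥0∞) x *
      (qc j \ A).indicator 1 (x + z) ≤
      Z.indicator 1 z * {x | x ∈ A ∧ x + z ∉ A}.indicator 1 x := by
    intro x z
    by_cases hex : ∃ j ∈ J, x ∈ A ∩ qc j ∧ x + z ∈ qc j \ A
    · obtain ⟨j, hjJ, hj1, hj2⟩ := hex
      have hz : z ∈ Z := shift_mem_of_qc hj1.2 hj2.1
      have hx : x ∈ {x | x ∈ A ∧ x + z ∉ A} := ⟨hj1.1, hj2.2⟩
      rw [indicator_of_mem hz, indicator_of_mem hx, Finset.sum_eq_single j]
      · rw [indicator_of_mem hj1, indicator_of_mem hj2]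
        simp
      · intro k _ hkj
        have : x ∉ A ∩ qc k := by
          intro h
          have h5 := mem_qc.1 h.2
          have h6 := mem_qc.1 hj1.2
          exact hkj (h5.symm.trans h6)
        rw [indicator_of_notMem this, zero_mul]
      · intro h; exact absurd hjJ h
    · push Not at hex
      rw [Finset.sum_eq_zero]
      · exact zero_le
      · intro j hj
        by_cases h : x ∈ A ∩ qc j
        · rw [indicator_of_notMem (hex j hj h), mul_zero]
        · rw [indicator_of_notMem h, zero_mul]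
  have hSm : MeasurableSet {p : X n × X n | p.1 ∈ A ∧ p.1 + p.2 ∉ A} :=
    (measurable_fst hA).inter ((measurable_fst.add measurable_snd) hA.compl)
  have hgm : Measurable fun p : X n × X n =>
      Z.indicator (1 : X n → ℝ≥0∞) p.2 * {x | x ∈ A ∧ x + p.2 ∉ A}.indicator 1 p.1 := by
    refine ((measurable_one.indicator hZm).comp measurable_snd).mul ?_
    have e : (fun p : X n × X n => {x | x ∈ A ∧ x + p.2 ∉ A}.indicator (1 : X n → ℝ≥0∞) p.1) =
        {p : X n × X n | p.1 ∈ A ∧ p.1 + p.2 ∉ A}.indicator 1 := by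
      ext p
      simp only [indicator, mem_ofPred_eq]
      rfl
    rw [e]
    exact measurable_one.indicator hSm
  rw [h3]
  calc ∫⁻ x, ∫⁻ z, ∑ j ∈ J, (A ∩ qc j).indicator 1 x * (qc j \ A).indicator 1 (x + z)
      ≤ ∫⁻ x, ∫⁻ z, Z.indicator 1 z * {x | x ∈ A ∧ x + z ∉ A}.indicator 1 x :=
        lintegral_mono fun x => lintegral_mono fun z => hpt x z
    _ = ∫⁻ z, ∫⁻ x, Z.indicator 1 z * {x | x ∈ A ∧ x + z ∉ A}.indicator 1 x :=
        lintegral_lintegral_swap hgm.aemeasurable
    _ = ∫⁻ z, Z.indicator 1 z * volume {x | x ∈ A ∧ x + z ∉ A} := by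
        refine lintegral_congr fun z => ?_
        have hS : MeasurableSet {x | x ∈ A ∧ x + z ∉ A} :=
          hA.inter ((measurable_id.add_const z) hA.compl)
        rw [lintegral_const_mul _ (measurable_one.indicator hS), lintegral_indicator_one hS]
    _ ≤ ∫⁻ z, Z.indicator 1 z * ENNReal.ofReal (n * D) := by
        refine lintegral_mono fun z => ?_
        by_cases hz : z ∈ Z
        · gcongr
          refine volume_shift_le hA hfin hD fun i => ?_
          exact abs_le.2 (hz i (mem_univ i))
        · rw [indicator_of_notMem hz]; simp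
    _ = 2 ^ n * ENNReal.ofReal (n * D) := by
        rw [lintegral_mul_const _ (measurable_one.indicator hZm), lintegral_indicator_one hZm, hZv]

end Pool.Agent.Work.MP_280d1a_an
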