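import Pool.Agent.Work.MP_280d1a_an.CubeIBP
import Pool.Agent.Work.MP_280d1a_an.Trans
import Pool.Agent.Work.MP_280d1a_an.Count

/-!
# The Neumann inequality on the unit cubes
-/

set_option autoImplicit false

open MeasureTheory Set Filter Topology
open scoped ENNReal NNReal ContDiff

namespace Pool.Agent.Work.MP_280d1a_an

variable {n : ℕ}

/-- `H¹` functions on `ℝⁿ`. -/
structure H1X (u : X n → ℝ) (G : Fin n → X n → ℝ) : Prop where
  memu : MemLp u 2 volume
  memG : ∀ i, MemLp (G i) 2 volume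
  wg : IsWG u G

/-- The corner of a cube. -/
noncomputable def jv (j : Fin n → ℤ) : X n := fun i => (j i : ℝ)

lemma pd_comp_add (f : X n → ℝ) (v x : X n) (i : Fin n) :
    pd i (fun x => f (x + v)) x = pd i f (x + v) := by
  rw [pd, pd, fderiv_comp_add_right]

lemma H1X.translate {u : X n → ℝ} {G : Fin n → X n → ℝ} (h : H1X u G) (v : X n) :
    H1X (fun x => u (x + v)) (fun i x => G i (x + v)) where
  memu := h.memu.comp_measurePreserving (measurePreserving_add_right volume v)
  memG := fun i => (h.memG i).comp_measurePreserving (measurePreserving_add_right volume v)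
  wg := by
    intro φ hφ hs i
    have h1 := h.wg (fun x => φ (x + -v)) (hφ.comp (contDiff_id.add contDiff_const))
      (hs.comp_homeomorph (Homeomorph.addRight (-v))) i
    simp_rw [pd_comp_add] at h1
    rw [← integral_add_right_eq_self (fun x => u x * pd i φ (x + -v)) v,
      ← integral_add_right_eq_self (fun x => G i x * φ (x + -v)) v] at h1
    simpa using h1

lemma uh_ae_eq_uc (n : ℕ) : qc (0 : Fin n → ℤ) =ᵐ[volume] uc n := by
  have h : uc n = Icc (fun _ => (0 : ℝ)) (fun _ => 1) := by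
    rw [uc, ← Set.pi_univ_Icc]
  have h2 : qc (0 : Fin n → ℤ) = Set.pi univ (fun _ => Ico (0 : ℝ) 1) := by
    ext x
    simp [qc, Set.mem_pi]
  rw [h, h2]
  exact Measure.univ_pi_Ico_ae_eq_Icc

lemma setIntegral_qc (j : Fin n → ℤ) (F : X n → ℝ) :
    ∫ x in qc j, F x = ∫ x in uc n, F (x + jv j) := by
  rw [← Measure.restrict_congr_set (uh_ae_eq_uc n), ← integral_indicator (measurableSet_qc j),
    ← integral_indicator (measurableSet_qc 0),
    ← integral_add_right_eq_self ((qc j).indicator fun x => F x) (jv j)]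
  refine integral_congr_ae (ae_of_all _ fun x => ?_)
  have h : x + jv j ∈ qc j ↔ x ∈ qc (0 : Fin n → ℤ) := by
    simp only [qc, mem_ofPred_eq, Pi.add_apply, jv, Pi.zero_apply, Int.cast_zero, zero_add]
    refine forall_congr' fun i => ?_
    constructor <;> rintro ⟨h1, h2⟩ <;> constructor <;> linarith
  by_cases hx : x ∈ qc (0 : Fin n → ℤ)
  · simp only [indicator_of_mem hx, indicator_of_mem (h.2 hx)]
  · simp only [indicator_of_notMem hx, indicator_of_notMem (fun h' => hx (h.1 h'))]

/-- The translated cosine products. -/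
noncomputable def efj (j : Fin n → ℤ) (m : Fin n → ℕ) (x : X n) : ℝ := ef m (x - jv j)

lemma continuous_efj (j : Fin n → ℤ) (m : Fin n → ℕ) : Continuous (efj j m) :=
  (continuous_ef m).comp (continuous_id.sub continuous_const)

lemma abs_efj_le (j : Fin n → ℤ) (m : Fin n → ℕ) (x : X n) : |efj j m x| ≤ √2 ^ n := by
  have h := abs_prod_le (s := (Finset.univ : Finset (Fin n)))
    (f := fun i => cs (m i) ((x - jv j) i)) (C := √2) (fun i _ => abs_cs_le _ _)
  simpa [efj, ef] using h

lemma cube_neumann {u : X n → ℝ} {G : Fin n → X n → ℝ} (h : H1X u G) (j : Fin n → ℤ)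
    {R : ℝ} (F : Finset (Fin n → ℕ)) (hF : ∀ m ∉ F, R ^ 2 ≤ Real.pi ^ 2 * ∑ i, (m i : ℝ) ^ 2) :
    R ^ 2 * ((∫ x in qc j, u x ^ 2) - ∑ m ∈ F, (∫ x in qc j, u x * efj j m x) ^ 2) ≤
      ∑ i, ∫ x in qc j, G i x ^ 2 := by
  have ht := h.translate (jv j)
  have h1 := neumann_ineq (u := fun x => u (x + jv j)) (G := fun i x => G i (x + jv j))
    (ht.memu.restrict _) (fun i => (ht.memG i).restrict _)
    (fun i m hm => cube_ibp (ht.memu.restrict _) (fun i => (ht.memG i).restrict _) ht.wg i m hm)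
    F hF
  simp_rw [setIntegral_qc j]
  simp only [efj, add_sub_cancel_right]
  exact h1

/-- Cauchy-Schwarz on a small set. -/
lemma sq_integral_le {u : X n → ℝ} (hu : MemLp u 2 volume) {A : Set (X n)} (hA : MeasurableSet A)
    (hu0 : ∀ᵐ x, x ∉ A → u x = 0) (j : Fin n → ℤ) (m : Fin n → ℕ) :
    (∫ x in qc j, u x * efj j m x) ^ 2 ≤
      2 ^ n * (volume (A ∩ qc j)).toReal * ∫ x in qc j, u x ^ 2 := by
  set S := A ∩ qc j with hS
  have hSm : MeasurableSet S := hA.inter (measurableSet_qc j)
  have hSf : volume S ≠ ⊤ := by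
    refine ne_top_of_le_ne_top ?_ (measure_mono (inter_subset_right : A ∩ qc j ⊆ qc j))
    rw [volume_qc]; exact ENNReal.one_ne_top
  have h1 : ∫ x in qc j, u x * efj j m x = ∫ x in S, u x * efj j m x := by
    rw [← integral_indicator (measurableSet_qc j), ← integral_indicator hSm]
    refine integral_congr_ae ?_
    filter_upwards [hu0] with x hx
    by_cases hxA : x ∈ A
    · by_cases hxq : x ∈ qc j
      · rw [indicator_of_mem hxq, indicator_of_mem (show x ∈ S from ⟨hxA, hxq⟩)]
      · rw [indicator_of_notMem hxq, indicator_of_notMem (fun h : x ∈ S => hxq h.2)]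
    · rw [indicator_of_notMem (fun h : x ∈ S => hxA h.1)]
      by_cases hxq : x ∈ qc j
      · rw [indicator_of_mem hxq, hx hxA, zero_mul]
      · rw [indicator_of_notMem hxq]
  have : IsFiniteMeasure ((volume : Measure (X n)).restrict S) := ⟨by
    rw [Measure.restrict_apply_univ]; exact hSf.lt_top⟩
  have hu2 : MemLp u 2 (volume.restrict S) := hu.restrict S
  have he2 : MemLp (efj j m) 2 (volume.restrict S) :=
    MemLp.of_bound (continuous_efj j m).measurable.aestronglyMeasurable (√2 ^ n)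
      (ae_of_all _ fun x => abs_efj_le j m x)
  have h2 : (∫ x in S, u x * efj j m x) ^ 2 ≤ (∫ x in S, u x ^ 2) * ∫ x in S, efj j m x ^ 2 := by
    have hi1 : Integrable (fun x => u x ^ 2) (volume.restrict S) := hu2.integrable_sq
    have hi2 : Integrable (fun x => efj j m x ^ 2) (volume.restrict S) := he2.integrable_sq
    have hi3 : Integrable (fun x => u x * efj j m x) (volume.restrict S) := hu2.integrable_mul he2
    set a := ∫ x in S, u x ^ 2 with ha
    set b := ∫ x in S, u x * efj j m x with hb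
    set c := ∫ x in S, efj j m x ^ 2 with hc
    have hquad : ∀ t : ℝ, 0 ≤ c * (t * t) + (-2 * b) * t + a := by
      intro t
      have h3 : 0 ≤ ∫ x in S, (u x - t * efj j m x) ^ 2 := integral_nonneg fun x => sq_nonneg _
      have h4 : ∀ x, (u x - t * efj j m x) ^ 2 = u x ^ 2 + (-2 * t) * (u x * efj j m x) +
          (t * t) * efj j m x ^ 2 := fun x => by ring
      simp_rw [h4] at h3
      have i4 : Integrable (fun x => (-2 * t) * (u x * efj j m x)) (volume.restrict S) :=
        hi3.const_mul _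
      have i5 : Integrable (fun x => u x ^ 2 + (-2 * t) * (u x * efj j m x))
        (volume.restrict S) := hi1.add i4
      rw [integral_add i5 (hi2.const_mul _), integral_add hi1 i4, integral_const_mul,
        integral_const_mul] at h3
      linarith
    have h5 := discrim_le_zero hquad
    rw [discrim] at h5
    nlinarith
  have h3 : ∫ x in S, efj j m x ^ 2 ≤ 2 ^ n * (volume S).toReal := by
    have h4 : ∫ x in S, efj j m x ^ 2 ≤ ∫ _ in S, (2 : ℝ) ^ n := by
      refine integral_mono he2.integrable_sq (integrable_const _) fun x => ?_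
      have h6 := abs_efj_le j m x
      calc efj j m x ^ 2 = |efj j m x| ^ 2 := (sq_abs _).symm
        _ ≤ (√2 ^ n) ^ 2 := by gcongr
        _ = (√2 ^ 2) ^ n := by ring
        _ = 2 ^ n := by rw [Real.sq_sqrt (by norm_num)]
    refine h4.trans (le_of_eq ?_)
    rw [setIntegral_const, smul_eq_mul, mul_comm]
    rfl
  have h4 : ∫ x in S, u x ^ 2 ≤ ∫ x in qc j, u x ^ 2 := by
    refine setIntegral_mono_set (hu.restrict _).integrable_sq (ae_of_all _ fun x => sq_nonneg _) ?_
    exact (inter_subset_right : A ∩ qc j ⊆ qc j).eventuallyLE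
  have h5 : 0 ≤ ∫ x in S, u x ^ 2 := integral_nonneg fun x => sq_nonneg _
  rw [h1]
  calc (∫ x in S, u x * efj j m x) ^ 2 ≤ (∫ x in S, u x ^ 2) * ∫ x in S, efj j m x ^ 2 := h2
    _ ≤ (∫ x in S, u x ^ 2) * (2 ^ n * (volume S).toReal) := mul_le_mul_of_nonneg_left h3 h5
    _ ≤ (∫ x in qc j, u x ^ 2) * (2 ^ n * (volume S).toReal) := by gcongr
    _ = _ := by ring

/-- Inactive cubes. -/
lemma inactive_cube {u : X n → ℝ} {G : Fin n → X n → ℝ} (h : H1X u G) {A : Set (X n)}
    (hA : MeasurableSet A) (hu0 : ∀ᵐ x, x ∉ A → u x = 0) (j : Fin n → ℤ) {R : ℝ} (hR : 0 ≤ R)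
    {θ : ℝ} (hθ : ((Nset n (2 * R)).card : ℝ) * (2 ^ n * θ) ≤ 1 / 2)
    (hj : (volume (A ∩ qc j)).toReal ≤ θ) :
    R ^ 2 * (∫ x in qc j, u x ^ 2) ≤ ∑ i, ∫ x in qc j, G i x ^ 2 := by
  refine le_trans ?_ (cube_neumann h j (Nset n (2 * R)) fun m hm =>
    notMem_Nset (by positivity) hm)
  set a := ∫ x in qc j, u x ^ 2 with ha
  have ha0 : 0 ≤ a := integral_nonneg fun x => sq_nonneg _
  have h1 : ∑ m ∈ Nset n (2 * R), (∫ x in qc j, u x * efj j m x) ^ 2 ≤ 1 / 2 * a := by
    calc ∑ m ∈ Nset n (2 * R), (∫ x in qc j, u x * efj j m x) ^ 2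
        ≤ ∑ _m ∈ Nset n (2 * R), 2 ^ n * θ * a := by
          refine Finset.sum_le_sum fun m _ => (sq_integral_le h.memu hA hu0 j m).trans ?_
          gcongr
      _ = ((Nset n (2 * R)).card : ℝ) * (2 ^ n * θ) * a := by
          rw [Finset.sum_const, nsmul_eq_mul]; ring
      _ ≤ 1 / 2 * a := mul_le_mul_of_nonneg_right hθ ha0
  have h2 : 0 ≤ R ^ 2 := sq_nonneg R
  have h3 : 1 / 2 * a ≤ a - ∑ m ∈ Nset n (2 * R), (∫ x in qc j, u x * efj j m x) ^ 2 := by
    linarith
  calc R ^ 2 * a ≤ (2 * R) ^ 2 * (1 / 2 * a) := by nlinarith [mul_nonneg h2 ha0]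
    _ ≤ _ := mul_le_mul_of_nonneg_left h3 (sq_nonneg _)

/-- The number of active cubes. -/
lemma card_active_le {A : Set (X n)} (hA : MeasurableSet A) (hfin : volume A < ⊤) {D : ℝ}
    (hD : Appr A D) {θ δ : ℝ} (hθ : 0 < θ) (hδ : 0 < δ) (hδ1 : δ < 1) (J : Finset (Fin n → ℤ))
    (hJ : ∀ j ∈ J, θ < (volume (A ∩ qc j)).toReal) :
    (J.card : ℝ) ≤ (volume A).toReal / (1 - δ) + 2 ^ n * (n * D) / (θ * δ) := by
  classical
  have hD0 : 0 ≤ D := by
    refine le_of_forall_pos_le_add fun ε hε => ?_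
    obtain ⟨f, -, -, h3⟩ := hD ε hε
    exact (integral_nonneg (gn_nonneg f)).trans h3
  have hfq : ∀ j : Fin n → ℤ, ∀ S : Set (X n), S ⊆ qc j → volume S ≠ ⊤ := by
    intro j S hS
    refine ne_top_of_le_ne_top ?_ (measure_mono hS)
    rw [volume_qc]; exact ENNReal.one_ne_top
  set J1 := J.filter (fun j => (volume (qc j \ A)).toReal ≤ δ) with hJ1
  set J2 := J.filter (fun j => ¬ (volume (qc j \ A)).toReal ≤ δ) with hJ2
  have hcard : J.card = J1.card + J2.card := (Finset.card_filter_add_card_filter_not _).symm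
  have h1 : (J1.card : ℝ) * (1 - δ) ≤ (volume A).toReal := by
    have h3 : ∑ j ∈ J1, (volume (A ∩ qc j)).toReal ≤ (volume A).toReal := by
      rw [← ENNReal.toReal_sum fun j _ => hfq j _ inter_subset_right]
      refine ENNReal.toReal_mono hfin.ne ?_
      rw [← measure_biUnion_finset]
      · exact measure_mono (iUnion₂_subset fun j _ => inter_subset_left)
      · intro i _ j _ hij
        exact (disjoint_qc hij).mono inter_subset_right inter_subset_right
      · intro j _
        exact hA.inter (measurableSet_qc j)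
    refine le_trans ?_ h3
    rw [← nsmul_eq_mul, ← Finset.sum_const]
    refine Finset.sum_le_sum fun j hj => ?_
    have h4 : (volume (A ∩ qc j)).toReal + (volume (qc j \ A)).toReal = 1 := by
      rw [← ENNReal.toReal_add (hfq j _ inter_subset_right) (hfq j _ sdiff_subset),
        inter_comm, measure_inter_add_sdiff _ hA, volume_qc, ENNReal.toReal_one]
    have h5 := (Finset.mem_filter.1 hj).2
    linarith
  have h2 : (J2.card : ℝ) * (θ * δ) ≤ 2 ^ n * (n * D) := by
    have h3 := sum_cubes_le hA hfin hD J2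
    have h4 : ∑ j ∈ J2, (volume (A ∩ qc j)).toReal * (volume (qc j \ A)).toReal ≤
        2 ^ n * (n * D) := by
      have h5 : ∑ j ∈ J2, (volume (A ∩ qc j)).toReal * (volume (qc j \ A)).toReal =
          (∑ j ∈ J2, volume (A ∩ qc j) * volume (qc j \ A)).toReal := by
        rw [ENNReal.toReal_sum fun j _ => ENNReal.mul_ne_top (hfq j _ inter_subset_right)
          (hfq j _ sdiff_subset)]
        simp_rw [ENNReal.toReal_mul]
      rw [h5]
      have e : ENNReal.ofReal (2 ^ n * (n * D)) = 2 ^ n * ENNReal.ofReal (n * D) := by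
        rw [ENNReal.ofReal_mul (p := 2 ^ n) (by positivity), ENNReal.ofReal_pow (by norm_num)]
        norm_num
      exact ENNReal.toReal_le_of_le_ofReal (by positivity) (h3.trans (le_of_eq e.symm))
    refine le_trans ?_ h4
    rw [← nsmul_eq_mul, ← Finset.sum_const]
    refine Finset.sum_le_sum fun j hj => ?_
    have h6 := (Finset.mem_filter.1 hj)
    exact mul_le_mul (hJ j h6.1).le (not_le.1 h6.2).le hδ.le ENNReal.toReal_nonneg
  rw [hcard]
  push_cast
  refine add_le_add ?_ ?_
  · rw [le_div_iff₀ (by linarith)]; exact h1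
  · rw [le_div_iff₀ (by positivity)]; exact h2

end Pool.Agent.Work.MP_280d1a_an
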