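import Pool.Agent.Work.MP_280d1a_an.Lower1

/-!
# The counting bound at the unit scale
-/

set_option autoImplicit false

open MeasureTheory Set Filter Topology
open scoped ENNReal NNReal ContDiff

namespace Pool.Agent.Work.MP_280d1a_an

variable {n : ℕ}

lemma H1X.sum {k : ℕ} {u : Fin k → X n → ℝ} {G : Fin k → Fin n → X n → ℝ}
    (h : ∀ l, H1X (u l) (G l)) (c : Fin k → ℝ) :
    H1X (fun x => ∑ l, c l * u l x) (fun i x => ∑ l, c l * G l i x) where
  memu := memLp_finsetSum _ fun l _ => (h l).memu.const_mul (c l)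
  memG := fun i => memLp_finsetSum _ fun l _ => ((h l).memG i).const_mul (c l)
  wg := by
    intro φ hφ hs i
    have hp1 : MemLp (pd i φ) 2 volume :=
      (continuous_pd (hφ.of_le (by simp)) i).memLp_of_hasCompactSupport (hasCompactSupport_pd hs i)
    have hp2 : MemLp φ 2 volume := hφ.continuous.memLp_of_hasCompactSupport hs
    have i1 : ∀ l, Integrable fun x => u l x * pd i φ x := fun l => (h l).memu.integrable_mul hp1
    have i2 : ∀ l, Integrable fun x => G l i x * φ x := fun l =>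
      ((h l).memG i).integrable_mul hp2
    have e1 : ∀ x, (∑ l, c l * u l x) * pd i φ x = ∑ l, c l * (u l x * pd i φ x) := fun x => by
      rw [Finset.sum_mul]
      exact Finset.sum_congr rfl fun l _ => by ring
    have e2 : ∀ x, (∑ l, c l * G l i x) * φ x = ∑ l, c l * (G l i x * φ x) := fun x => by
      rw [Finset.sum_mul]
      exact Finset.sum_congr rfl fun l _ => by ring
    simp_rw [e1, e2]
    rw [integral_finsetSum _ fun l _ => (i1 l).const_mul _,
      integral_finsetSum _ fun l _ => (i2 l).const_mul _, ← Finset.sum_neg_distrib]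
    refine Finset.sum_congr rfl fun l _ => ?_
    rw [integral_const_mul, integral_const_mul, (h l).wg φ hφ hs i]
    ring

/-- Summation over the cubes. -/
lemma sum_cubes_contra {u : X n → ℝ} {G : Fin n → X n → ℝ} (h : H1X u G) {R : ℝ}
    (hc : ∀ j : Fin n → ℤ, R ^ 2 * (∫ x in qc j, u x ^ 2) ≤ ∑ i, ∫ x in qc j, G i x ^ 2) :
    R ^ 2 * (∫ x, u x ^ 2) ≤ ∫ x, ∑ i, G i x ^ 2 := by
  have hu := h.memu.integrable_sq
  have hG := fun i => (h.memG i).integrable_sq
  have hGs : Integrable fun x => ∑ i, G i x ^ 2 := integrable_finsetSum _ fun i _ => hG i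
  have h1 : HasSum (fun j : Fin n → ℤ => ∫ x in qc j, u x ^ 2) (∫ x, u x ^ 2) := by
    have := hasSum_integral_iUnion (f := fun x => u x ^ 2) (μ := volume)
      (fun j => measurableSet_qc (n := n) j) disjoint_qc hu.integrableOn
    rwa [iUnion_qc, setIntegral_univ] at this
  have h2 : HasSum (fun j : Fin n → ℤ => ∫ x in qc j, ∑ i, G i x ^ 2)
      (∫ x, ∑ i, G i x ^ 2) := by
    have := hasSum_integral_iUnion (f := fun x => ∑ i, G i x ^ 2) (μ := volume)
      (fun j => measurableSet_qc (n := n) j) disjoint_qc hGs.integrableOn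
    rwa [iUnion_qc, setIntegral_univ] at this
  refine hasSum_le (fun j => ?_) (h1.mul_left (R ^ 2)) h2
  rw [integral_finsetSum _ fun i _ => (hG i).integrableOn]
  exact hc j

/-- The uniform counting bound, at the unit scale. -/
theorem counting_bound {A : Set (X n)} (hA : MeasurableSet A) (hfin : volume A < ⊤) {D : ℝ}
    (hD : Appr A D) {R L' δ θ : ℝ} (hR : 0 ≤ R) (hRR : L' < R ^ 2) (hδ : 0 < δ) (hδ1 : δ < 1)
    (hθ0 : 0 < θ) (hθ : ((Nset n (2 * R)).card : ℝ) * (2 ^ n * θ) ≤ 1 / 2)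
    {k : ℕ} {u : Fin k → X n → ℝ} {G : Fin k → Fin n → X n → ℝ}
    (h : ∀ l, H1X (u l) (G l)) (hu0 : ∀ l, ∀ᵐ x, x ∉ A → u l x = 0)
    (hray : ∀ c : Fin k → ℝ, c ≠ 0 → 0 < ∫ x, (∑ l, c l * u l x) ^ 2 ∧
      ∫ x, ∑ i, (∑ l, c l * G l i x) ^ 2 ≤ L' * ∫ x, (∑ l, c l * u l x) ^ 2) :
    (k : ℝ) ≤ (Nset n R).card * ((volume A).toReal / (1 - δ) + 2 ^ n * (n * D) / (θ * δ)) := by
  classical
  set act : Set (Fin n → ℤ) := {j | θ < (volume (A ∩ qc j)).toReal} with hact
  set K := (volume A).toReal / (1 - δ) + 2 ^ n * (n * D) / (θ * δ) with hK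
  have hcard : ∀ J : Finset (Fin n → ℤ), (∀ j ∈ J, j ∈ act) → (J.card : ℝ) ≤ K := fun J hJ =>
    card_active_le hA hfin hD hθ0 hδ hδ1 J hJ
  have hfinite : act.Finite := by
    by_contra hinf
    obtain ⟨J, hJ1, hJ2⟩ := (Set.not_finite.1 hinf : act.Infinite).exists_subset_card_eq
      (⌊K⌋₊ + 1)
    have h1 := hcard J fun j hj => hJ1 hj
    rw [hJ2] at h1
    have h2 := Nat.lt_floor_add_one K
    push_cast at h1
    linarith
  set J := hfinite.toFinset with hJ
  have hJK : (J.card : ℝ) ≤ K := hcard J fun j hj => hfinite.mem_toFinset.1 hj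
  suffices hk : k ≤ (Nset n R).card * J.card by
    calc (k : ℝ) ≤ (Nset n R).card * J.card := by exact_mod_cast hk
      _ ≤ _ := mul_le_mul_of_nonneg_left hJK (Nat.cast_nonneg _)
  by_contra hlt
  rw [not_le] at hlt
  -- the linear functionals
  set a : Fin k → (Nset n R × J) → ℝ := fun l p => ∫ x in qc (p.2 : Fin n → ℤ),
    u l x * efj (p.2 : Fin n → ℤ) (p.1 : Fin n → ℕ) x with ha
  set L : (Fin k → ℝ) →ₗ[ℝ] ((Nset n R × J) → ℝ) :=
    { toFun := fun c p => ∑ l, c l * a l p
      map_add' := by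
        intro c d
        ext p
        simp [add_mul, Finset.sum_add_distrib]
      map_smul' := by
        intro r c
        ext p
        simp [Finset.mul_sum, mul_assoc] } with hL
  have hker : LinearMap.ker L ≠ ⊥ := by
    refine LinearMap.ker_ne_bot_of_finrank_lt ?_
    simpa using hlt
  obtain ⟨c, hcker, hc0⟩ := (Submodule.ne_bot_iff _).1 hker
  obtain ⟨hpos, hle⟩ := hray c hc0
  have hsum := H1X.sum h c
  have hsum0 : ∀ᵐ x, x ∉ A → ∑ l, c l * u l x = 0 := by
    have := ae_all_iff.2 hu0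
    filter_upwards [this] with x hx hxA
    exact Finset.sum_eq_zero fun l _ => by rw [hx l hxA, mul_zero]
  have hzero : ∀ j ∈ J, ∀ m ∈ Nset n R,
      ∫ x in qc j, (∑ l, c l * u l x) * efj j m x = 0 := by
    intro j hj m hm
    have h1 : L c (⟨m, hm⟩, ⟨j, hj⟩) = 0 := by
      rw [LinearMap.mem_ker.1 hcker]; rfl
    rw [← h1]
    change _ = ∑ l, c l * a l (⟨m, hm⟩, ⟨j, hj⟩)
    have hfq : volume (qc j) ≠ ⊤ := by rw [volume_qc]; exact ENNReal.one_ne_top
    have : IsFiniteMeasure ((volume : Measure (X n)).restrict (qc j)) := ⟨by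
      rw [Measure.restrict_apply_univ]; exact hfq.lt_top⟩
    have he2 : MemLp (efj j m) 2 (volume.restrict (qc j)) :=
      MemLp.of_bound (continuous_efj j m).measurable.aestronglyMeasurable (√2 ^ n)
        (ae_of_all _ fun x => abs_efj_le j m x)
    have i1 : ∀ l, IntegrableOn (fun x => u l x * efj j m x) (qc j) := fun l =>
      ((h l).memu.restrict _).integrable_mul he2
    have e1 : ∀ x, (∑ l, c l * u l x) * efj j m x = ∑ l, c l * (u l x * efj j m x) := fun x => by
      rw [Finset.sum_mul]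
      exact Finset.sum_congr rfl fun l _ => by ring
    simp_rw [e1]
    rw [integral_finsetSum _ fun l _ => (i1 l).const_mul _]
    exact Finset.sum_congr rfl fun l _ => integral_const_mul _ _
  have hcube : ∀ j : Fin n → ℤ, R ^ 2 * (∫ x in qc j, (∑ l, c l * u l x) ^ 2) ≤
      ∑ i, ∫ x in qc j, (∑ l, c l * G l i x) ^ 2 := by
    intro j
    by_cases hj : j ∈ J
    · have h1 := cube_neumann hsum j (Nset n R) (fun m hm => notMem_Nset hR hm)
      rw [Finset.sum_eq_zero, sub_zero] at h1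
      · exact h1
      · intro m hm
        rw [hzero j hj m hm]
        ring
    · have hj' : (volume (A ∩ qc j)).toReal ≤ θ := by
        rw [hJ, hfinite.mem_toFinset, hact, mem_ofPred_eq, not_lt] at hj
        exact hj
      exact inactive_cube hsum hA hsum0 j hR hθ hj'
  have hfinal := sum_cubes_contra hsum hcube
  have : R ^ 2 * ∫ x, (∑ l, c l * u l x) ^ 2 ≤ L' * ∫ x, (∑ l, c l * u l x) ^ 2 :=
    hfinal.trans hle
  nlinarith

end Pool.Agent.Work.MP_280d1a_an
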