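import Pool.Agent.Work.MP_280d1a_an.Defs

/-!
# Smooth approximation of sets of finite perimeter
-/

set_option autoImplicit false

open MeasureTheory Set Filter Topology
open scoped ENNReal Convolution ContDiff

namespace Pool.Agent.Work.MP_280d1a_an

variable {N : ℕ}

/-- The gradient, as a vector. -/
noncomputable def grd (u : E N → ℝ) (x : E N) : E N :=
  WithLp.toLp 2 (fun i => fderiv ℝ u x (bv i))

lemma grd_apply (u : E N → ℝ) (x : E N) (i : Fin N) : grd u x i = fderiv ℝ u x (bv i) := rfl

lemma integral_div_le {Ω : Set (E N)} {P : ℝ} (hP : 0 ≤ P)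
    (hper : perimeter Ω ≤ ENNReal.ofReal P) {φ : E N → E N} (hφ : IsTestField φ) :
    ∫ x in Ω, divergence φ x ≤ P := by
  have h1 : ENNReal.ofReal (∫ x in Ω, divergence φ x) ≤ perimeter Ω := le_iSup₂_of_le φ hφ le_rfl
  exact (ENNReal.ofReal_le_ofReal_iff hP).mp (h1.trans hper)

lemma divergence_translate (φ : E N → E N) (t x : E N) :
    divergence (fun x => φ (x + t)) x = divergence φ (x + t) := by
  simp only [divergence, fderiv_comp_add_right]

lemma IsTestField.translate {φ : E N → E N} (hφ : IsTestField φ) (t : E N) :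
    IsTestField (fun x => φ (x + t)) := by
  refine ⟨hφ.1.comp (contDiff_id.add contDiff_const), ?_, fun x => hφ.2.2 _⟩
  exact hφ.2.1.comp_homeomorph (Homeomorph.addRight t)

lemma continuous_divergence {φ : E N → E N} (hφ : ContDiff ℝ 1 φ) :
    Continuous (divergence φ) := by
  unfold divergence
  refine continuous_finsetSum _ fun i _ => ?_
  have h1 : Continuous fun x => fderiv ℝ φ x (bv i) :=
    (hφ.continuous_fderiv (by norm_num)).clm_apply continuous_const
  exact (PiLp.continuous_apply 2 _ i).comp h1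

lemma hasCompactSupport_divergence {φ : E N → E N} (hφ : HasCompactSupport φ) :
    HasCompactSupport (divergence φ) := by
  refine HasCompactSupport.mono (hφ.fderiv ℝ) ?_
  intro x hx
  simp only [Function.mem_support, ne_eq] at hx ⊢
  intro h
  apply hx
  simp [divergence, h]

lemma integral_conv_div_le {Ω : Set (E N)} (hΩ : MeasurableSet Ω) {P : ℝ}
    (hP : 0 ≤ P) (hper : perimeter Ω ≤ ENNReal.ofReal P) {ρ : E N → ℝ} (hρc : Continuous ρ)
    (hρs : HasCompactSupport ρ) (hρ0 : ∀ x, 0 ≤ ρ x) (hρ1 : ∫ x, ρ x = 1)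
    {φ : E N → E N} (hφ : IsTestField φ) :
    ∫ x, (ρ ⋆[ContinuousLinearMap.lsmul ℝ ℝ, volume] Ω.indicator (fun _ => (1 : ℝ))) x *
      divergence φ x ≤ P := by
  have hdc := continuous_divergence hφ.1
  have hds := hasCompactSupport_divergence hφ.2.1
  have hdi : Integrable (divergence φ) := hdc.integrable_of_hasCompactSupport hds
  have hρi : Integrable ρ := hρc.integrable_of_hasCompactSupport hρs
  set g : E N → ℝ := Ω.indicator (fun _ => (1 : ℝ)) with hg
  have hgm : Measurable g := measurable_const.indicator hΩ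
  have hgb : ∀ x, |g x| ≤ 1 := by
    intro x
    by_cases hx : x ∈ Ω <;> simp [hg, hx]
  have e1 : ∀ x, (ρ ⋆[ContinuousLinearMap.lsmul ℝ ℝ, volume] g) x * divergence φ x =
      ∫ t, ρ t * g (x - t) * divergence φ x := by
    intro x
    rw [convolution_def, ← integral_mul_const]
    rfl
  simp_rw [e1]
  have hint : Integrable (Function.uncurry fun x t : E N => ρ t * g (x - t) * divergence φ x)
      (volume.prod volume) := by
    have h1 : Integrable (fun p : E N × E N => divergence φ p.1 * ρ p.2) (volume.prod volume) :=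
      hdi.mul_prod hρi
    refine h1.mono ?_ ?_
    · refine Measurable.aestronglyMeasurable ?_
      refine ((hρc.measurable.comp measurable_snd).mul
        (hgm.comp (measurable_fst.sub measurable_snd))).mul (hdc.measurable.comp measurable_fst)
    · refine ae_of_all _ fun p => ?_
      simp only [Function.uncurry, norm_mul, Real.norm_eq_abs]
      have := hgb (p.1 - p.2)
      have h2 := abs_nonneg (ρ p.2)
      have h3 := abs_nonneg (divergence φ p.1)
      calc |ρ p.2| * |g (p.1 - p.2)| * |divergence φ p.1|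
          ≤ |ρ p.2| * 1 * |divergence φ p.1| := by gcongr
        _ = _ := by ring
  rw [integral_integral_swap hint]
  have e2 : ∀ t, ∫ x, ρ t * g (x - t) * divergence φ x =
      ρ t * ∫ x in Ω, divergence (fun x => φ (x + t)) x := by
    intro t
    have e3 : ∀ x, ρ t * g (x - t) * divergence φ x = ρ t * (g (x - t) * divergence φ x) :=
      fun x => by ring
    simp_rw [e3]
    rw [integral_const_mul]
    congr 1
    rw [← integral_add_right_eq_self _ t, ← integral_indicator hΩ]
    congr 1
    ext x
    by_cases hx : x ∈ Ω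
    · simp [hg, hx, divergence_translate]
    · simp [hg, hx]
  simp_rw [e2]
  have h4 : ∀ t, ρ t * ∫ x in Ω, divergence (fun x => φ (x + t)) x ≤ ρ t * P := fun t =>
    mul_le_mul_of_nonneg_left (integral_div_le hP hper (hφ.translate t)) (hρ0 t)
  calc ∫ t, ρ t * ∫ x in Ω, divergence (fun x => φ (x + t)) x ≤ ∫ t, ρ t * P := by
        refine integral_mono ?_ (hρi.mul_const P) h4
        have := hint.integral_prod_right
        simp only [Function.uncurry] at this
        simp_rw [e2] at this
        exact this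
    _ = P := by rw [integral_mul_const, hρ1, one_mul]

/-- Integration by parts against a test field. -/
lemma integral_mul_div {u : E N → ℝ} (hu : ContDiff ℝ 1 u) {φ : E N → E N}
    (hφ : ContDiff ℝ 1 φ) (hφs : HasCompactSupport φ) :
    ∫ x, u x * divergence φ x = - ∫ x, inner ℝ (grd u x) (φ x) := by
  have hcomp : ∀ i : Fin N, ContDiff ℝ 1 (fun x => φ x i) := fun i => contDiff_euclidean.1 hφ i
  have hcs : ∀ i : Fin N, HasCompactSupport (fun x => φ x i) := fun i =>
    hφs.comp_left (g := fun y : E N => y i) (by simp)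
  have hfd : ∀ (i : Fin N) (x : E N), (fderiv ℝ φ x (bv i)) i =
      fderiv ℝ (fun x => φ x i) x (bv i) := by
    intro i x
    have h1 : HasFDerivAt φ (fderiv ℝ φ x) x :=
      (hφ.differentiable (by norm_num) x).hasFDerivAt
    have h2 : HasFDerivAt (fun x => φ x i)
        ((EuclideanSpace.proj i : E N →L[ℝ] ℝ).comp (fderiv ℝ φ x)) x :=
      (EuclideanSpace.proj i : E N →L[ℝ] ℝ).hasFDerivAt.comp x h1
    rw [h2.fderiv]
    rfl
  have hcu : Continuous u := hu.continuous
  have hcuf : ∀ i : Fin N, Continuous fun x => fderiv ℝ u x (bv i) := fun i =>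
    (hu.continuous_fderiv (by norm_num)).clm_apply continuous_const
  have hcf : ∀ i : Fin N, Continuous fun x => fderiv ℝ (fun x => φ x i) x (bv i) := fun i =>
    ((hcomp i).continuous_fderiv (by norm_num)).clm_apply continuous_const
  have hsf : ∀ i : Fin N, HasCompactSupport fun x => fderiv ℝ (fun x => φ x i) x (bv i) := fun i =>
    (hcs i).fderiv_apply ℝ (bv i)
  have i1 : ∀ i : Fin N, Integrable fun x => u x * fderiv ℝ (fun x => φ x i) x (bv i) := fun i =>
    (hcu.mul (hcf i)).integrable_of_hasCompactSupport (hsf i).mul_left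
  have i2 : ∀ i : Fin N, Integrable fun x => fderiv ℝ u x (bv i) * φ x i := fun i =>
    ((hcuf i).mul (hcomp i).continuous).integrable_of_hasCompactSupport (hcs i).mul_left
  have i3 : ∀ i : Fin N, Integrable fun x => u x * φ x i := fun i =>
    (hcu.mul (hcomp i).continuous).integrable_of_hasCompactSupport (hcs i).mul_left
  have e1 : ∀ x, u x * divergence φ x = ∑ i : Fin N, u x * fderiv ℝ (fun x => φ x i) x (bv i) := by
    intro x
    rw [divergence, Finset.mul_sum]
    simp_rw [hfd]
  have e2 : ∀ x, inner ℝ (grd u x) (φ x) = ∑ i : Fin N, fderiv ℝ u x (bv i) * φ x i := by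
    intro x
    simp only [PiLp.inner_apply, RCLike.inner_apply, conj_trivial, grd_apply]
    exact Finset.sum_congr rfl fun i _ => mul_comm _ _
  simp_rw [e1, e2]
  rw [integral_finsetSum _ fun i _ => i1 i, integral_finsetSum _ fun i _ => i2 i,
    ← Finset.sum_neg_distrib]
  refine Finset.sum_congr rfl fun i _ => ?_
  exact integral_mul_fderiv_eq_neg_fderiv_mul_of_integrable (i2 i) (i1 i) (i3 i)
    (fun x _ => hu.differentiable (by norm_num) x)
    (fun x _ => (hcomp i).differentiable (by norm_num) x)

lemma contDiff_grd {u : E N → ℝ} (hu : ContDiff ℝ ∞ u) : ContDiff ℝ ∞ (grd u) := by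
  rw [contDiff_euclidean]
  intro i
  exact (hu.fderiv_right (m := ∞) (by simp)).clm_apply contDiff_const

lemma hasCompactSupport_grd {u : E N → ℝ} (hu : HasCompactSupport u) :
    HasCompactSupport (grd u) := by
  refine HasCompactSupport.mono (hu.fderiv ℝ) ?_
  intro x hx
  simp only [Function.mem_support, ne_eq] at hx ⊢
  intro h
  apply hx
  ext i
  simp [grd_apply, h]

lemma div_smul {χ : E N → ℝ} (hχ : ContDiff ℝ 1 χ) {φ : E N → E N} (hφ : ContDiff ℝ 1 φ)
    (x : E N) : divergence (fun x => χ x • φ x) x =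
      χ x * divergence φ x + inner ℝ (grd χ x) (φ x) := by
  have h1 : HasFDerivAt χ (fderiv ℝ χ x) x := (hχ.differentiable (by norm_num) x).hasFDerivAt
  have h2 : HasFDerivAt φ (fderiv ℝ φ x) x := (hφ.differentiable (by norm_num) x).hasFDerivAt
  have h3 := h1.smul h2
  have h4 : fderiv ℝ (fun x => χ x • φ x) x =
      χ x • fderiv ℝ φ x + (fderiv ℝ χ x).smulRight (φ x) := h3.fderiv
  simp only [divergence, h4, PiLp.inner_apply, RCLike.inner_apply, conj_trivial, grd_apply,
    Finset.mul_sum, ← Finset.sum_add_distrib]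
  refine Finset.sum_congr rfl fun i _ => ?_
  simp [mul_comm]

/-- The normalised gradient field. -/
noncomputable def nfield (u : E N → ℝ) (δ : ℝ) (x : E N) : E N :=
  (-(√(‖grd u x‖ ^ 2 + δ ^ 2))⁻¹) • grd u x

lemma isTestField_nfield {u : E N → ℝ} (hu : ContDiff ℝ ∞ u) (hs : HasCompactSupport u) {δ : ℝ}
    (hδ : 0 < δ) : IsTestField (nfield u δ) := by
  have hg := contDiff_grd hu
  have hpos : ∀ x, 0 < ‖grd u x‖ ^ 2 + δ ^ 2 := fun x => by positivity
  refine ⟨?_, ?_, ?_⟩
  · have h1 : ContDiff ℝ ∞ (fun x => √(‖grd u x‖ ^ 2 + δ ^ 2)) :=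
      ((hg.norm_sq ℝ).add contDiff_const).sqrt fun x => (hpos x).ne'
    have h2 : ContDiff ℝ ∞ (fun x => (√(‖grd u x‖ ^ 2 + δ ^ 2))⁻¹) :=
      h1.inv fun x => (Real.sqrt_pos.2 (hpos x)).ne'
    have h3 : ContDiff ℝ ∞ (nfield u δ) := h2.neg.smul hg
    exact h3.of_le (by simp)
  · exact HasCompactSupport.smul_left (f := fun x => -(√(‖grd u x‖ ^ 2 + δ ^ 2))⁻¹)
      (hasCompactSupport_grd hs)
  · intro x
    have h0 : 0 < √(‖grd u x‖ ^ 2 + δ ^ 2) := Real.sqrt_pos.2 (hpos x)
    rw [nfield, norm_smul, norm_neg, norm_inv, Real.norm_of_nonneg h0.le, inv_mul_le_one₀ h0]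
    exact Real.le_sqrt_of_sq_le (by nlinarith [sq_nonneg δ])

/-- If all the fluxes of the gradient are at most `K`, then so is the total variation. -/
lemma integral_norm_grd_le {u : E N → ℝ} (hu : ContDiff ℝ ∞ u) (hs : HasCompactSupport u) {K : ℝ}
    (h : ∀ φ : E N → E N, IsTestField φ → ∫ x, u x * divergence φ x ≤ K) :
    ∫ x, ‖grd u x‖ ≤ K := by
  have hg := contDiff_grd hu
  have hgs := hasCompactSupport_grd hs
  have hgi : Integrable (fun x => ‖grd u x‖) :=
    hg.continuous.norm.integrable_of_hasCompactSupport hgs.norm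
  set S := tsupport (grd u) with hS
  have hSc : IsCompact S := hgs
  have hSf : volume S < ⊤ := hSc.measure_lt_top
  have key : ∀ δ : ℝ, 0 < δ → ∫ x, ‖grd u x‖ ≤ K + δ * volume.real S := by
    intro δ hδ
    have h1 := h _ (isTestField_nfield hu hs hδ)
    rw [integral_mul_div (hu.of_le (by simp)) (isTestField_nfield hu hs hδ).1
      (isTestField_nfield hu hs hδ).2.1, ← integral_neg] at h1
    have hci : Integrable (fun x => -inner ℝ (grd u x) (nfield u δ x)) := by
      refine Integrable.neg ?_
      refine (hg.continuous.inner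
        (isTestField_nfield hu hs hδ).1.continuous).integrable_of_hasCompactSupport ?_
      refine HasCompactSupport.mono hgs.norm ?_
      intro x hx
      simp only [Function.mem_support, ne_eq] at hx ⊢
      intro h0
      apply hx
      rw [norm_eq_zero] at h0
      rw [h0, inner_zero_left]
    have h2 : ∀ x, ‖grd u x‖ ≤ -inner ℝ (grd u x) (nfield u δ x) + S.indicator (fun _ => δ) x := by
      intro x
      by_cases hx : x ∈ S
      · rw [indicator_of_mem hx, nfield, inner_smul_right, real_inner_self_eq_norm_sq]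
        have hpos : 0 < ‖grd u x‖ ^ 2 + δ ^ 2 := by positivity
        have hsq := Real.sqrt_pos.2 hpos
        set r := √(‖grd u x‖ ^ 2 + δ ^ 2) with hr
        have hr2 : r ^ 2 = ‖grd u x‖ ^ 2 + δ ^ 2 := Real.sq_sqrt hpos.le
        have hn := norm_nonneg (grd u x)
        have hrle : r ≤ ‖grd u x‖ + δ := by
          rw [hr, Real.sqrt_le_left (by positivity)]
          nlinarith
        rw [neg_mul, neg_neg, ← div_eq_inv_mul, ← sub_le_iff_le_add, le_div_iff₀ hsq]
        rcases le_or_gt (‖grd u x‖ - δ) 0 with h3 | h3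
        · nlinarith [mul_nonneg_of_nonpos_of_nonpos h3 (neg_nonpos.2 hsq.le)]
        · nlinarith [mul_le_mul_of_nonneg_left hrle h3.le]
      · have : grd u x = 0 := image_eq_zero_of_notMem_tsupport hx
        rw [indicator_of_notMem hx, this]
        simp
    have hind : Integrable (S.indicator (fun _ => δ)) :=
      (integrable_indicator_iff hSc.measurableSet).2 (integrableOn_const hSf.ne)
    calc ∫ x, ‖grd u x‖ ≤ ∫ x, (-inner ℝ (grd u x) (nfield u δ x) + S.indicator (fun _ => δ) x) :=
          integral_mono hgi (hci.add hind) h2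
      _ = (∫ x, -inner ℝ (grd u x) (nfield u δ x)) + δ * volume.real S := by
          rw [integral_add hci hind, integral_indicator hSc.measurableSet]
          simp [mul_comm]
      _ ≤ K + δ * volume.real S := by gcongr
  refine le_of_forall_pos_le_add fun ε hε => ?_
  have hS0 : 0 ≤ volume.real S := measureReal_nonneg
  have := key (ε / (volume.real S + 1)) (by positivity)
  refine this.trans ?_
  gcongr
  rw [div_mul_eq_mul_div, div_le_iff₀ (by positivity)]
  nlinarith

end Pool.Agent.Work.MP_280d1a_an
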