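import Pool.Agent.Work.MP_280d1a_an.Mollify

/-!
# Smooth approximation of sets of finite perimeter: conclusion
-/

set_option autoImplicit false

open MeasureTheory Set Filter Topology
open scoped ENNReal Convolution ContDiff

namespace Pool.Agent.Work.MP_280d1a_an

variable {N : ℕ}

/-- A bump function of small radius. -/
noncomputable def bmp (N : ℕ) (m : ℕ) : ContDiffBump (0 : E N) where
  rIn := 1 / (2 * ((m : ℝ) + 1))
  rOut := 1 / ((m : ℝ) + 1)
  rIn_pos := by positivity
  rIn_lt_rOut := by
    have : (0 : ℝ) < (m : ℝ) + 1 := by positivity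
    apply one_div_lt_one_div_of_lt this
    linarith

/-- The mollified indicator function. -/
noncomputable def moll (Ω : Set (E N)) (m : ℕ) : E N → ℝ :=
  ((bmp N m).normed volume) ⋆[ContinuousLinearMap.lsmul ℝ ℝ, volume] Ω.indicator (fun _ => (1 : ℝ))

lemma integrable_ind {Ω : Set (E N)} (hΩ : MeasurableSet Ω) (hfin : volume Ω < ⊤) :
    Integrable (Ω.indicator (fun _ => (1 : ℝ))) :=
  (integrable_indicator_iff hΩ).2 (integrableOn_const hfin.ne)

lemma integrable_moll {Ω : Set (E N)} (hΩ : MeasurableSet Ω) (hfin : volume Ω < ⊤) (m : ℕ) :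
    Integrable (moll Ω m) :=
  (bmp N m).integrable_normed.integrable_convolution _ (integrable_ind hΩ hfin)

lemma integral_moll {Ω : Set (E N)} (hΩ : MeasurableSet Ω) (hfin : volume Ω < ⊤) (m : ℕ) :
    ∫ x, moll Ω m x = ∫ x, Ω.indicator (fun _ => (1 : ℝ)) x := by
  rw [moll, integral_convolution _ (bmp N m).integrable_normed (integrable_ind hΩ hfin)]
  simp [(bmp N m).integral_normed]

lemma moll_nonneg {Ω : Set (E N)} (m : ℕ) (x : E N) : 0 ≤ moll Ω m x := by
  rw [moll, convolution_def]
  refine integral_nonneg fun t => ?_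
  exact mul_nonneg ((bmp N m).nonneg_normed _) (indicator_nonneg (fun _ _ => zero_le_one) _)

lemma moll_le_one {Ω : Set (E N)} (m : ℕ) (x : E N) : moll Ω m x ≤ 1 := by
  rw [moll, convolution_def]
  refine le_of_le_of_eq ?_ ((bmp N m).integral_normed (μ := (volume : Measure (E N))))
  have hi := (bmp N m).integrable_normed (μ := (volume : Measure (E N)))
  have hb : ∀ t, (bmp N m).normed volume t * Ω.indicator (fun _ => (1 : ℝ)) (x - t) ≤
      (bmp N m).normed volume t := by
    intro t
    have h0 := (bmp N m).nonneg_normed (μ := (volume : Measure (E N))) t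
    by_cases hx : x - t ∈ Ω <;> simp [hx, h0]
  refine integral_mono_of_nonneg (ae_of_all _ fun t => ?_) hi (ae_of_all _ fun t => hb t)
  exact mul_nonneg ((bmp N m).nonneg_normed _) (indicator_nonneg (fun _ _ => zero_le_one) _)

lemma contDiff_moll {Ω : Set (E N)} (hΩ : MeasurableSet Ω) (hfin : volume Ω < ⊤) (m : ℕ) :
    ContDiff ℝ ∞ (moll Ω m) :=
  (bmp N m).hasCompactSupport_normed.contDiff_convolution_left _ (bmp N m).contDiff_normed
    (integrable_ind hΩ hfin).locallyIntegrable

lemma ae_tendsto_moll {Ω : Set (E N)} (hΩ : MeasurableSet Ω) (hfin : volume Ω < ⊤) :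
    ∀ᵐ x, Tendsto (fun m => moll Ω m x) atTop (𝓝 (Ω.indicator (fun _ => (1 : ℝ)) x)) := by
  refine ContDiffBump.ae_convolution_tendsto_right_of_locallyIntegrable (K := 2) ?_ ?_
    (integrable_ind hΩ hfin).locallyIntegrable
  · exact tendsto_one_div_add_atTop_nhds_zero_nat
  · refine Eventually.of_forall fun m => ?_
    simp only [bmp]
    have : (0 : ℝ) < (m : ℝ) + 1 := by positivity
    field_simp
    exact le_rfl

lemma tendsto_integral_moll {Ω : Set (E N)} (hΩ : MeasurableSet Ω) (hfin : volume Ω < ⊤) :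
    Tendsto (fun m => ∫ x, |moll Ω m x - Ω.indicator (fun _ => (1 : ℝ)) x|) atTop (𝓝 0) := by
  set g : E N → ℝ := Ω.indicator (fun _ => (1 : ℝ)) with hg
  have hgi : Integrable g := integrable_ind hΩ hfin
  have h1 : ∀ m, ∫ x, |moll Ω m x - g x| = 2 * ∫ x, max (g x - moll Ω m x) 0 := by
    intro m
    have hmi := integrable_moll hΩ hfin m
    have e1 : ∀ x, |moll Ω m x - g x| = (moll Ω m x - g x) + 2 * max (g x - moll Ω m x) 0 := by
      intro x
      rcases le_total (moll Ω m x) (g x) with h | h
      · rw [abs_of_nonpos (by linarith), max_eq_left (by linarith)]; ring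
      · rw [abs_of_nonneg (by linarith), max_eq_right (by linarith)]; ring
    have i1 : Integrable fun x => moll Ω m x - g x := hmi.sub hgi
    have i2 : Integrable fun x => 2 * max (g x - moll Ω m x) 0 :=
      (hgi.sub hmi).pos_part.const_mul 2
    simp_rw [e1]
    rw [integral_add i1 i2, integral_sub hmi hgi,
      integral_moll hΩ hfin m, sub_self, zero_add, integral_const_mul]
  simp_rw [h1]
  have h2 : Tendsto (fun m => ∫ x, max (g x - moll Ω m x) 0) atTop (𝓝 (∫ x : E N, (0 : ℝ))) := by
    refine tendsto_integral_of_dominated_convergence g ?_ hgi ?_ ?_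
    · intro m
      exact ((hgi.sub (integrable_moll hΩ hfin m)).pos_part).aestronglyMeasurable
    · intro m
      refine ae_of_all _ fun x => ?_
      have h0 := moll_nonneg (Ω := Ω) m x
      have hg0 : 0 ≤ g x := indicator_nonneg (fun _ _ => zero_le_one) _
      rw [Real.norm_of_nonneg (le_max_right _ _)]
      exact max_le (by linarith) hg0
    · filter_upwards [ae_tendsto_moll hΩ hfin] with x hx
      have : Tendsto (fun m => max (g x - moll Ω m x) 0) atTop (𝓝 (max (g x - g x) 0)) :=
        (tendsto_const_nhds.sub hx).max tendsto_const_nhds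
      simpa using this
  simpa using h2.const_mul 2

lemma integral_moll_div_le {Ω : Set (E N)} (hΩ : MeasurableSet Ω) {P : ℝ}
    (hP : 0 ≤ P) (hper : perimeter Ω ≤ ENNReal.ofReal P) (m : ℕ)
    {φ : E N → E N} (hφ : IsTestField φ) :
    ∫ x, moll Ω m x * divergence φ x ≤ P :=
  integral_conv_div_le hΩ hP hper (ρ := (bmp N m).normed volume) (bmp N m).continuous_normed
      (bmp N m).hasCompactSupport_normed (bmp N m).nonneg_normed
      (bmp N m).integral_normed hφ

/-- The large cutoff function. -/
noncomputable def cutf (N : ℕ) : ContDiffBump (0 : E N) where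
  rIn := 1
  rOut := 2
  rIn_pos := by norm_num
  rIn_lt_rOut := by norm_num

lemma exists_bound_grd_cutf (N : ℕ) : ∃ C : ℝ, 0 ≤ C ∧ ∀ x : E N, ‖grd (cutf N) x‖ ≤ C := by
  have h1 : Continuous (grd (cutf N : E N → ℝ)) := (contDiff_grd (cutf N).contDiff).continuous
  have h2 := hasCompactSupport_grd (cutf N).hasCompactSupport
  obtain ⟨C, hC⟩ := h1.bounded_above_of_compact_support h2
  exact ⟨C, (norm_nonneg _).trans (hC 0), hC⟩

lemma grd_comp_smul (u : E N → ℝ) (r : ℝ) (x : E N) :
    grd (fun x => u (r • x)) x = r • grd u (r • x) := by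
  ext i
  simp only [grd_apply, PiLp.smul_apply, smul_eq_mul]
  rw [fderiv_comp_smul]
  simp

/-- Smooth compactly supported approximation of a set of finite perimeter. -/
theorem exists_smooth_approx {Ω : Set (E N)} (hΩ : MeasurableSet Ω) (hfin : volume Ω < ⊤) {P : ℝ}
    (hP : 0 ≤ P) (hper : perimeter Ω ≤ ENNReal.ofReal P) {η : ℝ} (hη : 0 < η) :
    ∃ u : E N → ℝ, ContDiff ℝ ∞ u ∧ HasCompactSupport u ∧ (∀ x, 0 ≤ u x) ∧ (∀ x, u x ≤ 1) ∧
      ∫ x, |u x - Ω.indicator (fun _ => (1 : ℝ)) x| ≤ η ∧ ∫ x, ‖grd u x‖ ≤ P + η := by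
  obtain ⟨C, hC0, hC⟩ := exists_bound_grd_cutf N
  set g : E N → ℝ := Ω.indicator (fun _ => (1 : ℝ)) with hg
  have hgi : Integrable g := integrable_ind hΩ hfin
  set V := ∫ x, g x with hV
  have hV0 : 0 ≤ V := integral_nonneg fun x => indicator_nonneg (fun _ _ => zero_le_one) _
  obtain ⟨m, hm⟩ := ((tendsto_integral_moll hΩ hfin).eventually
    (gt_mem_nhds (show (0 : ℝ) < η / 2 by positivity))).exists
  set w := moll Ω m with hw
  have hwi : Integrable w := integrable_moll hΩ hfin m
  have hws : ContDiff ℝ ∞ w := contDiff_moll hΩ hfin m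
  have hw0 : ∀ x, 0 ≤ w x := moll_nonneg m
  have hw1 : ∀ x, w x ≤ 1 := moll_le_one m
  -- the cutoff
  set χ : ℕ → E N → ℝ := fun R x => cutf N ((1 / ((R : ℝ) + 1)) • x) with hχ
  have hχs : ∀ R, ContDiff ℝ ∞ (χ R) := fun R =>
    (cutf N).contDiff.comp (contDiff_const_smul _)
  have hχ0 : ∀ R x, 0 ≤ χ R x := fun R x => (cutf N).nonneg
  have hχ1 : ∀ R x, χ R x ≤ 1 := fun R x => (cutf N).le_one
  have hχc : ∀ R, HasCompactSupport (χ R) := by
    intro R
    have h1 : (1 / ((R : ℝ) + 1)) ≠ 0 := by positivity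
    exact (cutf N).hasCompactSupport.comp_homeomorph (Homeomorph.smulOfNeZero _ h1)
  have hχg : ∀ R x, ‖grd (χ R) x‖ ≤ C / ((R : ℝ) + 1) := by
    intro R x
    have h1 : (0 : ℝ) < (R : ℝ) + 1 := by positivity
    rw [hχ]
    simp only
    rw [grd_comp_smul, norm_smul, Real.norm_of_nonneg (by positivity)]
    rw [div_eq_mul_one_div C, mul_comm C]
    exact mul_le_mul_of_nonneg_left (hC _) (by positivity)
  have hχt : ∀ x, Tendsto (fun R => χ R x) atTop (𝓝 1) := by
    intro x
    have h1 : Tendsto (fun R : ℕ => (1 / ((R : ℝ) + 1)) • x) atTop (𝓝 ((0 : ℝ) • x)) :=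
      tendsto_one_div_add_atTop_nhds_zero_nat.smul_const x
    rw [zero_smul] at h1
    have h2 := (((cutf N).continuous).tendsto 0).comp h1
    have h3 : (cutf N) 0 = 1 := (cutf N).one_of_mem_closedBall (by simp [cutf])
    rw [h3] at h2
    exact h2
  have hlim : Tendsto (fun R => ∫ x, w x * (1 - χ R x)) atTop (𝓝 (∫ x : E N, (0 : ℝ))) := by
    refine tendsto_integral_of_dominated_convergence w ?_ hwi ?_ ?_
    · intro R
      exact (hws.continuous.mul (continuous_const.sub (hχs R).continuous)).aestronglyMeasurable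
    · intro R
      refine ae_of_all _ fun x => ?_
      rw [Real.norm_of_nonneg (mul_nonneg (hw0 x) (by linarith [hχ1 R x]))]
      nlinarith [hw0 x, hχ0 R x]
    · refine ae_of_all _ fun x => ?_
      have := (tendsto_const_nhds (x := w x)).mul ((tendsto_const_nhds (x := (1 : ℝ))).sub (hχt x))
      simpa using this
  rw [integral_zero] at hlim
  have hlim2 : Tendsto (fun R : ℕ => C / ((R : ℝ) + 1) * V) atTop (𝓝 0) := by
    have h1 := (tendsto_one_div_add_atTop_nhds_zero_nat (𝕜 := ℝ)).const_mul (C * V)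
    rw [mul_zero] at h1
    refine h1.congr fun R => ?_
    ring
  obtain ⟨R, hR1, hR2⟩ := ((hlim.eventually (gt_mem_nhds (show (0 : ℝ) < η / 2 by positivity))).and
    (hlim2.eventually (gt_mem_nhds hη))).exists
  refine ⟨fun x => w x * χ R x, hws.mul (hχs R), (hχc R).mul_left,
    fun x => mul_nonneg (hw0 x) (hχ0 R x), fun x => mul_le_one₀ (hw1 x) (hχ0 R x) (hχ1 R x), ?_, ?_⟩
  · have i1 : Integrable fun x => |w x - g x| := (hwi.sub hgi).abs
    have i2 : Integrable fun x => w x * (1 - χ R x) := by
      refine hwi.mono (hws.continuous.mul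
        (continuous_const.sub (hχs R).continuous)).aestronglyMeasurable (ae_of_all _ fun x => ?_)
      rw [Real.norm_of_nonneg (mul_nonneg (hw0 x) (by linarith [hχ1 R x])),
        Real.norm_of_nonneg (hw0 x)]
      nlinarith [hw0 x, hχ0 R x]
    have i3 : Integrable fun x => w x * χ R x := by
      refine hwi.mono (hws.continuous.mul (hχs R).continuous).aestronglyMeasurable
        (ae_of_all _ fun x => ?_)
      rw [Real.norm_of_nonneg (mul_nonneg (hw0 x) (hχ0 R x)), Real.norm_of_nonneg (hw0 x)]
      nlinarith [hw0 x, hχ1 R x]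
    calc ∫ x, |w x * χ R x - g x| ≤ ∫ x, (|w x - g x| + w x * (1 - χ R x)) := by
          refine integral_mono (i3.sub hgi).abs (i1.add i2) fun x => ?_
          have h3 : 0 ≤ w x * (1 - χ R x) := mul_nonneg (hw0 x) (by linarith [hχ1 R x])
          have h4 : w x * χ R x - g x = (w x - g x) - w x * (1 - χ R x) := by ring
          simp only
          rw [h4]
          calc |(w x - g x) - w x * (1 - χ R x)| ≤ |w x - g x| + |w x * (1 - χ R x)| := abs_sub _ _
            _ = _ := by rw [abs_of_nonneg h3]
      _ = (∫ x, |w x - g x|) + ∫ x, w x * (1 - χ R x) := integral_add i1 i2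
      _ ≤ η := by linarith
  · refine integral_norm_grd_le (hws.mul (hχs R)) (hχc R).mul_left fun φ hφ => ?_
    -- the field `χ φ` is a test field
    have ht : IsTestField (fun x => χ R x • φ x) := by
      refine ⟨((hχs R).of_le (by simp)).smul hφ.1,
        HasCompactSupport.smul_left (f := χ R) hφ.2.1, fun x => ?_⟩
      rw [norm_smul, Real.norm_of_nonneg (hχ0 R x)]
      exact mul_le_one₀ (hχ1 R x) (norm_nonneg _) (hφ.2.2 x)
    have h1 : ∫ x, w x * divergence (fun x => χ R x • φ x) x ≤ P :=
      integral_moll_div_le hΩ hP hper m ht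
    have e1 : ∀ x, w x * χ R x * divergence φ x =
        w x * divergence (fun x => χ R x • φ x) x - w x * inner ℝ (grd (χ R) x) (φ x) := by
      intro x
      rw [div_smul ((hχs R).of_le (by simp)) hφ.1]
      ring
    have j1 : Integrable fun x => w x * divergence (fun x => χ R x • φ x) x :=
      (hws.continuous.mul (continuous_divergence ht.1)).integrable_of_hasCompactSupport
        (hasCompactSupport_divergence ht.2.1).mul_left
    have j2 : Integrable fun x => w x * inner ℝ (grd (χ R) x) (φ x) := by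
      refine (hws.continuous.mul ((contDiff_grd (hχs R)).continuous.inner
        hφ.1.continuous)).integrable_of_hasCompactSupport ?_
      refine HasCompactSupport.mul_left ?_
      refine HasCompactSupport.mono hφ.2.1 ?_
      intro x hx
      simp only [Function.mem_support, ne_eq] at hx ⊢
      intro h0
      apply hx
      rw [h0, inner_zero_right]
    simp_rw [e1]
    rw [integral_sub j1 j2]
    have h2 : -∫ x, w x * inner ℝ (grd (χ R) x) (φ x) ≤ C / ((R : ℝ) + 1) * V := by
      rw [← integral_neg, hV, ← integral_moll hΩ hfin m, ← integral_const_mul]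
      refine integral_mono j2.neg (hwi.const_mul _) fun x => ?_
      simp only
      have h3 : |inner ℝ (grd (χ R) x) (φ x)| ≤ C / ((R : ℝ) + 1) := by
        refine (abs_real_inner_le_norm _ _).trans ?_
        calc ‖grd (χ R) x‖ * ‖φ x‖ ≤ (C / ((R : ℝ) + 1)) * 1 := by
              gcongr
              · exact hχg R x
              · exact hφ.2.2 x
          _ = _ := mul_one _
      have h4 := neg_abs_le (inner ℝ (grd (χ R) x) (φ x))
      have h5 : -(w x * inner ℝ (grd (χ R) x) (φ x)) = w x * (-inner ℝ (grd (χ R) x) (φ x)) := by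
        ring
      rw [h5, mul_comm]
      change _ ≤ C / ((R : ℝ) + 1) * w x
      gcongr
      · exact hw0 x
      · linarith
    linarith

end Pool.Agent.Work.MP_280d1a_an
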