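import Pool.Agent.Work.MP_280d1a_an.Cosine

/-!
# Parseval and Bessel on the unit cube
-/

set_option autoImplicit false

open MeasureTheory Set Filter Topology
open scoped ENNReal NNReal ContDiff

namespace Pool.Agent.Work.MP_280d1a_an

variable {n : ℕ}

/-- Lebesgue measure on the cube. -/
noncomputable def cm (n : ℕ) : Measure (X n) := volume.restrict (uc n)

instance (n : ℕ) : IsFiniteMeasure (cm n) :=
  ⟨by rw [cm, Measure.restrict_apply_univ, volume_uc]; exact ENNReal.one_lt_top⟩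

lemma memLp_of_continuous {g : X n → ℝ} (hg : Continuous g) : MemLp g 2 (cm n) := by
  obtain ⟨C, hC⟩ := (isCompact_uc n).exists_bound_of_continuousOn hg.continuousOn
  exact MemLp.of_bound hg.measurable.aestronglyMeasurable C
    ((ae_restrict_iff' (measurableSet_uc n)).2 (ae_of_all _ hC))

/-- The cosine products as elements of `L²`. -/
noncomputable def eL (m : Fin n → ℕ) : Lp ℝ 2 (cm n) := (memLp_of_continuous (continuous_ef m)).toLp

lemma inner_toLp {f g : X n → ℝ} (hf : MemLp f 2 (cm n)) (hg : MemLp g 2 (cm n)) :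
    inner ℝ (hf.toLp) (hg.toLp) = ∫ x in uc n, f x * g x := by
  rw [L2.inner_def]
  refine integral_congr_ae ?_
  filter_upwards [hf.coeFn_toLp, hg.coeFn_toLp] with x h1 h2
  rw [h1, h2]
  simp [mul_comm]

lemma orthonormal_eL (n : ℕ) : Orthonormal ℝ (eL : (Fin n → ℕ) → Lp ℝ 2 (cm n)) := by
  classical
  rw [orthonormal_iff_ite]
  intro m k
  rw [eL, eL, inner_toLp, integral_ef_ef]

lemma span_eL_orthogonal (n : ℕ) : (Submodule.span ℝ (range (eL (n := n))))ᗮ = ⊥ := by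
  rw [Submodule.eq_bot_iff]
  intro f hf
  rw [Submodule.mem_orthogonal] at hf
  have hmem : MemLp (f : X n → ℝ) 2 (cm n) := Lp.memLp f
  have hint : IntegrableOn (f : X n → ℝ) (uc n) := hmem.integrable one_le_two
  have h0 : ∀ m, ∫ x in uc n, f x * ef m x = 0 := by
    intro m
    have h1 := hf (eL m) (Submodule.subset_span ⟨m, rfl⟩)
    rw [L2.inner_def] at h1
    rw [← h1]
    refine integral_congr_ae ?_
    filter_upwards [(memLp_of_continuous (continuous_ef m)).coeFn_toLp] with x hx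
    rw [eL, hx]
    simp
  have h2 : ∀ ε : ℝ, 0 < ε → ‖f‖ ^ 2 ≤ ‖f‖ * ε := by
    intro ε hε
    obtain ⟨g, hg1, hg2⟩ := hmem.exists_boundedContinuous_eLpNorm_sub_le (by norm_num)
      (ε := ENNReal.ofReal ε) (by simpa using hε)
    have hgm : MemLp g 2 (cm n) := hg2
    have h3 : inner ℝ f (hgm.toLp) = 0 := by
      rw [L2.inner_def, ← integral_mul_eq_zero hint h0 g.continuous]
      refine integral_congr_ae ?_
      filter_upwards [hgm.coeFn_toLp] with x hx
      rw [hx]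
      simp [mul_comm]
    have h4 : ‖f‖ ^ 2 = inner ℝ f (f - hgm.toLp) := by
      rw [inner_sub_right, h3, sub_zero, real_inner_self_eq_norm_sq]
    rw [h4]
    refine (real_inner_le_norm _ _).trans ?_
    refine mul_le_mul_of_nonneg_left ?_ (norm_nonneg _)
    rw [Lp.norm_def]
    refine ENNReal.toReal_le_of_le_ofReal hε.le ?_
    refine le_trans (le_of_eq ?_) hg1
    refine eLpNorm_congr_ae ?_
    filter_upwards [Lp.coeFn_sub f hgm.toLp, hgm.coeFn_toLp] with x hx1 hx2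
    rw [hx1]
    simp [hx2]
  by_contra hne
  have hpos : 0 < ‖f‖ := norm_pos_iff.2 hne
  have := h2 (‖f‖ / 2) (by positivity)
  nlinarith

/-- Parseval for the cosine products. -/
theorem parseval {u : X n → ℝ} (hu : MemLp u 2 (cm n)) {ε : ℝ} (hε : 0 < ε) :
    ∃ S : Finset (Fin n → ℕ), ∫ x in uc n, u x ^ 2 ≤
      (∑ m ∈ S, (∫ x in uc n, u x * ef m x) ^ 2) + ε := by
  classical
  set b := HilbertBasis.mkOfOrthogonalEqBot (orthonormal_eL n) (span_eL_orthogonal n) with hb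
  have hbc : ⇑b = eL := HilbertBasis.coe_mkOfOrthogonalEqBot _ _
  have h1 := b.hasSum_inner_mul_inner hu.toLp hu.toLp
  rw [hbc, inner_toLp hu hu] at h1
  have h2 := (h1.eventually (lt_mem_nhds (show (∫ x in uc n, u x * u x) - ε <
    ∫ x in uc n, u x * u x by linarith))).exists
  obtain ⟨S, hS⟩ := h2
  refine ⟨S, ?_⟩
  have e1 : ∀ m, inner ℝ hu.toLp (eL m) * inner ℝ (eL m) hu.toLp =
      (∫ x in uc n, u x * ef m x) ^ 2 := by
    intro m
    rw [real_inner_comm (hu.toLp) (eL m), eL, inner_toLp, sq]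
  simp_rw [e1] at hS
  simp_rw [sq (u _)]
  linarith

/-- Bessel for finite orthonormal families. -/
lemma bessel_aux {ι : Type*} (S : Finset ι) {s : ι → X n → ℝ} (hs : ∀ m ∈ S, Continuous (s m))
    [DecidableEq ι]
    (ho : ∀ m ∈ S, ∀ k ∈ S, ∫ x in uc n, s m x * s k x = if m = k then 1 else 0)
    {g : X n → ℝ} (hg : MemLp g 2 (cm n)) :
    ∑ m ∈ S, (∫ x in uc n, g x * s m x) ^ 2 ≤ ∫ x in uc n, g x ^ 2 := by
  set α : ι → ℝ := fun m => ∫ x in uc n, g x * s m x with hα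
  have hgs : ∀ m ∈ S, IntegrableOn (fun x => g x * s m x) (uc n) := fun m hm =>
    hg.integrable_mul (memLp_of_continuous (hs m hm))
  have hss : ∀ m ∈ S, ∀ k ∈ S, IntegrableOn (fun x => s m x * s k x) (uc n) := fun m hm k hk =>
    (memLp_of_continuous (hs m hm)).integrable_mul (memLp_of_continuous (hs k hk))
  have hg2 : IntegrableOn (fun x => g x ^ 2) (uc n) := hg.integrable_sq
  have e1 : ∀ x, (g x - ∑ m ∈ S, α m * s m x) ^ 2 = g x ^ 2 -
      2 * (∑ m ∈ S, α m * (g x * s m x)) +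
      ∑ m ∈ S, ∑ k ∈ S, α m * α k * (s m x * s k x) := by
    intro x
    have h1 : ∑ m ∈ S, ∑ k ∈ S, α m * α k * (s m x * s k x) =
        (∑ m ∈ S, α m * s m x) * (∑ k ∈ S, α k * s k x) := by
      rw [Finset.sum_mul_sum]
      refine Finset.sum_congr rfl fun m _ => Finset.sum_congr rfl fun k _ => by ring
    have h2 : ∑ m ∈ S, α m * (g x * s m x) = g x * ∑ m ∈ S, α m * s m x := by
      rw [Finset.mul_sum]
      exact Finset.sum_congr rfl fun m _ => by ring
    rw [h1, h2]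
    ring
  have h0 : 0 ≤ ∫ x in uc n, (g x - ∑ m ∈ S, α m * s m x) ^ 2 :=
    integral_nonneg fun x => sq_nonneg _
  simp_rw [e1] at h0
  have i1 : IntegrableOn (fun x => ∑ m ∈ S, α m * (g x * s m x)) (uc n) :=
    integrable_finsetSum _ fun m hm => (hgs m hm).const_mul _
  have i2 : IntegrableOn (fun x => ∑ m ∈ S, ∑ k ∈ S, α m * α k * (s m x * s k x)) (uc n) :=
    integrable_finsetSum _ fun m hm => integrable_finsetSum _ fun k hk => (hss m hm k hk).const_mul _
  have i3 : IntegrableOn (fun x => 2 * ∑ m ∈ S, α m * (g x * s m x)) (uc n) := i1.const_mul 2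
  have i4 : IntegrableOn (fun x => g x ^ 2 - 2 * ∑ m ∈ S, α m * (g x * s m x)) (uc n) := hg2.sub i3
  rw [integral_add i4 i2, integral_sub hg2 i3,
    integral_const_mul, integral_finsetSum _ fun m hm => (hgs m hm).const_mul _,
    integral_finsetSum _ fun m hm => integrable_finsetSum _ fun k hk =>
      (hss m hm k hk).const_mul _] at h0
  have e2 : ∑ m ∈ S, ∫ x in uc n, α m * (g x * s m x) = ∑ m ∈ S, α m ^ 2 := by
    refine Finset.sum_congr rfl fun m _ => ?_
    rw [integral_const_mul, sq]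
  have e3 : ∑ m ∈ S, ∫ x in uc n, ∑ k ∈ S, α m * α k * (s m x * s k x) = ∑ m ∈ S, α m ^ 2 := by
    refine Finset.sum_congr rfl fun m hm => ?_
    rw [integral_finsetSum _ fun k hk => (hss m hm k hk).const_mul _]
    have : ∀ k ∈ S, ∫ x in uc n, α m * α k * (s m x * s k x) =
        if m = k then α m * α k else 0 := by
      intro k hk
      rw [integral_const_mul, ho m hm k hk]
      split_ifs <;> simp
    rw [Finset.sum_congr rfl this, Finset.sum_ite_eq S m]
    simp [hm, sq]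
  rw [e2, e3] at h0
  linarith

/-- The Neumann inequality on the unit cube, for functions satisfying the Green identities. -/
theorem neumann_ineq {u : X n → ℝ} {G : Fin n → X n → ℝ} (hu : MemLp u 2 (cm n))
    (hG : ∀ i, MemLp (G i) 2 (cm n))
    (hibp : ∀ (i : Fin n) (m : Fin n → ℕ), 1 ≤ m i →
      ∫ x in uc n, G i x * sf i m x = - (Real.pi * m i) * ∫ x in uc n, u x * ef m x)
    {R : ℝ} (F : Finset (Fin n → ℕ))
    (hF : ∀ m ∉ F, R ^ 2 ≤ Real.pi ^ 2 * ∑ i, (m i : ℝ) ^ 2) :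
    R ^ 2 * ((∫ x in uc n, u x ^ 2) - ∑ m ∈ F, (∫ x in uc n, u x * ef m x) ^ 2) ≤
      ∑ i, ∫ x in uc n, G i x ^ 2 := by
  classical
  have key : ∀ S : Finset (Fin n → ℕ), R ^ 2 * ((∑ m ∈ S, (∫ x in uc n, u x * ef m x) ^ 2) -
      ∑ m ∈ F, (∫ x in uc n, u x * ef m x) ^ 2) ≤ ∑ i, ∫ x in uc n, G i x ^ 2 := by
    intro S
    set α : (Fin n → ℕ) → ℝ := fun m => ∫ x in uc n, u x * ef m x with hα
    have h1 : (∑ m ∈ S, α m ^ 2) - ∑ m ∈ F, α m ^ 2 ≤ ∑ m ∈ S \ F, α m ^ 2 := by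
      have h2 : ∑ m ∈ S ∩ F, α m ^ 2 + ∑ m ∈ S \ F, α m ^ 2 = ∑ m ∈ S, α m ^ 2 :=
        Finset.sum_inter_add_sum_sdiff _ _ _
      have h3 : ∑ m ∈ S ∩ F, α m ^ 2 ≤ ∑ m ∈ F, α m ^ 2 :=
        Finset.sum_le_sum_of_subset_of_nonneg Finset.inter_subset_right fun _ _ _ => sq_nonneg _
      linarith
    have h4 : ∀ i, ∑ m ∈ S \ F, (Real.pi * m i) ^ 2 * α m ^ 2 ≤ ∫ x in uc n, G i x ^ 2 := by
      intro i
      have h5 : ∑ m ∈ S \ F, (Real.pi * m i) ^ 2 * α m ^ 2 =
          ∑ m ∈ (S \ F).filter (fun m => 1 ≤ m i), (∫ x in uc n, G i x * sf i m x) ^ 2 := by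
        rw [Finset.sum_filter]
        refine Finset.sum_congr rfl fun m _ => ?_
        split_ifs with h
        · rw [hibp i m h]
          ring
        · have : m i = 0 := by omega
          simp [this]
      rw [h5]
      refine bessel_aux _ (fun m _ => continuous_sf i m) ?_ (hG i)
      intro m hm k hk
      exact integral_sf_sf i (Finset.mem_filter.1 hm).2 (Finset.mem_filter.1 hk).2
    calc R ^ 2 * ((∑ m ∈ S, α m ^ 2) - ∑ m ∈ F, α m ^ 2) ≤ R ^ 2 * ∑ m ∈ S \ F, α m ^ 2 :=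
          mul_le_mul_of_nonneg_left h1 (sq_nonneg _)
      _ = ∑ m ∈ S \ F, R ^ 2 * α m ^ 2 := Finset.mul_sum _ _ _
      _ ≤ ∑ m ∈ S \ F, (Real.pi ^ 2 * ∑ i, (m i : ℝ) ^ 2) * α m ^ 2 := by
          refine Finset.sum_le_sum fun m hm => ?_
          exact mul_le_mul_of_nonneg_right (hF m (Finset.mem_sdiff.1 hm).2) (sq_nonneg _)
      _ = ∑ i, ∑ m ∈ S \ F, (Real.pi * m i) ^ 2 * α m ^ 2 := by
          rw [Finset.sum_comm]
          refine Finset.sum_congr rfl fun m _ => ?_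
          rw [Finset.mul_sum, Finset.sum_mul]
          exact Finset.sum_congr rfl fun i _ => by ring
      _ ≤ ∑ i, ∫ x in uc n, G i x ^ 2 := Finset.sum_le_sum fun i _ => h4 i
  refine le_of_forall_pos_le_add fun ε hε => ?_
  obtain ⟨S, hS⟩ := parseval hu (ε := ε / (R ^ 2 + 1)) (by positivity)
  have h6 := key S
  have h7 : R ^ 2 * (ε / (R ^ 2 + 1)) ≤ ε := by
    rw [mul_div_assoc', div_le_iff₀ (by positivity)]
    nlinarith
  have h8 : R ^ 2 * (∫ x in uc n, u x ^ 2) ≤ R ^ 2 * ((∑ m ∈ S, (∫ x in uc n, u x * ef m x) ^ 2) +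
      ε / (R ^ 2 + 1)) := mul_le_mul_of_nonneg_left hS (sq_nonneg _)
  nlinarith

end Pool.Agent.Work.MP_280d1a_an
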