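import Pool.Agent.Work.MP_280d1a_an.Lower2

/-!
# Transfer and scaling
-/

set_option autoImplicit false

open MeasureTheory Set Filter Topology
open scoped ENNReal NNReal ContDiff

namespace Pool.Agent.Work.MP_280d1a_an

variable {n : ℕ}

lemma integral_scale {r : ℝ} (hr : 0 < r) (F : X n → ℝ) :
    ∫ x, F (r • x) = (r ^ n)⁻¹ * ∫ x, F x := by
  have h := Measure.integral_comp_smul (volume : Measure (X n)) F r
  rw [h, smul_eq_mul, abs_of_pos (by positivity)]
  simp

lemma pd_scale (f : X n → ℝ) (r : ℝ) (x : X n) (i : Fin n) :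
    pd i (fun x => f (r • x)) x = r * pd i f (r • x) := by
  rw [pd, pd, fderiv_comp_smul]
  simp

lemma gn_scale (f : X n → ℝ) {r : ℝ} (hr : 0 < r) (x : X n) :
    gn (fun x => f (r • x)) x = r * gn f (r • x) := by
  rw [gn, gn]
  simp_rw [pd_scale, mul_pow]
  rw [← Finset.mul_sum, Real.sqrt_mul (sq_nonneg r), Real.sqrt_sq hr.le]

lemma memLp_scale {F : X n → ℝ} (hF : MemLp F 2 volume) {r : ℝ} (hr : 0 < r) :
    MemLp (fun x => F (r • x)) 2 volume := by
  have hm : AEStronglyMeasurable (fun x => F (r • x)) volume :=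
    hF.1.comp_quasiMeasurePreserving
      (Measure.quasiMeasurePreserving_smul (volume : Measure (X n)) hr.ne')
  rw [memLp_two_iff_integrable_sq hm]
  exact (hF.integrable_sq).comp_smul hr.ne'

lemma H1X.scale {u : X n → ℝ} {G : Fin n → X n → ℝ} (h : H1X u G) {r : ℝ} (hr : 0 < r) :
    H1X (fun x => u (r • x)) (fun i x => r * G i (r • x)) where
  memu := memLp_scale h.memu hr
  memG := fun i => (memLp_scale (h.memG i) hr).const_mul r
  wg := by
    intro φ hφ hs i
    have h1 := h.wg (fun x => φ (r⁻¹ • x)) (hφ.comp (contDiff_const_smul _))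
      (hs.comp_homeomorph (Homeomorph.smulOfNeZero _ (inv_ne_zero hr.ne'))) i
    have h2 := integral_scale hr (fun x => u x * pd i (fun x => φ (r⁻¹ • x)) x)
    have h3 := integral_scale hr (fun x => G i x * φ (r⁻¹ • x))
    simp_rw [pd_scale φ r⁻¹] at h1 h2
    simp only [inv_smul_smul₀ hr.ne'] at h2 h3
    have e1 : ∀ x : X n, u (r • x) * pd i φ x = r * (u (r • x) * (r⁻¹ * pd i φ x)) := fun x => by
      field_simp
    have e2 : ∀ x : X n, r * G i (r • x) * φ x = r * (G i (r • x) * φ x) := fun x => by ring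
    simp_rw [e1, e2]
    rw [integral_const_mul, integral_const_mul, h2, h3, h1]
    ring

lemma Appr.scale {A : Set (X n)} {D : ℝ} (hD : Appr A D) {r : ℝ} (hr : 0 < r) :
    Appr {x | r • x ∈ A} (r * (r ^ n)⁻¹ * D) := by
  intro ε hε
  obtain ⟨f, hf, h1, h2⟩ := hD (min (r ^ n * ε) (ε / (r * (r ^ n)⁻¹))) (by positivity)
  refine ⟨fun x => f (r • x), ⟨hf.smooth.comp (contDiff_const_smul _),
    hf.cs.comp_homeomorph (Homeomorph.smulOfNeZero _ hr.ne'), fun x => hf.nn _,
    fun x => hf.le1 _⟩, ?_, ?_⟩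
  · have e1 : ∀ x : X n, |f (r • x) - ind {x | r • x ∈ A} x| =
        (fun x => |f x - ind A x|) (r • x) := by
      intro x
      by_cases hx : r • x ∈ A
      · simp [ind, hx]
      · simp [ind, hx]
    simp_rw [e1]
    rw [integral_scale hr (fun x => |f x - ind A x|), inv_mul_le_iff₀ (by positivity)]
    exact h1.trans (min_le_left _ _)
  · simp_rw [gn_scale f hr]
    rw [integral_const_mul, integral_scale hr (gn f), ← mul_assoc]
    have h3 : ∫ x, gn f x ≤ D + ε / (r * (r ^ n)⁻¹) := h2.trans (by gcongr; exact min_le_right _ _)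
    calc r * (r ^ n)⁻¹ * ∫ x, gn f x ≤ r * (r ^ n)⁻¹ * (D + ε / (r * (r ^ n)⁻¹)) := by gcongr
      _ = _ := by
        rw [mul_add, mul_div_cancel₀ _ (by positivity)]

lemma volume_scale {A : Set (X n)} {r : ℝ} (hr : 0 < r) :
    volume {x : X n | r • x ∈ A} = ENNReal.ofReal ((r ^ n)⁻¹) * volume A := by
  have h : {x : X n | r • x ∈ A} = (fun x => r • x) ⁻¹' A := rfl
  rw [h, Measure.addHaar_preimage_smul _ hr.ne', abs_of_pos (by positivity)]
  simp

/-! ### From Euclidean space -/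

lemma memLp_tl {F : E n → ℝ} (hF : MemLp F 2 volume) : MemLp (fun x => F (tl n x)) 2 volume :=
  hF.comp_measurePreserving (mp_tl n)

lemma H1X.of_isH1 {u : E n → ℝ} {G : E n → E n} (h : IsH1 u G) :
    H1X (fun x => u (tl n x)) (fun i x => G (tl n x) i) where
  memu := memLp_tl h.1
  memG := by
    intro i
    refine memLp_tl (F := fun y => G y i) ?_
    refine h.2.1.mono ?_ (ae_of_all _ fun x => ?_)
    · exact (PiLp.continuous_apply 2 _ i).comp_aestronglyMeasurable h.2.1.1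
    · exact PiLp.norm_apply_le _ i
  wg := by
    intro φ hφ hs i
    have h1 := h.2.2 (fun y => φ ((tlc n).symm y)) (hφ.comp (tlc n).symm.contDiff)
      (hs.comp_homeomorph (tlc n).symm.toHomeomorph) i
    rw [← integral_tl, ← integral_tl (fun y => G y i * φ ((tlc n).symm y))] at h1
    have e1 : ∀ x : X n, fderiv ℝ (fun y => φ ((tlc n).symm y)) (tl n x) (bv i) = pd i φ x := by
      intro x
      rw [← pd_tl]
      have : (fun x : X n => φ ((tlc n).symm (tl n x))) = φ := by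
        ext x; rfl
      rw [this]
    simp_rw [e1] at h1
    exact h1

/-- The counting bound in Euclidean space, at scale `r`. -/
theorem counting_bound_scaled {Ω : Set (E n)} (hΩ : MeasurableSet Ω) (hfin : volume Ω < ⊤)
    {P : ℝ} (hP : 0 ≤ P) (hper : perimeter Ω ≤ ENNReal.ofReal P)
    {R δ θ r L : ℝ} (hr : 0 < r) (hR : 0 ≤ R) (hRR : r ^ 2 * L < R ^ 2) (hδ : 0 < δ) (hδ1 : δ < 1)
    (hθ0 : 0 < θ) (hθ : ((Nset n (2 * R)).card : ℝ) * (2 ^ n * θ) ≤ 1 / 2)
    {k : ℕ} {u : Fin k → E n → ℝ} {G : Fin k → E n → E n}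
    (h : ∀ l, IsH1 (u l) (G l)) (hu0 : ∀ l, ∀ᵐ x, x ∉ Ω → u l x = 0)
    (hray : ∀ c : Fin k → ℝ, c ≠ 0 → 0 < ∫ x, (∑ l, c l * u l x) ^ 2 ∧
      ∫ x, ‖∑ l, c l • G l x‖ ^ 2 ≤ L * ∫ x, (∑ l, c l * u l x) ^ 2) :
    (k : ℝ) ≤ (Nset n R).card * ((r ^ n)⁻¹ * (volume Ω).toReal / (1 - δ) +
      2 ^ n * (n * (r * (r ^ n)⁻¹ * P)) / (θ * δ)) := by
  set A : Set (X n) := tl n ⁻¹' Ω with hA
  have hAm : MeasurableSet A := (mp_tl n).measurable hΩ
  have hAv : volume A = volume Ω := (mp_tl n).measure_preimage hΩ.nullMeasurableSet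
  have hAppr : Appr A P := appr_of_perimeter hΩ hfin hP hper
  set A' : Set (X n) := {x | r • x ∈ A} with hA'
  have hA'm : MeasurableSet A' := (measurable_const_smul r) hAm
  have hA'v : volume A' = ENNReal.ofReal ((r ^ n)⁻¹) * volume Ω := by
    rw [hA', volume_scale hr, hAv]
  have hA'f : volume A' < ⊤ := by
    rw [hA'v]; exact ENNReal.mul_lt_top ENNReal.ofReal_lt_top hfin
  have hH : ∀ l, H1X (fun x => u l (tl n (r • x))) (fun i x => r * G l (tl n (r • x)) i) :=
    fun l => (H1X.of_isH1 (h l)).scale hr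
  have hq := Measure.quasiMeasurePreserving_smul (volume : Measure (X n)) hr.ne'
  have hz : ∀ l, ∀ᵐ x, x ∉ A' → u l (tl n (r • x)) = 0 := by
    intro l
    have h1 : ∀ᵐ x : X n, tl n x ∉ Ω → u l (tl n x) = 0 :=
      (mp_tl n).quasiMeasurePreserving.ae (hu0 l)
    exact hq.ae h1
  have hI : ∀ F : E n → ℝ, ∫ x : X n, F (tl n (r • x)) = (r ^ n)⁻¹ * ∫ y, F y := by
    intro F
    rw [integral_scale hr (fun x => F (tl n x)), integral_tl]
  have hray' : ∀ c : Fin k → ℝ, c ≠ 0 → 0 < ∫ x : X n, (∑ l, c l * u l (tl n (r • x))) ^ 2 ∧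
      ∫ x : X n, ∑ i, (∑ l, c l * (r * G l (tl n (r • x)) i)) ^ 2 ≤
        (r ^ 2 * L) * ∫ x : X n, (∑ l, c l * u l (tl n (r • x))) ^ 2 := by
    intro c hc
    obtain ⟨h1, h2⟩ := hray c hc
    have e1 := hI (fun y => (∑ l, c l * u l y) ^ 2)
    have e2 := hI (fun y => ‖∑ l, c l • G l y‖ ^ 2)
    have hrn : 0 < (r ^ n)⁻¹ := by positivity
    have e3 : ∀ x : X n, ∑ i, (∑ l, c l * (r * G l (tl n (r • x)) i)) ^ 2 =
        r ^ 2 * ‖∑ l, c l • G l (tl n (r • x))‖ ^ 2 := by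
      intro x
      rw [EuclideanSpace.norm_sq_eq, Finset.mul_sum]
      refine Finset.sum_congr rfl fun i _ => ?_
      rw [Real.norm_eq_abs, sq_abs, ← mul_pow, WithLp.ofLp_sum, Finset.sum_apply, Finset.mul_sum]
      congr 1
      refine Finset.sum_congr rfl fun l _ => ?_
      simp only [PiLp.smul_apply, smul_eq_mul]
      ring
    refine ⟨?_, ?_⟩
    · rw [e1]; positivity
    · simp_rw [e3]
      rw [integral_const_mul, e2, e1]
      calc r ^ 2 * ((r ^ n)⁻¹ * ∫ x, ‖∑ l, c l • G l x‖ ^ 2)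
          ≤ r ^ 2 * ((r ^ n)⁻¹ * (L * ∫ x, (∑ l, c l * u l x) ^ 2)) := by gcongr
        _ = _ := by ring
  have hfinal := counting_bound hA'm hA'f (hAppr.scale hr) hR hRR hδ hδ1 hθ0 hθ hH hz hray'
  rwa [hA'v, ENNReal.toReal_mul, ENNReal.toReal_ofReal (by positivity)] at hfinal

end Pool.Agent.Work.MP_280d1a_an
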