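import Pool.Agent.Work.MP_280d1a_an.Scale

/-!
# Trial functions supported in unit cubes
-/

set_option autoImplicit false

open MeasureTheory Set Filter Topology
open scoped ENNReal NNReal ContDiff

namespace Pool.Agent.Work.MP_280d1a_an

variable {n : ℕ}

/-- The truncated sine. -/
noncomputable def sx (m : ℕ) (t : ℝ) : ℝ := (Icc (0 : ℝ) 1).indicator (sn m) t

/-- The truncated cosine. -/
noncomputable def cx (m : ℕ) (t : ℝ) : ℝ :=
  (Icc (0 : ℝ) 1).indicator (fun t => Real.pi * m * cs m t) t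

lemma sn_zero (m : ℕ) : sn m 0 = 0 := by simp [sn]

lemma sn_one (m : ℕ) : sn m 1 = 0 := by
  have : Real.pi * m * 1 = m * Real.pi := by ring
  rw [sn, this, Real.sin_nat_mul_pi, mul_zero]

lemma sx_eq_zero (m : ℕ) {t : ℝ} (ht : t ∉ Ioo (0 : ℝ) 1) : sx m t = 0 := by
  by_cases h : t ∈ Icc (0 : ℝ) 1
  · rw [sx, indicator_of_mem h]
    rcases eq_or_lt_of_le h.1 with h0 | h0
    · rw [← h0, sn_zero]
    · rcases eq_or_lt_of_le h.2 with h1 | h1
      · rw [h1, sn_one]
      · exact absurd ⟨h0, h1⟩ ht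
  · rw [sx, indicator_of_notMem h]

/-- Clamping to the unit interval. -/
lemma sx_eq_sn_clamp (m : ℕ) (t : ℝ) : sx m t = sn m (max 0 (min 1 t)) := by
  rcases le_total t 0 with h | h
  · rw [sx_eq_zero m (fun h' => absurd h'.1 (not_lt.2 h)), min_eq_right (h.trans zero_le_one),
      max_eq_left h, sn_zero]
  · rcases le_total 1 t with h' | h'
    · rw [sx_eq_zero m (fun h'' => absurd h''.2 (not_lt.2 h')), min_eq_left h',
        max_eq_right zero_le_one, sn_one]
    · rw [min_eq_right h', max_eq_right h, sx, indicator_of_mem (show t ∈ Icc (0 : ℝ) 1 from ⟨h, h'⟩)]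

lemma lipschitz_sn (m : ℕ) : LipschitzWith (√2 * (Real.pi * m)).toNNReal (sn m) := by
  refine LipschitzWith.of_dist_le_mul fun s t => ?_
  rw [Real.coe_toNNReal _ (by positivity), Real.dist_eq, Real.dist_eq, sn, sn, ← mul_sub, abs_mul,
    abs_of_nonneg (Real.sqrt_nonneg 2), mul_assoc (√2)]
  refine mul_le_mul_of_nonneg_left ?_ (Real.sqrt_nonneg _)
  have h1 : |Real.sin (Real.pi * m * s) - Real.sin (Real.pi * m * t)| ≤
      |Real.pi * m * s - Real.pi * m * t| := by
    have := Real.lipschitzWith_sin.dist_le_mul (Real.pi * m * s) (Real.pi * m * t)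
    simpa [Real.dist_eq] using this
  refine h1.trans (le_of_eq ?_)
  rw [← mul_sub, abs_mul, abs_of_nonneg (show (0 : ℝ) ≤ Real.pi * m by positivity)]

lemma lipschitz_sx (m : ℕ) : LipschitzWith (√2 * (Real.pi * m)).toNNReal (sx m) := by
  have h1 : LipschitzWith 1 (fun t : ℝ => max 0 (min 1 t)) := by
    have := (LipschitzWith.id (α := ℝ)).const_min 1
    exact this.const_max 0
  have h2 := (lipschitz_sn m).comp h1
  rw [mul_one] at h2
  have h3 : sx m = sn m ∘ fun t : ℝ => max 0 (min 1 t) := by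
    ext t; exact sx_eq_sn_clamp m t
  rw [h3]
  exact h2

lemma continuous_sx (m : ℕ) : Continuous (sx m) := (lipschitz_sx m).continuous

lemma abs_sx_le (m : ℕ) (t : ℝ) : |sx m t| ≤ √2 := by
  rw [sx_eq_sn_clamp, sn, abs_mul, abs_of_nonneg (Real.sqrt_nonneg _)]
  calc √2 * |Real.sin _| ≤ √2 * 1 := by
        gcongr
        exact Real.abs_sin_le_one _
    _ = √2 := mul_one _

lemma deriv_sx_ae {m : ℕ} (hm : 1 ≤ m) : ∀ᵐ t, deriv (sx m) t = cx m t := by
  have h : ∀ᵐ t : ℝ, t ≠ 0 ∧ t ≠ 1 := by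
    have h0 : ∀ᵐ t : ℝ, t ≠ 0 := by simp [ae_iff, measure_singleton]
    have h1 : ∀ᵐ t : ℝ, t ≠ 1 := by simp [ae_iff, measure_singleton]
    filter_upwards [h0, h1] with t ht0 ht1 using ⟨ht0, ht1⟩
  filter_upwards [h] with t ht
  by_cases hI : t ∈ Ioo (0 : ℝ) 1
  · have h1 : sx m =ᶠ[𝓝 t] sn m := by
      filter_upwards [Ioo_mem_nhds hI.1 hI.2] with y hy
      rw [sx, indicator_of_mem (Ioo_subset_Icc_self hy)]
    rw [h1.deriv_eq, (hasDerivAt_sn m hm t).deriv, cx, indicator_of_mem (Ioo_subset_Icc_self hI)]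
  · have hI' : t ∉ Icc (0 : ℝ) 1 := by
      intro h'
      exact hI ⟨lt_of_le_of_ne h'.1 (Ne.symm ht.1), lt_of_le_of_ne h'.2 ht.2⟩
    have h1 : sx m =ᶠ[𝓝 t] fun _ => 0 := by
      filter_upwards [isClosed_Icc.isOpen_compl.mem_nhds hI'] with y hy
      rw [sx, indicator_of_notMem hy]
    rw [h1.deriv_eq, cx, indicator_of_notMem hI']
    simp

lemma measurable_cx (m : ℕ) : Measurable (cx m) := by
  refine Measurable.indicator ?_ measurableSet_Icc
  exact measurable_const.mul (continuous_cs m).measurable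

lemma abs_cx_le (m : ℕ) (t : ℝ) : |cx m t| ≤ Real.pi * m * √2 := by
  by_cases h : t ∈ Icc (0 : ℝ) 1
  · rw [cx, indicator_of_mem h, abs_mul, abs_of_nonneg (show (0 : ℝ) ≤ Real.pi * m by positivity)]
    gcongr
    exact abs_cs_le m t
  · rw [cx, indicator_of_notMem h, abs_zero]
    positivity

lemma integral_sx_sx {m k : ℕ} (hm : 1 ≤ m) (hk : 1 ≤ k) (a b : ℤ) :
    ∫ t, sx m (t - a) * sx k (t - b) = if a = b ∧ m = k then 1 else 0 := by
  rcases eq_or_ne a b with rfl | hab
  · have h1 : ∫ t, sx m (t - a) * sx k (t - a) = ∫ t, sx m t * sx k t :=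
      integral_sub_right_eq_self (fun t => sx m t * sx k t) (a : ℝ)
    rw [h1]
    have h2 : ∀ t, sx m t * sx k t = (Icc (0 : ℝ) 1).indicator (fun t => sn m t * sn k t) t := by
      intro t
      by_cases h : t ∈ Icc (0 : ℝ) 1
      · simp only [sx, indicator_of_mem h]
      · simp only [sx, indicator_of_notMem h, zero_mul]
    simp_rw [h2]
    rw [integral_indicator measurableSet_Icc, integral_sn_sn hm hk]
    simp
  · rw [if_neg (fun h => hab h.1)]
    have h2 : ∀ t : ℝ, sx m (t - a) * sx k (t - b) = 0 := by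
      intro t
      by_cases h : t - a ∈ Ioo (0 : ℝ) 1
      · have h' : t - b ∉ Ioo (0 : ℝ) 1 := by
          intro h'
          apply hab
          have h3 : ((a : ℝ) - b) < 1 := by linarith [h.1, h'.2]
          have h4 : ((b : ℝ) - a) < 1 := by linarith [h.2, h'.1]
          have h5 : a - b < 1 := by exact_mod_cast h3
          have h6 : b - a < 1 := by exact_mod_cast h4
          omega
        rw [sx_eq_zero k h', mul_zero]
      · rw [sx_eq_zero m h, zero_mul]
    simp_rw [h2]
    simp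

lemma integral_cx_cx {m k : ℕ} (a b : ℤ) :
    ∫ t, cx m (t - a) * cx k (t - b) = if a = b ∧ m = k then (Real.pi * m) ^ 2 else 0 := by
  rcases eq_or_ne a b with rfl | hab
  · have h1 : ∫ t, cx m (t - a) * cx k (t - a) = ∫ t, cx m t * cx k t :=
      integral_sub_right_eq_self (fun t => cx m t * cx k t) (a : ℝ)
    rw [h1]
    have h2 : ∀ t, cx m t * cx k t = (Icc (0 : ℝ) 1).indicator
        (fun t => (Real.pi * m) * (Real.pi * k) * (cs m t * cs k t)) t := by
      intro t
      by_cases h : t ∈ Icc (0 : ℝ) 1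
      · simp only [cx, indicator_of_mem h]; ring
      · simp only [cx, indicator_of_notMem h, zero_mul]
    simp_rw [h2]
    rw [integral_indicator measurableSet_Icc, integral_const_mul, integral_cs_cs]
    rcases eq_or_ne m k with rfl | hmk
    · simp only [if_true, and_self]; ring
    · simp [hmk]
  · rw [if_neg (fun h => hab h.1)]
    -- the two intervals overlap at most at one point
    have h2 : ∀ᵐ t : ℝ, cx m (t - a) * cx k (t - b) = 0 := by
      have h0 : ∀ᵐ t : ℝ, t ≠ a + 1 := by simp [ae_iff, measure_singleton]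
      have h1 : ∀ᵐ t : ℝ, t ≠ b + 1 := by simp [ae_iff, measure_singleton]
      filter_upwards [h0, h1] with t ht0 ht1
      by_cases h : t - a ∈ Icc (0 : ℝ) 1
      · have h' : t - b ∉ Icc (0 : ℝ) 1 := by
          intro h'
          apply hab
          have h2 : t - a < 1 := lt_of_le_of_ne h.2 (fun h3 => ht0 (by linarith))
          have h2' : t - b < 1 := lt_of_le_of_ne h'.2 (fun h3 => ht1 (by linarith))
          have h3 : ((a : ℝ) - b) < 1 := by linarith [h.1]
          have h4 : ((b : ℝ) - a) < 1 := by linarith [h'.1]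
          have h5 : a - b < 1 := by exact_mod_cast h3
          have h6 : b - a < 1 := by exact_mod_cast h4
          omega
        rw [cx, cx, indicator_of_notMem h', mul_zero]
      · rw [cx, indicator_of_notMem h, zero_mul]
    rw [integral_congr_ae h2]
    simp

/-- The trial functions. -/
noncomputable def wf (j : Fin n → ℤ) (m : Fin n → ℕ) (x : X n) : ℝ := ∏ i, sx (m i) (x i - j i)

/-- Their gradients. -/
noncomputable def wg (j : Fin n → ℤ) (m : Fin n → ℕ) (i : Fin n) (x : X n) : ℝ :=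
  ∏ l, (if l = i then cx (m l) (x l - j l) else sx (m l) (x l - j l))

lemma continuous_wf (j : Fin n → ℤ) (m : Fin n → ℕ) : Continuous (wf j m) := by
  unfold wf
  exact continuous_finsetProd _ fun i _ =>
    (continuous_sx _).comp ((continuous_apply i).sub continuous_const)

lemma wf_eq_zero (j : Fin n → ℤ) (m : Fin n → ℕ) {x : X n} (hx : x ∉ qc j) : wf j m x = 0 := by
  have h : ∃ i, x i - j i ∉ Ioo (0 : ℝ) 1 := by
    by_contra hcon
    push Not at hcon
    apply hx
    intro i
    have := hcon i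
    constructor <;> linarith [this.1, this.2]
  obtain ⟨i, hi⟩ := h
  exact Finset.prod_eq_zero (Finset.mem_univ i) (sx_eq_zero _ hi)

lemma qc_subset_closedBall (j : Fin n → ℤ) : qc j ⊆ Metric.closedBall (jv j) 1 := by
  intro x hx
  rw [Metric.mem_closedBall, dist_pi_le_iff zero_le_one]
  intro i
  rw [Real.dist_eq, abs_le]
  have := hx i
  simp only [jv]
  constructor <;> linarith [this.1, this.2]

lemma hasCompactSupport_wf (j : Fin n → ℤ) (m : Fin n → ℕ) : HasCompactSupport (wf j m) := by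
  refine HasCompactSupport.intro (isCompact_closedBall (jv j) 1) fun x hx => ?_
  exact wf_eq_zero j m fun h => hx (qc_subset_closedBall j h)

lemma abs_prod_sub_prod_le (s : Finset (Fin n)) {a b : Fin n → ℝ} {C : ℝ} (hC : 1 ≤ C)
    (ha : ∀ i, |a i| ≤ C) (hb : ∀ i, |b i| ≤ C) :
    |∏ i ∈ s, a i - ∏ i ∈ s, b i| ≤ C ^ s.card * ∑ i ∈ s, |a i - b i| := by
  classical
  induction s using Finset.induction_on with
  | empty => simp
  | insert i s hi ih =>
    rw [Finset.prod_insert hi, Finset.prod_insert hi, Finset.sum_insert hi,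
      Finset.card_insert_of_notMem hi]
    have e : a i * ∏ i ∈ s, a i - b i * ∏ i ∈ s, b i =
        (a i - b i) * ∏ i ∈ s, a i + b i * (∏ i ∈ s, a i - ∏ i ∈ s, b i) := by ring
    rw [e]
    have hp : |∏ i ∈ s, a i| ≤ C ^ s.card := abs_prod_le fun i _ => ha i
    have hC0 : 0 ≤ C := zero_le_one.trans hC
    have hCs : 0 ≤ C ^ s.card := pow_nonneg hC0 _
    have hCs1 : C ^ s.card ≤ C ^ (s.card + 1) := pow_le_pow_right₀ hC (Nat.le_succ _)
    calc |(a i - b i) * ∏ i ∈ s, a i + b i * (∏ i ∈ s, a i - ∏ i ∈ s, b i)|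
        ≤ |a i - b i| * |∏ i ∈ s, a i| + |b i| * |∏ i ∈ s, a i - ∏ i ∈ s, b i| := by
          refine (abs_add_le _ _).trans ?_
          rw [abs_mul, abs_mul]
      _ ≤ |a i - b i| * C ^ (s.card + 1) + C * (C ^ s.card * ∑ i ∈ s, |a i - b i|) := by
          gcongr
          · exact hp.trans hCs1
          · exact hb i
      _ = C ^ (s.card + 1) * (|a i - b i| + ∑ i ∈ s, |a i - b i|) := by ring

lemma lipschitz_wf (j : Fin n → ℤ) (m : Fin n → ℕ) : ∃ K : ℝ≥0, LipschitzWith K (wf j m) := by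
  have h2 : (1 : ℝ) ≤ √2 := Real.one_le_sqrt.2 (by norm_num)
  refine ⟨(√2 ^ (Finset.univ : Finset (Fin n)).card *
    ∑ i, √2 * (Real.pi * m i)).toNNReal, ?_⟩
  refine LipschitzWith.of_dist_le_mul fun x y => ?_
  rw [Real.coe_toNNReal _ (by positivity), Real.dist_eq, wf, wf]
  refine (abs_prod_sub_prod_le _ h2 (fun i => abs_sx_le _ _) (fun i => abs_sx_le _ _)).trans ?_
  rw [mul_assoc, Finset.sum_mul]
  refine mul_le_mul_of_nonneg_left (Finset.sum_le_sum fun i _ => ?_) (by positivity)
  have h := (lipschitz_sx (m i)).dist_le_mul (x i - j i) (y i - j i)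
  rw [Real.coe_toNNReal _ (by positivity), Real.dist_eq] at h
  refine h.trans (mul_le_mul_of_nonneg_left ?_ (by positivity))
  rw [Real.dist_eq, sub_sub_sub_cancel_right, ← Real.dist_eq]
  exact dist_le_pi_dist x y i

lemma lineDeriv_wf (j : Fin n → ℤ) (m : Fin n → ℕ) (i : Fin n) (x : X n) :
    lineDeriv ℝ (wf j m) x (Pi.single i 1) =
      deriv (sx (m i)) (x i - j i) * ∏ l ∈ Finset.univ.erase i, sx (m l) (x l - j l) := by
  rw [lineDeriv]
  have e : (fun t : ℝ => wf j m (x + t • (Pi.single i 1 : X n))) =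
      fun t => sx (m i) (x i - j i + t) * ∏ l ∈ Finset.univ.erase i, sx (m l) (x l - j l) := by
    ext t
    rw [wf, ← Finset.mul_prod_erase _ _ (Finset.mem_univ i)]
    congr 1
    · congr 1
      simp
      ring
    · refine Finset.prod_congr rfl fun l hl => ?_
      have : l ≠ i := Finset.ne_of_mem_erase hl
      simp [this]
  rw [e, deriv_mul_const_field, deriv_comp_const_add, add_zero]

lemma wg_eq (j : Fin n → ℤ) (m : Fin n → ℕ) (i : Fin n) (x : X n) :
    wg j m i x = cx (m i) (x i - j i) * ∏ l ∈ Finset.univ.erase i, sx (m l) (x l - j l) := by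
  rw [wg, ← Finset.mul_prod_erase _ _ (Finset.mem_univ i)]
  congr 1
  · simp
  · refine Finset.prod_congr rfl fun l hl => ?_
    simp [Finset.ne_of_mem_erase hl]

lemma ae_apply {p : ℝ → Prop} (hp : ∀ᵐ t, p t) (i : Fin n) : ∀ᵐ x : X n, p (x i) :=
  (Measure.quasiMeasurePreserving_eval _ i).ae hp

lemma lineDeriv_wf_ae (j : Fin n → ℤ) (m : Fin n → ℕ) {i : Fin n} (hm : 1 ≤ m i) :
    ∀ᵐ x, lineDeriv ℝ (wf j m) x (Pi.single i 1) = wg j m i x := by
  have h1 : ∀ᵐ t : ℝ, deriv (sx (m i)) (t - j i) = cx (m i) (t - j i) :=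
    (measurePreserving_sub_right volume (j i : ℝ)).quasiMeasurePreserving.ae (deriv_sx_ae hm)
  filter_upwards [ae_apply h1 i] with x hx
  rw [lineDeriv_wf, wg_eq, hx]

lemma measurable_wg (j : Fin n → ℤ) (m : Fin n → ℕ) (i : Fin n) : Measurable (wg j m i) := by
  unfold wg
  refine Finset.measurable_prod _ fun l _ => ?_
  split_ifs
  · exact (measurable_cx _).comp ((measurable_pi_apply l).sub_const _)
  · exact (continuous_sx _).measurable.comp ((measurable_pi_apply l).sub_const _)

lemma abs_wg_le (j : Fin n → ℤ) (m : Fin n → ℕ) (i : Fin n) (x : X n) :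
    |wg j m i x| ≤ Real.pi * m i * √2 * √2 ^ (Finset.univ.erase i).card := by
  rw [wg_eq, abs_mul]
  exact mul_le_mul (abs_cx_le _ _) (abs_prod_le fun l _ => abs_sx_le _ _) (abs_nonneg _)
    (by positivity)

lemma wg_eq_zero (j : Fin n → ℤ) (m : Fin n → ℕ) (i : Fin n) {x : X n}
    (hx : x ∉ Metric.closedBall (jv j) 1) : wg j m i x = 0 := by
  have h : ∃ l, x l - j l ∉ Icc (0 : ℝ) 1 := by
    by_contra hcon
    push Not at hcon
    apply hx
    rw [Metric.mem_closedBall, dist_pi_le_iff zero_le_one]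
    intro l
    rw [Real.dist_eq, abs_le]
    have := hcon l
    simp only [jv]
    constructor <;> linarith [this.1, this.2]
  obtain ⟨l, hl⟩ := h
  refine Finset.prod_eq_zero (Finset.mem_univ l) ?_
  split_ifs
  · rw [cx, indicator_of_notMem hl]
  · rw [sx, indicator_of_notMem hl]

lemma memLp_wg (j : Fin n → ℤ) (m : Fin n → ℕ) (i : Fin n) : MemLp (wg j m i) 2 volume := by
  have h : wg j m i = (Metric.closedBall (jv j) 1).indicator (wg j m i) := by
    ext x
    by_cases hx : x ∈ Metric.closedBall (jv j) 1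
    · rw [indicator_of_mem hx]
    · rw [indicator_of_notMem hx, wg_eq_zero j m i hx]
  rw [h, memLp_indicator_iff_restrict Metric.isClosed_closedBall.measurableSet]
  have : IsFiniteMeasure ((volume : Measure (X n)).restrict (Metric.closedBall (jv j) 1)) := ⟨by
    rw [Measure.restrict_apply_univ]; exact (isCompact_closedBall _ _).measure_lt_top⟩
  exact MemLp.of_bound (measurable_wg j m i).aestronglyMeasurable _
    (ae_of_all _ fun x => abs_wg_le j m i x)

lemma h1x_wf (j : Fin n → ℤ) {m : Fin n → ℕ} (hm : ∀ i, 1 ≤ m i) : H1X (wf j m) (wg j m) where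
  memu := (continuous_wf j m).memLp_of_hasCompactSupport (hasCompactSupport_wf j m)
  memG := memLp_wg j m
  wg := by
    intro φ hφ hs i
    obtain ⟨K, hK⟩ := lipschitz_wf j m
    obtain ⟨D, hD⟩ := (hφ.of_le (m := 1) (by simp)).lipschitzWith_of_hasCompactSupport hs
      (by norm_num)
    have h := LipschitzWith.integral_lineDeriv_mul_eq (μ := (volume : Measure (X n)))
      hK hD hs (Pi.single i 1)
    have e1 : ∫ x, lineDeriv ℝ (wf j m) x (Pi.single i 1) * φ x = ∫ x, wg j m i x * φ x := by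
      refine integral_congr_ae ?_
      filter_upwards [lineDeriv_wf_ae j m (hm i)] with x hx
      rw [hx]
    rw [← e1, h, ← integral_neg]
    refine integral_congr_ae (ae_of_all _ fun x => ?_)
    have h1 : DifferentiableAt ℝ φ x := hφ.differentiable (by simp) x
    simp only
    rw [h1.lineDeriv_eq_fderiv, map_neg, pd]
    ring

lemma integral_wf_wf (j j' : Fin n → ℤ) {m m' : Fin n → ℕ} (hm : ∀ i, 1 ≤ m i)
    (hm' : ∀ i, 1 ≤ m' i) :
    ∫ x, wf j m x * wf j' m' x = if j = j' ∧ m = m' then 1 else 0 := by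
  simp_rw [wf, ← Finset.prod_mul_distrib]
  rw [volume_pi, integral_fintype_prod_eq_prod
    (fun i t => sx (m i) (t - j i) * sx (m' i) (t - j' i))]
  simp_rw [integral_sx_sx (hm _) (hm' _)]
  by_cases h : j = j' ∧ m = m'
  · obtain ⟨rfl, rfl⟩ := h
    simp
  · rw [if_neg h]
    have : ∃ i, ¬ (j i = j' i ∧ m i = m' i) := by
      by_contra hcon
      push Not at hcon
      exact h ⟨funext fun i => (hcon i).1, funext fun i => (hcon i).2⟩
    obtain ⟨i, hi⟩ := this
    exact Finset.prod_eq_zero (Finset.mem_univ i) (if_neg hi)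

lemma integral_wg_wg (i : Fin n) (j j' : Fin n → ℤ) {m m' : Fin n → ℕ} (hm : ∀ i, 1 ≤ m i)
    (hm' : ∀ i, 1 ≤ m' i) :
    ∫ x, wg j m i x * wg j' m' i x = if j = j' ∧ m = m' then (Real.pi * m i) ^ 2 else 0 := by
  simp_rw [wg, ← Finset.prod_mul_distrib]
  rw [volume_pi, integral_fintype_prod_eq_prod
    (fun l t => (if l = i then cx (m l) (t - j l) else sx (m l) (t - j l)) *
      (if l = i then cx (m' l) (t - j' l) else sx (m' l) (t - j' l)))]
  have h1 : ∀ l, ∫ t, (if l = i then cx (m l) (t - j l) else sx (m l) (t - j l)) *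
      (if l = i then cx (m' l) (t - j' l) else sx (m' l) (t - j' l)) =
      if j l = j' l ∧ m l = m' l then (if l = i then (Real.pi * m i) ^ 2 else 1) else 0 := by
    intro l
    by_cases hl : l = i
    · subst hl
      simp only [if_true]
      exact integral_cx_cx _ _
    · simp only [hl, if_false]
      exact integral_sx_sx (hm l) (hm' l) _ _
  simp_rw [h1]
  by_cases h : j = j' ∧ m = m'
  · obtain ⟨rfl, rfl⟩ := h
    simp
  · rw [if_neg h]
    have : ∃ l, ¬ (j l = j' l ∧ m l = m' l) := by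
      by_contra hcon
      push Not at hcon
      exact h ⟨funext fun l => (hcon l).1, funext fun l => (hcon l).2⟩
    obtain ⟨l, hl⟩ := this
    exact Finset.prod_eq_zero (Finset.mem_univ l) (if_neg hl)

end Pool.Agent.Work.MP_280d1a_an
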