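import Pool.Agent.Work.MP_280d1a_an.Upper1
import Pool.Agent.Work.MP_280d1a_an.Cap

/-!
# The upper bound for the eigenvalues of the ball
-/

set_option autoImplicit false

open MeasureTheory Set Filter Topology
open scoped ENNReal NNReal ContDiff

namespace Pool.Agent.Work.MP_280d1a_an

variable {n : ℕ}

/-- Transfer of an `H¹` function to Euclidean space. -/
lemma IsH1.of_H1X {u : X n → ℝ} {G : Fin n → X n → ℝ} (h : H1X u G) :
    IsH1 (fun y : E n => u ((tlc n).symm y))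
      (fun y : E n => WithLp.toLp 2 (fun i => G i ((tlc n).symm y))) := by
  have hmp : MeasurePreserving ((tlc n).symm : E n → X n) := PiLp.volume_preserving_ofLp (Fin n)
  refine ⟨h.memu.comp_measurePreserving hmp, ?_, ?_⟩
  · have h1 : ∀ i, MemLp (fun y : E n => G i ((tlc n).symm y)) 2 volume := fun i =>
      (h.memG i).comp_measurePreserving hmp
    have h2 : AEStronglyMeasurable
        (fun y : E n => (WithLp.toLp 2 (fun i => G i ((tlc n).symm y)) : E n)) volume := by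
      have h3 : AEMeasurable (fun y : E n => (fun i => G i ((tlc n).symm y) : X n))
        volume := aemeasurable_pi_iff.2 fun i => (h1 i).1.aemeasurable
      exact (tlc n).continuous.comp_aestronglyMeasurable h3.aestronglyMeasurable
    rw [← memLp_norm_iff h2, memLp_two_iff_integrable_sq h2.norm]
    have e : ∀ y : E n, ‖(WithLp.toLp 2 (fun i => G i ((tlc n).symm y)) : E n)‖ ^ 2 =
        ∑ i, (G i ((tlc n).symm y)) ^ 2 := by
      intro y
      rw [EuclideanSpace.norm_sq_eq]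
      simp
    simp_rw [e]
    exact integrable_finsetSum _ fun i _ => (h1 i).integrable_sq
  · intro φ hφ hs i
    have h1 := h.wg (fun x => φ (tl n x)) (hφ.comp (tlc n).contDiff)
      (hs.comp_homeomorph (tlc n).toHomeomorph) i
    simp_rw [pd_tl] at h1
    rw [← integral_tl, ← integral_tl]
    exact h1

/-- The scaled trial functions. -/
noncomputable def us (ℓ : ℝ) (j : Fin n → ℤ) (m : Fin n → ℕ) (y : E n) : ℝ :=
  wf j m (ℓ⁻¹ • (tlc n).symm y)

/-- Their gradients. -/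
noncomputable def gs (ℓ : ℝ) (j : Fin n → ℤ) (m : Fin n → ℕ) (y : E n) : E n :=
  WithLp.toLp 2 (fun i => ℓ⁻¹ * wg j m i (ℓ⁻¹ • (tlc n).symm y))

lemma isH1_us {ℓ : ℝ} (hℓ : 0 < ℓ) (j : Fin n → ℤ) {m : Fin n → ℕ} (hm : ∀ i, 1 ≤ m i) :
    IsH1 (us ℓ j m) (gs ℓ j m) :=
  IsH1.of_H1X ((h1x_wf j hm).scale (inv_pos.2 hℓ))

lemma continuous_us (ℓ : ℝ) (j : Fin n → ℤ) (m : Fin n → ℕ) : Continuous (us ℓ j m) :=
  (continuous_wf j m).comp ((continuous_const_smul ℓ⁻¹).comp (tlc n).symm.continuous)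

lemma isH10_us {ℓ : ℝ} (hℓ : 0 < ℓ) {j : Fin n → ℤ} {m : Fin n → ℕ} (hm : ∀ i, 1 ≤ m i)
    {Ω : Set (E n)} (hj : ∀ x ∈ qc j, tl n (ℓ • x) ∈ Ω) : IsH10 Ω (us ℓ j m) (gs ℓ j m) := by
  refine isH10_of_continuous (isH1_us hℓ j hm) (continuous_us ℓ j m) fun y hy => ?_
  refine wf_eq_zero j m fun h => hy ?_
  have h1 := hj _ h
  rw [smul_inv_smul₀ hℓ.ne'] at h1
  exact h1

lemma integral_us (ℓ : ℝ) (hℓ : 0 < ℓ) (F : X n → ℝ) :
    ∫ y : E n, F (ℓ⁻¹ • (tlc n).symm y) = ℓ ^ n * ∫ x, F x := by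
  rw [← integral_tl]
  have h : ∀ x : X n, (tlc n).symm (tl n x) = x := fun x => rfl
  simp_rw [h]
  rw [integral_scale (inv_pos.2 hℓ)]
  congr 1
  rw [inv_pow, inv_inv]

/-- The trial space. -/
theorem hasTrialSpace_of_cubes {Ω : Set (E n)} {ℓ M : ℝ} (hℓ : 0 < ℓ) (hM : 0 ≤ M)
    (J : Finset (Fin n → ℤ)) (hJ : ∀ j ∈ J, ∀ x ∈ qc j, tl n (ℓ • x) ∈ Ω) {k : ℕ}
    (hk : k ≤ J.card * (Dset n M).card) : HasTrialSpace k Ω (M ^ 2 / ℓ ^ 2) := by
  classical
  -- choose `k` indices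
  have hcard : k ≤ Fintype.card (J × Dset n M) := by
    rw [Fintype.card_prod, Fintype.card_coe, Fintype.card_coe]; exact hk
  obtain ⟨α⟩ : Nonempty (Fin k ↪ (J × Dset n M)) :=
    Function.Embedding.nonempty_of_card_le (by simpa using hcard)
  set jj : Fin k → Fin n → ℤ := fun l => ((α l).1 : Fin n → ℤ) with hjj
  set mm : Fin k → Fin n → ℕ := fun l => ((α l).2 : Fin n → ℕ) with hmm
  have hinj : ∀ l l', jj l = jj l' ∧ mm l = mm l' ↔ l = l' := by
    intro l l'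
    constructor
    · rintro ⟨h1, h2⟩
      apply α.injective
      exact Prod.ext (Subtype.ext h1) (Subtype.ext h2)
    · rintro rfl
      exact ⟨rfl, rfl⟩
  have hmD : ∀ l, Real.pi ^ 2 * ∑ i, (mm l i : ℝ) ^ 2 ≤ M ^ 2 ∧ ∀ i, 1 ≤ mm l i := fun l =>
    (mem_Dset hM).1 (α l).2.2
  have hm1 : ∀ l i, 1 ≤ mm l i := fun l => (hmD l).2
  refine ⟨fun l => us ℓ (jj l) (mm l), fun l => gs ℓ (jj l) (mm l), fun l =>
    isH10_us hℓ (hm1 l) (hJ _ (α l).1.2), fun c hc => ?_⟩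
  -- the norms
  have hwi : ∀ l l', Integrable fun x => wf (jj l) (mm l) x * wf (jj l') (mm l') x := fun l l' =>
    (h1x_wf (jj l) (hm1 l)).memu.integrable_mul (h1x_wf (jj l') (hm1 l')).memu
  have hgi : ∀ i l l', Integrable fun x => wg (jj l) (mm l) i x * wg (jj l') (mm l') i x :=
    fun i l l' => ((h1x_wf (jj l) (hm1 l)).memG i).integrable_mul
      ((h1x_wf (jj l') (hm1 l')).memG i)
  have hsq : ∀ (f : Fin k → ℝ), (∑ l, c l * f l) ^ 2 =
      ∑ l, ∑ l', c l * c l' * (f l * f l') := by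
    intro f
    rw [sq, Finset.sum_mul_sum]
    refine Finset.sum_congr rfl fun l _ => Finset.sum_congr rfl fun l' _ => by ring
  have e1 : ∫ x, (∑ l, c l * wf (jj l) (mm l) x) ^ 2 = ∑ l, c l ^ 2 := by
    simp_rw [hsq]
    rw [integral_finsetSum _ fun l _ => integrable_finsetSum _ fun l' _ =>
      (hwi l l').const_mul _]
    refine Finset.sum_congr rfl fun l _ => ?_
    rw [integral_finsetSum _ fun l' _ => (hwi l l').const_mul _]
    have : ∀ l', ∫ x, c l * c l' * (wf (jj l) (mm l) x * wf (jj l') (mm l') x) =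
        if l = l' then c l * c l' else 0 := by
      intro l'
      rw [integral_const_mul, integral_wf_wf _ _ (hm1 l) (hm1 l')]
      simp only [hinj l l']
      split_ifs <;> simp
    simp_rw [this]
    rw [Finset.sum_ite_eq Finset.univ l]
    simp [sq]
  have e2 : ∀ i, ∫ x, (∑ l, c l * wg (jj l) (mm l) i x) ^ 2 =
      ∑ l, c l ^ 2 * (Real.pi * mm l i) ^ 2 := by
    intro i
    simp_rw [hsq]
    rw [integral_finsetSum _ fun l _ => integrable_finsetSum _ fun l' _ =>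
      (hgi i l l').const_mul _]
    refine Finset.sum_congr rfl fun l _ => ?_
    rw [integral_finsetSum _ fun l' _ => (hgi i l l').const_mul _]
    have : ∀ l', ∫ x, c l * c l' * (wg (jj l) (mm l) i x * wg (jj l') (mm l') i x) =
        if l = l' then c l * c l' * (Real.pi * mm l i) ^ 2 else 0 := by
      intro l'
      rw [integral_const_mul, integral_wg_wg i _ _ (hm1 l) (hm1 l')]
      simp only [hinj l l']
      split_ifs <;> simp
    simp_rw [this]
    rw [Finset.sum_ite_eq Finset.univ l]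
    simp [sq]
  have hc2 : 0 < ∑ l, c l ^ 2 := by
    obtain ⟨l, hl⟩ := Function.ne_iff.1 hc
    exact Finset.sum_pos' (fun _ _ => sq_nonneg _) ⟨l, Finset.mem_univ l, by
      have : c l ≠ 0 := hl
      positivity⟩
  have f1 : ∫ y : E n, (∑ l, c l * us ℓ (jj l) (mm l) y) ^ 2 = ℓ ^ n * ∑ l, c l ^ 2 := by
    rw [← e1]
    exact integral_us ℓ hℓ (fun x => (∑ l, c l * wf (jj l) (mm l) x) ^ 2)
  have f2 : ∫ y : E n, ‖∑ l, c l • gs ℓ (jj l) (mm l) y‖ ^ 2 =
      ℓ ^ n * ((ℓ⁻¹) ^ 2 * ∑ l, c l ^ 2 * (Real.pi ^ 2 * ∑ i, (mm l i : ℝ) ^ 2)) := by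
    have e3 : ∀ y : E n, ‖∑ l, c l • gs ℓ (jj l) (mm l) y‖ ^ 2 =
        (fun x => ∑ i, (ℓ⁻¹) ^ 2 * (∑ l, c l * wg (jj l) (mm l) i x) ^ 2)
          (ℓ⁻¹ • (tlc n).symm y) := by
      intro y
      rw [EuclideanSpace.norm_sq_eq]
      refine Finset.sum_congr rfl fun i _ => ?_
      rw [Real.norm_eq_abs, sq_abs, ← mul_pow, WithLp.ofLp_sum, Finset.sum_apply, Finset.mul_sum]
      congr 1
      refine Finset.sum_congr rfl fun l _ => ?_
      simp only [gs, PiLp.smul_apply, smul_eq_mul]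
      ring
    simp_rw [e3]
    refine (integral_us ℓ hℓ (fun x => ∑ i, (ℓ⁻¹) ^ 2 *
      (∑ l, c l * wg (jj l) (mm l) i x) ^ 2)).trans ?_
    congr 1
    have i1 : ∀ i, Integrable fun x => (ℓ⁻¹) ^ 2 * (∑ l, c l * wg (jj l) (mm l) i x) ^ 2 := by
      intro i
      refine Integrable.const_mul ?_ _
      exact (memLp_finsetSum _ fun l _ =>
        (((h1x_wf (jj l) (hm1 l)).memG i).const_mul (c l))).integrable_sq
    rw [integral_finsetSum _ fun i _ => i1 i]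
    simp_rw [integral_const_mul, e2]
    rw [← Finset.mul_sum, Finset.sum_comm]
    congr 1
    refine Finset.sum_congr rfl fun l _ => ?_
    rw [Finset.mul_sum, Finset.mul_sum]
    refine Finset.sum_congr rfl fun i _ => by ring
  refine ⟨?_, ?_⟩
  · rw [f1]; positivity
  · rw [f1, f2]
    have h5 : ∑ l, c l ^ 2 * (Real.pi ^ 2 * ∑ i, (mm l i : ℝ) ^ 2) ≤ M ^ 2 * ∑ l, c l ^ 2 := by
      rw [Finset.mul_sum]
      refine Finset.sum_le_sum fun l _ => ?_
      rw [mul_comm (M ^ 2)]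
      exact mul_le_mul_of_nonneg_left (hmD l).1 (sq_nonneg _)
    calc ℓ ^ n * ((ℓ⁻¹) ^ 2 * ∑ l, c l ^ 2 * (Real.pi ^ 2 * ∑ i, (mm l i : ℝ) ^ 2))
        ≤ ℓ ^ n * ((ℓ⁻¹) ^ 2 * (M ^ 2 * ∑ l, c l ^ 2)) := by gcongr
      _ = M ^ 2 / ℓ ^ 2 * (ℓ ^ n * ∑ l, c l ^ 2) := by
        field_simp

open Classical in
/-- The indices of the cubes contained in the ball. -/
noncomputable def Jset (n : ℕ) (r ℓ : ℝ) : Finset (Fin n → ℤ) :=
  (Fintype.piFinset fun _ => Finset.Icc (-⌈r / ℓ⌉) ⌈r / ℓ⌉).filter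
    (fun j => ∀ x ∈ qc j, tl n (ℓ • x) ∈ Metric.ball (0 : E n) r)

lemma jv_mem_qc (j : Fin n → ℤ) : jv j ∈ qc j := by
  intro i
  simp [jv]

lemma mem_Jset {r ℓ : ℝ} (hℓ : 0 < ℓ) {j : Fin n → ℤ} :
    j ∈ Jset n r ℓ ↔ ∀ x ∈ qc j, tl n (ℓ • x) ∈ Metric.ball (0 : E n) r := by
  classical
  rw [Jset, Finset.mem_filter, Fintype.mem_piFinset]
  refine ⟨fun h => h.2, fun h => ⟨fun i => ?_, h⟩⟩
  have h1 := h _ (jv_mem_qc j)
  rw [Metric.mem_ball, dist_zero_right] at h1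
  have h2 : |ℓ * (j i : ℝ)| ≤ r := by
    have h3 := PiLp.norm_apply_le (tl n (ℓ • jv j)) i
    have h4 : (tl n (ℓ • jv j)) i = ℓ * (j i : ℝ) := rfl
    rw [h4, Real.norm_eq_abs] at h3
    exact h3.trans h1.le
  rw [abs_mul, abs_of_pos hℓ] at h2
  have h3 : |(j i : ℝ)| ≤ r / ℓ := by
    rw [le_div_iff₀ hℓ]; linarith
  rw [abs_le] at h3
  rw [Finset.mem_Icc]
  have h4 := Int.le_ceil (r / ℓ)
  constructor
  · have : ((-⌈r / ℓ⌉ : ℤ) : ℝ) ≤ j i := by push_cast; linarith [h3.1]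
    exact_mod_cast this
  · have : (j i : ℝ) ≤ (⌈r / ℓ⌉ : ℤ) := h3.2.trans h4
    exact_mod_cast this

/-- The cubes contained in the ball fill a slightly smaller ball. -/
lemma volume_le_card_Jset {r ℓ : ℝ} (hℓ : 0 < ℓ) :
    volume (Metric.ball (0 : E n) (r - √n * ℓ)) ≤
      ENNReal.ofReal ((Jset n r ℓ).card * ℓ ^ n) := by
  have hsub : Metric.ball (0 : E n) (r - √n * ℓ) ⊆
      ⋃ j ∈ Jset n r ℓ, {y : E n | ℓ⁻¹ • (tlc n).symm y ∈ qc j} := by
    intro y hy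
    set x : X n := ℓ⁻¹ • (tlc n).symm y with hx
    have hxq : x ∈ qc (fun i => ⌊x i⌋) := mem_qc.2 rfl
    refine mem_iUnion₂.2 ⟨fun i => ⌊x i⌋, ?_, hxq⟩
    rw [mem_Jset hℓ]
    intro x' hx'
    have h1 : y = tl n (ℓ • x) := by
      rw [hx, smul_inv_smul₀ hℓ.ne']; rfl
    have h2 : ‖tl n (ℓ • x') - y‖ ≤ √n * ℓ := by
      rw [h1, EuclideanSpace.norm_eq]
      have h3 : ∑ i, ‖(tl n (ℓ • x') - tl n (ℓ • x)) i‖ ^ 2 ≤ n * ℓ ^ 2 := by
        calc ∑ i, ‖(tl n (ℓ • x') - tl n (ℓ • x)) i‖ ^ 2 ≤ ∑ _i : Fin n, ℓ ^ 2 := by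
              refine Finset.sum_le_sum fun i _ => ?_
              have h4 : (tl n (ℓ • x') - tl n (ℓ • x)) i = ℓ * (x' i - x i) := by
                change ℓ * x' i - ℓ * x i = _
                ring
              rw [h4, Real.norm_eq_abs, sq_abs, mul_pow]
              have h5 := hx' i
              have h6 := hxq i
              have h7 : |x' i - x i| ≤ 1 := by
                rw [abs_le]; constructor <;> linarith [h5.1, h5.2, h6.1, h6.2]
              have h8 : (x' i - x i) ^ 2 ≤ 1 := by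
                rw [← sq_abs]; exact pow_le_one₀ (abs_nonneg _) h7
              nlinarith [sq_nonneg ℓ]
          _ = n * ℓ ^ 2 := by simp
      calc √(∑ i, ‖(tl n (ℓ • x') - tl n (ℓ • x)) i‖ ^ 2) ≤ √(n * ℓ ^ 2) := Real.sqrt_le_sqrt h3
        _ = √n * ℓ := by rw [Real.sqrt_mul (Nat.cast_nonneg n), Real.sqrt_sq hℓ.le]
    rw [Metric.mem_ball, dist_zero_right] at hy ⊢
    calc ‖tl n (ℓ • x')‖ = ‖(tl n (ℓ • x') - y) + y‖ := by rw [sub_add_cancel]
      _ ≤ ‖tl n (ℓ • x') - y‖ + ‖y‖ := norm_add_le _ _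
      _ < r := by linarith
  have hvol : ∀ j : Fin n → ℤ, volume {y : E n | ℓ⁻¹ • (tlc n).symm y ∈ qc j} =
      ENNReal.ofReal (ℓ ^ n) := by
    intro j
    have h1 : {y : E n | ℓ⁻¹ • (tlc n).symm y ∈ qc j} =
        (fun y : E n => (WithLp.ofLp y : X n)) ⁻¹' {x : X n | ℓ⁻¹ • x ∈ qc j} := rfl
    have hm : MeasurableSet {x : X n | ℓ⁻¹ • x ∈ qc j} :=
      (measurable_const_smul ℓ⁻¹) (measurableSet_qc j)
    rw [h1, (PiLp.volume_preserving_ofLp (Fin n)).measure_preimage hm.nullMeasurableSet,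
      volume_scale (inv_pos.2 hℓ), volume_qc, mul_one, inv_pow, inv_inv]
  refine (measure_mono hsub).trans ((measure_biUnion_finset_le _ _).trans ?_)
  simp_rw [hvol]
  rw [Finset.sum_const, nsmul_eq_mul, ENNReal.ofReal_mul (Nat.cast_nonneg _),
    ENNReal.ofReal_natCast]

end Pool.Agent.Work.MP_280d1a_an
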